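import Pool.Agent.helper18.WS.Box

open CategoryTheory TopologicalSpace Topology Limits Opposite

set_option backward.isDefEq.respectTransparency false
set_option backward.isDefEq.respectTransparency.types false
set_option linter.unusedVariables false
set_option linter.unusedSectionVars false

universe w

namespace WS

noncomputable section

variable {X : Type} [TopologicalSpace X] {m : ℕ} (ψ : OpenPartialHomeomorph X (Fin m → ℝ))

lemma pb_inter_compl {S A : Set (Fin m → ℝ)} (hA : IsClosed A) :
    pb ψ S \ (pb ψ Aᶜ)ᶜ = pb ψ (S \ A) ∧ pb ψ S ∩ (pb ψ Aᶜ)ᶜ = pb ψ (S ∩ A) := by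
  constructor
  · ext z; simp [pb]; tauto
  · ext z; simp [pb]; tauto

lemma pb_lc {S : Set (Fin m → ℝ)} (hS : IsLocallyClosed S) : IsLocallyClosed (pb ψ S) := by
  obtain ⟨U, C, hU, hC, rfl⟩ := hS
  refine ⟨pb ψ U, (pb ψ Cᶜ)ᶜ, pb_open ψ hU, (pb_open ψ hC.isOpen_compl).isClosed_compl, ?_⟩
  rw [(pb_inter_compl ψ hC).2]

lemma pb_ses {S A Q R : Set (Fin m → ℝ)} (hS : IsLocallyClosed S) (hA : IsClosed A)
    (hQ : Q = S \ A) (hR : R = S ∩ A) :
    ∃ (h₁ : LC (pb ψ Q) (pb ψ S)) (h₂ : LC (pb ψ S) (pb ψ R))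
      (w : mor (V := ℂ) h₁ ≫ mor h₂ = 0), (ShortComplex.mk (mor (V := ℂ) h₁) (mor h₂) w).ShortExact := by
  subst hQ hR
  have hcl : IsClosed (pb ψ Aᶜ)ᶜ := (pb_open ψ hA.isOpen_compl).isClosed_compl
  obtain ⟨e1, e2⟩ := pb_inter_compl ψ (S := S) hA
  have h₁ : LC (pb ψ (S \ A)) (pb ψ S) := LC_of_open (pb_mono ψ Set.sdiff_subset)
    ⟨pb ψ Aᶜ, pb_open ψ hA.isOpen_compl, by rw [← e1, Set.sdiff_eq, compl_compl]⟩
  have h₂ : LC (pb ψ S) (pb ψ (S ∩ A)) := LC_of_closed (pb_mono ψ Set.inter_subset_left)
    ⟨(pb ψ Aᶜ)ᶜ, hcl, e2.symm⟩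
  exact ⟨h₁, h₂, _, KP_shortExact (V := ℂ) (pb_lc ψ hS) _ hcl e1.symm e2.symm h₁ h₂⟩

/-- product box -/
def bx (I : Fin m → Set ℝ) : Set (Fin m → ℝ) := {z | ∀ i, z i ∈ I i}

lemma bx_lc {I : Fin m → Set ℝ} (h : ∀ i, IsLocallyClosed (I i)) : IsLocallyClosed (bx I) := by
  choose U C hU hC hI using h
  refine ⟨Set.univ.pi U, Set.univ.pi C, isOpen_set_pi Set.finite_univ (fun i _ => hU i),
    isClosed_set_pi (fun i _ => hC i), ?_⟩
  ext z
  simp [bx, hI, forall_and]

lemma bx_diff (I : Fin m → Set ℝ) (j : Fin m) (B A : Set ℝ) :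
    bx (Function.update I j (B \ A)) = bx (Function.update I j B) \ {z | z j ∈ A} := by
  ext z
  simp only [bx, Set.mem_ofPred_eq, Set.mem_sdiff]
  constructor
  · intro h
    refine ⟨fun i => ?_, ?_⟩
    · by_cases hi : i = j
      · subst hi
        have := h i
        rw [Function.update_self] at this ⊢
        exact this.1
      · have := h i
        rw [Function.update_of_ne hi] at this ⊢
        exact this
    · have := h j
      rw [Function.update_self] at this
      exact this.2
  · rintro ⟨h, h'⟩ i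
    by_cases hi : i = j
    · subst hi
      have := h i
      rw [Function.update_self] at this ⊢
      exact ⟨this, h'⟩
    · have := h i
      rw [Function.update_of_ne hi] at this ⊢
      exact this

lemma bx_inter (I : Fin m → Set ℝ) (j : Fin m) (B A : Set ℝ) :
    bx (Function.update I j (B ∩ A)) = bx (Function.update I j B) ∩ {z | z j ∈ A} := by
  ext z
  simp only [bx, Set.mem_ofPred_eq, Set.mem_inter_iff]
  constructor
  · intro h
    refine ⟨fun i => ?_, ?_⟩
    · by_cases hi : i = j
      · subst hi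
        have := h i
        rw [Function.update_self] at this ⊢
        exact this.1
      · have := h i
        rw [Function.update_of_ne hi] at this ⊢
        exact this
    · have := h j
      rw [Function.update_self] at this
      exact this.2
  · rintro ⟨h, h'⟩ i
    by_cases hi : i = j
    · subst hi
      have := h i
      rw [Function.update_self] at this ⊢
      exact ⟨this, h'⟩
    · have := h i
      rw [Function.update_of_ne hi] at this ⊢
      exact this

lemma bx_Icc (c d : Fin m → ℝ) : bx (fun i => Set.Icc (c i) (d i)) = Set.Icc c d := by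
  ext z
  simp [bx, forall_and, Pi.le_def]

/-- The class of nice intervals. -/
inductive Good (r₁ r₂ : ℝ) : Set ℝ → Prop
  | icc (c d : ℝ) (h1 : r₁ ≤ c) (h2 : c ≤ d) (h3 : d ≤ r₂) : Good r₁ r₂ (Set.Icc c d)
  | diff (B A : Set ℝ) (hA : IsClosed A) (hB : Good r₁ r₂ B) (hBA : Good r₁ r₂ (B ∩ A)) :
      Good r₁ r₂ (B \ A)

lemma Good.lc {r₁ r₂ : ℝ} {B : Set ℝ} (h : Good r₁ r₂ B) : IsLocallyClosed B := by
  induction h with
  | icc c d _ _ _ => exact isClosed_Icc.isLocallyClosed
  | diff B A hA hB hBA ih1 ih2 =>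
    rw [Set.sdiff_eq]
    exact ih1.inter hA.isOpen_compl.isLocallyClosed

lemma Good.single {r₁ r₂ c : ℝ} (h1 : r₁ ≤ c) (h2 : c ≤ r₂) : Good r₁ r₂ {c} := by
  rw [← Set.Icc_self]
  exact Good.icc c c h1 le_rfl h2

lemma Good.ioc {r₁ r₂ c d : ℝ} (h1 : r₁ ≤ c) (h2 : c ≤ d) (h3 : d ≤ r₂) :
    Good r₁ r₂ (Set.Ioc c d) := by
  rw [← Set.Icc_sdiff_left]
  refine Good.diff _ _ isClosed_singleton (Good.icc c d h1 h2 h3) ?_
  rw [Set.inter_eq_right.2 (by simpa using h2)]
  exact Good.single h1 (h2.trans h3)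

lemma Good.ico {r₁ r₂ c d : ℝ} (h1 : r₁ ≤ c) (h2 : c ≤ d) (h3 : d ≤ r₂) :
    Good r₁ r₂ (Set.Ico c d) := by
  rw [← Set.Icc_sdiff_right]
  refine Good.diff _ _ isClosed_singleton (Good.icc c d h1 h2 h3) ?_
  rw [Set.inter_eq_right.2 (by simpa using h2)]
  exact Good.single (h1.trans h2) h3

lemma Good.ioo {r₁ r₂ c d : ℝ} (h1 : r₁ ≤ c) (h2 : c < d) (h3 : d ≤ r₂) :
    Good r₁ r₂ (Set.Ioo c d) := by
  rw [← Set.Ioc_sdiff_right]
  refine Good.diff _ _ isClosed_singleton (Good.ioc h1 h2.le h3) ?_
  rw [Set.inter_eq_right.2 (by simpa using h2)]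
  exact Good.single (h1.trans h2.le) h3

open Abelian

variable [T2Space X] [HasExt.{w} (Sh X)]

lemma ext_zero_of_mono {S : ShortComplex (Sh X)} (hS : S.ShortExact) {F : Sh X}
    (e : Ext F S.X₁ 0) (he : e.comp (Ext.mk₀ S.f) (add_zero 0) = 0) : e = 0 := by
  obtain ⟨φ, rfl⟩ := (Ext.mk₀_bijective _ _).2 e
  rw [Ext.mk₀_comp_mk₀] at he
  have h1 : φ ≫ S.f = 0 := by
    apply (Ext.mk₀_bijective _ _).1
    rw [he, Ext.mk₀_zero]
  have := hS.mono_f
  have h2 : φ = 0 := by
    rw [← cancel_mono S.f, h1, zero_comp]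
  rw [h2, Ext.mk₀_zero]

/-- vanishing of the cohomology of `ℂ_{pb S}` -/
def Van (S : Set (Fin m → ℝ)) : Prop :=
  ∀ (n : ℕ) (e : Ext.{w} (kk ((⊤ : Opens X) : Set X)) (kk (pb ψ S)) n), e = 0

lemma Van.diff {S A Q R : Set (Fin m → ℝ)} (hS : IsLocallyClosed S) (hA : IsClosed A)
    (hQ : Q = S \ A) (hR : R = S ∩ A) (h1 : Van.{w} ψ S) (h2 : Van.{w} ψ R) : Van.{w} ψ Q := by
  obtain ⟨a, b, w, hses⟩ := pb_ses ψ hS hA hQ hR
  intro n e
  have h0 : e.comp (Ext.mk₀ (mor a)) (add_zero n) = 0 := h1 n _
  cases n with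
  | zero => exact ext_zero_of_mono hses e h0
  | succ n =>
    obtain ⟨γ, hγ⟩ := Ext.covariant_sequence_exact₁ _ hses e h0 rfl
    rw [← hγ, h2 n γ, Ext.zero_comp]

lemma van_base (a₀ b₀ : Fin m → ℝ) (hK : Set.Icc a₀ b₀ ⊆ ψ.target) {c d c' d' : Fin m → ℝ}
    (hc : a₀ ≤ c) (hcc' : c ≤ c') (hc'd' : c' ≤ d') (hd'd : d' ≤ d) (hd : d ≤ b₀)
    {A : Set (Fin m → ℝ)} (hA : IsClosed A) (h : Set.Icc c' d' = Set.Icc c d ∩ A) :
    Van.{w} ψ (Set.Icc c d \ A) := by
  obtain ⟨a, b, w, hses⟩ := pb_ses ψ (isClosed_Icc.isLocallyClosed) hA rfl h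
  have hcd : c ≤ d := hcc'.trans (hc'd'.trans hd'd)
  have hS := (Set.Icc_subset_Icc hc hd).trans hK
  have hR := (Set.Icc_subset_Icc (hc.trans hcc') (hd'd.trans hd)).trans hK
  intro n e
  cases n with
  | zero =>
    apply ext_zero_of_mono hses e
    obtain ⟨φ, rfl⟩ := (Ext.mk₀_bijective _ _).2 e
    rw [Ext.mk₀_comp_mk₀]
    have : φ ≫ mor a = 0 := by
      apply hom_inj (pb_preconn ψ (convex_Icc c d).isPreconnected hS)
        (pb_mono ψ (Set.Icc_subset_Icc hcc' hd'd)) (pb_nonempty ψ (Set.nonempty_Icc.2 hc'd') hR) b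
      rw [Category.assoc, w, comp_zero]
    change Ext.mk₀ (φ ≫ mor a) = 0
    rw [this, Ext.mk₀_zero]
  | succ n =>
    have h0 : e.comp (Ext.mk₀ (mor a)) (add_zero (n + 1)) = 0 :=
      closedBox_acyclic_aux ψ a₀ b₀ hK n c d hc hcd hd _
    obtain ⟨γ, hγ⟩ := Ext.covariant_sequence_exact₁ _ hses e h0 rfl
    have hγ' : ∃ γ' : Ext (kk ((⊤ : Opens X) : Set X)) (kk (pb ψ (Set.Icc c d))) n,
        γ'.comp (Ext.mk₀ (mor b)) (add_zero n) = γ := by
      cases n with
      | zero =>
        obtain ⟨f, rfl⟩ := (Ext.mk₀_bijective _ _).2 γ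
        obtain ⟨g, hg⟩ := hom_surj (pb_closed ψ isCompact_Icc hS)
          (pb_preconn ψ (convex_Icc c' d').isPreconnected hR)
          (pb_mono ψ (Set.Icc_subset_Icc hcc' hd'd))
          (pb_nonempty ψ (Set.nonempty_Icc.2 hc'd') hR) b f
        exact ⟨Ext.mk₀ g, by rw [Ext.mk₀_comp_mk₀, hg]⟩
      | succ n =>
        exact ⟨0, by rw [closedBox_acyclic_aux ψ a₀ b₀ hK n c' d' (hc.trans hcc') hc'd'
          (hd'd.trans hd) γ, Ext.zero_comp]⟩
    obtain ⟨γ', hγ'⟩ := hγ'
    rw [← hγ, ← hγ']
    have h3 : (γ'.comp (Ext.mk₀ (mor b)) (add_zero n)).comp hses.extClass rfl =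
      γ'.comp ((Ext.mk₀ (mor b)).comp hses.extClass (zero_add 1)) rfl :=
      Ext.comp_assoc _ _ _ _ _ (by lia)
    refine h3.trans ?_
    have h4 : (Ext.mk₀ (mor b)).comp hses.extClass (zero_add 1) = 0 := hses.comp_extClass
    rw [h4, Ext.comp_zero]

/-- vanishing for products with a half-open interval -/
lemma van_good (a₀ b₀ : Fin m → ℝ) (j : Fin m) (J : Set ℝ)
    (hJ : IsLocallyClosed J)
    (h0 : ∀ c d : Fin m → ℝ, a₀ ≤ c → c ≤ d → d ≤ b₀ →
      Van.{w} ψ (bx (Function.update (fun i => Set.Icc (c i) (d i)) j J)))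
    (I : Fin m → Set ℝ) (hI : ∀ i, Good (a₀ i) (b₀ i) (I i)) :
    Van.{w} ψ (bx (Function.update I j J)) := by
  have key : ∀ T : Finset (Fin m), ∀ I : Fin m → Set ℝ, (∀ i ∈ T, Good (a₀ i) (b₀ i) (I i)) →
      (∀ i ∉ T, ∃ c d, a₀ i ≤ c ∧ c ≤ d ∧ d ≤ b₀ i ∧ I i = Set.Icc c d) →
      Van.{w} ψ (bx (Function.update I j J)) := by
    intro T
    induction T using Finset.induction_on with
    | empty =>
      intro I _ h
      have h' := fun i => h i (by simp)
      choose c d h1 h2 h3 h4 using h'
      have : I = fun i => Set.Icc (c i) (d i) := funext h4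
      rw [this]
      exact h0 c d h1 h2 h3
    | insert k T hk IH =>
      intro I h h'
      have hgood : ∀ i, Good (a₀ i) (b₀ i) (I i) := by
        intro i
        by_cases hi : i ∈ insert k T
        · exact h i hi
        · obtain ⟨c, d, h1, h2, h3, h4⟩ := h' i hi
          rw [h4]
          exact Good.icc c d h1 h2 h3
      have key2 : ∀ B, Good (a₀ k) (b₀ k) B →
          Van.{w} ψ (bx (Function.update (Function.update I k B) j J)) := by
        intro B hB
        induction hB with
        | icc c d h1 h2 h3 =>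
          apply IH
          · intro i hi
            have hik : i ≠ k := fun h => hk (h ▸ hi)
            rw [Function.update_of_ne hik]
            exact h i (by simp [hi])
          · intro i hi
            by_cases hik : i = k
            · subst hik
              exact ⟨c, d, h1, h2, h3, by rw [Function.update_self]⟩
            · rw [Function.update_of_ne hik]
              exact h' i (by simp [hik, hi])
        | diff B A hA hB hBA ih1 ih2 =>
          by_cases hkj : k = j
          · subst hkj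
            rw [Function.update_idem] at ih1 ⊢
            exact ih1
          · rw [Function.update_comm hkj] at ih1 ih2 ⊢
            refine Van.diff ψ ?_ (hA.preimage (continuous_apply k)) (bx_diff _ k B A)
              (bx_inter _ k B A) ih1 ih2
            apply bx_lc
            intro i
            by_cases hik : i = k
            · subst hik
              rw [Function.update_self]
              exact hB.lc
            · rw [Function.update_of_ne hik]
              by_cases hij : i = j
              · subst hij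
                rw [Function.update_self]
                exact hJ
              · rw [Function.update_of_ne hij]
                exact (hgood i).lc
      have := key2 (I k) (hgood k)
      rwa [Function.update_eq_self] at this
  exact key Finset.univ I (fun i _ => hI i) (fun i hi => absurd (Finset.mem_univ i) hi)

/-- vanishing for products with an interval minus a point -/
lemma van_diff_point (a₀ b₀ : Fin m → ℝ) (hK : Set.Icc a₀ b₀ ⊆ ψ.target) (j : Fin m)
    {s t e : ℝ} (hs : a₀ j ≤ s) (hse : s ≤ e) (het : e ≤ t) (ht : t ≤ b₀ j)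
    (I : Fin m → Set ℝ) (hI : ∀ i, Good (a₀ i) (b₀ i) (I i)) :
    Van.{w} ψ (bx (Function.update I j (Set.Icc s t \ {e}))) := by
  apply van_good ψ a₀ b₀ j _ _ _ I hI
  · rw [Set.sdiff_eq]
    exact isClosed_Icc.isLocallyClosed.inter isOpen_compl_singleton.isLocallyClosed
  · intro c d hc hcd hd
    rw [bx_diff]
    have h1 : Function.update (fun i => Set.Icc (c i) (d i)) j (Set.Icc s t) =
        fun i => Set.Icc (Function.update c j s i) (Function.update d j t i) := by
      funext i
      by_cases hi : i = j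
      · subst hi; simp
      · simp [hi]
    rw [h1, bx_Icc]
    refine van_base ψ a₀ b₀ hK (c' := Function.update c j e) (d' := Function.update d j e)
      ?_ ?_ ?_ ?_ ?_ (isClosed_singleton.preimage (continuous_apply j)) ?_
    · intro i
      by_cases hi : i = j
      · subst hi; simpa using hs
      · simpa [hi] using hc i
    · intro i
      by_cases hi : i = j
      · subst hi; simpa using hse
      · simp [hi]
    · intro i
      by_cases hi : i = j
      · subst hi; simp
      · simpa [hi] using hcd i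
    · intro i
      by_cases hi : i = j
      · subst hi; simpa using het
      · simp [hi]
    · intro i
      by_cases hi : i = j
      · subst hi; simpa using ht
      · simpa [hi] using hd i
    · ext z
      constructor
      · intro hz
        have h2 : z j = e := by
          have h3 := hz.1 j
          have h4 := hz.2 j
          simp only [Function.update_self] at h3 h4
          exact le_antisymm h4 h3
        refine ⟨⟨fun i => ?_, fun i => ?_⟩, h2⟩
        · by_cases hi : i = j
          · subst hi; rw [Function.update_self, h2]; exact hse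
          · have := hz.1 i
            rw [Function.update_of_ne hi] at this ⊢
            exact this
        · by_cases hi : i = j
          · subst hi; rw [Function.update_self, h2]; exact het
          · have := hz.2 i
            rw [Function.update_of_ne hi] at this ⊢
            exact this
      · rintro ⟨hz, h2⟩
        have h2' : z j = e := h2
        refine ⟨fun i => ?_, fun i => ?_⟩
        · by_cases hi : i = j
          · subst hi; rw [Function.update_self, h2']
          · have := hz.1 i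
            rw [Function.update_of_ne hi] at this ⊢
            exact this
        · by_cases hi : i = j
          · subst hi; rw [Function.update_self, h2']
          · have := hz.2 i
            rw [Function.update_of_ne hi] at this ⊢
            exact this

/-- There is a class of `Ext^n(ℂ_x, ℂ_S)` whose image in the cohomology is nonzero. -/
def NZ (x : X) (n : ℕ) (S : Set (Fin m → ℝ)) : Prop :=
  ∃ (h : LC ((⊤ : Opens X) : Set X) {x}) (α : Ext.{w} (kk {x}) (kk (pb ψ S)) n),
    (Ext.mk₀ (mor h)).comp α (zero_add n) ≠ 0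

lemma NZ.step1 {x : X} {n : ℕ} {S A Q R : Set (Fin m → ℝ)} (hS : IsLocallyClosed S)
    (hA : IsClosed A) (hQ : Q = S \ A) (hR : R = S ∩ A) (h1 : Van.{w} ψ S)
    (h : NZ.{w} ψ x n R) : NZ.{w} ψ x (n + 1) Q := by
  obtain ⟨a, b, w, hses⟩ := pb_ses ψ hS hA hQ hR
  obtain ⟨hx, α, hα⟩ := h
  refine ⟨hx, α.comp hses.extClass rfl, fun h0 => hα ?_⟩
  have h3 : ((Ext.mk₀ (mor hx)).comp α (zero_add n)).comp hses.extClass rfl =
      (Ext.mk₀ (mor hx)).comp (α.comp hses.extClass rfl) (zero_add (n + 1)) :=
      Ext.comp_assoc _ _ _ _ _ (by lia)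
  obtain ⟨γ, hγ⟩ := Ext.covariant_sequence_exact₃ _ hses ((Ext.mk₀ (mor hx)).comp α (zero_add n))
    rfl (h3.trans h0)
  rw [← hγ, h1 n γ, Ext.zero_comp]

lemma NZ.step2 {x : X} {n : ℕ} {S A Q R : Set (Fin m → ℝ)} (hS : IsLocallyClosed S)
    (hA : IsClosed A) (hQ : Q = S \ A) (hR : R = S ∩ A) (h1 : Van.{w} ψ R)
    (h : NZ.{w} ψ x (n + 1) Q) : NZ.{w} ψ x (n + 1) S := by
  obtain ⟨a, b, w, hses⟩ := pb_ses ψ hS hA hQ hR
  obtain ⟨hx, α, hα⟩ := h
  refine ⟨hx, α.comp (Ext.mk₀ (mor a)) (add_zero _), fun h0 => hα ?_⟩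
  have h3 : ((Ext.mk₀ (mor hx)).comp α (zero_add (n + 1))).comp (Ext.mk₀ (mor a)) (add_zero _) =
      (Ext.mk₀ (mor hx)).comp (α.comp (Ext.mk₀ (mor a)) (add_zero _)) (zero_add (n + 1)) :=
      Ext.comp_assoc _ _ _ _ _ (by lia)
  obtain ⟨γ, hγ⟩ := Ext.covariant_sequence_exact₁ _ hses
    ((Ext.mk₀ (mor hx)).comp α (zero_add (n + 1))) (h3.trans h0) rfl
  rw [← hγ, h1 n γ, Ext.zero_comp]

/-- Main nonvanishing result. -/
lemma ext_box_ne_zero (x : X) (hx : x ∈ ψ.source) (r : ℝ) (hr : 0 < r)
    (hK : Set.Icc (fun i => ψ x i - r) (fun i => ψ x i + r) ⊆ ψ.target) :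
    ∃ α : Ext.{w} (kk {x}) (kk (pb ψ (bx (fun i => Set.Ioo (ψ x i - r) (ψ x i + r))))) m,
      α ≠ 0 := by
  have hxcl : LC ((⊤ : Opens X) : Set X) {x} :=
    LC_of_closed (by simp) ⟨{x}, isClosed_singleton, by simp⟩
  classical
  let I : Finset (Fin m) → Fin m → Set ℝ := fun J i =>
    if i ∈ J then Set.Ioo (ψ x i - r) (ψ x i + r) else {ψ x i}
  have hgood : ∀ J i, Good (ψ x i - r) (ψ x i + r) (I J i) := by
    intro J i
    by_cases hi : i ∈ J
    · simp only [I, if_pos hi]
      exact Good.ioo le_rfl (by linarith) le_rfl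
    · simp only [I, if_neg hi]
      exact Good.single (by linarith) (by linarith)
  have key : ∀ J : Finset (Fin m), NZ.{w} ψ x J.card (bx (I J)) := by
    intro J
    induction J using Finset.induction_on with
    | empty =>
      have h1 : pb ψ (bx (I ∅)) = {x} := by
        ext z
        constructor
        · rintro ⟨hz, hz'⟩
          have : ψ z = ψ x := by
            funext i
            have := hz' i
            simpa [I] using this
          exact ψ.injOn hz hx this
        · rintro rfl
          refine ⟨hx, fun i => ?_⟩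
          simp [I]
      refine ⟨hxcl, ?_⟩
      rw [h1, Finset.card_empty]
      refine ⟨Ext.mk₀ (𝟙 _), ?_⟩
      rw [Ext.mk₀_comp_mk₀, Category.comp_id]
      intro h0
      have h2 : mor (V := ℂ) hxcl = 0 := by
        apply (Ext.mk₀_bijective _ _).1
        rw [h0, Ext.mk₀_zero]
      have h3 := congrArg (fun f => (KP ℂ {x}).val (app f ⊤ (one (one_cond ⊤))) x) h2
      simp only [val_mor, val_one, app_zero, map_zero] at h3
      simp at h3
    | insert j J hj IH =>
      rw [Finset.card_insert_of_notMem hj]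
      have hlc : ∀ B, IsLocallyClosed B → IsLocallyClosed (bx (Function.update (I J) j B)) := by
        intro B hB
        apply bx_lc
        intro i
        by_cases hi : i = j
        · subst hi; rw [Function.update_self]; exact hB
        · rw [Function.update_of_ne hi]; exact (hgood J i).lc
      have hJ0 : bx (I J) = bx (Function.update (I J) j {ψ x j}) := by
        congr 1
        rw [Function.eq_update_iff]
        refine ⟨?_, fun _ _ => rfl⟩
        simp [I, hj]
      have hJ1 : I (insert j J) = Function.update (I J) j (Set.Ioo (ψ x j - r) (ψ x j + r)) := by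
        rw [Function.eq_update_iff]
        refine ⟨?_, fun i hi => ?_⟩
        · simp [I]
        · simp [I, hi]
      have s1 : NZ.{w} ψ x (J.card + 1)
          (bx (Function.update (I J) j (Set.Ioo (ψ x j - r) (ψ x j)))) := by
        refine NZ.step1 ψ (S := bx (Function.update (I J) j (Set.Ioc (ψ x j - r) (ψ x j))))
          (A := {z | z j ∈ ({ψ x j} : Set ℝ)}) (R := bx (I J))
          (hlc _ (Good.ioc (r₁ := ψ x j - r) (r₂ := ψ x j) le_rfl (by linarith) le_rfl).lc)
          (isClosed_singleton.preimage (continuous_apply j)) ?_ ?_ ?_ IH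
        · rw [← bx_diff, Set.Ioc_sdiff_right]
        · rw [← bx_inter, hJ0, Set.inter_eq_right.2]
          simpa using hr
        · rw [← Set.Icc_sdiff_left]
          exact van_diff_point ψ _ _ hK j le_rfl le_rfl (by linarith) (by simp [hr.le])
            (I J) (hgood J)
      rw [hJ1]
      refine NZ.step2 ψ (A := {z | z j ∈ Set.Ici (ψ x j)})
        (R := bx (Function.update (I J) j (Set.Ico (ψ x j) (ψ x j + r))))
        (hlc _ isOpen_Ioo.isLocallyClosed)
          (isClosed_Ici.preimage (continuous_apply j)) ?_ ?_ ?_ s1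
      · rw [← bx_diff]
        congr 2
        ext z
        simp only [Set.mem_Ioo, Set.mem_sdiff, Set.mem_Ici, not_le]
        constructor
        · rintro ⟨h1, h2⟩
          exact ⟨⟨h1, by linarith⟩, h2⟩
        · rintro ⟨h1, h2⟩
          exact ⟨h1.1, h2⟩
      · rw [← bx_inter]
        congr 2
        ext z
        simp only [Set.mem_Ioo, Set.mem_inter_iff, Set.mem_Ici, Set.mem_Ico]
        constructor
        · rintro ⟨h1, h2⟩
          exact ⟨⟨by linarith, h2⟩, h1⟩
        · rintro ⟨h1, h2⟩
          exact ⟨h2, h1.2⟩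
      · rw [← Set.Icc_sdiff_right]
        exact van_diff_point ψ _ _ hK j (by simp [hr.le]) (by linarith) le_rfl le_rfl
            (I J) (hgood J)
  have := key Finset.univ
  have h1 : I Finset.univ = fun i => Set.Ioo (ψ x i - r) (ψ x i + r) := by
    funext i; simp [I]
  rw [h1, Finset.card_univ, Fintype.card_fin] at this
  obtain ⟨h, α, hα⟩ := this
  refine ⟨α, fun h0 => hα ?_⟩
  rw [h0, Ext.comp_zero]

end

end WS
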