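import Pool.Agent.helper18.WS.QTel
import Pool.Agent.helper18.WS.Box2

open CategoryTheory TopologicalSpace Topology Limits Opposite Abelian

set_option backward.isDefEq.respectTransparency false
set_option backward.isDefEq.respectTransparency.types false
set_option linter.unusedVariables false
set_option linter.unusedSectionVars false

universe w

namespace WS

noncomputable section

/-- exhaustible intervals -/
def Exh (S : Set ℝ) : Prop :=
  ∃ a b : ℕ → ℝ, (∀ k, a k < b k) ∧ (∀ k, a (k + 1) < a k) ∧ (∀ k, b k < b (k + 1)) ∧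
    (∀ k, Set.Icc (a k) (b k) ⊆ S) ∧ ∀ z ∈ S, ∃ k, z ∈ Set.Ioo (a k) (b k)

lemma exh_univ : Exh Set.univ := by
  refine ⟨fun k => -((k : ℝ) + 1), fun k => (k : ℝ) + 1, fun k => ?_, fun k => ?_, fun k => ?_,
    fun k => Set.subset_univ _, fun z _ => ?_⟩
  · have : (0 : ℝ) ≤ k := Nat.cast_nonneg k
    linarith
  · push_cast; linarith
  · push_cast; linarith
  · obtain ⟨k, hk⟩ := exists_nat_gt |z|
    rw [abs_lt] at hk
    exact ⟨k, by constructor <;> linarith⟩

lemma exh_Ioi : Exh (Set.Ioi 0) := by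
  refine ⟨fun k => 1 / ((k : ℝ) + 2), fun k => (k : ℝ) + 2, fun k => ?_, fun k => ?_, fun k => ?_,
    fun k z hz => ?_, fun z hz => ?_⟩
  · have : (0 : ℝ) ≤ k := Nat.cast_nonneg k
    have h1 : 1 / ((k : ℝ) + 2) ≤ 1 := by
      rw [div_le_one (by linarith)]
      linarith
    show 1 / ((k : ℝ) + 2) < (k : ℝ) + 2
    linarith
  · have : (0 : ℝ) ≤ k := Nat.cast_nonneg k
    apply one_div_lt_one_div_of_lt (by linarith)
    push_cast; linarith
  · push_cast; linarith
  · have : (0 : ℝ) ≤ k := Nat.cast_nonneg k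
    have h1 : 0 < 1 / ((k : ℝ) + 2) := by positivity
    exact h1.trans_le hz.1
  · have hz : 0 < z := hz
    obtain ⟨k, hk⟩ := exists_nat_gt (max z (1 / z))
    have h1 := (le_max_left z (1 / z)).trans_lt hk
    have h2 := (le_max_right z (1 / z)).trans_lt hk
    refine ⟨k, ?_, by show z < (k : ℝ) + 2; linarith⟩
    show 1 / ((k : ℝ) + 2) < z
    rw [div_lt_iff₀ (by positivity)]
    rw [div_lt_iff₀ hz] at h2
    nlinarith

lemma exh_Iio : Exh (Set.Iio 0) := by
  obtain ⟨a, b, h1, h2, h3, h4, h5⟩ := exh_Ioi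
  refine ⟨fun k => -b k, fun k => -a k, fun k => ?_, fun k => ?_, fun k => ?_,
    fun k z hz => ?_, fun z hz => ?_⟩
  · have := h1 k; linarith
  · have := h3 k; linarith
  · have := h2 k; linarith
  · have h6 : -z ∈ Set.Icc (a k) (b k) := ⟨by linarith [hz.2], by linarith [hz.1]⟩
    have h7 : 0 < -z := h4 k h6
    show z < 0
    linarith
  · have h6 : 0 < -z := by
      have : z < 0 := hz
      linarith
    obtain ⟨k, hk⟩ := h5 (-z) h6
    exact ⟨k, by constructor <;> linarith [hk.1, hk.2]⟩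

/-- The open factors -/
def Op (S : Set ℝ) : Prop := S = Set.univ ∨ S = Set.Ioi 0 ∨ S = Set.Iio 0

lemma Op.exh {S : Set ℝ} (h : Op S) : Exh S := by
  rcases h with rfl | rfl | rfl
  · exact exh_univ
  · exact exh_Ioi
  · exact exh_Iio

lemma Op.isOpen {S : Set ℝ} (h : Op S) : IsOpen S := by
  rcases h with rfl | rfl | rfl
  · exact isOpen_univ
  · exact isOpen_Ioi
  · exact isOpen_Iio

lemma Op.preconn {S : Set ℝ} (h : Op S) : _root_.IsPreconnected S := by
  rcases h with rfl | rfl | rfl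
  · exact isPreconnected_univ
  · exact isPreconnected_Ioi
  · exact isPreconnected_Iio

lemma Op.nonempty {S : Set ℝ} (h : Op S) : S.Nonempty := by
  rcases h with rfl | rfl | rfl
  · exact Set.univ_nonempty
  · exact Set.nonempty_Ioi
  · exact Set.nonempty_Iio

variable {m : ℕ}

lemma bx_eq_pi (I : Fin m → Set ℝ) : bx I = Set.univ.pi I := by
  ext z; simp [bx]

lemma bx_open {I : Fin m → Set ℝ} (h : ∀ i, IsOpen (I i)) : IsOpen (bx I) := by
  rw [bx_eq_pi]
  exact isOpen_set_pi Set.finite_univ (fun i _ => h i)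

lemma bx_preconn {I : Fin m → Set ℝ} (h : ∀ i, _root_.IsPreconnected (I i)) :
    _root_.IsPreconnected (bx I) := by
  rw [bx_eq_pi]
  exact isPreconnected_univ_pi h

lemma bx_nonempty {I : Fin m → Set ℝ} (h : ∀ i, (I i).Nonempty) : (bx I).Nonempty := by
  choose z hz using h
  exact ⟨z, hz⟩

lemma exists_exhaustion {I : Fin m → Set ℝ} (h : ∀ i, Exh (I i)) :
    ∃ a b : ℕ → (Fin m → ℝ), (∀ k, a k ≤ b k) ∧
      (∀ k, bx (fun i => Set.Ioo (a k i) (b k i)) ⊆ Set.Icc (a k) (b k)) ∧
      (∀ k, Set.Icc (a k) (b k) ⊆ bx (fun i => Set.Ioo (a (k + 1) i) (b (k + 1) i))) ∧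
      (∀ k, Set.Icc (a k) (b k) ⊆ bx I) ∧
      ∀ z ∈ bx I, ∃ k, z ∈ bx (fun i => Set.Ioo (a k i) (b k i)) := by
  choose a b h1 h2 h3 h4 h5 using h
  refine ⟨fun k i => a i k, fun k i => b i k, fun k i => (h1 i k).le, fun k z hz => ?_,
    fun k z hz i => ?_, fun k z hz i => ?_, fun z hz => ?_⟩
  · exact ⟨fun i => (hz i).1.le, fun i => (hz i).2.le⟩
  · exact ⟨(h2 i k).trans_le (hz.1 i), (hz.2 i).trans_lt (h3 i k)⟩
  · exact h4 i k ⟨hz.1 i, hz.2 i⟩
  · have h6 := fun i => h5 i (z i) (hz i)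
    choose k hk using h6
    have ha : ∀ i, Antitone (a i) := fun i => antitone_nat_of_succ_le (fun k => (h2 i k).le)
    have hb : ∀ i, Monotone (b i) := fun i => monotone_nat_of_le_succ (fun k => (h3 i k).le)
    refine ⟨Finset.univ.sup k, fun i => ?_⟩
    have h7 : k i ≤ Finset.univ.sup k := Finset.le_sup (Finset.mem_univ i)
    exact ⟨(ha i h7).trans_lt (hk i).1, (hk i).2.trans_le (hb i h7)⟩

variable {X : Type} [TopologicalSpace X] {p : (Fin m → ℝ) → X}
  (hpl : IsLocalHomeomorph p) [HasExt.{w} (Sh X)]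

lemma ZeroNear.restrict {N : Type} [TopologicalSpace N] [T2Space N] {p : N → X}
    {hpl : IsLocalHomeomorph p} {F : Sh X} {n : ℕ} {U B : Set N} {e : Ext.{w} (qk hpl U) F n}
    (h : ZeroNear hpl e B) {V : Set N} (hV : IsOpen V) (hVB : V ⊆ B) (hVU : V ⊆ U) :
    rs hpl hVU hV e = 0 := by
  obtain ⟨U', hU', hUU, hB, h0⟩ := h
  rw [← rs_rs hpl hUU hU' (hVB.trans hB) hV, h0, rs_zero]

/-- Vanishing in large degrees. -/
lemma open_dim {I : Fin m → Set ℝ} (h : ∀ i, Op (I i)) {n : ℕ} (hn : m ≤ n) {F : Sh X}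
    (e : Ext.{w} (qk hpl (bx I)) F (n + 1 + 1)) : e = 0 := by
  obtain ⟨a, b, hab, h1, h2, h3, h4⟩ := exists_exhaustion (fun i => (h i).exh)
  apply tel_zero hpl (U := fun k => bx (fun i => Set.Ioo (a k i) (b k i)))
    (fun k => bx_open (fun i => isOpen_Ioo)) (bx_open (fun i => (h i).isOpen))
    (fun k => (h1 k).trans (h3 k)) h4 (fun k => (h1 k).trans (h2 k))
  · intro k
    have h5 := box_zero_dim hpl F (n + 1) (bx_open (fun i => (h i).isOpen)) e (a k) (b k) (hab k)
      (h3 k) ((bdim_le _ _).trans (by lia))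
    exact h5.restrict _ (h1 k) _
  · intro k γ
    refine ⟨0, ?_⟩
    have h5 := box_zero_dim hpl F n (bx_open (fun i => isOpen_Ioo)) γ (a k) (b k) (hab k)
      (h2 k) ((bdim_le _ _).trans hn)
    rw [rs_zero]
    exact (h5.restrict _ (h1 k) _).symm

variable [LocallyConnectedSpace X]

/-- Acyclicity of open boxes for locally constant sheaves. -/
lemma open_lc {I : Fin m → Set ℝ} (h : ∀ i, Op (I i)) {n : ℕ} {F : Sh X} (hF : IsLocConst F)
    (e : Ext.{w} (qk hpl (bx I)) F (n + 1)) : e = 0 := by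
  obtain ⟨a, b, hab, h1, h2, h3, h4⟩ := exists_exhaustion (fun i => (h i).exh)
  have hE : ∀ c d : Fin m → ℝ, c ≤ d → ExtendsNear.{w} hpl F 0 (Set.Icc c d) := by
    intro c d hcd
    apply extendsNear_zero hpl hF
    · rw [← bx_Icc]
      exact bx_preconn (fun i => isPreconnected_Icc)
    · exact ⟨c, le_rfl, hcd⟩
  apply tel_zero hpl (U := fun k => bx (fun i => Set.Ioo (a k i) (b k i)))
    (fun k => bx_open (fun i => isOpen_Ioo)) (bx_open (fun i => (h i).isOpen))
    (fun k => (h1 k).trans (h3 k)) h4 (fun k => (h1 k).trans (h2 k))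
  · intro k
    have h5 := box_zero_ext hpl F hE n (bx_open (fun i => (h i).isOpen)) e (a k) (b k) (hab k)
      (h3 k)
    exact h5.restrict _ (h1 k) _
  · intro k γ
    cases n with
    | zero =>
      obtain ⟨φ, rfl⟩ := (Ext.mk₀_bijective _ _).2 γ
      obtain ⟨φ', hφ'⟩ := hom_extend hpl hF (bx_open (fun i => isOpen_Ioo))
        (bx_open (fun i => (h i).isOpen)) ((h1 (k + 1)).trans (h3 (k + 1)))
        (bx_preconn (fun i => isPreconnected_Ioo)) φ
      refine ⟨Ext.mk₀ φ', ?_⟩
      rw [rs_mk₀, rs_mk₀, ← hφ', ri_comp_assoc hpl _ _ ((h1 (k + 1)).trans (h3 (k + 1)))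
        (bx_open (fun i => isOpen_Ioo))]
    | succ n =>
      refine ⟨0, ?_⟩
      have h5 := box_zero_ext hpl F hE n (bx_open (fun i => isOpen_Ioo)) γ (a k) (b k) (hab k)
        (h2 k)
      rw [rs_zero]
      exact (h5.restrict _ (h1 k) _).symm

/-- finite projective dimension -/
def PD (K : Sh X) : Prop := ∃ d : ℕ, ∀ j, d ≤ j → ∀ (B : Sh X) (e : Ext.{w} K B j), e = 0

/-- orthogonality to locally constant sheaves -/
def Orth (K : Sh X) : Prop := ∀ A : Sh X, IsLocConst A → ∀ (n : ℕ) (e : Ext.{w} K A n), e = 0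

omit [LocallyConnectedSpace X] in
lemma PD.x₃ {S : ShortComplex (Sh X)} (hS : S.ShortExact) (h₁ : PD.{w} S.X₁)
    (h₂ : PD.{w} S.X₂) : PD.{w} S.X₃ := by
  obtain ⟨d₁, h₁⟩ := h₁
  obtain ⟨d₂, h₂⟩ := h₂
  refine ⟨max d₁ d₂ + 1, fun j hj B e => ?_⟩
  obtain ⟨j, rfl⟩ : ∃ j', j = 1 + j' := ⟨j - 1, by lia⟩
  obtain ⟨x, hx⟩ := Ext.contravariant_sequence_exact₃ hS B e
    (h₂ _ ((le_max_right d₁ d₂).trans (by lia)) B _) rfl
  rw [← hx, h₁ j ((le_max_left d₁ d₂).trans (by lia)) B x, Ext.comp_zero]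

omit [LocallyConnectedSpace X] in
lemma Orth.x₃ {S : ShortComplex (Sh X)} (hS : S.ShortExact) (h₁ : Orth.{w} S.X₁)
    (h₂ : Orth.{w} S.X₂) : Orth.{w} S.X₃ := by
  intro A hA n e
  cases n with
  | zero =>
    obtain ⟨φ, rfl⟩ := (Ext.mk₀_bijective _ _).2 e
    have h3 := h₂ A hA 0 (Ext.mk₀ (S.g ≫ φ))
    have h4 : S.g ≫ φ = 0 := (Ext.mk₀_bijective _ _).1 (h3.trans (Ext.mk₀_zero _ _).symm)
    have := hS.epi_g
    have h5 : φ = 0 := by rw [← cancel_epi S.g, h4, comp_zero]
    rw [h5, Ext.mk₀_zero]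
  | succ n =>
    obtain ⟨x, hx⟩ := Ext.contravariant_sequence_exact₃ hS A e
      (h₂ A hA _ _) (add_comm 1 n)
    rw [← hx, h₁ A hA n x, Ext.comp_zero]

omit [LocallyConnectedSpace X] [HasExt.{w} (Sh X)] in
lemma bx_ses {I : Fin m → Set ℝ} (j : Fin m) (hI : ∀ i, i ≠ j → IsLocallyClosed (I i))
    {B A B₁ B₂ : Set ℝ} (hB : IsLocallyClosed B) (hA : IsClosed A) (hB₁ : B₁ = B \ A)
    (hB₂ : B₂ = B ∩ A) :
    ∃ (h₁ : LC (bx (Function.update I j B₁)) (bx (Function.update I j B)))
      (h₂ : LC (bx (Function.update I j B)) (bx (Function.update I j B₂)))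
      (w : qmor (V := ℂ) hpl.continuous h₁ ≫ qmor hpl.continuous h₂ = 0),
      (ShortComplex.mk (qmor (V := ℂ) hpl.continuous h₁) (qmor hpl.continuous h₂) w).ShortExact := by
  subst hB₁ hB₂
  have hP : IsLocallyClosed (bx (Function.update I j B)) := by
    apply bx_lc
    intro i
    by_cases hi : i = j
    · subst hi; rwa [Function.update_self]
    · rw [Function.update_of_ne hi]; exact hI i hi
  have hC : IsClosed {z : Fin m → ℝ | z j ∈ A} := hA.preimage (continuous_apply j)
  have hQ : bx (Function.update I j (B \ A)) =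
      bx (Function.update I j B) ∩ {z : Fin m → ℝ | z j ∈ A}ᶜ := bx_diff I j B A
  have hR : bx (Function.update I j (B ∩ A)) =
      bx (Function.update I j B) ∩ {z : Fin m → ℝ | z j ∈ A} := bx_inter I j B A
  have h₁ : LC (bx (Function.update I j (B \ A))) (bx (Function.update I j B)) := by
    rw [hQ]
    exact LC_of_open Set.inter_subset_left ⟨{z : Fin m → ℝ | z j ∈ A}ᶜ, hC.isOpen_compl, rfl⟩
  have h₂ : LC (bx (Function.update I j B)) (bx (Function.update I j (B ∩ A))) := by
    rw [hR]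
    exact LC_of_closed Set.inter_subset_left ⟨_, hC, rfl⟩
  exact ⟨h₁, h₂, _, QS_shortExact hpl hP _ hC hQ hR h₁ h₂⟩

/-- the factors -/
inductive Fac : Set ℝ → Prop
  | op (S : Set ℝ) (h : Op S) : Fac S
  | cl (B A : Set ℝ) (hA : IsClosed A) (hB : Fac B) (hBA : Fac (B \ A)) : Fac (B ∩ A)

lemma Fac.lc {S : Set ℝ} (h : Fac S) : IsLocallyClosed S := by
  induction h with
  | op S h => exact h.isOpen.isLocallyClosed
  | cl B A hA hB hBA ih1 ih2 => exact ih1.inter hA.isLocallyClosed

lemma fac_Ici : Fac (Set.Ici 0) := by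
  have h := Fac.cl Set.univ (Set.Ici (0 : ℝ)) isClosed_Ici (Fac.op _ (Or.inl rfl))
    (Fac.op _ (Or.inr (Or.inr (by ext z; simp))))
  rwa [Set.univ_inter] at h

lemma fac_Iic : Fac (Set.Iic 0) := by
  have h := Fac.cl Set.univ (Set.Iic (0 : ℝ)) isClosed_Iic (Fac.op _ (Or.inl rfl))
    (Fac.op _ (Or.inr (Or.inl (by ext z; simp))))
  rwa [Set.univ_inter] at h

lemma Ici_diff_Iic : Set.Ici (0 : ℝ) \ Set.Iic 0 = Set.Ioi 0 := by
  ext z; simp; exact fun h => h.le

lemma Ici_inter_Iic : Set.Ici (0 : ℝ) ∩ Set.Iic 0 = {0} := by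
  ext z; simp [le_antisymm_iff, and_comm]

lemma fac_zero : Fac {0} := by
  have h := Fac.cl (Set.Ici 0) (Set.Iic (0 : ℝ)) isClosed_Iic fac_Ici
    (Fac.op _ (Or.inr (Or.inl Ici_diff_Iic)))
  rwa [Ici_inter_Iic] at h

omit [LocallyConnectedSpace X] in
lemma pd_bx (J : Finset (Fin m)) : ∀ I : Fin m → Set ℝ, (∀ i, i ∉ J → Op (I i)) →
    (∀ i, Fac (I i)) → PD.{w} (qk hpl (bx I)) := by
  classical
  induction J using Finset.induction_on with
  | empty =>
    intro I hI _
    refine ⟨m + 2, fun j hj B e => ?_⟩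
    obtain ⟨n, rfl⟩ : ∃ n, j = n + 1 + 1 := ⟨j - 2, by lia⟩
    exact open_dim hpl (fun i => hI i (by simp)) (by lia) e
  | insert j J hj ih =>
    have key : ∀ S, Fac S → ∀ I : Fin m → Set ℝ, (∀ i, i ∉ insert j J → Op (I i)) →
        (∀ i, Fac (I i)) → PD.{w} (qk hpl (bx (Function.update I j S))) := by
      intro S hS
      induction hS with
      | op S h =>
        intro I h1 h2
        apply ih
        · intro i hi
          by_cases hij : i = j
          · subst hij; rwa [Function.update_self]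
          · rw [Function.update_of_ne hij]
            exact h1 i (by simp [hij, hi])
        · intro i
          by_cases hij : i = j
          · subst hij; rw [Function.update_self]; exact Fac.op S h
          · rw [Function.update_of_ne hij]; exact h2 i
      | cl B A hA hB hBA ih1 ih2 =>
        intro I h1 h2
        obtain ⟨h₁, h₂, w, hs⟩ := bx_ses hpl j (fun i _ => (h2 i).lc) hB.lc hA rfl rfl
        exact PD.x₃ hs (ih2 I h1 h2) (ih1 I h1 h2)
    intro I h1 h2
    have h3 := key (I j) (h2 j) I h1 h2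
    rwa [Function.update_eq_self] at h3

lemma orth_base {I : Fin m → Set ℝ} {j : Fin m} (hI : ∀ i, i ≠ j → Op (I i)) {A : Set ℝ}
    (hA : IsClosed A) (hAc : Op Aᶜ) : Orth.{w} (qk hpl (bx (Function.update I j A))) := by
  have hP : ∀ i, Op (Function.update I j Set.univ i) := by
    intro i
    by_cases hij : i = j
    · subst hij; rw [Function.update_self]; exact Or.inl rfl
    · rw [Function.update_of_ne hij]; exact hI i hij
  have hQ : ∀ i, Op (Function.update I j Aᶜ i) := by
    intro i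
    by_cases hij : i = j
    · subst hij; rw [Function.update_self]; exact hAc
    · rw [Function.update_of_ne hij]; exact hI i hij
  obtain ⟨h₁, h₂, w, hs⟩ := bx_ses hpl j (fun i hi => (hI i hi).isOpen.isLocallyClosed)
    (B := Set.univ) isOpen_univ.isLocallyClosed hA (Set.compl_eq_univ_sdiff A)
    (Set.univ_inter A).symm
  have hsub : bx (Function.update I j Aᶜ) ⊆ bx (Function.update I j Set.univ) := by
    intro z hz i
    by_cases hij : i = j
    · subst hij; rw [Function.update_self]; trivial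
    · have := hz i
      rw [Function.update_of_ne hij] at this ⊢
      exact this
  have hPo := bx_open (fun i => (hP i).isOpen)
  have hQo := bx_open (fun i => (hQ i).isOpen)
  have hPc := bx_preconn (fun i => (hP i).preconn)
  have hQc := bx_preconn (fun i => (hQ i).preconn)
  have hQn := bx_nonempty (fun i => (hQ i).nonempty)
  intro F hF n e
  match n, e with
  | 0, e =>
    obtain ⟨φ, rfl⟩ := (Ext.mk₀_bijective _ _).2 e
    have h4 : qmor hpl.continuous h₂ ≫ φ = 0 := by
      apply hom_ext_locConst hpl hF hQo hPo hsub hPc hQn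
      rw [comp_zero, ← Category.assoc]
      exact (congrArg (fun ξ => ξ ≫ φ) w).trans zero_comp
    have := hs.epi_g
    have h5 : φ = 0 := by
      rw [← cancel_epi (qmor (V := ℂ) hpl.continuous h₂), h4, comp_zero]
    rw [h5, Ext.mk₀_zero]
  | 1, e =>
    obtain ⟨x, hx⟩ := Ext.contravariant_sequence_exact₃ hs F e
      (open_lc hpl hP hF _) (add_zero 1)
    obtain ⟨ψ, rfl⟩ := (Ext.mk₀_bijective _ _).2 x
    obtain ⟨ψ', hψ'⟩ := hom_extend hpl hF hQo hPo hsub hQc ψ
    have h6 : (Ext.mk₀ ψ : Ext.{w} _ _ 0) = (Ext.mk₀ (qmor (V := ℂ) hpl.continuous h₁)).comp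
        (Ext.mk₀ ψ') (zero_add 0) := by
      rw [Ext.mk₀_comp_mk₀]
      exact congrArg _ hψ'.symm
    rw [← hx, h6]
    have h7 : ((hs.extClass : Ext.{w} _ _ 1).comp
          (Ext.mk₀ (qmor (V := ℂ) hpl.continuous h₁)) (add_zero 1)).comp
          (Ext.mk₀ ψ') (add_zero 1) =
          (hs.extClass : Ext.{w} _ _ 1).comp ((Ext.mk₀ (qmor (V := ℂ) hpl.continuous h₁)).comp
          (Ext.mk₀ ψ') (zero_add 0)) (add_zero 1) :=
        Ext.comp_assoc _ _ _ _ _ (by lia)
    rw [← h7]
    have h8 : (hs.extClass : Ext.{w} _ _ 1).comp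
          (Ext.mk₀ (qmor (V := ℂ) hpl.continuous h₁)) (add_zero 1) = 0 := hs.extClass_comp
    rw [h8, Ext.zero_comp]
  | n + 2, e =>
    obtain ⟨x, hx⟩ := Ext.contravariant_sequence_exact₃ hs F e
      (open_lc hpl hP hF _) (add_comm 1 (n + 1))
    rw [← hx, open_lc hpl hQ hF x, Ext.comp_zero]

/-- Products with at least one closed half-line are orthogonal to locally constant sheaves. -/
lemma orth_bx {j : Fin m} {A : Set ℝ} (hA : IsClosed A) (hAc : Op Aᶜ) (hAf : Fac A)
    (J : Finset (Fin m)) : ∀ I : Fin m → Set ℝ, I j = A →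
    (∀ i, i ∉ J → i ≠ j → Op (I i)) → (∀ i, Fac (I i)) → Orth.{w} (qk hpl (bx I)) := by
  classical
  induction J using Finset.induction_on with
  | empty =>
    intro I hj hI _
    have := orth_base.{w} hpl (I := I) (j := j) (fun i hi => hI i (by simp) hi) hA hAc
    rwa [← hj, Function.update_eq_self] at this
  | insert j' J hj' ih =>
    by_cases hjj : j' = j
    · subst hjj
      intro I hI h1 h2
      exact ih I hI (fun i hi hij => h1 i (by simp [hi, hij]) hij) h2
    have key : ∀ S, Fac S → ∀ I : Fin m → Set ℝ, I j = A →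
        (∀ i, i ∉ insert j' J → i ≠ j → Op (I i)) →
        (∀ i, Fac (I i)) → Orth.{w} (qk hpl (bx (Function.update I j' S))) := by
      intro S hS
      induction hS with
      | op S h =>
        intro I hI h1 h2
        apply ih
        · rw [Function.update_of_ne (Ne.symm hjj)]; exact hI
        · intro i hi hij
          by_cases hij' : i = j'
          · subst hij'; rwa [Function.update_self]
          · rw [Function.update_of_ne hij']
            exact h1 i (by simp [hij', hi]) hij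
        · intro i
          by_cases hij : i = j'
          · subst hij; rw [Function.update_self]; exact Fac.op S h
          · rw [Function.update_of_ne hij]; exact h2 i
      | cl B A' hA' hB hBA ih1 ih2 =>
        intro I hI h1 h2
        obtain ⟨h₁, h₂, w, hs⟩ := bx_ses hpl j' (fun i _ => (h2 i).lc) hB.lc hA' rfl rfl
        exact Orth.x₃ hs (ih2 I hI h1 h2) (ih1 I hI h1 h2)
    intro I hI h1 h2
    have h3 := key (I j') (h2 j') I hI h1 h2
    rwa [Function.update_eq_self] at h3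

end

end WS
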