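import Pool.Agent.helper18.WS.Restrict

open CategoryTheory TopologicalSpace Topology Limits Opposite

set_option backward.isDefEq.respectTransparency false
set_option backward.isDefEq.respectTransparency.types false
set_option linter.unusedVariables false
set_option linter.unusedSectionVars false

universe w

namespace WS

noncomputable section

variable {X : Type} [TopologicalSpace X]

lemma one_cond_point [T1Space X] (x : X) (U : Opens X) :
    ∃ C, IsClosed C ∧ ({x} : Set X) ∩ U = C ∩ U := ⟨{x}, isClosed_singleton, rfl⟩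

lemma germ_kk_bijective [T1Space X] (x : X) (U : Opens X) (hU : x ∈ U) :
    Function.Bijective (germ (kk {x}) x hU) := by
  constructor
  · intro s t hst
    rw [KP_germ_eq] at hst
    apply (KP ℂ {x}).val_injective
    funext z
    by_cases hz : z ∈ ({x} : Set X)
    · rw [Set.mem_singleton_iff] at hz
      rw [hz, hst]
    · rw [KP_val_not_mem s hz, KP_val_not_mem t hz]
  · intro t
    obtain ⟨O, hO, s, rfl⟩ := germ_surj _ x t
    refine ⟨(KP ℂ {x}).val s x • one (one_cond_point x U), ?_⟩
    rw [map_smul]
    exact (germ_KP_eq_smul (one_cond_point x U) hU rfl hO s).symm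

lemma ev_kk_bijective [T1Space X] (x : X) :
    Function.Bijective ((KP ℂ ({x} : Set X)).ev x) := by
  constructor
  · rw [injective_iff_map_eq_zero]
    intro t ht
    obtain ⟨O, hO, s, rfl⟩ := germ_surj _ x t
    have h1 := (KP ℂ ({x} : Set X)).ev_germ x O hO s
    have h2 : (KP ℂ ({x} : Set X)).val s x = 0 := h1.symm.trans ht
    rw [← map_zero (germ (kk {x}) x hO), KP_germ_eq, h2, map_zero]
    rfl
  · intro c
    refine ⟨c • germ (kk {x}) x (U := ⊤) trivial (one (one_cond_point x ⊤)), ?_⟩
    rw [map_smul]
    have h1 := (KP ℂ ({x} : Set X)).ev_germ x ⊤ trivial (one (one_cond_point x ⊤))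
    refine (congrArg (fun z => c • z) h1).trans ?_
    rw [val_one]
    simp

lemma sec_kk_eq_zero {x : X} {U : Opens X} (hU : x ∉ U) (s : Sec (kk {x}) U) : s = 0 := by
  apply (KP ℂ ({x} : Set X)).val_injective
  rw [map_zero]
  funext z
  by_cases hz : z ∈ ({x} : Set X)
  · rw [Set.mem_singleton_iff] at hz
    subst hz
    exact ((KP ℂ ({z} : Set X)).val_mem s).1 z hU
  · exact KP_val_not_mem s hz

lemma exists_iso_sky [T1Space X] (x : X) : Nonempty (kk {x} ≅ sky x) := by
  classical
  let ev : TopCat.Presheaf.stalk (X := TopCat.of X) (kk {x}).obj x ⟶ ModuleCat.of ℂ ℂ :=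
    ModuleCat.ofHom ((KP ℂ ({x} : Set X)).ev x)
  have hev : IsIso ev := by
    rw [ConcreteCategory.isIso_iff_bijective]
    exact ev_kk_bijective x
  let f : (kk {x}).obj ⟶ skyscraperPresheaf (X := TopCat.of X) x (ModuleCat.of ℂ ℂ) :=
    StalkSkyscraperPresheafAdjunctionAuxs.toSkyscraperPresheaf (X := TopCat.of X) x ev
  have hf : ∀ U, IsIso (f.app U) := by
    intro U
    by_cases h : x ∈ U.unop
    · have h1 : f.app U = TopCat.Presheaf.germ (X := TopCat.of X) (kk {x}).obj U.unop x h ≫ ev ≫
          eqToHom (if_pos h).symm := dif_pos h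
      rw [h1]
      have h2 : IsIso (TopCat.Presheaf.germ (X := TopCat.of X) (kk {x}).obj U.unop x h) := by
        rw [ConcreteCategory.isIso_iff_bijective]
        exact germ_kk_bijective x U.unop h
      infer_instance
    · have hz1 : IsZero ((kk {x}).obj.obj U) := by
        have : Subsingleton ((kk {x}).obj.obj U : ModuleCat.{0} ℂ) :=
          ⟨fun a b => (sec_kk_eq_zero h a).trans (sec_kk_eq_zero h b).symm⟩
        exact ModuleCat.isZero_of_subsingleton _
      have hz2 : IsZero ((skyscraperPresheaf (X := TopCat.of X) x (ModuleCat.of ℂ ℂ)).obj U) := by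
        have h3 : (skyscraperPresheaf (X := TopCat.of X) x (ModuleCat.of ℂ ℂ)).obj U =
          terminal (ModuleCat.{0} ℂ) := if_neg h
        rw [h3]
        exact (isZero_zero _).of_iso (terminalIsTerminal.uniqueUpToIso
          (HasZeroObject.zeroIsTerminal))
      exact isIso_of_source_target_iso_zero _ hz1.isoZero hz2.isoZero
  have hiso : IsIso f := by
    rw [NatTrans.isIso_iff_isIso_app]
    exact hf
  exact ⟨(fullyFaithfulSheafToPresheaf _ _).preimageIso (asIso f)⟩

end

end WS
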