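import Pool.Agent.helper18.WS.QTr
import Pool.Agent.helper18.WS.Sky

open CategoryTheory TopologicalSpace Topology Limits Opposite Abelian

set_option backward.isDefEq.respectTransparency false
set_option backward.isDefEq.respectTransparency.types false
set_option linter.unusedVariables false
set_option linter.unusedSectionVars false

universe w

namespace WS

noncomputable section

variable {X : Type} [TopologicalSpace X] {N : Type} [TopologicalSpace N] [T2Space N]
  {p : N → X}

open Classical in
lemma exists_qk_iso_kk [T1Space X] (hpl : IsLocalHomeomorph p) (n₀ : N) :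
    Nonempty (qk hpl {n₀} ≅ kk {p n₀}) := by
  let Θ : (N → ℂ) →ₗ[ℂ] (X → ℂ) :=
    { toFun := fun f y => if y = p n₀ then f n₀ else 0
      map_add' := by
        intro f g
        funext y
        by_cases h : y = p n₀ <;> simp [h]
      map_smul' := by
        intro c f
        funext y
        by_cases h : y = p n₀ <;> simp [h] }
  have hΘ : ∀ f y, Θ f y = if y = p n₀ then f n₀ else 0 := fun _ _ => rfl
  let φ : qk hpl {n₀} ⟶ kk {p n₀} :=
    FS.hom (QS ℂ p hpl.continuous {n₀}) (KP ℂ {p n₀}) Θ
      (by
        intro U f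
        funext y
        change (if y = p n₀ then FS.cut p U f n₀ else 0) = FS.cut id U (Θ f) y
        by_cases hU : y ∈ U
        · rw [FS.cut_apply_mem (p := id) _ hU, hΘ]
          by_cases h : y = p n₀
          · rw [if_pos h, if_pos h, FS.cut_apply_mem _ (h ▸ hU)]
          · rw [if_neg h, if_neg h]
        · rw [FS.cut_apply_not_mem (p := id) _ hU]
          by_cases h : y = p n₀
          · rw [if_pos h, FS.cut_apply_not_mem _ (h ▸ hU)]
          · rw [if_neg h])
      (by
        intro y f hf
        rw [KP_mem_C]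
        by_cases h : y = p n₀
        · refine Filter.Eventually.of_forall (fun z => ?_)
          rw [hΘ, hΘ, if_pos h]
          by_cases hz : z = p n₀
          · rw [if_pos hz, Set.indicator_of_mem (by simpa using hz)]
          · rw [if_neg hz, Set.indicator_of_notMem (by simpa using hz)]
        · filter_upwards [isOpen_compl_singleton.mem_nhds h] with z hz
          rw [hΘ, hΘ, if_neg h, if_neg (show ¬ z = p n₀ from hz)]
          simp)
  have hφ : ∀ {U : Opens X} (s : Sec (qk hpl {n₀}) U) y,
      (KP ℂ {p n₀}).val (app φ U s) y =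
        if y = p n₀ then (QS ℂ p hpl.continuous {n₀}).val s n₀ else 0 := by
    intro U s y
    rfl
  have hiso : IsIso φ := by
    apply isIso_of_stk
    intro y
    constructor
    · rw [injective_iff_map_eq_zero]
      intro t ht
      obtain ⟨U, hU, s, rfl⟩ := germ_surj _ y t
      rw [stk_germ, ← map_zero (germ (kk {p n₀}) y hU), KP_germ_eq, hφ] at ht
      rw [← map_zero (germ _ y hU), QS_germ_eq]
      intro n hn
      rw [map_zero] at ht
      rw [map_zero]
      by_cases h : n = n₀
      · subst h
        rw [if_pos hn.symm] at ht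
        exact ht
      · exact QS_not_mem _ s h
    · intro t
      by_cases h : y = p n₀
      · subst h
        obtain ⟨U, hU, s, rfl⟩ := germ_surj _ _ t
        obtain ⟨O, hO, s', hs1, hs2⟩ := exists_bs hpl (S := {n₀})
          isClosed_singleton.isLocallyClosed (Set.mem_singleton n₀)
          ((KP ℂ {p n₀}).val s (p n₀))
        refine ⟨germ _ _ hO s', ?_⟩
        rw [stk_germ, KP_germ_eq, hφ, if_pos rfl, hs1]
      · exact ⟨0, by rw [map_zero]; exact (stk_KP_eq_zero (P := {p n₀}) h t).symm⟩
  exact ⟨asIso φ⟩

/-- `p_! ℂ` is locally constant for a covering map `p`. -/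
lemma qk_univ_locConst [LocallyConnectedSpace X] (hp : IsCoveringMap p)
    (hne : ∀ y, Nonempty (p ⁻¹' {y})) :
    IsLocConst (qk hp.isLocalHomeomorph (Set.univ : Set N)) := by
  classical
  intro y
  have := hne y
  have hpl := hp.isLocalHomeomorph
  obtain ⟨U, hyU, -, hUc, s, idx, hps, hsc, hsi, his, hidx⟩ := exists_sheets hp y ⊤ trivial
  have hmem : ∀ φ : (p ⁻¹' {y}) →₀ ℂ, (fun n => if p n ∈ U then φ (idx n) else 0) ∈
      (QS ℂ p hp.continuous Set.univ).sec U := by
    intro φ
    refine ⟨fun n hn => if_neg hn, fun z hz => ⟨fun n hn => ?_, ?_⟩⟩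
    · rw [KP_mem_C]
      have hnU : p n ∈ U := hn ▸ hz
      filter_upwards [hidx n hnU, (U.isOpen.preimage hp.continuous).mem_nhds hnU] with n' h1 h2
      rw [Set.indicator_univ, if_pos hnU, if_pos (show p n' ∈ U from h2), h1]
    · refine ⟨φ.support.image (fun i => s i z), fun t ht => ?_, fun G hG hTG => ?_⟩
      · obtain ⟨i, -, rfl⟩ := Finset.mem_image.1 ht
        exact hps i z hz
      · have h1 : ∀ i ∈ φ.support, ∀ᶠ z' in 𝓝 z, s i z' ∈ G := by
          intro i hi
          have h2 : s i z ∈ G := hTG (by
            rw [Finset.mem_coe]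
            exact Finset.mem_image_of_mem _ hi)
          exact ((hsc i).continuousAt (U.isOpen.mem_nhds hz)).eventually (hG.mem_nhds h2)
        have h3 : ∀ᶠ z' in 𝓝 z, ∀ i ∈ φ.support, s i z' ∈ G :=
          (Filter.eventually_all_finset _).2 h1
        filter_upwards [h3, U.isOpen.mem_nhds hz] with z' h4 h5 n hn hne
        have hnU : p n ∈ U := hn ▸ h5
        rw [if_pos hnU] at hne
        have h6 := h4 (idx n) (Finsupp.mem_support_iff.2 hne)
        rwa [← hn, hsi n hnU] at h6
  let e : ((p ⁻¹' {y}) →₀ ℂ) →ₗ[ℂ] Sec (qk hpl (Set.univ : Set N)) U :=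
    { toFun := fun φ => (QS ℂ p hp.continuous Set.univ).mks _ (hmem φ)
      map_add' := by
        intro φ φ'
        apply (QS ℂ p hp.continuous Set.univ).val_injective
        rw [FS.val_mks, map_add, FS.val_mks, FS.val_mks]
        funext n
        by_cases hn : p n ∈ U
        · simp [hn]
        · simp [hn]
      map_smul' := by
        intro c φ
        apply (QS ℂ p hp.continuous Set.univ).val_injective
        rw [FS.val_mks, map_smul, FS.val_mks]
        funext n
        by_cases hn : p n ∈ U
        · simp [hn]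
        · simp [hn] }
  have hval : ∀ φ i, ∀ z ∈ U, (QS ℂ p hp.continuous Set.univ).val (e φ) (s i z) = φ i := by
    intro φ i z hz
    change (if p (s i z) ∈ U then φ (idx (s i z)) else 0) = φ i
    rw [hps i z hz, if_pos hz, his i z hz]
  refine ⟨U, hyU, (p ⁻¹' {y}) →₀ ℂ, inferInstance, inferInstance, e, fun z hz => ⟨?_, ?_⟩⟩
  · intro φ φ' h
    have h' := (QS_germ_eq hp.continuous hz hz (e φ) (e φ')).1 h
    ext i
    rw [← hval φ i z hz, ← hval φ' i z hz]
    exact h' _ (hps i z hz)
  · intro t
    obtain ⟨U', hzU', g, rfl⟩ := germ_surj _ z t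
    obtain ⟨T, hT, hTfin⟩ := QS_fin hpl hzU' g
    have hfin' : (Function.support
        (fun i => (QS ℂ p hp.continuous Set.univ).val g (s i z))).Finite := by
      refine Set.Finite.of_finite_image (f := fun i => s i z) (T.finite_toSet.subset ?_) ?_
      · rintro _ ⟨i, hi, rfl⟩
        exact hTfin _ (hps i z hz) hi
      · intro i _ j _ hij
        have := congrArg idx hij
        rwa [his i z hz, his j z hz] at this
    let φ : (p ⁻¹' {y}) →₀ ℂ := Finsupp.ofSupportFinite _ hfin'
    refine ⟨φ, ?_⟩
    apply (QS_germ_eq hp.continuous hz hzU' (e φ) g).2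
    intro n hn
    have hnU : p n ∈ U := hn ▸ hz
    have h1 : (QS ℂ p hp.continuous Set.univ).val (e φ) n = φ (idx n) := if_pos hnU
    rw [h1]
    change (QS ℂ p hp.continuous Set.univ).val g (s (idx n) z) = _
    rw [← hn, hsi n hnU]

end

end WS
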