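import Pool.Agent.helper18.WS.QTri
import Pool.Agent.helper18.WS.QLoc
import Pool.Agent.helper18.WS.QAcy

open CategoryTheory TopologicalSpace Topology Limits Opposite Abelian Pretriangulated Triangulated

set_option backward.isDefEq.respectTransparency false
set_option backward.isDefEq.respectTransparency.types false
set_option linter.unusedVariables false
set_option linter.unusedSectionVars false

universe w

namespace WS

noncomputable section

variable {X : Type} [TopologicalSpace X] [HasDerivedCategory.{w} (Sh X)] {m : ℕ}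
  {p : (Fin m → ℝ) → X} (hpl : IsLocalHomeomorph p) [LocallyConnectedSpace X]

lemma oz_bx {I : Fin m → Set ℝ} (hI : ∀ i, Fac (I i)) {j : Fin m} {A : Set ℝ} (hj : I j = A)
    (hA : IsClosed A) (hAc : Op Aᶜ) (hAf : Fac A) : OZ (sg (qk hpl (bx I))) := by
  have : HasExt.{w} (Sh X) := hasExt_of_hasDerivedCategory _
  obtain ⟨d, hd⟩ := pd_bx.{w} hpl Finset.univ I (fun i hi => absurd (Finset.mem_univ i) hi) hI
  have ho := orth_bx.{w} hpl hA hAc hAf Finset.univ I hj
    (fun i hi => absurd (Finset.mem_univ i) hi) hI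
  exact OZ.of_ext.{w} ho (fun B e => hd d le_rfl B e)

omit [LocallyConnectedSpace X] in
lemma step_abs {A B D A' B' : Sh X} {f : A ⟶ B} {g : B ⟶ D} {w : f ≫ g = 0}
    (hs : (ShortComplex.mk f g w).ShortExact) {f' : A ⟶ A'} {g' : A' ⟶ B'} {w' : f' ≫ g' = 0}
    (hs' : (ShortComplex.mk f' g' w').ShortExact) (o1 : OZ (sg B)) (o2 : OZ (sg B')) :
    ∃ φ : sg D ⟶ (sg A')⟦(1 : ℤ)⟧, LcIso φ := by
  have t1 : LcIso (hs.singleδ : sg D ⟶ (sg A)⟦(1 : ℤ)⟧) :=
    LcIso.of_triangle₃ hs.singleTriangle_distinguished o1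
  have t2 : LcIso ((DerivedCategory.singleFunctor (Sh X) 0).map f' : sg A ⟶ sg A') :=
    LcIso.of_triangle hs'.singleTriangle_distinguished o2
  exact ⟨_, t1.comp (t2.shift 1)⟩

/-- one step: from a point to a line -/
lemma step_bx {I : Fin m → Set ℝ} (hI : ∀ i, Fac (I i)) (j : Fin m) :
    ∃ φ : sg (qk hpl (bx (Function.update I j {0}))) ⟶
      (sg (qk hpl (bx (Function.update I j Set.univ))))⟦(1 : ℤ)⟧, LcIso φ := by
  have hF : ∀ S, Fac S → ∀ i, Fac (Function.update I j S i) := by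
    intro S hS i
    by_cases hij : i = j
    · subst hij; rwa [Function.update_self]
    · rw [Function.update_of_ne hij]; exact hI i
  have c1 : Op (Set.Ici (0 : ℝ))ᶜ := Or.inr (Or.inr (by ext z; simp))
  have c2 : Op (Set.Iic (0 : ℝ))ᶜ := Or.inr (Or.inl (by ext z; simp))
  obtain ⟨h₁, h₂, w, hs⟩ := bx_ses hpl (I := I) j (fun i _ => (hI i).lc)
    (B := Set.Ici 0) (A := Set.Iic 0) (B₁ := Set.Ioi 0) (B₂ := {0}) fac_Ici.lc isClosed_Iic
    Ici_diff_Iic.symm Ici_inter_Iic.symm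
  obtain ⟨h₁', h₂', w', hs'⟩ := bx_ses hpl (I := I) j (fun i _ => (hI i).lc)
    (B := Set.univ) (A := Set.Iic 0) (B₁ := Set.Ioi 0) (B₂ := Set.Iic 0)
    isOpen_univ.isLocallyClosed isClosed_Iic (by ext z; simp) (by simp)
  have o1 : OZ (sg (qk hpl (bx (Function.update I j (Set.Ici 0))))) :=
    oz_bx hpl (hF _ fac_Ici) (Function.update_self ..) isClosed_Ici c1 fac_Ici
  have o2 : OZ (sg (qk hpl (bx (Function.update I j (Set.Iic 0))))) :=
    oz_bx hpl (hF _ fac_Iic) (Function.update_self ..) isClosed_Iic c2 fac_Iic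
  exact step_abs hs hs' o1 o2

/-- the flag of coordinate subspaces -/
def flag (m k : ℕ) : Fin m → Set ℝ := fun i => if i.1 < k then Set.univ else {0}

lemma flag_fac (k : ℕ) (i : Fin m) : Fac (flag m k i) := by
  unfold flag
  split_ifs
  · exact Fac.op _ (Or.inl rfl)
  · exact fac_zero

lemma flag_succ {k : ℕ} (hk : k < m) :
    flag m (k + 1) = Function.update (flag m k) ⟨k, hk⟩ Set.univ := by
  funext i
  by_cases hi : i = ⟨k, hk⟩
  · subst hi
    rw [Function.update_self]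
    simp [flag]
  · rw [Function.update_of_ne hi]
    have h1 : i.1 ≠ k := fun h => hi (Fin.ext h)
    unfold flag
    by_cases h2 : i.1 < k
    · rw [if_pos h2, if_pos (by lia)]
    · rw [if_neg h2, if_neg (by lia)]

lemma flag_self {k : ℕ} (hk : k < m) :
    flag m k = Function.update (flag m k) ⟨k, hk⟩ {0} := by
  funext i
  by_cases hi : i = ⟨k, hk⟩
  · subst hi
    rw [Function.update_self]
    simp [flag]
  · rw [Function.update_of_ne hi]

lemma exists_flag (k : ℕ) (hk : k ≤ m) :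
    ∃ φ : sg (qk hpl (bx (flag m 0))) ⟶ (sg (qk hpl (bx (flag m k))))⟦(k : ℤ)⟧, LcIso φ := by
  induction k with
  | zero =>
    let e₀ : (sg (qk hpl (bx (flag m 0))))⟦((0 : ℕ) : ℤ)⟧ ≅ sg (qk hpl (bx (flag m 0))) :=
      (shiftFunctorZero' (DerivedCategory (Sh X)) ((0 : ℕ) : ℤ) (by simp)).app _
    exact ⟨e₀.inv, LcIso.of_isIso _⟩
  | succ k ih =>
    obtain ⟨φ, hφ⟩ := ih (by lia)
    have h1 := step_bx hpl (I := flag m k) (flag_fac k) ⟨k, hk⟩
    rw [← flag_self, ← flag_succ] at h1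
    obtain ⟨ψ, hψ⟩ := h1
    let e : ((sg (qk hpl (bx (flag m (k + 1)))))⟦(1 : ℤ)⟧)⟦(k : ℤ)⟧ ≅
        (sg (qk hpl (bx (flag m (k + 1)))))⟦((k + 1 : ℕ) : ℤ)⟧ :=
      ((shiftFunctorAdd' (DerivedCategory (Sh X)) (1 : ℤ) (k : ℤ) ((k + 1 : ℕ) : ℤ)
        (by push_cast; ring)).app _).symm
    exact ⟨φ ≫ ψ⟦(k : ℤ)⟧' ≫ e.hom, hφ.comp ((hψ.shift k).comp (LcIso.of_isIso _))⟩

lemma flag_zero : bx (flag m 0) = {0} := by
  ext z
  simp only [bx, flag, Nat.not_lt_zero, if_false, Set.mem_ofPred_eq, Set.mem_singleton_iff]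
  exact ⟨fun h => funext h, fun h i => by rw [h]; rfl⟩

lemma flag_top : bx (flag m m) = Set.univ := by
  ext z
  simp [bx, flag]

/-- Existence of the wrapping at the image of the origin. -/
lemma exists_wrapping_zero [T1Space X] {p : (Fin m → ℝ) → X} (hp : IsCoveringMap p)
    (hne : ∀ y, Nonempty (p ⁻¹' {y})) :
    ∃ η : skyD (p 0) ⟶ (sg (qk hp.isLocalHomeomorph (Set.univ : Set (Fin m → ℝ))))⟦(m : ℤ)⟧,
      IsWrapping (p 0) _ η := by
  have h := exists_flag hp.isLocalHomeomorph m le_rfl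
  rw [flag_zero, flag_top] at h
  obtain ⟨φ, hφ⟩ := h
  obtain ⟨i⟩ := exists_qk_iso_kk hp.isLocalHomeomorph (0 : Fin m → ℝ)
  obtain ⟨i'⟩ := exists_iso_sky (p (0 : Fin m → ℝ))
  let j : skyD (p (0 : Fin m → ℝ)) ≅ sg (qk hp.isLocalHomeomorph {(0 : Fin m → ℝ)}) :=
    (DerivedCategory.singleFunctor (Sh X) 0).mapIso (i'.symm ≪≫ i.symm)
  refine ⟨j.hom ≫ φ, ?_, ?_⟩
  · exact (cohP_single (qk_univ_locConst hp hne)).shift m
  · exact (LcIso.of_isIso j.hom).comp hφ

/-- Existence of the wrapping. -/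
theorem exists_wrapping [T1Space X] {p : (Fin m → ℝ) → X} (hp : IsCoveringMap p)
    (hne : ∀ y, Nonempty (p ⁻¹' {y})) (x : X) :
    ∃ (W : DerivedCategory (Sh X)) (η : skyD x ⟶ W), IsWrapping x W η := by
  obtain ⟨n₁, hn₁⟩ := hne x
  let p' : (Fin m → ℝ) → X := p ∘ (Homeomorph.addLeft n₁)
  have hp' : IsCoveringMap p' := hp.comp_homeomorph _
  have h0 : p' 0 = x := by
    simp only [p', Function.comp_apply, Homeomorph.coe_addLeft, add_zero]
    exact hn₁
  have hne' : ∀ y, Nonempty (p' ⁻¹' {y}) := by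
    intro y
    obtain ⟨n, hn⟩ := hne y
    refine ⟨-n₁ + n, ?_⟩
    simp only [p', Set.mem_preimage, Function.comp_apply, Homeomorph.coe_addLeft,
      add_neg_cancel_left]
    exact hn
  obtain ⟨η, hη⟩ := exists_wrapping_zero hp' hne'
  rw [← h0]
  exact ⟨_, η, hη⟩

end

end WS
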