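import Mathlib

open TopologicalSpace Topology
open scoped Manifold ContDiff

set_option linter.unusedSectionVars false

namespace WS

noncomputable section

variable {E : Type} [NormedAddCommGroup E] [NormedSpace ℂ E] (Λ : AddSubgroup E)

/-- `Λ` is a lattice: a discrete subgroup with compact quotient `E ⧸ Λ`. If `E` is a
finite-dimensional complex vector space then `E ⧸ Λ` is a complex torus. -/
structure IsLattice : Prop where
  discrete : IsDiscrete (Λ : Set E)
  cocompact : CompactSpace (E ⧸ Λ)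

variable {Λ}

lemma IsLattice.cov (h : IsLattice Λ) : IsAddQuotientCoveringMap (QuotientAddGroup.mk (s := Λ)) Λ :=
  AddSubgroup.isAddQuotientCoveringMap_of_comm Λ h.discrete

lemma IsLattice.isCoveringMap (h : IsLattice Λ) :
    IsCoveringMap (QuotientAddGroup.mk (s := Λ)) := h.cov.isCoveringMap

lemma IsLattice.isClosed (h : IsLattice Λ) : IsClosed (Λ : Set E) := by
  have : DiscreteTopology Λ := h.discrete.to_subtype
  exact AddSubgroup.isClosed_of_discrete

lemma IsLattice.t2 (h : IsLattice Λ) : T2Space (E ⧸ Λ) := by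
  have := h.isClosed
  infer_instance

/-- The complex structure of the torus `E ⧸ Λ`: the charts are the local inverses of the
projection `E → E ⧸ Λ`. -/
@[instance_reducible]
def IsLattice.charts (h : IsLattice Λ) : ChartedSpace E (E ⧸ Λ) :=
  h.isCoveringMap.isLocalHomeomorph.chartedSpace (QuotientAddGroup.mk_surjective (s := Λ))

lemma IsLattice.contDiffOn (h : IsLattice Λ) {u : E → E} {s : Set E} (hs : IsOpen s)
    (hu : ContinuousOn u s) (hm : ∀ z ∈ s, u z - z ∈ Λ) : ContDiffOn ℂ ω u s := by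
  intro z₀ hz₀
  have hd : ∃ U ∈ 𝓝 (u z₀ - z₀), ∀ w ∈ U, w ∈ Λ → w = u z₀ - z₀ := by
    have : DiscreteTopology Λ := h.discrete.to_subtype
    have h1 : {(⟨u z₀ - z₀, hm z₀ hz₀⟩ : Λ)} ∈ 𝓝 (⟨u z₀ - z₀, hm z₀ hz₀⟩ : Λ) :=
      (isOpen_discrete _).mem_nhds rfl
    rw [nhds_subtype_eq_comap, Filter.mem_comap] at h1
    obtain ⟨U, hU, hUs⟩ := h1
    refine ⟨U, hU, fun w hw hwΛ => ?_⟩
    have h2 : (⟨w, hwΛ⟩ : Λ) ∈ ({⟨u z₀ - z₀, hm z₀ hz₀⟩} : Set Λ) := hUs hw
    exact congrArg Subtype.val h2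
  obtain ⟨U, hU, hUΛ⟩ := hd
  have hc : ContinuousAt (fun z => u z - z) z₀ :=
    (hu.continuousAt (hs.mem_nhds hz₀)).sub continuousAt_id
  have h2 : ∀ᶠ z in 𝓝 z₀, u z = z + (u z₀ - z₀) := by
    filter_upwards [hc.eventually hU, hs.mem_nhds hz₀] with z h3 h4
    rw [← hUΛ _ h3 (hm z h4)]
    abel
  have h3 : ContDiffAt ℂ ω (fun z => z + (u z₀ - z₀)) z₀ := by fun_prop
  exact (h3.congr_of_eventuallyEq h2).contDiffWithinAt

lemma IsLattice.isManifold (h : IsLattice Λ) :
    letI := h.charts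
    IsManifold 𝓘(ℂ, E) ω (E ⧸ Λ) := by
  let _ := h.charts
  apply isManifold_of_contDiffOn
  have hl := h.isCoveringMap.isLocalHomeomorph
  have hat : ∀ e ∈ atlas E (E ⧸ Λ), ∃ a, e = hl.localInverseAt a := by
    rintro _ ⟨q, rfl⟩
    exact ⟨_, by rw [chartAt_self_eq, OpenPartialHomeomorph.trans_refl]⟩
  intro e e' he he'
  obtain ⟨a, rfl⟩ := hat e he
  obtain ⟨b, rfl⟩ := hat e' he'
  have key : ∀ e : OpenPartialHomeomorph E E, (∀ z ∈ e.source, e z - z ∈ Λ) →
      ContDiffOn ℂ ω (𝓘(ℂ, E) ∘ e ∘ 𝓘(ℂ, E).symm) (𝓘(ℂ, E).symm ⁻¹' e.source ∩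
        Set.range 𝓘(ℂ, E)) := by
    intro e he
    have h1 := h.contDiffOn e.open_source e.continuousOn he
    simpa using h1
  apply key
  intro z hz
  rw [OpenPartialHomeomorph.trans_source, OpenPartialHomeomorph.symm_source] at hz
  have h1 := hl.apply_localInverseAt_of_mem (x := b) hz.2
  have h2 : (hl.localInverseAt a).symm z = (QuotientAddGroup.mk z : E ⧸ Λ) := by
    rw [hl.localInverseAt_symm]
  have h3 : (QuotientAddGroup.mk (((hl.localInverseAt a).symm.trans (hl.localInverseAt b)) z) :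
      E ⧸ Λ) = QuotientAddGroup.mk z := by
    rw [← h2]
    exact h1
  rw [eq_comm, QuotientAddGroup.eq, add_comm, ← sub_eq_add_neg] at h3
  exact h3

lemma IsLattice.infinite_fibre [Nontrivial E] (h : IsLattice Λ) (y : E ⧸ Λ) :
    ((QuotientAddGroup.mk (s := Λ)) ⁻¹' {y}).Infinite := by
  intro hfin
  obtain ⟨e, rfl⟩ := QuotientAddGroup.mk_surjective y
  have hΛ : (Λ : Set E).Finite := by
    apply Set.Finite.of_finite_image (f := fun z => e + z) (hfin.subset ?_)
      (add_right_injective e).injOn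
    rintro _ ⟨z, hz, rfl⟩
    rw [Set.mem_preimage, Set.mem_singleton_iff, eq_comm, QuotientAddGroup.eq]
    simpa using hz
  have hbot : ∀ z ∈ Λ, z = 0 := by
    intro z hz
    by_contra hne
    have h1 : Function.Injective (fun n : ℤ => n • z) := by
      intro a b hab
      have h2 : ((a - b : ℤ) : ℂ) • z = 0 := by
        rw [Int.cast_smul_eq_zsmul, sub_smul, sub_eq_zero]
        exact hab
      rcases smul_eq_zero.1 h2 with h3 | h3
      · exact sub_eq_zero.1 (Int.cast_eq_zero.1 h3)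
      · exact absurd h3 hne
    exact Set.infinite_of_injective_forall_mem h1 (fun n => Λ.zsmul_mem hz n) hΛ
  have hinj : Function.Injective (QuotientAddGroup.mk (s := Λ)) := by
    intro a b hab
    rw [QuotientAddGroup.eq] at hab
    have := hbot _ hab
    exact (neg_add_eq_zero.1 this)
  have hcov := h.cov
  have := h.cocompact
  let φ : E ≃ₜ E ⧸ Λ := (Equiv.ofBijective _ ⟨hinj, QuotientAddGroup.mk_surjective⟩
    |>.toHomeomorphOfContinuousOpen hcov.isCoveringMap.continuous hcov.isCoveringMap.isOpenMap)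
  have hE : CompactSpace E := φ.symm.compactSpace
  have : NoncompactSpace E := NormedSpace.noncompactSpace ℂ E
  exact noncompact_univ E isCompact_univ

/-- the covering of a torus by a real vector space -/
lemma IsLattice.exists_covering [FiniteDimensional ℂ E] (h : IsLattice Λ) :
    ∃ (m : ℕ) (p : (Fin m → ℝ) → E ⧸ Λ), IsCoveringMap p ∧ ∀ y, Nonempty (p ⁻¹' {y}) := by
  let L : (Fin (Module.finrank ℝ E) → ℝ) ≃L[ℝ] E :=
    ContinuousLinearEquiv.ofFinrankEq (by simp)
  refine ⟨_, _, h.isCoveringMap.comp_homeomorph L.toHomeomorph, fun y => ?_⟩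
  obtain ⟨e, rfl⟩ := QuotientAddGroup.mk_surjective y
  exact ⟨⟨L.symm e, by simp⟩⟩

/-- the covering of a torus by a real vector space -/
lemma IsLattice.exists_covering_infinite [FiniteDimensional ℂ E] [Nontrivial E]
    (h : IsLattice Λ) : ∃ (m : ℕ) (p : (Fin m → ℝ) → E ⧸ Λ), IsCoveringMap p ∧
      ∀ y, (p ⁻¹' {y}).Infinite := by
  let L : (Fin (Module.finrank ℝ E) → ℝ) ≃L[ℝ] E :=
    ContinuousLinearEquiv.ofFinrankEq (by simp)
  refine ⟨_, _, h.isCoveringMap.comp_homeomorph L.toHomeomorph, fun y => ?_⟩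
  rw [Set.preimage_comp]
  intro hfin
  apply h.infinite_fibre y
  refine (hfin.image L.toHomeomorph).subset ?_
  intro z hz
  refine ⟨L.symm z, ?_, by simp⟩
  simpa using hz

/-- The lattice of Gaussian integers. -/
def gauss : AddSubgroup ℂ where
  carrier := {z | ∃ a b : ℤ, z = a + b * Complex.I}
  add_mem' := by
    rintro _ _ ⟨a, b, rfl⟩ ⟨c, d, rfl⟩
    exact ⟨a + c, b + d, by push_cast; ring⟩
  zero_mem' := ⟨0, 0, by simp⟩
  neg_mem' := by
    rintro _ ⟨a, b, rfl⟩
    exact ⟨-a, -b, by push_cast; ring⟩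

lemma gauss_isLattice : IsLattice gauss := by
  constructor
  · rw [isDiscrete_iff_forall_mem_exists_isOpen]
    rintro _ ⟨a, b, rfl⟩
    refine ⟨Metric.ball ((a : ℂ) + b * Complex.I) 1, Metric.isOpen_ball, ?_⟩
    ext w
    constructor
    · rintro ⟨hw, c, d, rfl⟩
      rw [Metric.mem_ball, Complex.dist_eq] at hw
      have h1 := (Complex.abs_re_le_norm _).trans_lt hw
      have h2 := (Complex.abs_im_le_norm _).trans_lt hw
      simp at h1 h2
      have h3 : c = a := by
        have h4 : |((c - a : ℤ) : ℝ)| < 1 := by push_cast; exact h1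
        rw [← Int.cast_abs] at h4
        have h5 : |c - a| < 1 := by exact_mod_cast h4
        rw [Int.abs_lt_one_iff] at h5
        lia
      have h4 : d = b := by
        have h4 : |((d - b : ℤ) : ℝ)| < 1 := by push_cast; exact h2
        rw [← Int.cast_abs] at h4
        have h5 : |d - b| < 1 := by exact_mod_cast h4
        rw [Int.abs_lt_one_iff] at h5
        lia
      rw [h3, h4]
      rfl
    · rintro rfl
      exact ⟨Metric.mem_ball_self one_pos, a, b, rfl⟩
  · have hK : IsCompact ((fun q : ℝ × ℝ => (q.1 : ℂ) + q.2 * Complex.I) ''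
        (Set.Icc 0 1 ×ˢ Set.Icc 0 1)) :=
      (isCompact_Icc.prod isCompact_Icc).image (by fun_prop)
    have h1 : (QuotientAddGroup.mk (s := gauss)) '' ((fun q : ℝ × ℝ => (q.1 : ℂ) +
        q.2 * Complex.I) '' (Set.Icc 0 1 ×ˢ Set.Icc 0 1)) = Set.univ := by
      rw [Set.eq_univ_iff_forall]
      intro y
      obtain ⟨z, rfl⟩ := QuotientAddGroup.mk_surjective y
      refine ⟨_, ⟨(Int.fract z.re, Int.fract z.im), ⟨⟨Int.fract_nonneg _,
        (Int.fract_lt_one _).le⟩, ⟨Int.fract_nonneg _, (Int.fract_lt_one _).le⟩⟩, rfl⟩, ?_⟩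
      rw [QuotientAddGroup.eq]
      refine ⟨⌊z.re⌋, ⌊z.im⌋, ?_⟩
      apply Complex.ext
      · have := Int.floor_add_fract z.re
        simp
        linarith
      · have := Int.floor_add_fract z.im
        simp
        linarith
    refine ⟨?_⟩
    rw [← h1]
    exact hK.image continuous_quotient_mk'

end

end WS
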