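import Pool.Agent.helper18.WS.Defs

open TopologicalSpace Topology Set Filter
open scoped Manifold ContDiff

set_option linter.unusedVariables false
set_option linter.unusedSectionVars false

namespace WS

noncomputable section

section OneVar

lemma countable_zeros {Ω : Set ℂ} (hΩ : IsOpen Ω) (hc : IsPreconnected Ω) {h : ℂ → ℂ}
    (hh : DifferentiableOn ℂ h Ω) {t₀ : ℂ} (ht₀ : t₀ ∈ Ω) (h0 : h t₀ ≠ 0) :
    ({t | h t = 0} ∩ Ω).Countable := by
  have han : AnalyticOnNhd ℂ h Ω := hh.analyticOnNhd hΩ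
  rcases han.eqOn_zero_or_eventually_ne_zero_of_preconnected hc with h1 | h1
  · exact absurd (h1 ht₀) h0
  · have h2 : ({t | h t = 0})ᶜ ∈ codiscreteWithin Ω := h1
    have h3 := isDiscrete_of_codiscreteWithin h2
    exact (HereditarilyLindelofSpace.isLindelof _).countable_of_isDiscrete h3

/-- In a convex open subset of the plane, one may join `0` to `1` avoiding a countable set. -/
lemma convex_diff_countable {Ω : Set ℂ} (hΩ : IsOpen Ω) (hc : Convex ℝ Ω) (h0 : (0 : ℂ) ∈ Ω)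
    (h1 : (1 : ℂ) ∈ Ω) {S : Set ℂ} (hS : S.Countable) (h0S : (0 : ℂ) ∉ S) (h1S : (1 : ℂ) ∉ S) :
    ∃ K : Set ℂ, IsPreconnected K ∧ K ⊆ Ω \ S ∧ (0 : ℂ) ∈ K ∧ (1 : ℂ) ∈ K := by
  let c : ℝ → ℂ := fun s => ⟨1 / 2, s⟩
  have hc0 : c 0 ∈ Ω := by
    have h2 := hc h0 h1 (a := 1 / 2) (b := 1 / 2) (by norm_num) (by norm_num) (by norm_num)
    have h3 : c 0 = (1 / 2 : ℝ) • (0 : ℂ) + (1 / 2 : ℝ) • (1 : ℂ) := by
      apply Complex.ext <;> simp [c]
    rw [h3]
    exact h2
  have hcc : Continuous c := by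
    have : c = fun s : ℝ => (1 / 2 : ℂ) + s * Complex.I := by
      funext s
      apply Complex.ext <;> simp [c]
    rw [this]
    fun_prop
  have hnear : ∀ᶠ s in 𝓝 (0 : ℝ), c s ∈ Ω := hcc.continuousAt.eventually (hΩ.mem_nhds hc0)
  obtain ⟨ε, hε, hball⟩ := Metric.eventually_nhds_iff_ball.1 hnear
  let g : ℂ → ℝ := fun z => z.im / (2 * min z.re (1 - z.re))
  have hcount : (g '' S).Countable := hS.image g
  obtain ⟨s, hsball, hs⟩ : ∃ s ∈ Metric.ball (0 : ℝ) ε, s ∉ g '' S := by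
    obtain ⟨s, hs1, hs2⟩ := (hcount.dense_compl ℝ).exists_mem_open Metric.isOpen_ball
      ⟨0, Metric.mem_ball_self hε⟩
    exact ⟨s, hs2, hs1⟩
  have hcs := hball s hsball
  refine ⟨segment ℝ 0 (c s) ∪ segment ℝ (c s) 1, ?_, ?_, Or.inl (left_mem_segment ℝ _ _),
    Or.inr (right_mem_segment ℝ _ _)⟩
  · exact ((convex_segment _ _).isPreconnected).union (c s) (right_mem_segment ℝ _ _)
      (left_mem_segment ℝ _ _) ((convex_segment _ _).isPreconnected)
  · rintro z (hz | hz)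
    · refine ⟨hc.segment_subset h0 hcs hz, fun hzS => ?_⟩
      obtain ⟨a, b, ha, hb, hab, rfl⟩ := hz
      rcases hb.eq_or_lt with hb0 | hb0
      · subst hb0
        simp at hzS
        exact h0S hzS
      · apply hs
        refine ⟨_, hzS, ?_⟩
        simp only [g, c, smul_zero, zero_add]
        have hre : (b • (⟨1 / 2, s⟩ : ℂ)).re = b / 2 := by simp; ring
        have him : (b • (⟨1 / 2, s⟩ : ℂ)).im = b * s := by simp
        rw [hre, him, min_eq_left (by linarith)]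
        field_simp
    · refine ⟨hc.segment_subset hcs h1 hz, fun hzS => ?_⟩
      obtain ⟨a, b, ha, hb, hab, rfl⟩ := hz
      rcases ha.eq_or_lt with ha0 | ha0
      · subst ha0
        have : b = 1 := by linarith
        subst this
        simp at hzS
        exact h1S hzS
      · apply hs
        refine ⟨_, hzS, ?_⟩
        simp only [g, c]
        have hre : (a • (⟨1 / 2, s⟩ : ℂ) + b • (1 : ℂ)).re = a / 2 + b := by simp; ring
        have him : (a • (⟨1 / 2, s⟩ : ℂ) + b • (1 : ℂ)).im = a * s := by simp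
        rw [hre, him, min_eq_right (by linarith)]
        have hb' : b = 1 - a := by linarith
        subst hb'
        have h5 : 2 * (1 - (a / 2 + (1 - a))) = a := by ring
        rw [h5]
        field_simp

end OneVar

section Ball

variable {E : Type} [NormedAddCommGroup E] [NormedSpace ℂ E]

/-- The preimage of a convex open set by a complex line. -/
lemma line_prop {B : Set E} (hB : IsOpen B) (hc : Convex ℝ B) (a b : E) :
    IsOpen {t : ℂ | a + t • (b - a) ∈ B} ∧ Convex ℝ {t : ℂ | a + t • (b - a) ∈ B} := by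
  constructor
  · exact hB.preimage (by fun_prop)
  · intro t ht s hs u v hu hv huv
    have h1 := hc ht hs hu hv huv
    change a + (u • t + v • s) • (b - a) ∈ B
    convert h1 using 1
    have h2 : a = (u + v) • a := by rw [huv, one_smul]
    rw [smul_add, smul_add, add_smul, smul_assoc, smul_assoc]
    nth_rewrite 1 [h2]
    rw [add_smul]
    abel

lemma line_diff {B : Set E} (a b : E) {g : E → ℂ} (hg : DifferentiableOn ℂ g B) :
    DifferentiableOn ℂ (fun t : ℂ => g (a + t • (b - a))) {t : ℂ | a + t • (b - a) ∈ B} :=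
  hg.comp (by fun_prop) (fun t ht => ht)

/-- The complement of an analytic set in a convex open set is connected. -/
lemma ball_diff_preconnected {B : Set E} (hB : IsOpen B) (hc : Convex ℝ B) {ι : Type}
    {g : ι → E → ℂ} (hg : ∀ i, DifferentiableOn ℂ (g i) B) :
    IsPreconnected (B \ {z | ∀ i, g i z = 0}) := by
  apply isPreconnected_of_forall_pair
  rintro a ⟨haB, ha⟩ b ⟨hbB, hb⟩
  obtain ⟨i, hi⟩ : ∃ i, g i a ≠ 0 := by
    by_contra h
    push Not at h
    exact ha h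
  obtain ⟨hΩ, hΩc⟩ := line_prop hB hc a b
  have hcount := countable_zeros hΩ hΩc.isPreconnected (line_diff a b (hg i)) (t₀ := 0)
    (by simpa using haB) (by simpa using hi)
  let S : Set ℂ := {t : ℂ | ∀ j, g j (a + t • (b - a)) = 0} ∩ {t : ℂ | a + t • (b - a) ∈ B}
  have hsub : S ⊆ {t : ℂ | (fun t : ℂ => g i (a + t • (b - a))) t = 0} ∩
      {t : ℂ | a + t • (b - a) ∈ B} := fun t ht => ⟨ht.1 i, ht.2⟩
  have hS : S.Countable := hcount.mono hsub
  obtain ⟨K, hK, hKΩ, h0, h1⟩ := convex_diff_countable hΩ hΩc (by simpa using haB)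
    (by simpa using hbB) hS (fun h => ha (by simpa using h.1)) (fun h => hb (by simpa using h.1))
  refine ⟨(fun t : ℂ => a + t • (b - a)) '' K, ?_, ⟨0, h0, by simp⟩, ⟨1, h1, by simp⟩,
    hK.image _ (by fun_prop)⟩
  rintro z ⟨t, ht, rfl⟩
  exact ⟨(hKΩ ht).1, fun h => (hKΩ ht).2 ⟨h, (hKΩ ht).1⟩⟩

/-- Identity theorem in a convex open set. -/
lemma ball_identity {B : Set E} (hB : IsOpen B) (hc : Convex ℝ B)
    {g : E → ℂ} (hg : DifferentiableOn ℂ g B) {a : E} (ha : a ∈ B)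
    (h0 : ∀ᶠ z in 𝓝 a, g z = 0) : ∀ b ∈ B, g b = 0 := by
  intro b hb
  obtain ⟨hΩ, hΩc⟩ := line_prop hB hc a b
  have han := (line_diff a b hg).analyticOnNhd hΩ
  have h1 : ∀ᶠ t in 𝓝 (0 : ℂ), g (a + t • (b - a)) = 0 := by
    have hcont : ContinuousAt (fun t : ℂ => a + t • (b - a)) 0 := by fun_prop
    have h4 : ∀ᶠ z in 𝓝 ((fun t : ℂ => a + t • (b - a)) 0), g z = 0 := by simpa using h0
    exact hcont.eventually h4
  have h2 := han.eqOn_zero_of_preconnected_of_eventuallyEq_zero hΩc.isPreconnected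
    (show (0 : ℂ) ∈ {t : ℂ | a + t • (b - a) ∈ B} by simpa using ha) h1
  have h3 := h2 (show (1 : ℂ) ∈ {t : ℂ | a + t • (b - a) ∈ B} by simpa using hb)
  simpa using h3

end Ball

section Manifold

variable {E : Type} [NormedAddCommGroup E] [NormedSpace ℂ E]
  {M : Type} [TopologicalSpace M] [ChartedSpace E M]

variable [IsManifold 𝓘(ℂ, E) 1 M]

/-- local structure of an analytic set in a chart -/
lemma analytic_local {Z : Set M} (hZ : IsAnalyticSet E Z) (y : M) {O : Set M} (hO : IsOpen O)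
    (hy : y ∈ O) : ∃ (c : OpenPartialHomeomorph M E) (B : Set E) (r : ℕ) (g : Fin r → E → ℂ),
      IsOpen B ∧ Convex ℝ B ∧ B ⊆ c.target ∧ y ∈ c.source ∧ c y ∈ B ∧ c.symm '' B ⊆ O ∧
      (∀ i, DifferentiableOn ℂ (g i) B) ∧ ∀ z ∈ B, (c.symm z ∈ Z ↔ ∀ i, g i z = 0) := by
  obtain ⟨O', hO', hyO', r, f, hf, hZO⟩ := hZ y
  let c : OpenPartialHomeomorph M E := chartAt E y
  have hyc : y ∈ c.source := mem_chart_source E y
  have hnhds : c.symm ⁻¹' (O ∩ O') ∩ c.target ∈ 𝓝 (c y) := by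
    apply inter_mem
    · apply (c.symm.continuousAt (c.map_source hyc)).preimage_mem_nhds
      rw [c.left_inv hyc]
      exact (hO.inter hO').mem_nhds ⟨hy, hyO'⟩
    · exact c.open_target.mem_nhds (c.map_source hyc)
  obtain ⟨ρ, hρ, hball⟩ := Metric.mem_nhds_iff.1 hnhds
  refine ⟨c, Metric.ball (c y) ρ, r, fun i => f i ∘ c.symm, Metric.isOpen_ball,
    convex_ball _ _, fun z hz => (hball hz).2, hyc, Metric.mem_ball_self hρ, ?_, ?_, ?_⟩
  · rintro _ ⟨z, hz, rfl⟩
    exact (hball hz).1.1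
  · intro i
    have h1 : MDifferentiableOn 𝓘(ℂ, E) 𝓘(ℂ, E) c.symm c.target :=
      mdifferentiableOn_atlas_symm (chart_mem_atlas E y)
    have h2 : MDifferentiableOn 𝓘(ℂ, E) 𝓘(ℂ, ℂ) (f i ∘ c.symm) (Metric.ball (c y) ρ) :=
      (hf i).comp (h1.mono (fun z hz => (hball hz).2)) (fun z hz => (hball hz).1.2)
    exact mdifferentiableOn_iff_differentiableOn.1 h2
  · intro z hz
    have hz' : c.symm z ∈ O' := (hball hz).1.2
    constructor
    · intro h
      have h3 : c.symm z ∈ Z ∩ O' := ⟨h, hz'⟩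
      rw [hZO] at h3
      exact h3.2
    · intro h
      have h3 : c.symm z ∈ {w ∈ O' | ∀ i, f i w = 0} := ⟨hz', h⟩
      rw [← hZO] at h3
      exact h3.1

lemma IsAnalyticSet.isClosed {Z : Set M} (hZ : IsAnalyticSet E Z) : IsClosed Z := by
  rw [← isOpen_compl_iff, isOpen_iff_mem_nhds]
  intro y hy
  obtain ⟨c, B, r, g, hB, hBc, hBt, hyc, hyB, hBO, hg, hZg⟩ := analytic_local hZ y isOpen_univ
    (mem_univ y)
  have hyZ : c.symm (c y) ∉ Z := by rwa [c.left_inv hyc]
  rw [hZg _ hyB] at hyZ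
  push Not at hyZ
  obtain ⟨i, hi⟩ := hyZ
  have h1 : ∀ᶠ z in 𝓝 (c y), g i z ≠ 0 :=
    ((hg i).continuousOn.continuousAt (hB.mem_nhds hyB)).eventually_ne hi
  have h2 : ∀ᶠ w in 𝓝 y, g i (c w) ≠ 0 := (c.continuousAt hyc).eventually h1
  have h3 : ∀ᶠ w in 𝓝 y, c w ∈ B := (c.continuousAt hyc).eventually (hB.mem_nhds hyB)
  filter_upwards [h2, h3, c.open_source.mem_nhds hyc] with w h4 h5 h6 h7
  rw [← c.left_inv h6, hZg _ h5] at h7
  exact h4 (h7 i)

/-- `M \ Z` is locally connected at the points of `Z`. -/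
lemma IsAnalyticSet.locally_conn {Z : Set M} (hZ : IsAnalyticSet E Z) (y : M) {O : Set M}
    (hO : IsOpen O) (hy : y ∈ O) : ∃ V : Set M, IsOpen V ∧ y ∈ V ∧ V ⊆ O ∧
      IsPreconnected (V \ Z) := by
  obtain ⟨c, B, r, g, hB, hBc, hBt, hyc, hyB, hBO, hg, hZg⟩ := analytic_local hZ y hO hy
  refine ⟨c.symm '' B, c.symm.isOpen_image_of_subset_source hB hBt, ⟨c y, hyB, c.left_inv hyc⟩,
    hBO, ?_⟩
  have h1 : c.symm '' B \ Z = c.symm '' (B \ {z | ∀ i, g i z = 0}) := by
    ext w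
    constructor
    · rintro ⟨⟨z, hz, rfl⟩, hw⟩
      exact ⟨z, ⟨hz, fun h => hw ((hZg z hz).2 h)⟩, rfl⟩
    · rintro ⟨z, ⟨hz, hz'⟩, rfl⟩
      exact ⟨⟨z, hz, rfl⟩, fun h => hz' ((hZg z hz).1 h)⟩
  rw [h1]
  exact (ball_diff_preconnected hB hBc hg).image _
    (c.symm.continuousOn.mono (fun z hz => hBt hz.1))

/-- An analytic subset with nonempty interior of a connected manifold is everything. -/
lemma IsAnalyticSet.eq_univ [PreconnectedSpace M] {Z : Set M} (hZ : IsAnalyticSet E Z)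
    (hint : (interior Z).Nonempty) : Z = univ := by
  have hcl : IsClopen (interior Z) := by
    refine ⟨?_, isOpen_interior⟩
    rw [← closure_subset_iff_isClosed]
    intro y hy
    obtain ⟨c, B, r, g, hB, hBc, hBt, hyc, hyB, hBO, hg, hZg⟩ := analytic_local hZ y isOpen_univ
      (mem_univ y)
    have hV : IsOpen (c.symm '' B) := c.symm.isOpen_image_of_subset_source hB hBt
    obtain ⟨w, ⟨b, hbB, rfl⟩, hwZ⟩ := mem_closure_iff.1 hy _ hV ⟨c y, hyB, c.left_inv hyc⟩
    rw [mem_interior_iff_mem_nhds]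
    filter_upwards [hV.mem_nhds ⟨c y, hyB, c.left_inv hyc⟩]
    rintro _ ⟨z, hz, rfl⟩
    rw [hZg z hz]
    intro i
    have h1 : ∀ᶠ z in 𝓝 b, g i z = 0 := by
      have h2 : ∀ᶠ z in 𝓝 b, c.symm z ∈ Z :=
        (c.symm.continuousAt (hBt hbB)).eventually (mem_interior_iff_mem_nhds.1 hwZ)
      filter_upwards [h2, hB.mem_nhds hbB] with z h3 h4
      exact (hZg z h4).1 h3 i
    exact ball_identity hB hBc (hg i) hbB h1 z hz
  rcases isClopen_iff.1 hcl with h | h
  · rw [h] at hint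
    exact absurd hint Set.not_nonempty_empty
  · exact interior_eq_univ.1 h

end Manifold

end

end WS
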