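import Pool.Agent.helper18.WS.Defs

open CategoryTheory TopologicalSpace Topology Limits Opposite

namespace WS

noncomputable section

variable {X : Type} [TopologicalSpace X]

/-- Restriction of sections. -/
def res (F : Sh X) {U V : Opens X} (h : V ≤ U) : Sec F U →ₗ[ℂ] Sec F V :=
  (F.obj.map (homOfLE h).op).hom

def app {F G : Sh X} (f : F ⟶ G) (U : Opens X) : Sec F U →ₗ[ℂ] Sec G U :=
  (f.hom.app (op U)).hom

def stk {F G : Sh X} (f : F ⟶ G) (y : X) : Stk F y →ₗ[ℂ] Stk G y :=
  ((TopCat.Presheaf.stalkFunctor (X := TopCat.of X) (ModuleCat.{0} ℂ) y).map f.hom).hom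

@[simp] lemma res_self (F : Sh X) {U : Opens X} (h : U ≤ U) (s : Sec F U) : res F h s = s := by
  have : (homOfLE h).op = 𝟙 (op U) := rfl
  unfold res
  rw [this]
  simp

@[simp] lemma res_res (F : Sh X) {U V W : Opens X} (h : V ≤ U) (h' : W ≤ V) (s : Sec F U) :
    res F h' (res F h s) = res F (h'.trans h) s := by
  have : (homOfLE (h'.trans h)).op = (homOfLE h).op ≫ (homOfLE h').op := rfl
  unfold res
  rw [this]
  simp

@[simp] lemma germ_res (F : Sh X) {U V : Opens X} (h : V ≤ U) (y : X) (hy : y ∈ V) (s : Sec F U) :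
    germ F y hy (res F h s) = germ F y (h hy) s :=
  TopCat.Presheaf.germ_res_apply (X := TopCat.of X) F.presheaf (homOfLE h) y hy s

lemma app_res {F G : Sh X} (f : F ⟶ G) {U V : Opens X} (h : V ≤ U) (s : Sec F U) :
    app f V (res F h s) = res G h (app f U s) := by
  have := f.hom.naturality (homOfLE h).op
  exact congrArg (fun φ => φ.hom s) this

@[simp] lemma stk_germ {F G : Sh X} (f : F ⟶ G) {U : Opens X} (y : X) (hy : y ∈ U) (s : Sec F U) :
    stk f y (germ F y hy s) = germ G y hy (app f U s) :=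
  TopCat.Presheaf.stalkFunctor_map_germ_apply (X := TopCat.of X) U y hy f.hom s

@[simp] lemma app_comp {F G H : Sh X} (f : F ⟶ G) (g : G ⟶ H) (U : Opens X) (s : Sec F U) :
    app (f ≫ g) U s = app g U (app f U s) := rfl

@[simp] lemma app_id {F : Sh X} (U : Opens X) (s : Sec F U) :
    app (𝟙 F) U s = s := rfl

@[simp] lemma app_zero {F G : Sh X} (U : Opens X) (s : Sec F U) :
    app (0 : F ⟶ G) U s = 0 := rfl

@[simp] lemma stk_comp {F G H : Sh X} (f : F ⟶ G) (g : G ⟶ H) (y : X) (s : Stk F y) :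
    stk (f ≫ g) y s = stk g y (stk f y s) := by
  have : (f ≫ g).hom = f.hom ≫ g.hom := rfl
  unfold stk
  rw [this, Functor.map_comp]
  rfl

@[simp] lemma stk_id {F : Sh X} (y : X) (s : Stk F y) :
    stk (𝟙 F) y s = s := by
  have : (𝟙 F : F ⟶ F).hom = 𝟙 _ := rfl
  unfold stk
  rw [this, CategoryTheory.Functor.map_id]
  rfl

lemma germ_surj (F : Sh X) (y : X) (t : Stk F y) :
    ∃ (U : Opens X) (hy : y ∈ U) (s : Sec F U), germ F y hy s = t :=
  TopCat.Presheaf.exists_germ_eq (X := TopCat.of X) F.presheaf t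

lemma germ_surj_le (F : Sh X) (y : X) (t : Stk F y) {V : Opens X} (hV : y ∈ V) :
    ∃ (U : Opens X) (_ : U ≤ V) (hy : y ∈ U) (s : Sec F U), germ F y hy s = t := by
  obtain ⟨U, h, hy, s, hs⟩ := TopCat.Presheaf.exists_le_germ_eq (X := TopCat.of X) F.presheaf t hV
  exact ⟨U, h, hy, s, hs⟩

lemma germ_eq (F : Sh X) {U V : Opens X} (y : X) (hU : y ∈ U) (hV : y ∈ V)
    (s : Sec F U) (t : Sec F V) (h : germ F y hU s = germ F y hV t) :
    ∃ (W : Opens X) (_ : y ∈ W) (iU : W ≤ U) (iV : W ≤ V), res F iU s = res F iV t := by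
  obtain ⟨W, hW, iU, iV, e⟩ := TopCat.Presheaf.germ_eq (X := TopCat.of X) F.presheaf y hU hV s t h
  exact ⟨W, hW, iU.le, iV.le, e⟩

lemma germ_eq_same (F : Sh X) {U : Opens X} (y : X) (hU : y ∈ U)
    (s : Sec F U) (t : Sec F U) (h : germ F y hU s = germ F y hU t) :
    ∃ (W : Opens X) (_ : y ∈ W) (iU : W ≤ U), res F iU s = res F iU t := by
  obtain ⟨W, hW, iU, iV, e⟩ := germ_eq F y hU hU s t h
  exact ⟨W, hW, iU, e⟩

lemma sec_ext (F : Sh X) {U : Opens X} (s t : Sec F U)
    (h : ∀ (y : X) (hy : y ∈ U), germ F y hy s = germ F y hy t) : s = t :=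
  TopCat.Presheaf.section_ext (X := TopCat.of X) F U s t h

/-- Gluing: a family of germs which is locally given by sections is given by a section. -/
lemma glue (F : Sh X) (U : Opens X) (a : ∀ y : X, Stk F y)
    (h : ∀ y ∈ U, ∃ (V : Opens X) (_ : y ∈ V) (_ : V ≤ U) (s : Sec F V),
      ∀ z (hz : z ∈ V), germ F z hz s = a z) :
    ∃ s : Sec F U, ∀ z (hz : z ∈ U), germ F z hz s = a z := by
  choose V hyV hVU s hs using h
  let V' : U → Opens X := fun y => V y.1 y.2
  let s' : ∀ y : U, Sec F (V' y) := fun y => s y.1 y.2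
  have hcov : U ≤ iSup V' := by
    intro y hy
    simp only [Opens.mem_iSup]
    exact ⟨⟨y, hy⟩, hyV y hy⟩
  obtain ⟨t, ht, -⟩ := TopCat.Sheaf.existsUnique_gluing' (X := TopCat.of X) F V' U
    (fun i => homOfLE (hVU i.1 i.2)) hcov s' (by
      intro i j
      refine TopCat.Presheaf.section_ext (X := TopCat.of X) F _ _ _ ?_
      intro z hz
      erw [TopCat.Presheaf.germ_res_apply (X := TopCat.of X), TopCat.Presheaf.germ_res_apply (X := TopCat.of X)]
      exact (hs i.1 i.2 z hz.1).trans (hs j.1 j.2 z hz.2).symm)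
  refine ⟨t, fun z hz => ?_⟩
  have h1 := ht ⟨z, hz⟩
  have h2 : germ F z (hyV z hz) (res F (hVU z hz) t) = germ F z (hyV z hz) (s z hz) :=
    congrArg _ h1
  rw [germ_res] at h2
  rw [h2]
  exact hs z hz z (hyV z hz)

lemma hom_ext_app {F G : Sh X} {f g : F ⟶ G} (h : ∀ U (s : Sec F U), app f U s = app g U s) :
    f = g := by
  apply ObjectProperty.hom_ext
  apply NatTrans.ext
  funext U
  induction U with | op U =>
  apply ModuleCat.hom_ext
  ext s
  exact h U s

lemma hom_ext_stk {F G : Sh X} {f g : F ⟶ G} (h : ∀ y (s : Stk F y), stk f y s = stk g y s) :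
    f = g := by
  apply hom_ext_app
  intro U s
  apply sec_ext
  intro y hy
  rw [← stk_germ, ← stk_germ, h]

/-- Construct a morphism of sheaves from linear maps on sections compatible with restriction. -/
def homMk {F G : Sh X} (φ : ∀ U : Opens X, Sec F U →ₗ[ℂ] Sec G U)
    (h : ∀ {U V : Opens X} (h : V ≤ U) (s : Sec F U), φ V (res F h s) = res G h (φ U s)) :
    F ⟶ G :=
  ⟨{ app := fun U => ModuleCat.ofHom (φ U.unop)
     naturality := by
      intro U V i
      apply ModuleCat.hom_ext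
      ext s
      exact h i.unop.le s }⟩

@[simp] lemma app_homMk {F G : Sh X} (φ : ∀ U : Opens X, Sec F U →ₗ[ℂ] Sec G U)
    (h : ∀ {U V : Opens X} (h : V ≤ U) (s : Sec F U), φ V (res F h s) = res G h (φ U s))
    (U : Opens X) (s : Sec F U) :
    app (homMk φ h) U s = φ U s := rfl

/-- Construct a morphism of sheaves from linear maps on stalks, which locally map sections
to sections. -/
lemma exists_hom_of_stk {F G : Sh X} (φ : ∀ y : X, Stk F y →ₗ[ℂ] Stk G y)
    (h : ∀ (U : Opens X) (s : Sec F U) (y : X) (_ : y ∈ U), ∃ (V : Opens X) (_ : y ∈ V)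
      (hVU : V ≤ U) (t : Sec G V), ∀ z (hz : z ∈ V), germ G z hz t = φ z (germ F z (hVU hz) s)) :
    ∃ f : F ⟶ G, ∀ y s, stk f y s = φ y s := by
  have key : ∀ (U : Opens X) (s : Sec F U), ∃ t : Sec G U, ∀ z (hz : z ∈ U),
      germ G z hz t = φ z (germ F z hz s) := by
    intro U s
    classical
    obtain ⟨t, ht⟩ := glue G U (fun y => if hy : y ∈ U then φ y (germ F y hy s) else 0) (by
      intro y hy
      obtain ⟨V, hV, hVU, t, ht⟩ := h U s y hy
      refine ⟨V, hV, hVU, t, fun z hz => ?_⟩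
      rw [ht, dif_pos (hVU hz)])
    refine ⟨t, fun z hz => ?_⟩
    rw [ht, dif_pos hz]
  choose ψ hψ using key
  refine ⟨homMk (fun U => { toFun := ψ U, map_add' := ?_, map_smul' := ?_ }) ?_, ?_⟩
  · intro s t
    apply sec_ext
    intro y hy
    rw [hψ, map_add, map_add, map_add, hψ, hψ]
  · intro c t
    apply sec_ext
    intro y hy
    rw [hψ, map_smul, map_smul, map_smul, hψ]
    rfl
  · intro U V hUV s
    apply sec_ext
    intro y hy
    rw [germ_res]
    change germ G y hy (ψ V _) = germ G y _ (ψ U s)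
    rw [hψ, hψ, germ_res]
  · intro y s
    obtain ⟨U, hy, t, rfl⟩ := germ_surj F y s
    rw [stk_germ, app_homMk]
    exact hψ U t y hy

lemma isIso_of_stk {F G : Sh X} (f : F ⟶ G) (h : ∀ y, Function.Bijective (stk f y)) : IsIso f := by
  have : ∀ y : X, IsIso ((TopCat.Presheaf.stalkFunctor (X := TopCat.of X) (ModuleCat.{0} ℂ) y).map f.hom) := by
    intro y
    rw [ConcreteCategory.isIso_iff_bijective]
    exact h y
  exact TopCat.Presheaf.isIso_of_stalkFunctor_map_iso (X := TopCat.of X) f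

lemma stk_bijective_of_isIso {F G : Sh X} (f : F ⟶ G) [IsIso f] (y : X) :
    Function.Bijective (stk f y) := by
  constructor
  · intro a b hab
    have := congrArg (stk (inv f) y) hab
    rwa [← stk_comp, ← stk_comp, IsIso.hom_inv_id, stk_id, stk_id] at this
  · intro b
    exact ⟨stk (inv f) y b, by rw [← stk_comp, IsIso.inv_hom_id, stk_id]⟩

/-- A criterion for short exactness. -/
lemma shortExact_mk {F G H : Sh X} (f : F ⟶ G) (g : G ⟶ H) (w : f ≫ g = 0)
    (hf : ∀ U (s : Sec F U), app f U s = 0 → s = 0)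
    (hfg : ∀ U (s : Sec G U), app g U s = 0 → ∃ t, app f U t = s)
    (hg : ∀ U (s : Sec H U) (y : X) (_ : y ∈ U), ∃ (V : Opens X) (_ : y ∈ V) (hVU : V ≤ U)
      (t : Sec G V), app g V t = res H hVU s) :
    (ShortComplex.mk f g w).ShortExact := by
  have hinj : ∀ U, Function.Injective (app f U) := fun U =>
    (injective_iff_map_eq_zero (app f U)).2 (hf U)
  have stk_inj : ∀ y, Function.Injective (stk f y) := by
    intro y
    rw [injective_iff_map_eq_zero]
    intro s hs
    obtain ⟨U, hy, t, rfl⟩ := germ_surj F y s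
    rw [stk_germ] at hs
    obtain ⟨W, hW, iU, e⟩ := germ_eq_same G y hy (app f U t) 0 (by rw [hs, map_zero])
    rw [← app_res, map_zero] at e
    have := hf W _ e
    rw [← germ_res F iU y hW, this, map_zero]
  have stk_surj : ∀ y, Function.Surjective (stk g y) := by
    intro y s
    obtain ⟨U, hy, t, rfl⟩ := germ_surj H y s
    obtain ⟨V, hV, hVU, t', ht'⟩ := hg U t y hy
    refine ⟨germ G y hV t', ?_⟩
    rw [stk_germ, ht', germ_res]
  refine { exact := ?_, mono_f := ?_, epi_g := ?_ }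
  · rw [TopCat.Sheaf.exact_iff_stalkFunctor_map_exact]
    intro y
    rw [ShortComplex.moduleCat_exact_iff]
    intro s hs
    obtain ⟨U, hy, t, rfl⟩ := germ_surj G y s
    have hs' : stk g y (germ G y hy t) = 0 := hs
    rw [stk_germ] at hs'
    obtain ⟨W, hW, iU, e⟩ := germ_eq_same H y hy (app g U t) 0 (by rw [hs', map_zero])
    rw [← app_res, map_zero] at e
    obtain ⟨t', ht'⟩ := hfg W _ e
    refine ⟨germ F y hW t', ?_⟩
    change stk f y _ = _
    rw [stk_germ, ht', germ_res]
  · have : ∀ y : X, Mono ((TopCat.Presheaf.stalkFunctor (X := TopCat.of X) (ModuleCat.{0} ℂ) y).map f.hom) := by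
      intro y
      exact ConcreteCategory.mono_of_injective _ (stk_inj y)
    exact TopCat.Presheaf.mono_of_stalk_mono (X := TopCat.of X) f
  · rw [← TopCat.Sheaf.isLocallySurjective_iff_epi]
    rw [TopCat.Presheaf.isLocallySurjective_iff]
    intro U s y hy
    obtain ⟨V, hV, hVU, t, ht⟩ := hg U s y hy
    exact ⟨V, hVU, ⟨t, ht⟩, hV⟩

end

end WS
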