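import Pool.Agent.helper18.WS.Coh

open CategoryTheory TopologicalSpace Topology Limits Opposite

set_option backward.isDefEq.respectTransparency false
set_option backward.isDefEq.respectTransparency.types false
set_option linter.unusedVariables false
set_option linter.unusedSectionVars false

universe w

namespace WS

noncomputable section

/-- One-dimensional Cousin argument. -/
lemma cousin {a b : ℝ} (hab : a ≤ b) (P : ℝ → ℝ → Prop)
    (hglue : ∀ s t u, a ≤ s → s ≤ t → t ≤ u → u ≤ b → P s t → P t u → P s u)
    (hloc : ∀ t ∈ Set.Icc a b, ∃ δ > 0, ∀ s u, t - δ < s → s ≤ u → u < t + δ → a ≤ s → u ≤ b →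
      P s u) : P a b := by
  choose! δ hδ hP using hloc
  obtain ⟨t, ht0, htm, ⟨N, hN⟩, hcov⟩ := exists_monotone_Icc_subset_open_cover_Icc hab
    (c := fun i : Set.Icc a b => {z : Set.Icc a b | i.1 - δ i.1 < z.1 ∧ z.1 < i.1 + δ i.1})
    (by
      intro i
      exact (isOpen_lt continuous_const continuous_subtype_val).inter
        (isOpen_lt continuous_subtype_val continuous_const))
    (by
      intro z _
      rw [Set.mem_iUnion]
      refine ⟨z, ?_, ?_⟩
      · have := hδ z.1 z.2
        change z.1 - δ z.1 < z.1
        linarith
      · have := hδ z.1 z.2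
        change z.1 < z.1 + δ z.1
        linarith)
  have key : ∀ n, P a (t n).1 := by
    intro n
    induction n with
    | zero =>
      have ha : a ∈ Set.Icc a b := ⟨le_rfl, hab⟩
      rw [ht0]
      exact hP a ha a a (by have := hδ a ha; linarith) le_rfl
        (by have := hδ a ha; linarith) le_rfl hab
    | succ n ih =>
      have hle : (t n).1 ≤ (t (n + 1)).1 := htm (Nat.le_succ n)
      refine hglue a (t n).1 (t (n + 1)).1 le_rfl (t n).2.1 hle (t (n + 1)).2.2 ih ?_
      obtain ⟨i, hi⟩ := hcov n
      have h1 := hi (show t n ∈ Set.Icc (t n) (t (n + 1)) from ⟨le_rfl, htm (Nat.le_succ n)⟩)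
      have h2 := hi (show t (n + 1) ∈ Set.Icc (t n) (t (n + 1)) from ⟨htm (Nat.le_succ n), le_rfl⟩)
      exact hP i.1 i.2 _ _ h1.1 hle h2.2 (t n).2.1 (t (n + 1)).2.2
  have := key N
  rwa [hN N le_rfl] at this

variable {X : Type} [TopologicalSpace X] {m : ℕ}

/-- pullback of a subset of `ℝ^m` to `X`. -/
def pb (ψ : OpenPartialHomeomorph X (Fin m → ℝ)) (S : Set (Fin m → ℝ)) : Set X :=
  ψ.source ∩ ψ ⁻¹' S

section

variable (ψ : OpenPartialHomeomorph X (Fin m → ℝ))

lemma pb_open {S : Set (Fin m → ℝ)} (hS : IsOpen S) : IsOpen (pb ψ S) :=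
  ψ.isOpen_inter_preimage hS

lemma pb_eq_image {S : Set (Fin m → ℝ)} (hS : S ⊆ ψ.target) : pb ψ S = ψ.symm '' S :=
  (ψ.symm_image_eq_source_inter_preimage hS).symm

lemma pb_compact {S : Set (Fin m → ℝ)} (hS : IsCompact S) (hSt : S ⊆ ψ.target) :
    IsCompact (pb ψ S) := by
  rw [pb_eq_image ψ hSt]
  exact hS.image_of_continuousOn (ψ.symm.continuousOn.mono hSt)

lemma pb_preconn {S : Set (Fin m → ℝ)} (hS : _root_.IsPreconnected S) (hSt : S ⊆ ψ.target) :
    _root_.IsPreconnected (pb ψ S) := by
  rw [pb_eq_image ψ hSt]
  exact hS.image _ (ψ.symm.continuousOn.mono hSt)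

lemma pb_nonempty {S : Set (Fin m → ℝ)} (hS : S.Nonempty) (hSt : S ⊆ ψ.target) :
    (pb ψ S).Nonempty := by
  rw [pb_eq_image ψ hSt]
  exact hS.image _

lemma pb_mono {S T : Set (Fin m → ℝ)} (h : S ⊆ T) : pb ψ S ⊆ pb ψ T :=
  fun z hz => ⟨hz.1, h hz.2⟩

lemma pb_union {S T : Set (Fin m → ℝ)} : pb ψ (S ∪ T) = pb ψ S ∪ pb ψ T := by
  ext z; simp [pb]; tauto

lemma pb_inter {S T : Set (Fin m → ℝ)} : pb ψ (S ∩ T) = pb ψ S ∩ pb ψ T := by
  ext z; simp [pb]; tauto

variable [T2Space X]

lemma pb_closed {S : Set (Fin m → ℝ)} (hS : IsCompact S) (hSt : S ⊆ ψ.target) :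
    IsClosed (pb ψ S) := (pb_compact ψ hS hSt).isClosed

lemma LC_pb_of_closed {S T : Set (Fin m → ℝ)} (hT : IsCompact T) (hTt : T ⊆ ψ.target)
    (h : T ⊆ S) : LC (pb ψ S) (pb ψ T) :=
  LC_of_closed (pb_mono ψ h) ⟨pb ψ T, pb_closed ψ hT hTt, (Set.inter_eq_right.2 (pb_mono ψ h)).symm⟩

variable [HasExt.{w} (Sh X)]

open Abelian

/-- acyclicity of closed boxes -/
lemma closedBox_acyclic_aux (a₀ b₀ : Fin m → ℝ) (hK : Set.Icc a₀ b₀ ⊆ ψ.target) (n : ℕ) :
    ∀ a b : Fin m → ℝ, a₀ ≤ a → a ≤ b → b ≤ b₀ →
    ∀ e : Ext (kk ((⊤ : Opens X) : Set X)) (kk (pb ψ (Set.Icc a b))) (n + 1), e = 0 := by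
  induction n with
  | zero => ?_
  | succ n ih => ?_
  all_goals
    intro a b ha hab hb e
    have hsub : ∀ c d : Fin m → ℝ, a ≤ c → d ≤ b → Set.Icc c d ⊆ ψ.target := fun c d hc hd =>
      (Set.Icc_subset_Icc (ha.trans hc) (hd.trans hb)).trans hK
    have hLC : ∀ c d c' d' : Fin m → ℝ, a ≤ c → d ≤ b → c ≤ c' → d' ≤ d →
        LC (pb ψ (Set.Icc c d)) (pb ψ (Set.Icc c' d')) := fun c d c' d' h1 h2 h3 h4 =>
      LC_pb_of_closed ψ isCompact_Icc (hsub _ _ (h1.trans h3) (h4.trans h2))
        (Set.Icc_subset_Icc h3 h4)
    -- the claim
    have claim : ∀ J : Finset (Fin m), ∀ z ∈ Set.Icc a b, ∃ δ > 0, ∀ c d : Fin m → ℝ,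
        ∀ (hc : a ≤ c) (hcd : c ≤ d) (hd : d ≤ b), (∀ i, i ∉ J → z i - δ < c i ∧ d i < z i + δ) →
        e.comp (Ext.mk₀ (mor (hLC a b c d le_rfl le_rfl hc hd))) (add_zero _) = 0 := by
      intro J
      induction J using Finset.induction_on with
      | empty =>
        intro z hz
        have hzt : z ∈ ψ.target := hsub a b le_rfl le_rfl hz
        obtain ⟨O', h, hy', h0⟩ := ext_locally_zero e (ψ.symm z) trivial
        have hnhds : ψ.symm ⁻¹' (O' : Set X) ∈ 𝓝 z :=
          (ψ.symm.continuousAt hzt).preimage_mem_nhds (O'.isOpen.mem_nhds hy')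
        obtain ⟨δ, hδ, hball⟩ := Metric.mem_nhds_iff.1 hnhds
        refine ⟨δ, hδ, fun c d hc hcd hd hcz => ?_⟩
        apply ext_eq_zero_of_restrict _ O' ?_ (pb ψ (Set.Icc c d))
          (pb_closed ψ isCompact_Icc (hsub c d hc hd)) ?_ ?_
        · have h3 : ((Ext.mk₀ (mor (LC_opens h))).comp e (zero_add _)).comp
            (Ext.mk₀ (mor (hLC a b c d le_rfl le_rfl hc hd))) (add_zero _) =
              (Ext.mk₀ (mor (LC_opens h))).comp (e.comp
            (Ext.mk₀ (mor (hLC a b c d le_rfl le_rfl hc hd))) (add_zero _)) (zero_add _) :=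
            Ext.comp_assoc _ _ _ _ _ (by lia)
          rw [← h3, h0, Ext.zero_comp]
        · intro y hy
          have hy2 : ψ y ∈ Metric.ball z δ := by
            rw [Metric.mem_ball, dist_pi_lt_iff hδ]
            intro i
            have h1 := hcz i (by simp)
            have h2 := hy.2.1 i
            have h3 := hy.2.2 i
            rw [Real.dist_eq, abs_lt]
            constructor <;> linarith
          have := hball hy2
          rw [Set.mem_preimage, ψ.left_inv hy.1] at this
          exact this
        · intro y hy s
          exact stk_KP_eq_zero hy s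
      | insert j J hj IH =>
        intro z hz
        let P : ℝ → ℝ → Prop := fun s u => ∃ δ > 0, ∀ c d : Fin m → ℝ,
          ∀ (hc : a ≤ c) (hcd : c ≤ d) (hd : d ≤ b),
          (∀ i, i ∉ insert j J → z i - δ < c i ∧ d i < z i + δ) → s ≤ c j → d j ≤ u →
          e.comp (Ext.mk₀ (mor (hLC a b c d le_rfl le_rfl hc hd))) (add_zero _) = 0
        have hP : P (a j) (b j) := by
          apply cousin (hab j)
          · rintro s t u has hst htu hub ⟨δ₁, hδ₁, h₁⟩ ⟨δ₂, hδ₂, h₂⟩
            refine ⟨min δ₁ δ₂, lt_min hδ₁ hδ₂, fun c d hc hcd hd hcz hs hu => ?_⟩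
            have hcz₁ : ∀ i, i ∉ insert j J → z i - δ₁ < c i ∧ d i < z i + δ₁ := by
              intro i hi
              have := hcz i hi
              have h3 := min_le_left δ₁ δ₂
              constructor <;> linarith
            have hcz₂ : ∀ i, i ∉ insert j J → z i - δ₂ < c i ∧ d i < z i + δ₂ := by
              intro i hi
              have := hcz i hi
              have h3 := min_le_right δ₁ δ₂
              constructor <;> linarith
            by_cases hdt : d j ≤ t
            · exact h₁ c d hc hcd hd hcz₁ hs hdt
            by_cases hct : t ≤ c j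
            · exact h₂ c d hc hcd hd hcz₂ hct hu
            push Not at hdt hct
            -- split
            let d' := Function.update d j t
            let c' := Function.update c j t
            have hcd' : c ≤ d' := by
              intro i
              by_cases hi : i = j
              · subst hi; simp [d', hct.le]
              · simp [d', hi, hcd i]
            have hd'd : d' ≤ d := by
              intro i
              by_cases hi : i = j
              · subst hi; simp [d', hdt.le]
              · simp [d', hi]
            have hc'd : c' ≤ d := by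
              intro i
              by_cases hi : i = j
              · subst hi; simp [c', hdt.le]
              · simp [c', hi, hcd i]
            have hcc' : c ≤ c' := by
              intro i
              by_cases hi : i = j
              · subst hi; simp [c', hct.le]
              · simp [c', hi]
            have hc'd' : c' ≤ d' := by
              intro i
              by_cases hi : i = j
              · subst hi; simp [c', d']
              · simp [c', d', hi, hcd i]
            have e1 := h₁ c d' hc hcd' (hd'd.trans hd) (by
              intro i hi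
              have hij : i ≠ j := fun h => hi (by simp [h])
              have := hcz₁ i hi
              simp only [d', Function.update_of_ne hij]
              exact this) hs (by simp [d'])
            have e2 := h₂ c' d (hc.trans hcc') hc'd hd (by
              intro i hi
              have hij : i ≠ j := fun h => hi (by simp [h])
              have := hcz₂ i hi
              simp only [c', Function.update_of_ne hij]
              exact this) (by simp [c']) hu
            have hcup : Set.Icc c d = Set.Icc c d' ∪ Set.Icc c' d := by
              ext w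
              constructor
              · intro hw
                by_cases hwt : w j ≤ t
                · left
                  refine ⟨hw.1, fun i => ?_⟩
                  by_cases hi : i = j
                  · subst hi; simpa [d'] using hwt
                  · simpa [d', hi] using hw.2 i
                · right
                  push Not at hwt
                  refine ⟨fun i => ?_, hw.2⟩
                  by_cases hi : i = j
                  · subst hi; simpa [c'] using hwt.le
                  · simpa [c', hi] using hw.1 i
              · rintro (hw | hw)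
                · exact ⟨hw.1, hw.2.trans hd'd⟩
                · exact ⟨hcc'.trans hw.1, hw.2⟩
            have hcap : Set.Icc c' d' = Set.Icc c d' ∩ Set.Icc c' d := by
              ext w
              constructor
              · intro hw
                exact ⟨⟨hcc'.trans hw.1, hw.2⟩, ⟨hw.1, hw.2.trans hd'd⟩⟩
              · rintro ⟨hw1, hw2⟩
                exact ⟨hw2.1, hw1.2⟩
            have hA := hsub c d' hc (hd'd.trans hd)
            have hB := hsub c' d (hc.trans hcc') hd
            have hQ := hsub c' d' (hc.trans hcc') (hd'd.trans hd)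
            refine ext_glue (A := pb ψ (Set.Icc c d')) (B := pb ψ (Set.Icc c' d))
              (P := pb ψ (Set.Icc c d)) (Q := pb ψ (Set.Icc c' d'))
              (pb_closed ψ isCompact_Icc hA) (pb_closed ψ isCompact_Icc hB)
              (by rw [hcup, pb_union]) (by rw [hcap, pb_inter]) _
              (hLC c d c d' hc hd le_rfl hd'd) (hLC c d c' d hc hd hcc' le_rfl)
              (hLC c d' c' d' hc (hd'd.trans hd) hcc' le_rfl) ?_ ?_ ?_
            · have h3 : (e.comp (Ext.mk₀ (mor (hLC a b c d le_rfl le_rfl hc hd)))
                  (add_zero _)).comp (Ext.mk₀ (mor (hLC c d c d' hc hd le_rfl hd'd)))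
                  (add_zero _) = e.comp ((Ext.mk₀ (mor (hLC a b c d le_rfl le_rfl hc hd))).comp
                  (Ext.mk₀ (mor (hLC c d c d' hc hd le_rfl hd'd))) (add_zero 0)) (add_zero _) :=
                Ext.comp_assoc _ _ _ _ _ (by lia)
              rw [h3, Ext.mk₀_comp_mk₀, mor_comp_mor _ _
                (hLC a b c d' le_rfl le_rfl hc (hd'd.trans hd)), e1]
              exact Set.inter_subset_right.trans (pb_mono ψ (Set.Icc_subset_Icc le_rfl hd'd))
            · have h3 : (e.comp (Ext.mk₀ (mor (hLC a b c d le_rfl le_rfl hc hd)))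
                  (add_zero _)).comp (Ext.mk₀ (mor (hLC c d c' d hc hd hcc' le_rfl)))
                  (add_zero _) = e.comp ((Ext.mk₀ (mor (hLC a b c d le_rfl le_rfl hc hd))).comp
                  (Ext.mk₀ (mor (hLC c d c' d hc hd hcc' le_rfl))) (add_zero 0)) (add_zero _) :=
                Ext.comp_assoc _ _ _ _ _ (by lia)
              rw [h3, Ext.mk₀_comp_mk₀, mor_comp_mor _ _
                (hLC a b c' d le_rfl le_rfl (hc.trans hcc') hd), e2]
              exact Set.inter_subset_right.trans (pb_mono ψ (Set.Icc_subset_Icc hcc' le_rfl))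
            · intro γ
              first
              | exact ⟨0, by rw [ih c' d' (ha.trans (hc.trans hcc')) hc'd'
                  ((hd'd.trans hd).trans hb) γ, Ext.zero_comp]⟩
              | (obtain ⟨f, rfl⟩ := (Ext.mk₀_bijective _ _).2 γ
                 obtain ⟨g, hg⟩ := hom_surj (pb_closed ψ isCompact_Icc hA)
                  (pb_preconn ψ (convex_Icc c' d').isPreconnected hQ)
                  (pb_mono ψ (Set.Icc_subset_Icc hcc' le_rfl))
                  (pb_nonempty ψ (Set.nonempty_Icc.2 hc'd') hQ)
                  (hLC c d' c' d' hc (hd'd.trans hd) hcc' le_rfl) f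
                 exact ⟨Ext.mk₀ g, by rw [Ext.mk₀_comp_mk₀, hg]⟩)
          · intro t ht
            obtain ⟨δ, hδ, h⟩ := IH (Function.update z j t) (by
              constructor
              · intro i
                by_cases hi : i = j
                · subst hi; simpa using ht.1
                · simpa [hi] using hz.1 i
              · intro i
                by_cases hi : i = j
                · subst hi; simpa using ht.2
                · simpa [hi] using hz.2 i)
            refine ⟨δ, hδ, fun s u hts hsu hut has hub => ⟨δ, hδ, fun c d hc hcd hd hcz hs hu => ?_⟩⟩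
            apply h c d hc hcd hd
            intro i hi
            by_cases hij : i = j
            · subst hij
              rw [Function.update_self]
              constructor <;> linarith
            · rw [Function.update_of_ne hij]
              exact hcz i (by simp [hij, hi])
        obtain ⟨δ, hδ, h⟩ := hP
        exact ⟨δ, hδ, fun c d hc hcd hd hcz => h c d hc hcd hd hcz (hc j) (hd j)⟩
    obtain ⟨δ, hδ, h⟩ := claim Finset.univ a ⟨le_rfl, hab⟩
    have := h a b le_rfl hab le_rfl (fun i hi => absurd (Finset.mem_univ i) hi)
    rwa [mor_self, Ext.comp_mk₀_id] at this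

end

end

end WS
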