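import Pool.Agent.helper18.WS.FromSec

open CategoryTheory TopologicalSpace Topology Limits Opposite

set_option backward.isDefEq.respectTransparency false
set_option backward.isDefEq.respectTransparency.types false
set_option linter.unusedVariables false
set_option linter.unusedSectionVars false

universe w

namespace WS

noncomputable section

variable {X : Type} [TopologicalSpace X] [HasExt.{w} (Sh X)]

/-- the sheaf `ℂ_P` -/
abbrev kk (P : Set X) : Sh X := (KP ℂ P).sh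

lemma isZero_of_stk (F : Sh X) (h : ∀ y (s : Stk F y), s = 0) : IsZero F := by
  rw [IsZero.iff_id_eq_zero]
  apply hom_ext_stk
  intro y s
  rw [h y s, map_zero, map_zero]

lemma isIso_Tι {O : Opens X} {F : Sh X} (h : ∀ y ∉ O, ∀ s : Stk F y, s = 0) :
    IsIso (Tι O F) := by
  apply isIso_of_stk
  intro y
  refine ⟨stk_Tι_injective y, ?_⟩
  by_cases hy : y ∈ O
  · exact stk_Tι_surjective y hy
  · intro s
    exact ⟨0, by rw [h y hy s, map_zero]⟩

lemma isIso_TMap_Tι {O : Opens X} {F : Sh X} : IsIso (TMap O (Tι O F)) := by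
  apply isIso_of_stk
  intro y
  have hcomp : ∀ s, stk (Tι O F) y (stk (TMap O (Tι O F)) y s) =
      stk (Tι O F) y (stk (Tι O (TObj O F)) y s) := by
    intro s
    rw [← stk_comp, ← stk_comp, TMap_ι]
  have h2 : ∀ s, stk (TMap O (Tι O F)) y s = stk (Tι O (TObj O F)) y s :=
    fun s => stk_Tι_injective y (hcomp s)
  have h3 : IsIso (Tι O (TObj O F)) := isIso_Tι (fun y hy s => stk_T_eq_zero y hy s)
  have h4 := stk_bijective_of_isIso (Tι O (TObj O F)) y
  constructor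
  · intro a b hab
    rw [h2, h2] at hab
    exact h4.1 hab
  · intro b
    obtain ⟨a, ha⟩ := h4.2 b
    exact ⟨a, by rw [h2, ha]⟩

instance {O : Opens X} {F : Sh X} : IsIso ((T O).map ((TιNat O).app F)) :=
  isIso_TMap_Tι

/-- If the stalks of `F` vanish outside of `O` and the stalks of `G` vanish on `O`, then all
`Ext` groups from `F` to `G` vanish. -/
lemma ext_eq_zero_of_support {F G : Sh X} (O : Opens X) (hF : ∀ y ∉ O, ∀ s : Stk F y, s = 0)
    (hG : ∀ y ∈ O, ∀ s : Stk G y, s = 0) {n : ℕ} (e : Abelian.Ext F G n) : e = 0 := by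
  have : IsIso ((TιNat O).app F) := isIso_Tι hF
  apply T_ext_eq_zero (T O) (TιNat O)
  apply isZero_of_stk
  intro y s
  by_cases hy : y ∈ O
  · apply stk_Tι_injective (O := O) (F := G) y
    rw [hG y hy (stk (Tι O G) y s), map_zero]
  · exact stk_T_eq_zero y hy s

open Abelian in
/-- classes of positive degree are locally trivial -/
lemma ext_locally_zero {O : Opens X} {F : Sh X} {n : ℕ} (e : Ext (kk (O : Set X)) F (n + 1))
    (y : X) (hy : y ∈ O) : ∃ (O' : Opens X) (h : O' ≤ O), y ∈ O' ∧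
      (Ext.mk₀ (mor (LC_opens h))).comp e (zero_add (n + 1)) = 0 := by
  induction n generalizing F with
  | zero =>
    obtain ⟨S, hS, rfl, e', he'⟩ := exists_eq_comp_extClass e
    dsimp at he'
    subst he'
    obtain ⟨f, rfl⟩ := (Ext.mk₀_bijective _ _).2 e'
    have hepi := hS.epi_g
    have hls := (TopCat.Sheaf.isLocallySurjective_iff_epi (X := TopCat.of X) S.g).2 hepi
    rw [TopCat.Presheaf.isLocallySurjective_iff] at hls
    obtain ⟨V, hVU, ⟨t, ht⟩, hV⟩ := hls O (app f O (one (one_cond O))) y hy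
    have ht' : app S.g V t = res _ hVU (app f O (one (one_cond O))) := ht
    refine ⟨V, hVU, hV, ?_⟩
    have h1 : mor (LC_opens hVU) ≫ f = fromSec t ≫ S.g := by
      rw [fromSec_comp, ht', eq_fromSec f, app_fromSec, mor_fromSec]
    have h2 : (Ext.mk₀ (mor (LC_opens hVU))).comp ((Ext.mk₀ f).comp hS.extClass rfl)
        (zero_add (0 + 1)) = (Ext.mk₀ (mor (LC_opens hVU) ≫ f)).comp hS.extClass (zero_add 1) :=
      Ext.mk₀_comp_mk₀_assoc _ _ _
    have h3 : (Ext.mk₀ (fromSec t)).comp ((Ext.mk₀ S.g).comp hS.extClass (zero_add 1))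
        (zero_add 1) = (Ext.mk₀ (fromSec t ≫ S.g)).comp hS.extClass (zero_add 1) :=
      Ext.mk₀_comp_mk₀_assoc _ _ _
    rw [h2, h1, ← h3, ShortComplex.ShortExact.comp_extClass, Ext.comp_zero]
  | succ n hn =>
    obtain ⟨S, hS, rfl, e', he'⟩ := exists_eq_comp_extClass e
    dsimp at he'
    subst he'
    obtain ⟨O', h, hy', h0⟩ := hn e'
    refine ⟨O', h, hy', ?_⟩
    have h2 : ((Ext.mk₀ (mor (LC_opens h))).comp e' (zero_add (n + 1))).comp hS.extClass rfl =
        (Ext.mk₀ (mor (LC_opens h))).comp (e'.comp hS.extClass rfl) (zero_add (n + 1 + 1)) :=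
      Ext.comp_assoc _ _ _ _ _ (by lia)
    rw [← h2, h0, Ext.zero_comp]

open Abelian in
/-- A class in `Ext (ℂ_X) G` with `G` supported on a closed subset of the open set `O` is zero
if its restriction to `O` is zero. -/
lemma ext_eq_zero_of_restrict {G : Sh X} {n : ℕ} (e : Ext (kk ((⊤ : Opens X) : Set X)) G n)
    (O : Opens X) (h0 : (Ext.mk₀ (mor (LC_opens (le_top : O ≤ ⊤)))).comp e (zero_add n) = 0)
    (C : Set X) (hC : IsClosed C) (hCO : C ⊆ O) (hG : ∀ y ∉ C, ∀ s : Stk G y, s = 0) : e = 0 := by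
  have hses := KP_shortExact (V := ℂ) (P := ((⊤ : Opens X) : Set X)) (Q := O) (R := (O : Set X)ᶜ)
    (by rw [Opens.coe_top]; exact isOpen_univ.isLocallyClosed) (O : Set X)ᶜ O.isOpen.isClosed_compl
    (by simp) (by simp) (LC_opens le_top)
    (LC_of_closed (by simp) ⟨(O : Set X)ᶜ, O.isOpen.isClosed_compl, by simp⟩)
  obtain ⟨e', he'⟩ := Ext.contravariant_sequence_exact₂ hses G e h0
  have h1 : e' = 0 := by
    apply ext_eq_zero_of_support ⟨Cᶜ, hC.isOpen_compl⟩
    · intro y hy s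
      apply stk_KP_eq_zero
      intro hyO
      exact hyO (hCO (by simpa using hy))
    · intro y hy s
      exact hG y hy s
  rw [← he', h1, Ext.comp_zero]

/-- sections of `ℂ_P` over `X` for `P` closed and connected -/
lemma sec_top_eq {P : Set X} (hP : IsPreconnected P) (s : Sec (kk P) ⊤) {y₀ : X}
    (hy₀ : y₀ ∈ P) : (KP ℂ P).val s = P.indicator (fun _ => (KP ℂ P).val s y₀) := by
  have hloc : ∀ y, ∀ᶠ z in 𝓝 y, (KP ℂ P).val s z = P.indicator (fun _ => (KP ℂ P).val s y) z :=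
    fun y => KP_mem_C.1 (((KP ℂ P).val_mem s).2 y trivial)
  funext y
  by_cases hy : y ∈ P
  · rw [Set.indicator_of_mem hy]
    by_contra hne
    -- separate
    let c := (KP ℂ P).val s y₀
    let U₁ : Set X := {z | ∀ᶠ z' in 𝓝 z, z' ∈ P → (KP ℂ P).val s z' = c}
    let U₂ : Set X := {z | ∀ᶠ z' in 𝓝 z, z' ∈ P → (KP ℂ P).val s z' ≠ c}
    have hU₁ : IsOpen U₁ := by
      rw [isOpen_iff_mem_nhds]
      intro z hz
      exact eventually_eventually_nhds.2 hz
    have hU₂ : IsOpen U₂ := by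
      rw [isOpen_iff_mem_nhds]
      intro z hz
      exact eventually_eventually_nhds.2 hz
    have hcov : P ⊆ U₁ ∪ U₂ := by
      intro z hz
      by_cases hzc : (KP ℂ P).val s z = c
      · left
        change ∀ᶠ z' in 𝓝 z, z' ∈ P → (KP ℂ P).val s z' = c
        filter_upwards [hloc z] with z' h1 h2
        rw [h1, Set.indicator_of_mem h2, hzc]
      · right
        change ∀ᶠ z' in 𝓝 z, z' ∈ P → (KP ℂ P).val s z' ≠ c
        filter_upwards [hloc z] with z' h1 h2
        rw [h1, Set.indicator_of_mem h2]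
        exact hzc
    have hn₁ : (P ∩ U₁).Nonempty := by
      refine ⟨y₀, hy₀, ?_⟩
      rcases hcov hy₀ with h | h
      · exact h
      · exact absurd rfl ((Filter.Eventually.self_of_nhds h) hy₀)
    have hn₂ : (P ∩ U₂).Nonempty := by
      refine ⟨y, hy, ?_⟩
      rcases hcov hy with h | h
      · exact absurd ((Filter.Eventually.self_of_nhds h) hy) hne
      · exact h
    obtain ⟨z, hzP, hz1, hz2⟩ := hP U₁ U₂ hU₁ hU₂ hcov hn₁ hn₂
    exact (Filter.Eventually.self_of_nhds hz2) hzP ((Filter.Eventually.self_of_nhds hz1) hzP)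
  · rw [Set.indicator_of_notMem hy, KP_val_not_mem s hy]

/-- `Hom(ℂ_X, ℂ_P) → Hom(ℂ_X, ℂ_Q)` is surjective for `Q ⊆ P` closed, `Q` connected. -/
lemma hom_surj {P Q : Set X} (hP : IsClosed P) (hQ : IsPreconnected Q) (hQP : Q ⊆ P)
    (hQne : Q.Nonempty) (h : LC P Q) (f : kk ((⊤ : Opens X) : Set X) ⟶ kk Q) :
    ∃ g : kk ((⊤ : Opens X) : Set X) ⟶ kk P, g ≫ mor h = f := by
  obtain ⟨y₀, hy₀⟩ := hQne
  let s := app f ⊤ (one (one_cond ⊤))
  have hs := sec_top_eq hQ s hy₀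
  let c := (KP ℂ Q).val s y₀
  refine ⟨fromSec (c • one (P := P) ⟨P, hP, rfl⟩), ?_⟩
  rw [fromSec_comp]
  apply hom_KP_ext
  rw [app_fromSec]
  apply (KP ℂ Q).val_injective
  rw [val_mor, map_smul, val_one]
  change _ = (KP ℂ Q).val s
  rw [hs]
  funext z
  by_cases hz : z ∈ Q
  · rw [Set.indicator_of_mem hz, Set.indicator_of_mem hz]
    simp [hQP hz, c]
  · rw [Set.indicator_of_notMem hz, Set.indicator_of_notMem hz]

/-- `Hom(ℂ_X, ℂ_P) → Hom(ℂ_X, ℂ_Q)` is injective for `Q ⊆ P` nonempty, `P` connected. -/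
lemma hom_inj {P Q : Set X} (hP : IsPreconnected P) (hQP : Q ⊆ P)
    (hQne : Q.Nonempty) (h : LC P Q) (f : kk ((⊤ : Opens X) : Set X) ⟶ kk P)
    (hf : f ≫ mor h = 0) : f = 0 := by
  obtain ⟨y₀, hy₀⟩ := hQne
  let s := app f ⊤ (one (one_cond ⊤))
  have hs := sec_top_eq hP s (hQP hy₀)
  have h0 : (KP ℂ P).val s y₀ = 0 := by
    have h1 := congrArg (fun g => (KP ℂ Q).val (app g ⊤ (one (one_cond ⊤))) y₀) hf
    simp only [app_comp, val_mor, app_zero, map_zero] at h1
    rw [Set.indicator_of_mem hy₀] at h1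
    exact h1
  apply hom_KP_ext
  apply (KP ℂ P).val_injective
  rw [app_zero, map_zero]
  change (KP ℂ P).val s = 0
  rw [hs, h0]
  simp
  rfl

open Abelian in
/-- Gluing: a class on `A ∪ B` vanishing on the closed sets `A` and `B` vanishes. -/
lemma ext_glue {A B P Q : Set X} (hA : IsClosed A) (hB : IsClosed B) (hP : P = A ∪ B)
    (hQ : Q = A ∩ B) {n : ℕ} (e : Ext (kk ((⊤ : Opens X) : Set X)) (kk P) (n + 1))
    (hPA : LC P A) (hPB : LC P B) (hAQ : LC A Q)
    (hA0 : e.comp (Ext.mk₀ (mor hPA)) (add_zero _) = 0)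
    (hB0 : e.comp (Ext.mk₀ (mor hPB)) (add_zero _) = 0)
    (hsurj : ∀ γ : Ext (kk ((⊤ : Opens X) : Set X)) (kk Q) n,
      ∃ γ' : Ext (kk ((⊤ : Opens X) : Set X)) (kk A) n,
        γ'.comp (Ext.mk₀ (mor hAQ)) (add_zero _) = γ) : e = 0 := by
  have hPcl : IsClosed P := hP ▸ hA.union hB
  have h1 : LC (A \ B) P := LC_of_open (by rw [hP]; exact fun z hz => Or.inl hz.1)
    ⟨Bᶜ, hB.isOpen_compl, by rw [hP]; ext z; simp; tauto⟩
  have h2 : LC (A \ B) A := LC_of_open (fun z hz => hz.1)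
    ⟨Bᶜ, hB.isOpen_compl, by ext z; simp⟩
  have ses1 := KP_shortExact (V := ℂ) (P := P) (Q := A \ B) (R := B) hPcl.isLocallyClosed B hB
    (by rw [hP]; ext z; simp) (by rw [hP]; ext z; simp; intro h; exact Or.inr h) h1 hPB
  have ses2 := KP_shortExact (V := ℂ) (P := A) (Q := A \ B) (R := Q) hA.isLocallyClosed B hB
    rfl hQ h2 hAQ
  obtain ⟨β, hβ⟩ := Ext.covariant_sequence_exact₂ _ ses1 e hB0
  have hcomp : mor (V := ℂ) h1 ≫ mor hPA = mor h2 := mor_comp_mor h1 hPA h2 (by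
    rw [hP]; intro z hz; exact Or.inl hz.2)
  have hβ0 : β.comp (Ext.mk₀ (mor h2)) (add_zero _) = 0 := by
    rw [← hcomp, ← Ext.mk₀_comp_mk₀]
    have h3 : (β.comp (Ext.mk₀ (mor h1)) (add_zero _)).comp (Ext.mk₀ (mor hPA)) (add_zero _) =
      β.comp ((Ext.mk₀ (mor h1)).comp (Ext.mk₀ (mor hPA)) (add_zero 0)) (add_zero _) :=
      Ext.comp_assoc _ _ _ _ _ (by lia)
    rw [← h3]
    rw [← hA0, ← hβ]
  obtain ⟨γ, hγ⟩ := Ext.covariant_sequence_exact₁ _ ses2 β hβ0 rfl
  obtain ⟨γ', hγ'⟩ := hsurj γ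
  have hβ' : β = 0 := by
    rw [← hγ, ← hγ']
    have h3 : (γ'.comp (Ext.mk₀ (mor hAQ)) (add_zero _)).comp ses2.extClass rfl =
      γ'.comp ((Ext.mk₀ (mor hAQ)).comp ses2.extClass (zero_add 1)) rfl :=
      Ext.comp_assoc _ _ _ _ _ (by lia)
    refine h3.trans ?_
    have h4 : (Ext.mk₀ (mor hAQ)).comp ses2.extClass (zero_add 1) = 0 :=
      ses2.comp_extClass
    rw [h4, Ext.comp_zero]
  rw [← hβ, hβ', Ext.zero_comp]

end

end WS
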