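import Pool.Agent.helper18.WS.Basic

open CategoryTheory TopologicalSpace Topology Limits Opposite

set_option backward.isDefEq.respectTransparency false
set_option backward.isDefEq.respectTransparency.types false
set_option linter.unusedVariables false
set_option linter.unusedSectionVars false

universe w

namespace WS

noncomputable section

variable {X : Type} [TopologicalSpace X]

/-- The stalk functor on sheaves. -/
abbrev stkF (y : X) : Sh X ⥤ ModuleCat.{0} ℂ :=
  TopCat.Sheaf.forget (ModuleCat.{0} ℂ) (TopCat.of X) ⋙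
    TopCat.Presheaf.stalkFunctor (X := TopCat.of X) (ModuleCat.{0} ℂ) y

lemma stkF_map {F G : Sh X} (f : F ⟶ G) (y : X) (s : Stk F y) :
    ((stkF y).map f).hom s = stk f y s := rfl

lemma stkF_isLeftAdjoint (y : X) : (stkF y).IsLeftAdjoint := by
  classical
  exact (stalkSkyscraperSheafAdjunction (X := TopCat.of X) (C := ModuleCat.{0} ℂ) y).isLeftAdjoint

instance (y : X) : (stkF y).IsLeftAdjoint := stkF_isLeftAdjoint y

lemma stk_colim_rep {J : Type} [SmallCategory J] [IsFiltered J] {F : J ⥤ Sh X} {c : Cocone F}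
    (hc : IsColimit c) (y : X) (t : Stk c.pt y) :
    ∃ (j : J) (s : Stk (F.obj j) y), stk (c.ι.app j) y s = t := by
  have h1 := isColimitOfPreserves (stkF y) hc
  exact Concrete.isColimit_exists_rep _ h1 t

lemma stk_colim_zero {J : Type} [SmallCategory J] [IsFiltered J] {F : J ⥤ Sh X} {c : Cocone F}
    (hc : IsColimit c) (y : X) {j : J} (s : Stk (F.obj j) y) (h : stk (c.ι.app j) y s = 0) :
    ∃ (j' : J) (f : j ⟶ j'), stk (F.map f) y s = 0 := by
  have h1 := isColimitOfPreserves (stkF y) hc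
  obtain ⟨k, f, g, hfg⟩ := Concrete.isColimit_exists_of_rep_eq _ h1 s
    (0 : ((F ⋙ stkF y).obj j : ModuleCat.{0} ℂ)) (by
      refine Eq.trans ?_ (map_zero (((stkF y).mapCocone c).ι.app j).hom).symm
      exact h)
  refine ⟨k, f, ?_⟩
  refine Eq.trans hfg ?_
  exact map_zero ((F ⋙ stkF y).map g).hom

lemma stk_injective_of_mono {F G : Sh X} (f : F ⟶ G) [Mono f] (y : X) :
    Function.Injective (stk f y) := by
  have : Mono ((TopCat.Presheaf.stalkFunctor (X := TopCat.of X) (ModuleCat.{0} ℂ) y).map f.hom) :=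
    TopCat.Presheaf.stalk_mono_of_mono (X := TopCat.of X) f y
  exact (ModuleCat.mono_iff_injective _).1 this

lemma stk_surjective_of_epi {F G : Sh X} (f : F ⟶ G) [Epi f] (y : X) :
    Function.Surjective (stk f y) := by
  have : Epi ((stkF y).map f) := inferInstance
  exact (ModuleCat.epi_iff_surjective _).1 this

lemma stk_exact {S : ShortComplex (Sh X)} (hS : S.Exact) (y : X) (s : Stk S.X₂ y)
    (hs : stk S.g y s = 0) : ∃ t, stk S.f y t = s := by
  have := (TopCat.Sheaf.exact_iff_stalkFunctor_map_exact (X := TopCat.of X) S).1 hS y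
  rw [ShortComplex.moduleCat_exact_iff] at this
  exact this s hs

lemma stk_zero {F G : Sh X} (y : X) (s : Stk F y) : stk (0 : F ⟶ G) y s = 0 := by
  obtain ⟨U, hU, t, rfl⟩ := germ_surj _ y s
  rw [stk_germ, app_zero, map_zero]

lemma stk_d_comp {K L : CochainComplex (Sh X) ℤ} (φ : K ⟶ L) (i j : ℤ) (y : X)
    (z : Stk (K.X i) y) :
    stk (φ.f j) y (stk (K.d i j) y z) = stk (L.d i j) y (stk (φ.f i) y z) := by
  rw [← stk_comp, ← stk_comp, φ.comm]

lemma stk_iCycles_comp {K L : CochainComplex (Sh X) ℤ} (φ : K ⟶ L) (i : ℤ) (y : X)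
    (z : Stk (K.cycles i) y) :
    stk (L.iCycles i) y (stk (HomologicalComplex.cyclesMap φ i) y z) =
      stk (φ.f i) y (stk (K.iCycles i) y z) := by
  rw [← stk_comp, ← stk_comp, HomologicalComplex.cyclesMap_i]

lemma stk_homologyπ_comp {K L : CochainComplex (Sh X) ℤ} (φ : K ⟶ L) (i : ℤ) (y : X)
    (z : Stk (K.cycles i) y) :
    stk (L.homologyπ i) y (stk (HomologicalComplex.cyclesMap φ i) y z) =
      stk (HomologicalComplex.homologyMap φ i) y (stk (K.homologyπ i) y z) := by
  rw [← stk_comp, ← stk_comp, HomologicalComplex.homologyπ_naturality]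

lemma stk_cycle {K : CochainComplex (Sh X) ℤ} (i : ℤ) (y : X) (z : Stk (K.X i) y)
    (hz : stk (K.d i (i + 1)) y z = 0) : ∃ z' : Stk (K.cycles i) y, stk (K.iCycles i) y z' = z := by
  have hex : (ShortComplex.mk (K.iCycles i) (K.d i (i + 1)) (K.iCycles_d i (i + 1))).Exact :=
    ShortComplex.exact_of_f_is_kernel _ (K.cyclesIsKernel i (i + 1) (by simp))
  exact stk_exact hex y z hz

/-- Homology of a filtered colimit: every germ of a homology class of the colimit comes from
a finite stage. -/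
lemma stk_homology_rep {J : Type} [SmallCategory J] [IsFiltered J]
    {K : J ⥤ CochainComplex (Sh X) ℤ} {c : Cocone K}
    (hc : IsColimit c) (i : ℤ) (y : X) (t : Stk (c.pt.homology i) y) :
    ∃ (j : J) (s : Stk ((K.obj j).homology i) y),
      stk (HomologicalComplex.homologyMap (c.ι.app j : K.obj j ⟶ c.pt) i) y s = t := by
  have hev : ∀ k : ℤ, IsColimit ((HomologicalComplex.eval (Sh X) (ComplexShape.up ℤ) k).mapCocone c) :=
    fun k => isColimitOfPreserves _ hc
  obtain ⟨z', rfl⟩ := stk_surjective_of_epi (c.pt.homologyπ i) y t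
  obtain ⟨j, z, hz⟩ := stk_colim_rep (hev i) y (stk (c.pt.iCycles i) y z')
  let φ : K.obj j ⟶ c.pt := c.ι.app j
  have hz : stk (φ.f i) y z = stk (c.pt.iCycles i) y z' := hz
  -- the differential
  have hdz : stk (φ.f (i + 1)) y (stk ((K.obj j).d i (i + 1)) y z) = 0 := by
    rw [stk_d_comp, hz, ← stk_comp, HomologicalComplex.iCycles_d, stk_zero]
  obtain ⟨j', f, hf⟩ := stk_colim_zero (hev (i + 1)) y (j := j)
    (stk ((K.obj j).d i (i + 1)) y z) hdz
  have hf : stk ((K.map f).f (i + 1)) y (stk ((K.obj j).d i (i + 1)) y z) = 0 := hf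
  rw [stk_d_comp] at hf
  obtain ⟨w, hw⟩ := stk_cycle i y _ hf
  let φ' : K.obj j' ⟶ c.pt := c.ι.app j'
  have hφ : K.map f ≫ φ' = φ := c.w f
  refine ⟨j', stk ((K.obj j').homologyπ i) y w, ?_⟩
  change stk (HomologicalComplex.homologyMap φ' i) y _ = _
  rw [← stk_homologyπ_comp]
  congr 1
  apply stk_injective_of_mono (c.pt.iCycles i) y
  rw [stk_iCycles_comp, hw, ← stk_comp, ← HomologicalComplex.comp_f, hφ, hz]

end

end WS
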