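import Mathlib

open CategoryTheory Limits Abelian Pretriangulated Triangulated

set_option backward.isDefEq.respectTransparency false
set_option backward.isDefEq.respectTransparency.types false
set_option linter.unusedVariables false
set_option linter.unusedSectionVars false

universe w w' v u

namespace WS

noncomputable section

variable {C : Type u} [Category.{v} C] [Abelian C] [HasDerivedCategory.{w} C]

open DerivedCategory

/-- all cohomology objects satisfy `P` -/
def CohP (P : C → Prop) (Y : DerivedCategory C) : Prop :=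
  ∀ i : ℤ, P ((homologyFunctor C i).obj Y)

lemma isIso_homology_mor₁ (T : Triangle (DerivedCategory C)) (hT : T ∈ distTriang _) (i : ℤ)
    (h1 : IsZero ((homologyFunctor C (i - 1)).obj T.obj₃))
    (h2 : IsZero ((homologyFunctor C i).obj T.obj₃)) :
    IsIso ((homologyFunctor C i).map T.mor₁) := by
  have : Mono ((homologyFunctor C i).map T.mor₁) := by
    rw [HomologySequence.mono_homologyMap_mor₁_iff T hT (i - 1) i]
    exact h1.eq_of_src _ _
  have : Epi ((homologyFunctor C i).map T.mor₁) := by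
    rw [HomologySequence.epi_homologyMap_mor₁_iff T hT i]
    exact h2.eq_of_tgt _ _
  exact isIso_of_mono_of_epi _

lemma isIso_homology_mor₂ (T : Triangle (DerivedCategory C)) (hT : T ∈ distTriang _) (i : ℤ)
    (h1 : IsZero ((homologyFunctor C i).obj T.obj₁))
    (h2 : IsZero ((homologyFunctor C (i + 1)).obj T.obj₁)) :
    IsIso ((homologyFunctor C i).map T.mor₂) := by
  have : Mono ((homologyFunctor C i).map T.mor₂) := by
    rw [HomologySequence.mono_homologyMap_mor₂_iff T hT i]
    exact h1.eq_of_src _ _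
  have : Epi ((homologyFunctor C i).map T.mor₂) := by
    rw [HomologySequence.epi_homologyMap_mor₂_iff T hT i (i + 1)]
    exact h2.eq_of_tgt _ _
  exact isIso_of_mono_of_epi _

/-- truncation triangle, with its effect on homology -/
lemma exists_trunc (Y : DerivedCategory C) (n : ℤ) :
    ∃ (X Z : DerivedCategory C) (a : X ⟶ Y) (b : Y ⟶ Z) (c : Z ⟶ X⟦(1 : ℤ)⟧)
      (_ : Triangle.mk a b c ∈ distTriang _), X.IsLE n ∧ Z.IsGE (n + 1) ∧
      (∀ i ≤ n, IsIso ((homologyFunctor C i).map a)) ∧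
      (∀ i, n < i → IsIso ((homologyFunctor C i).map b)) := by
  obtain ⟨X, Z, hX, hZ, a, b, c, hT⟩ :=
    (TStructure.t (C := C)).exists_triangle Y n (n + 1) rfl
  have hX' : X.IsLE n := ⟨hX⟩
  have hZ' : Z.IsGE (n + 1) := ⟨hZ⟩
  refine ⟨X, Z, a, b, c, hT, hX', hZ', fun i hi => ?_, fun i hi => ?_⟩
  · exact isIso_homology_mor₁ _ hT i (Z.isZero_of_isGE (n + 1) _ (by lia))
      (Z.isZero_of_isGE (n + 1) _ (by lia))
  · exact isIso_homology_mor₂ _ hT i (X.isZero_of_isLE n _ (by lia))
      (X.isZero_of_isLE n _ (by lia))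

variable {P : C → Prop} (hiso : ∀ A B, (A ≅ B) → P A → P B) (hzero : ∀ A, IsZero A → P A)

include hiso hzero

lemma cohP_trunc {Y X Z : DerivedCategory C} {n : ℤ} {a : X ⟶ Y} {b : Y ⟶ Z} (hX : X.IsLE n)
    (hZ : Z.IsGE (n + 1)) (ha : ∀ i ≤ n, IsIso ((homologyFunctor C i).map a))
    (hb : ∀ i, n < i → IsIso ((homologyFunctor C i).map b)) (hY : CohP P Y) :
    CohP P X ∧ CohP P Z := by
  constructor
  · intro i
    by_cases hi : i ≤ n
    · have := ha i hi
      exact hiso _ _ (asIso ((homologyFunctor C i).map a)).symm (hY i)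
    · exact hzero _ (X.isZero_of_isLE n _ (by lia))
  · intro i
    by_cases hi : i ≤ n
    · exact hzero _ (Z.isZero_of_isGE (n + 1) _ (by lia))
    · have := hb i (by lia)
      exact hiso _ _ (asIso ((homologyFunctor C i).map b)) (hY i)

/-- Morphisms from `K` to a complex concentrated in degree `-n`. -/
lemma hom_zero_of_ext [HasExt.{w'} C] {K : C} {n : ℕ} {X : DerivedCategory C} (h1 : X.IsLE (-n))
    (h2 : X.IsGE (-n)) (hX : CohP P X) (hK : ∀ A, P A → ∀ e : Ext.{w'} K A n, e = 0)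
    (f : (singleFunctor C 0).obj K ⟶ X) : f = 0 := by
  obtain ⟨A, ⟨e⟩⟩ := exists_iso_singleFunctor_obj_of_isGE_of_isLE X (-n)
  have hA : P A := hiso _ _ ((homologyFunctor C (-n)).mapIso e ≪≫
    (singleFunctorCompHomologyFunctorIso C (-n)).app A) (hX (-n))
  let e' : (singleFunctor C (-n : ℤ)).obj A ≅ ((singleFunctor C 0).obj A)⟦(n : ℤ)⟧ :=
    ((singleFunctors C).shiftIso (n : ℤ) (-n) 0 (by lia)).symm.app A
  have h3 : f ≫ e.hom ≫ e'.hom = 0 := by
    have h4 := hK A hA (Ext.homEquiv.symm (f ≫ e.hom ≫ e'.hom))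
    have h5 := congrArg Ext.homEquiv h4
    rw [Equiv.apply_symm_apply] at h5
    rw [h5]
    exact Ext.zero_hom _ _ _
  have h6 : f ≫ (e.hom ≫ e'.hom) = 0 ≫ (e.hom ≫ e'.hom) := by rw [h3, zero_comp]
  exact (cancel_mono (e.hom ≫ e'.hom)).1 h6

lemma stepA [HasExt.{w'} C] {K : C} {k : ℕ}
    (hK : ∀ j < k, ∀ A, P A → ∀ e : Ext.{w'} K A j, e = 0) (n : ℕ) (hn : n ≤ k) :
    ∀ (Y : DerivedCategory C) (_ : Y.IsGE (1 - n)) (_ : CohP P Y)
      (f : (singleFunctor C 0).obj K ⟶ Y), f = 0 := by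
  induction n with
  | zero =>
    intro Y hY _ f
    have : Y.IsGE 1 := by simpa using hY
    exact (TStructure.t (C := C)).zero f 0 1 (by lia)
  | succ n ih =>
    intro Y hY hP f
    obtain ⟨X, Z, a, b, c, hT, hX, hZ, ha, hb⟩ := exists_trunc Y (-n)
    obtain ⟨hXP, hZP⟩ := cohP_trunc hiso hzero hX hZ ha hb hP
    have h1 : f ≫ b = 0 := by
      apply ih (by lia) Z _ hZP
      have : (-(n : ℤ) + 1) = 1 - n := by ring
      rwa [this] at hZ
    obtain ⟨g, hg⟩ := Triangle.coyoneda_exact₂ _ hT f h1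
    have hXGE : X.IsGE (-n) := by
      rw [isGE_iff]
      intro i hi
      have := ha i (by lia)
      have h2 : IsZero ((homologyFunctor C i).obj Y) :=
        Y.isZero_of_isGE (1 - (n + 1 : ℕ)) i (by push_cast; lia)
      exact h2.of_iso (asIso ((homologyFunctor C i).map a))
    have h3 : g = 0 := hom_zero_of_ext.{w, w'} hiso hzero hX hXGE hXP (hK n (by lia)) g
    rw [hg, h3]
    exact zero_comp

/-- Existence of a nonzero morphism from the lowest cohomology. -/
theorem tstr_main [HasExt.{w'} C] {K : C} {k : ℕ}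
    (hK : ∀ j < k, ∀ A, P A → ∀ e : Ext.{w'} K A j, e = 0)
    {W : DerivedCategory C} (hW : CohP P W) (η : (singleFunctor C 0).obj K ⟶ W)
    (huniv : ∀ L : DerivedCategory C, CohP P L → Function.Bijective (fun f : W ⟶ L => η ≫ f))
    {A₀ : C} (hA₀ : P A₀) (e₀ : Ext.{w'} K A₀ k) (he₀ : e₀ ≠ 0) :
    ∃ g : (homologyFunctor C (-k)).obj W ⟶ A₀, g ≠ 0 := by
  -- `W` is in degrees `≤ -k`
  have hWle : W.IsLE (-k) := by
    obtain ⟨X, Z, a, b, c, hT, hX, hZ, ha, hb⟩ := exists_trunc W (-k)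
    obtain ⟨hXP, hZP⟩ := cohP_trunc hiso hzero hX hZ ha hb hW
    have h1 : η ≫ b = 0 := by
      apply stepA.{w, w'} hiso hzero hK k le_rfl Z _ hZP
      have : (-(k : ℤ) + 1) = 1 - k := by ring
      rwa [this] at hZ
    have h2 : b = 0 := (huniv Z hZP).1 (by simp only [h1, comp_zero])
    rw [isLE_iff]
    intro i hi
    have := hb i hi
    have h3 : (homologyFunctor C i).map b = 0 := by rw [h2, Functor.map_zero]
    rw [IsZero.iff_id_eq_zero, ← cancel_mono ((homologyFunctor C i).map b), h3, comp_zero,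
      comp_zero]
  -- the morphism `W ⟶ A₀[k]`
  let e' : (singleFunctor C (-k : ℤ)).obj A₀ ≅ ((singleFunctor C 0).obj A₀)⟦(k : ℤ)⟧ :=
    ((singleFunctors C).shiftIso (k : ℤ) (-k) 0 (by lia)).symm.app A₀
  have hP : CohP P ((singleFunctor C (-k : ℤ)).obj A₀) := by
    intro i
    by_cases hi : i = -k
    · subst hi
      exact hiso _ _ ((singleFunctorCompHomologyFunctorIso C (-k)).app A₀).symm hA₀
    · rcases lt_or_gt_of_ne hi with hi | hi
      · exact hzero _ (isZero_of_isGE _ (-k) i hi)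
      · exact hzero _ (isZero_of_isLE _ (-k) i hi)
  obtain ⟨f, hf⟩ := (huniv _ hP).2 (e₀.hom ≫ e'.inv)
  have hf0 : f ≠ 0 := by
    rintro rfl
    apply he₀
    simp only [comp_zero] at hf
    have h1 : e₀.hom = 0 := by
      rw [← cancel_mono e'.inv, ← hf, zero_comp]
    apply Ext.homEquiv.injective
    exact h1.trans (Ext.zero_hom _ _ _).symm
  -- factor through the lowest cohomology
  obtain ⟨X, Z, a, b, c, hT, hX, hZ, ha, hb⟩ := exists_trunc W (-k - 1)
  have hZ' : Z.IsGE (-k) := by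
    have : (-(k : ℤ) - 1 + 1) = -k := by ring
    rwa [this] at hZ
  have hZle : Z.IsLE (-k) := by
    rw [isLE_iff]
    intro i hi
    have := hb i (by lia)
    exact (W.isZero_of_isLE (-k) i hi).of_iso (asIso ((homologyFunctor C i).map b)).symm
  have h1 : a ≫ f = 0 := (TStructure.t (C := C)).zero _ (-k - 1) (-k) (by lia)
  obtain ⟨f', hf'⟩ := Triangle.yoneda_exact₂ _ hT f h1
  obtain ⟨B, ⟨e⟩⟩ := exists_iso_singleFunctor_obj_of_isGE_of_isLE Z (-k)
  obtain ⟨g, hg⟩ := (singleFunctor C (-k : ℤ)).map_surjective (e.inv ≫ f')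
  refine ⟨(homologyFunctor C (-k)).map f ≫
    ((singleFunctorCompHomologyFunctorIso C (-k)).app A₀).hom, fun h0 => hf0 ?_⟩
  have h2 : (homologyFunctor C (-k)).map f = 0 := by
    rw [← cancel_mono ((singleFunctorCompHomologyFunctorIso C (-k)).app A₀).hom, h0, zero_comp]
  have hbiso := hb (-k) (by lia)
  have hf'' : f = b ≫ f' := hf'
  have h3 : (homologyFunctor C (-k)).map f' = 0 := by
    rw [hf'', Functor.map_comp] at h2
    rw [← cancel_epi ((homologyFunctor C (-k)).map b), h2, comp_zero]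
  have h4 : (homologyFunctor C (-k)).map ((singleFunctor C (-k : ℤ)).map g) = 0 := by
    rw [hg, Functor.map_comp, h3, comp_zero]
  have h5 : g = 0 := by
    have := NatIso.naturality_1 (singleFunctorCompHomologyFunctorIso C (-k)) g
    rw [Functor.comp_map, h4, zero_comp, comp_zero] at this
    exact this.symm
  have h6 : f' = 0 := by
    rw [← cancel_epi e.inv, ← hg, h5, Functor.map_zero, comp_zero]
  rw [hf'', h6, comp_zero]

end

end WS
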