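import Pool.Agent.helper18.WS.Strat
import Pool.Agent.helper18.WS.TStr
import Pool.Agent.helper18.WS.Colim

open CategoryTheory TopologicalSpace Topology Limits Opposite

set_option backward.isDefEq.respectTransparency false
set_option backward.isDefEq.respectTransparency.types false
set_option linter.unusedVariables false
set_option linter.unusedSectionVars false

universe w

namespace WS

noncomputable section

variable {X : Type} [TopologicalSpace X]

lemma IsLocConst.of_iso {A B : Sh X} (e : A ≅ B) (hA : IsLocConst A) : IsLocConst B := by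
  intro x
  obtain ⟨U, hU, V, _, _, f, hf⟩ := hA x
  refine ⟨U, hU, V, inferInstance, inferInstance, (app e.hom U).comp f, fun y hy => ?_⟩
  have h1 : (fun v => germ B y hy (((app e.hom U).comp f) v)) =
      stk e.hom y ∘ (fun v => germ A y hy (f v)) := by
    funext v
    simp
  rw [h1]
  exact (stk_bijective_of_isIso e.hom y).comp (hf y hy)

lemma IsLocConst.of_isZero {A : Sh X} (hA : IsZero A) : IsLocConst A := by
  have h0 : ∀ y (t : Stk A y), t = 0 := by
    intro y t
    rw [← stk_id (F := A) y t, (IsZero.iff_id_eq_zero A).1 hA, stk_zero]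
  intro x
  refine ⟨⊤, trivial, PUnit, inferInstance, inferInstance, 0, fun y hy => ⟨?_, ?_⟩⟩
  · intro a b _
    rfl
  · intro t
    exact ⟨PUnit.unit, by rw [h0 y t]; exact h0 y _⟩

open Abelian in
/-- Main theorem, topological form. -/
theorem core [T2Space X] [ConnectedSpace X] [LocallyConnectedSpace X] [BaireSpace X]
    [HasDerivedCategory.{w} (Sh X)] {m : ℕ} (ψ : OpenPartialHomeomorph X (Fin m → ℝ)) {x : X}
    (hx : x ∈ ψ.source) {N : Type} [TopologicalSpace N] {p : N → X} (hp : IsCoveringMap p)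
    (hinf : ∀ y, (p ⁻¹' {y}).Infinite) {W : DerivedCategory (Sh X)} (hW : CohP IsLocConst W)
    (η : (DerivedCategory.singleFunctor (Sh X) 0).obj (kk {x}) ⟶ W)
    (huniv : ∀ L : DerivedCategory (Sh X), CohP IsLocConst L →
      Function.Bijective (fun f : W ⟶ L => η ≫ f))
    (F : ℕ → ℤ → Sh X) (c : ∀ n j, F n j ⟶ (DerivedCategory.homologyFunctor (Sh X) j).obj W)
    (hc : ∀ j y (t : Stk ((DerivedCategory.homologyFunctor (Sh X) j).obj W) y),
      ∃ n, ∃ s : Stk (F n j) y, stk (c n j) y s = t)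
    (hF : ∀ n j, ∃ U : Set X, IsOpen U ∧ Dense U ∧ _root_.IsPreconnected (p ⁻¹' U) ∧
      FinOn (F n j) U) : False := by
  have : HasExt.{w} (Sh X) := hasExt_of_hasDerivedCategory _
  have hne : ∀ y, Nonempty (p ⁻¹' {y}) := fun y => (hinf y).nonempty.to_subtype
  -- the minimal degree
  classical
  have hex : ∃ k, HasCls.{w} x k := ⟨m, hasCls_of_chart ψ x hx⟩
  obtain ⟨k, hk, hkmin⟩ : ∃ k, HasCls.{w} x k ∧ ∀ j < k, ¬ HasCls.{w} x j :=
    ⟨Nat.find hex, Nat.find_spec hex, fun j hj => Nat.find_min hex hj⟩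
  obtain ⟨V, _, _, α, hα⟩ := hk
  -- the local system `p_! V`
  have hA₀ : IsLocConst (PSs V hp) := PS_locConst hp hne
  have := hne x
  obtain ⟨U₀, hxU₀, e, he⟩ := PS_local (V := V) hp x
  let i₀ : p ⁻¹' {x} := Classical.arbitrary _
  obtain ⟨β, hβ⟩ := exists_ext_ne_zero.{w} α hα (Finsupp.lsingle i₀)
    (Finsupp.lapply i₀) (by intro v; simp) hxU₀ e he
  obtain ⟨g, hg⟩ := tstr_main.{w, w} (P := IsLocConst) (fun A B e hA => IsLocConst.of_iso e hA)
    (fun A hA => IsLocConst.of_isZero hA) (K := kk {x}) (k := k)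
    (fun j hj A hA e => ext_locConst_eq_zero.{w} hkmin hA j hj e) hW η huniv hA₀ β hβ
  apply hg
  have hcoh : IsLocConst ((DerivedCategory.homologyFunctor (Sh X) (-k)).obj W) := hW (-k)
  choose U hU hUd hUc hUF using fun n => hF n (-(k : ℤ))
  have hdense : Dense (⋂ n, U n) := dense_iInter_of_isOpen hU hUd
  obtain ⟨y, hy⟩ := hdense.nonempty
  rw [Set.mem_iInter] at hy
  apply IsLocConst.hom_zero hcoh hA₀ g (y₀ := y)
  intro t
  obtain ⟨n, s, rfl⟩ := hc _ y t
  rw [← stk_comp]
  exact monodromy_zero hp (hU n) (hUc n) (fun y _ => hinf y) (hUF n) (c n _ ≫ g) y (hy n) s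

end

end WS
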