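import Mathlib

open CategoryTheory TopologicalSpace Topology Limits Opposite
open scoped Manifold

set_option backward.isDefEq.respectTransparency false
set_option backward.isDefEq.respectTransparency.types false

universe w

namespace WS

noncomputable section

/-- The abelian category of sheaves of complex vector spaces on a topological space `X`. -/
abbrev Sh (X : Type) [TopologicalSpace X] := TopCat.Sheaf (ModuleCat.{0} ℂ) (TopCat.of X)

variable {X : Type} [TopologicalSpace X]

/-- The vector space of sections of a sheaf over an open set. -/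
abbrev Sec (F : Sh X) (U : Opens X) : Type := (F.obj.obj (op U) : ModuleCat.{0} ℂ)

/-- The stalk of a sheaf at a point. -/
abbrev Stk (F : Sh X) (y : X) : Type := (F.presheaf.stalk (X := TopCat.of X) y : ModuleCat.{0} ℂ)

/-- The germ at `y` of a section over an open neighbourhood of `y`. -/
def germ (F : Sh X) {U : Opens X} (y : X) (hy : y ∈ U) : Sec F U →ₗ[ℂ] Stk F y :=
  (F.presheaf.germ (X := TopCat.of X) U y hy).hom

/-- `F` is a locally constant sheaf: every point has an open neighbourhood `U` such that for
some complex vector space `V` (of any dimension) there is a linear map `V → F(U)` inducing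
isomorphisms `V ≅ F_y` for all `y ∈ U`, i.e. the restriction of `F` to `U` is isomorphic to the
constant sheaf with fibre `V`. -/
def IsLocConst (F : Sh X) : Prop :=
  ∀ x : X, ∃ (U : Opens X) (_ : x ∈ U) (V : Type) (_ : AddCommGroup V) (_ : Module ℂ V)
    (e : V →ₗ[ℂ] Sec F U), ∀ y (hy : y ∈ U), Function.Bijective (fun v => germ F y hy (e v))

/-- `F` is locally constant of finite rank. -/
def IsLocConstFin (F : Sh X) : Prop :=
  ∀ x : X, ∃ (U : Opens X) (_ : x ∈ U) (V : Type) (_ : AddCommGroup V) (_ : Module ℂ V)
    (_ : FiniteDimensional ℂ V)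
    (e : V →ₗ[ℂ] Sec F U), ∀ y (hy : y ∈ U), Function.Bijective (fun v => germ F y hy (e v))

/-- The inclusion of a subset `S` of `X`, as a morphism of topological spaces. -/
abbrev incl (S : Set X) : TopCat.of S ⟶ TopCat.of X :=
  TopCat.ofHom ⟨Subtype.val, continuous_subtype_val⟩

/-- The restriction (inverse image) of a sheaf to a subset `S`. -/
def restrictTo (S : Set X) (F : Sh X) : Sh S :=
  (TopCat.Sheaf.pullback (ModuleCat.{0} ℂ) (incl S)).obj F

open Classical in
/-- The skyscraper sheaf `ℂ_x`. -/
def sky (x : X) : Sh X := skyscraperSheaf (X := TopCat.of X) x (ModuleCat.of ℂ ℂ)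

/-- A closed analytic subset of a complex manifold `M` modelled on `E`: every point of `M` has
an open neighbourhood on which the set is the common zero locus of finitely many holomorphic
functions. -/
def IsAnalyticSet (E : Type) [NormedAddCommGroup E] [NormedSpace ℂ E]
    {M : Type} [TopologicalSpace M] [ChartedSpace E M] (Z : Set M) : Prop :=
  ∀ y : M, ∃ O : Set M, IsOpen O ∧ y ∈ O ∧ ∃ (r : ℕ) (f : Fin r → M → ℂ),
    (∀ i, MDifferentiableOn 𝓘(ℂ, E) 𝓘(ℂ, ℂ) (f i) O) ∧ Z ∩ O = {z ∈ O | ∀ i, f i z = 0}

/-- A sheaf on a compact complex manifold `M` is `ℂ`-constructible if there is a finite covering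
of `M` by subsets `S i` such that the closure of `S i` and the frontier `closure (S i) \ S i` are
closed analytic subsets and such that the restriction of the sheaf to every `S i` is locally
constant of finite rank. -/
def IsCConstructibleSheaf (E : Type) [NormedAddCommGroup E] [NormedSpace ℂ E]
    {M : Type} [TopologicalSpace M] [ChartedSpace E M] (F : Sh M) : Prop :=
  ∃ (ι : Type) (_ : Finite ι) (S : ι → Set M), (⋃ i, S i = Set.univ) ∧
    (∀ i, IsAnalyticSet E (closure (S i)) ∧ IsAnalyticSet E (closure (S i) \ S i)) ∧
    ∀ i, IsLocConstFin (restrictTo (S i) F)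

section

variable [HasDerivedCategory.{w} (Sh X)]

/-- The `n`-th cohomology sheaf of an object of the (unbounded) derived category of sheaves. -/
abbrev cohSheaf (n : ℤ) (K : DerivedCategory (Sh X)) : Sh X :=
  (DerivedCategory.homologyFunctor (Sh X) n).obj K

/-- The skyscraper sheaf `ℂ_x` as an object of the derived category. -/
abbrev skyD (x : X) : DerivedCategory (Sh X) :=
  (DerivedCategory.singleFunctor (Sh X) 0).obj (sky x)

/-- `K` has locally constant cohomology sheaves, i.e. `K` lies in `Sh_{0_X}(X)`. -/
def HasLocConstCoh (K : DerivedCategory (Sh X)) : Prop := ∀ n : ℤ, IsLocConst (cohSheaf n K)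

/-- `η : ℂ_x ⟶ W` exhibits `W` as the wrapped skyscraper sheaf at `x`, i.e. as the image of
`ℂ_x` under the left adjoint of the inclusion of the full subcategory `Sh_{0_X}(X)` of the
objects with locally constant cohomology sheaves: `W` lies in this subcategory and
every morphism from `ℂ_x` to an object `L` of this subcategory factors uniquely through `η`. -/
structure IsWrapping (x : X) (W : DerivedCategory (Sh X)) (η : skyD x ⟶ W) : Prop where
  locConst : HasLocConstCoh W
  univ : ∀ L : DerivedCategory (Sh X), HasLocConstCoh L →
    Function.Bijective (fun f : W ⟶ L => η ≫ f)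

/-- `W` is the (homotopy) colimit of the inductive system `K : K₀ ⟶ K₁ ⟶ K₂ ⟶ ⋯` in the derived
category: `W` is isomorphic to the vertex of a cocone which for every `n` induces an isomorphism
from the colimit of the `n`-th cohomology sheaves of the `K_i` to the `n`-th cohomology sheaf. -/
def IsSeqColimit (K : ℕ ⥤ DerivedCategory (Sh X)) (W : DerivedCategory (Sh X)) : Prop :=
  ∃ c : Cocone K, Nonempty (c.pt ≅ W) ∧
    ∀ n : ℤ, Nonempty (IsColimit ((DerivedCategory.homologyFunctor (Sh X) n).mapCocone c))

end

/-- An object of the derived category of sheaves on a compact complex manifold is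
`ℂ`-constructible if it is (cohomologically) bounded and if all its cohomology sheaves are
`ℂ`-constructible. -/
def IsCConstructible (E : Type) [NormedAddCommGroup E] [NormedSpace ℂ E]
    {M : Type} [TopologicalSpace M] [ChartedSpace E M] [HasDerivedCategory.{w} (Sh M)]
    (K : DerivedCategory (Sh M)) : Prop :=
  (∃ a b : ℤ, K.IsGE a ∧ K.IsLE b) ∧ ∀ n : ℤ, IsCConstructibleSheaf E (cohSheaf n K)

end

end WS
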