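import Pool.Agent.helper18.WS.TFun

open CategoryTheory TopologicalSpace Topology Limits Opposite Abelian

universe w v u

namespace WS

noncomputable section

section

variable {C : Type u} [Category.{v} C] [Abelian C] [EnoughInjectives C] [HasExt.{w} C]
  (T : C ⥤ C) [T.Additive] [PreservesFiniteLimits T] [PreservesFiniteColimits T] (ι : T ⟶ 𝟭 C)

lemma exists_eq_comp_extClass {X Y : C} {n : ℕ} (e : Ext X Y (n + 1)) :
    ∃ (S : ShortComplex C) (hS : S.ShortExact) (h : S.X₁ = Y) (e' : Ext X S.X₃ n),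
      e'.comp hS.extClass rfl = h ▸ e := by
  let I : InjectivePresentation Y := Classical.arbitrary _
  let S := ShortComplex.mk _ _ (cokernel.condition I.f)
  have hS : S.ShortExact := { exact := ShortComplex.exact_cokernel I.f }
  have : Injective S.X₂ := I.injective
  obtain ⟨e', he'⟩ := Ext.covariant_sequence_exact₁ X hS e (Ext.eq_zero_of_injective _) rfl
  exact ⟨S, hS, rfl, e', he'⟩

lemma map_comp_natTrans {X Y : C} {n : ℕ} (e : Ext X Y n) :
    (e.mapExactFunctor T).comp (Ext.mk₀ (ι.app Y)) (add_zero n) =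
      (Ext.mk₀ (ι.app X)).comp e (zero_add n) := by
  induction n generalizing Y with
  | zero =>
    obtain ⟨f, rfl⟩ := (Ext.mk₀_bijective X Y).2 e
    rw [Ext.mapExactFunctor_mk₀, Ext.mk₀_comp_mk₀, Ext.mk₀_comp_mk₀]
    congr 1
    exact ι.naturality f
  | succ n hn =>
    obtain ⟨S, hS, rfl, e', he'⟩ := exists_eq_comp_extClass e
    dsimp at he'
    subst he'
    have nat : ((hS.map_of_exact T).extClass : Ext (T.obj S.X₃) (T.obj S.X₁) 1).comp
        (Ext.mk₀ (ι.app S.X₁)) (add_zero 1) =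
        (Ext.mk₀ (ι.app S.X₃)).comp hS.extClass (zero_add 1) :=
      ShortComplex.ShortExact.extClass_naturality (hS.map_of_exact T) hS
      (S.mapNatTrans ι)
    have h1 : (e'.comp hS.extClass rfl).mapExactFunctor T =
        (e'.mapExactFunctor T).comp
          ((hS.map_of_exact T).extClass : Ext (T.obj S.X₃) (T.obj S.X₁) 1) rfl :=
      (Ext.mapExactFunctor_comp T e' hS.extClass rfl).trans
        (congrArg (fun z => (e'.mapExactFunctor T).comp z rfl) (Ext.mapExactFunctor_extClass T hS))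
    have h2 : ((e'.mapExactFunctor T).comp
          ((hS.map_of_exact T).extClass : Ext (T.obj S.X₃) (T.obj S.X₁) 1) rfl).comp
            (Ext.mk₀ (ι.app S.X₁)) (add_zero (n + 1)) =
        (e'.mapExactFunctor T).comp (((hS.map_of_exact T).extClass :
          Ext (T.obj S.X₃) (T.obj S.X₁) 1).comp (Ext.mk₀ (ι.app S.X₁)) (add_zero 1)) rfl :=
      Ext.comp_assoc _ _ _ _ _ (by lia)
    have h3 : (e'.mapExactFunctor T).comp
        ((Ext.mk₀ (ι.app S.X₃)).comp hS.extClass (zero_add 1)) rfl =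
        ((e'.mapExactFunctor T).comp (Ext.mk₀ (ι.app S.X₃)) (add_zero n)).comp
          hS.extClass rfl :=
      (Ext.comp_assoc _ _ _ _ _ (by lia)).symm
    have h4 : ((Ext.mk₀ (ι.app X)).comp e' (zero_add n)).comp hS.extClass rfl =
        (Ext.mk₀ (ι.app X)).comp (e'.comp hS.extClass rfl) (zero_add (n + 1)) :=
      Ext.comp_assoc _ _ _ _ _ (by lia)
    exact (congrArg (fun z => Ext.comp z (Ext.mk₀ (ι.app S.X₁)) (add_zero (n + 1))) h1).trans
      (h2.trans ((congrArg (fun z => (e'.mapExactFunctor T).comp z rfl) nat).trans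
      (h3.trans ((congrArg (fun z => Ext.comp z hS.extClass rfl) (hn e')).trans h4))))

/-- If `ι_X` is an isomorphism, then every class in `Ext X Y` comes from `Ext X (T Y)`. -/
lemma T_lift {X Y : C} {n : ℕ} [IsIso (ι.app X)] (e : Ext X Y n) :
    ∃ e' : Ext X (T.obj Y) n, e'.comp (Ext.mk₀ (ι.app Y)) (add_zero n) = e := by
  refine ⟨(Ext.mk₀ (inv (ι.app X))).comp (e.mapExactFunctor T) (zero_add n), ?_⟩
  have h1 := map_comp_natTrans T ι e
  have h2 : ((Ext.mk₀ (inv (ι.app X))).comp (e.mapExactFunctor T) (zero_add n)).comp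
      (Ext.mk₀ (ι.app Y)) (add_zero n) = (Ext.mk₀ (inv (ι.app X))).comp
        ((e.mapExactFunctor T).comp (Ext.mk₀ (ι.app Y)) (add_zero n)) (zero_add n) :=
    Ext.comp_assoc _ _ _ _ _ (by lia)
  rw [h2, h1]
  have h3 : (Ext.mk₀ (inv (ι.app X))).comp ((Ext.mk₀ (ι.app X)).comp e (zero_add n)) (zero_add n) =
     (Ext.mk₀ (inv (ι.app X) ≫ ι.app X)).comp e (zero_add n) :=
    Ext.mk₀_comp_mk₀_assoc _ _ _
  rw [h3, IsIso.inv_hom_id]
  exact Ext.mk₀_id_comp e

/-- If `ι_X` is an isomorphism and `T ι_Y` is mono (iso), then `Ext X (T Y) → Ext X Y` is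
injective. -/
lemma T_inj {X Y : C} {n : ℕ} [IsIso (ι.app X)] [IsIso (T.map (ι.app Y))]
    (e : Ext X (T.obj Y) n)
    (he : e.comp (Ext.mk₀ (ι.app Y)) (add_zero n) = 0) : e = 0 := by
  have h1 : (e.mapExactFunctor T).comp (Ext.mk₀ (T.map (ι.app Y))) (add_zero n) = 0 := by
    have := congrArg (Ext.mapExactFunctor T) he
    rw [Ext.mapExactFunctor_comp, Ext.mapExactFunctor_zero, Ext.mapExactFunctor_mk₀] at this
    exact this
  have h2 : e.mapExactFunctor T = 0 := by
    have h3 := congrArg (fun z => Ext.comp z (Ext.mk₀ (inv (T.map (ι.app Y)))) (add_zero n)) h1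
    have h4 : ((e.mapExactFunctor T).comp (Ext.mk₀ (T.map (ι.app Y))) (add_zero n)).comp
      (Ext.mk₀ (inv (T.map (ι.app Y)))) (add_zero n) = (e.mapExactFunctor T).comp
        ((Ext.mk₀ (T.map (ι.app Y))).comp (Ext.mk₀ (inv (T.map (ι.app Y)))) (add_zero 0))
          (add_zero n) := Ext.comp_assoc _ _ _ _ _ (by lia)
    rw [Ext.mk₀_comp_mk₀, IsIso.hom_inv_id, Ext.comp_mk₀_id] at h4
    rw [← h4]
    exact h3.trans (Ext.zero_comp _ _ _ _ _)
  have h5 := map_comp_natTrans T ι e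
  rw [h2, Ext.zero_comp] at h5
  have h6 := congrArg (fun z => (Ext.mk₀ (inv (ι.app X))).comp z (zero_add n)) h5
  have h3 : (Ext.mk₀ (inv (ι.app X))).comp ((Ext.mk₀ (ι.app X)).comp e (zero_add n)) (zero_add n) =
     (Ext.mk₀ (inv (ι.app X) ≫ ι.app X)).comp e (zero_add n) :=
    Ext.mk₀_comp_mk₀_assoc _ _ _
  rw [IsIso.inv_hom_id] at h3
  have h7 := h6.trans h3
  rw [Ext.mk₀_id_comp] at h7
  rw [← h7]
  exact Ext.comp_zero _ _ _ _ _

/-- If `ι_X` is an isomorphism and `T Y = 0` then `Ext X Y n = 0`. -/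
lemma T_ext_eq_zero {X Y : C} {n : ℕ} [IsIso (ι.app X)] (hY : IsZero (T.obj Y))
    (e : Ext X Y n) : e = 0 := by
  obtain ⟨e', rfl⟩ := T_lift T ι e
  have : ι.app Y = 0 := hY.eq_of_src _ _
  rw [this, Ext.mk₀_zero, Ext.comp_zero]

end

end

end WS
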