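import Pool.Agent.helper18.WS.KP

open CategoryTheory TopologicalSpace Topology Limits Opposite

set_option backward.isDefEq.respectTransparency false
set_option backward.isDefEq.respectTransparency.types false
set_option linter.unusedVariables false

namespace WS

noncomputable section

variable {X : Type} [TopologicalSpace X]

/-- the section `1` of `ℂ_P` over `O`, if `P ∩ O` is closed in `O`. -/
def one {P : Set X} {O : Opens X} (h : ∃ C, IsClosed C ∧ P ∩ O = C ∩ O) : Sec (KP ℂ P).sh O :=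
  (KP ℂ P).mks _ (ind_mem h.choose h.choose_spec.1 h.choose_spec.2 (1 : ℂ))

lemma val_one {P : Set X} {O : Opens X} (h : ∃ C, IsClosed C ∧ P ∩ O = C ∩ O) :
    (KP ℂ P).val (one h) = (P ∩ O).indicator (fun _ => (1 : ℂ)) := rfl

lemma one_cond (O : Opens X) : ∃ C, IsClosed C ∧ (O : Set X) ∩ O = C ∩ O :=
  ⟨Set.univ, isClosed_univ, by simp⟩

lemma germ_KP_eq_smul {P : Set X} {O U : Opens X} (h : ∃ C, IsClosed C ∧ P ∩ O = C ∩ O)
    {y : X} (hy : y ∈ O) (hyP : y ∈ P) (hU : y ∈ U) (s : Sec (KP ℂ P).sh U) :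
    germ (KP ℂ P).sh y hU s = ((KP ℂ P).val s y) • germ (KP ℂ P).sh y hy (one h) := by
  rw [← map_smul, KP_germ_eq, map_smul, val_one]
  simp [hy, hyP]

/-- The morphism `ℂ_O ⟶ F` given by a section `t ∈ F(O)`. -/
lemma exists_fromSec (O : Opens X) (F : Sh X) (t : Sec F O) :
    ∃ f : (KP ℂ (O : Set X)).sh ⟶ F, app f O (one (one_cond O)) = t := by
  classical
  let ψ : ∀ y : X, ∃ φ : Stk (KP ℂ (O : Set X)).sh y →ₗ[ℂ] Stk F y, ∀ (hy : y ∈ O) (U : Opens X)
      (hU : y ∈ U) (s : Sec (KP ℂ (O : Set X)).sh U),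
      φ (germ (KP ℂ (O : Set X)).sh y hU s) = ((KP ℂ (O : Set X)).val s y) • germ F y hy t := by
    intro y
    by_cases hy : y ∈ O
    · refine ⟨((KP ℂ (O : Set X)).ev y).smulRight (germ F y hy t), fun hy' U hU s => ?_⟩
      rw [LinearMap.smulRight_apply]
      congr 1
      exact (KP ℂ (O : Set X)).ev_germ y U hU s
    · exact ⟨0, fun h => absurd h hy⟩
  choose φ hφ using ψ
  have := exists_hom_of_stk (F := (KP ℂ (O : Set X)).sh) (G := F) φ (by
    intro U s y hy
    by_cases hO : y ∈ O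
    · -- near y, s is constant
      have h3 := KP_mem_C.1 (((KP ℂ (O : Set X)).val_mem s).2 y hy)
      obtain ⟨O', hO', hO'o, hyO'⟩ := eventually_nhds_iff.1 h3
      refine ⟨U ⊓ O ⊓ ⟨O', hO'o⟩, ⟨⟨hy, hO⟩, hyO'⟩, inf_le_left.trans inf_le_left,
        ((KP ℂ (O : Set X)).val s y) • res F (inf_le_left.trans inf_le_right) t, fun z hz => ?_⟩
      rw [map_smul, germ_res, hφ z hz.1.2, hO' z hz.2, Set.indicator_of_mem hz.1.2]
    · have h3 := KP_mem_C.1 (((KP ℂ (O : Set X)).val_mem s).2 y hy)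
      rw [KP_val_not_mem s hO] at h3
      obtain ⟨O', hO', hO'o, hyO'⟩ := eventually_nhds_iff.1 h3
      refine ⟨U ⊓ ⟨O', hO'o⟩, ⟨hy, hyO'⟩, inf_le_left, 0, fun z hz => ?_⟩
      rw [map_zero]
      by_cases hzO : z ∈ O
      · rw [hφ z hzO, hO' z hz.2]
        simp
      · rw [stk_KP_eq_zero (fun h => hzO h) (germ (KP ℂ (O : Set X)).sh z hz.1 s), map_zero])
  obtain ⟨f, hf⟩ := this
  refine ⟨f, ?_⟩
  apply sec_ext
  intro y hy
  rw [← stk_germ, hf, hφ y hy, val_one]
  simp [hy]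

def fromSec {O : Opens X} {F : Sh X} (t : Sec F O) : (KP ℂ (O : Set X)).sh ⟶ F :=
  (exists_fromSec O F t).choose

lemma app_fromSec {O : Opens X} {F : Sh X} (t : Sec F O) :
    app (fromSec t) O (one (one_cond O)) = t := (exists_fromSec O F t).choose_spec

lemma hom_KP_ext {O : Opens X} {F : Sh X} {f g : (KP ℂ (O : Set X)).sh ⟶ F}
    (h : app f O (one (one_cond O)) = app g O (one (one_cond O))) : f = g := by
  apply hom_ext_stk
  intro y s
  by_cases hy : y ∈ O
  · obtain ⟨U, hU, t, rfl⟩ := germ_surj _ y s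
    rw [germ_KP_eq_smul (one_cond O) hy hy hU t, map_smul, map_smul, stk_germ, stk_germ, h]
  · rw [stk_KP_eq_zero (fun h => hy h) s, map_zero, map_zero]

lemma eq_fromSec {O : Opens X} {F : Sh X} (f : (KP ℂ (O : Set X)).sh ⟶ F) :
    f = fromSec (app f O (one (one_cond O))) := hom_KP_ext (app_fromSec _).symm

lemma fromSec_comp {O : Opens X} {F G : Sh X} (t : Sec F O) (f : F ⟶ G) :
    fromSec t ≫ f = fromSec (app f O t) := by
  apply hom_KP_ext
  rw [app_comp, app_fromSec, app_fromSec]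

lemma LC_opens {O' O : Opens X} (h : O' ≤ O) : LC (O' : Set X) (O : Set X) :=
  LC_of_open h ⟨O', O'.isOpen, (Set.inter_eq_right.2 h).symm⟩

lemma mor_fromSec {O' O : Opens X} (h : O' ≤ O) {F : Sh X} (t : Sec F O) :
    mor (LC_opens h) ≫ fromSec t = fromSec (res F h t) := by
  apply hom_KP_ext
  rw [app_comp, app_fromSec]
  have h1 : app (mor (V := ℂ) (LC_opens h)) O' (one (one_cond O')) =
      res _ h (one (one_cond O)) := by
    apply (KP ℂ (O : Set X)).val_injective
    rw [val_mor, FS.val_res, val_one, val_one]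
    funext z
    by_cases hz : z ∈ O'
    · rw [FS.cut_apply_mem (p := (KP ℂ (O : Set X)).p) _ hz]
      simp [hz, h hz]
    · rw [FS.cut_apply_not_mem (p := (KP ℂ (O : Set X)).p) _ hz]
      simp [hz]
  rw [h1, app_res, app_fromSec]

end

end WS
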