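import Pool.Agent.helper18.WS.Basic

open CategoryTheory TopologicalSpace Topology Limits Opposite

set_option backward.isDefEq.respectTransparency false
set_option backward.isDefEq.respectTransparency.types false
set_option linter.unusedVariables false

namespace WS

noncomputable section

/-- Data defining a sheaf of functions: sections over `U` are the functions `f : N → W`
supported on `p ⁻¹ U` which satisfy the local condition `C y` for all `y ∈ U`. -/
structure FS (X N W : Type) [TopologicalSpace X] [AddCommGroup W] [Module ℂ W] where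
  p : N → X
  C : X → Submodule ℂ (N → W)
  loc : ∀ (y : X) (U : Opens X) (_ : y ∈ U) (f g : N → W), (∀ n, p n ∈ U → f n = g n) →
    f ∈ C y → g ∈ C y

variable {X : Type} [TopologicalSpace X]

namespace FS

variable {N W : Type} [AddCommGroup W] [Module ℂ W] (A : FS X N W)

def sec (U : Opens X) : Submodule ℂ (N → W) where
  carrier := {f | (∀ n, A.p n ∉ U → f n = 0) ∧ ∀ y ∈ U, f ∈ A.C y}
  add_mem' := by
    intro f g hf hg
    exact ⟨fun n hn => by simp [hf.1 n hn, hg.1 n hn],
      fun y hy => (A.C y).add_mem (hf.2 y hy) (hg.2 y hy)⟩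
  zero_mem' := ⟨fun _ _ => rfl, fun y _ => (A.C y).zero_mem⟩
  smul_mem' := by
    intro c f hf
    exact ⟨fun n hn => by simp [hf.1 n hn], fun y hy => (A.C y).smul_mem c (hf.2 y hy)⟩

open Classical in
/-- cutting off a function -/
def cut (p : N → X) (V : Opens X) : (N → W) →ₗ[ℂ] (N → W) where
  toFun f := fun n => if p n ∈ V then f n else 0
  map_add' f g := by ext n; by_cases h : p n ∈ V <;> simp [h]
  map_smul' c f := by ext n; by_cases h : p n ∈ V <;> simp [h]

lemma cut_apply_mem {p : N → X} {V : Opens X} (f : N → W) {n : N} (h : p n ∈ V) :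
    cut p V f n = f n := by simp [cut, h]

lemma cut_apply_not_mem {p : N → X} {V : Opens X} (f : N → W) {n : N} (h : p n ∉ V) :
    cut p V f n = 0 := by simp [cut, h]

lemma cut_mem {U V : Opens X} (h : V ≤ U) (f : N → W) (hf : f ∈ A.sec U) :
    cut A.p V f ∈ A.sec V := by
  refine ⟨fun n hn => cut_apply_not_mem f hn, fun y hy => ?_⟩
  exact A.loc y V hy f _ (fun n hn => (cut_apply_mem f hn).symm) (hf.2 y (h hy))

def pre : TopCat.Presheaf (ModuleCat.{0} ℂ) (TopCat.of X) where
  obj U := ModuleCat.of ℂ (A.sec U.unop)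
  map {U V} i := ModuleCat.ofHom ((cut A.p V.unop).restrict (fun f hf => A.cut_mem i.unop.le f hf))
  map_id U := by
    apply ModuleCat.hom_ext
    apply LinearMap.ext
    intro s
    apply Subtype.ext
    funext n
    by_cases h : A.p n ∈ U.unop
    · exact cut_apply_mem _ h
    · exact (cut_apply_not_mem _ h).trans (s.2.1 n h).symm
  map_comp {U V V'} i j := by
    apply ModuleCat.hom_ext
    apply LinearMap.ext
    intro s
    apply Subtype.ext
    funext n
    by_cases h : A.p n ∈ V'.unop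
    · refine (cut_apply_mem _ h).trans ?_
      symm
      refine (cut_apply_mem _ h).trans ?_
      exact (cut_apply_mem _ (j.unop.le h))
    · refine (cut_apply_not_mem _ h).trans ?_
      symm
      exact (cut_apply_not_mem _ h)

lemma pre_isSheaf : A.pre.IsSheaf := by
  rw [TopCat.Presheaf.isSheaf_iff_isSheafUniqueGluing]
  intro ι U sf hsf
  let s : ∀ i, A.sec (U i) := sf
  have hs : ∀ i j n, A.p n ∈ U i → A.p n ∈ U j → (s i).1 n = (s j).1 n := by
    intro i j n hi hj
    have h1 := hsf i j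
    have h2 : cut A.p (U i ⊓ U j) (s i).1 n = cut A.p (U i ⊓ U j) (s j).1 n :=
      congrFun (congrArg Subtype.val h1) n
    rwa [cut_apply_mem _ (by exact ⟨hi, hj⟩), cut_apply_mem _ (by exact ⟨hi, hj⟩)] at h2
  classical
  let f : N → W := fun n => if h : ∃ i, A.p n ∈ U i then (s h.choose).1 n else 0
  have hf : ∀ i n, A.p n ∈ U i → f n = (s i).1 n := by
    intro i n hn
    have h : ∃ i, A.p n ∈ U i := ⟨i, hn⟩
    simp only [f, dif_pos h]
    exact hs _ _ n h.choose_spec hn
  have hmem : f ∈ A.sec (iSup U) := by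
    refine ⟨fun n hn => ?_, fun y hy => ?_⟩
    · have h : ¬ ∃ i, A.p n ∈ U i := fun ⟨i, hi⟩ => hn (Opens.mem_iSup.2 ⟨i, hi⟩)
      simp only [f, dif_neg h]
    · obtain ⟨i, hi⟩ := Opens.mem_iSup.1 hy
      exact A.loc y (U i) hi (s i).1 f (fun n hn => (hf i n hn).symm) ((s i).2.2 y hi)
  refine ⟨(⟨f, hmem⟩ : A.sec (iSup U)), ?_, ?_⟩
  · intro i
    apply Subtype.ext
    funext n
    change cut A.p (U i) f n = (s i).1 n
    by_cases h : A.p n ∈ U i
    · rw [cut_apply_mem _ h, hf i n h]
    · rw [cut_apply_not_mem _ h, (s i).2.1 n h]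
  · intro t ht
    let t' : A.sec (iSup U) := t
    apply Subtype.ext
    funext n
    change t'.1 n = f n
    by_cases h : ∃ i, A.p n ∈ U i
    · obtain ⟨i, hi⟩ := h
      have h1 : cut A.p (U i) t'.1 n = (s i).1 n := congrFun (congrArg Subtype.val (ht i)) n
      rw [cut_apply_mem _ hi] at h1
      rw [h1, hf i n hi]
    · simp only [f, dif_neg h]
      exact t'.2.1 n (fun hn => h (Opens.mem_iSup.1 hn))

/-- The sheaf of functions attached to `A`. -/
def sh : Sh X := ⟨A.pre, A.pre_isSheaf⟩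

/-- The function underlying a section. -/
def val {U : Opens X} : Sec A.sh U →ₗ[ℂ] (N → W) := (A.sec U).subtype

def mks {U : Opens X} (f : N → W) (hf : f ∈ A.sec U) : Sec A.sh U := (⟨f, hf⟩ : A.sec U)

@[simp] lemma val_mks {U : Opens X} (f : N → W) (hf : f ∈ A.sec U) : A.val (A.mks f hf) = f := rfl

lemma val_mem {U : Opens X} (s : Sec A.sh U) : A.val s ∈ A.sec U := (s : A.sec U).2

lemma val_injective {U : Opens X} : Function.Injective (A.val (U := U)) := Subtype.val_injective

lemma val_res {U V : Opens X} (h : V ≤ U) (s : Sec A.sh U) :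
    A.val (res A.sh h s) = cut A.p V (A.val s) := rfl

lemma germ_eq_iff {U V : Opens X} {y : X} (hU : y ∈ U) (hV : y ∈ V) (s : Sec A.sh U)
    (t : Sec A.sh V) :
    germ A.sh y hU s = germ A.sh y hV t ↔
      ∃ (W : Opens X), y ∈ W ∧ ∀ n, A.p n ∈ W → A.val s n = A.val t n := by
  constructor
  · intro h
    obtain ⟨W, hW, iU, iV, e⟩ := WS.germ_eq _ y hU hV s t h
    refine ⟨W, hW, fun n hn => ?_⟩
    have := congrFun (congrArg A.val e) n
    rwa [val_res, val_res, cut_apply_mem _ hn, cut_apply_mem _ hn] at this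
  · rintro ⟨W, hW, h⟩
    have h1 : U ⊓ V ⊓ W ≤ U := inf_le_left.trans inf_le_left
    have h2 : U ⊓ V ⊓ W ≤ V := inf_le_left.trans inf_le_right
    have hy : y ∈ U ⊓ V ⊓ W := ⟨⟨hU, hV⟩, hW⟩
    rw [← germ_res _ h1 y hy, ← germ_res _ h2 y hy]
    congr 1
    apply A.val_injective
    rw [val_res, val_res]
    funext n
    by_cases hn : A.p n ∈ U ⊓ V ⊓ W
    · rw [cut_apply_mem _ hn, cut_apply_mem _ hn, h n hn.2]
    · rw [cut_apply_not_mem _ hn, cut_apply_not_mem _ hn]

/-- Morphisms between sheaves of functions. -/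
def hom {N' W' : Type} [AddCommGroup W'] [Module ℂ W'] (A : FS X N W) (B : FS X N' W')
    (Θ : (N → W) →ₗ[ℂ] (N' → W'))
    (hΘ : ∀ V : Opens X, ∀ f, Θ (cut A.p V f) = cut B.p V (Θ f))
    (hC : ∀ y f, f ∈ A.C y → Θ f ∈ B.C y) : A.sh ⟶ B.sh :=
  homMk (fun U => Θ.restrict (p := A.sec U) (q := B.sec U) (fun f hf => by
    have h1 : f = cut A.p U f := by
      funext n
      by_cases h : A.p n ∈ U
      · rw [cut_apply_mem _ h]
      · rw [cut_apply_not_mem _ h, hf.1 n h]
    refine ⟨fun n hn => ?_, fun y hy => hC y f (hf.2 y hy)⟩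
    rw [h1, hΘ, cut_apply_not_mem _ hn]))
    (fun {U V} h s => by
      apply B.val_injective
      exact hΘ V (A.val s))

lemma val_hom {N' W' : Type} [AddCommGroup W'] [Module ℂ W'] (A : FS X N W) (B : FS X N' W')
    (Θ : (N → W) →ₗ[ℂ] (N' → W'))
    (hΘ : ∀ V : Opens X, ∀ f, Θ (cut A.p V f) = cut B.p V (Θ f))
    (hC : ∀ y f, f ∈ A.C y → Θ f ∈ B.C y) {U : Opens X} (s : Sec A.sh U) :
    B.val (app (hom A B Θ hΘ hC) U s) = Θ (A.val s) := rfl

end FS

end

end WS
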