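import Pool.Agent.helper18.WS.FunSheaf
import Pool.Agent.helper18.WS.ExtT

open CategoryTheory TopologicalSpace Topology Limits Opposite

set_option backward.isDefEq.respectTransparency false
set_option backward.isDefEq.respectTransparency.types false
set_option linter.unusedVariables false

namespace WS

noncomputable section

variable {X : Type} [TopologicalSpace X]

namespace FS

variable {W : Type} [AddCommGroup W] [Module ℂ W]

/-- evaluation of germs at the point, for sheaves of functions on `X` itself. -/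
lemma exists_ev {N : Type} (A : FS X N W) (n : N) :
    ∃ φ : Stk A.sh (A.p n) →ₗ[ℂ] W, ∀ (U : Opens X) (hy : A.p n ∈ U) (s : Sec A.sh U),
      φ (germ A.sh (A.p n) hy s) = A.val s n := by
  have h := fun t => germ_surj A.sh (A.p n) t
  choose U hU s hs using h
  have key : ∀ (V : Opens X) (hV : A.p n ∈ V) (t : Sec A.sh V),
      A.val (s (germ A.sh (A.p n) hV t)) n = A.val t n := by
    intro V hV t
    have := hs (germ A.sh (A.p n) hV t)
    rw [A.germ_eq_iff] at this
    obtain ⟨W', hW', h'⟩ := this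
    exact h' n hW'
  refine ⟨{ toFun := fun t => A.val (s t) n, map_add' := ?_, map_smul' := ?_ }, ?_⟩
  · intro a b
    obtain ⟨U₁, h₁, a', rfl⟩ := germ_surj A.sh (A.p n) a
    obtain ⟨U₂, h₂, b', rfl⟩ := germ_surj A.sh (A.p n) b
    rw [← WS.germ_res A.sh (inf_le_left : U₁ ⊓ U₂ ≤ U₁) (A.p n) ⟨h₁, h₂⟩,
      ← WS.germ_res A.sh (inf_le_right : U₁ ⊓ U₂ ≤ U₂) (A.p n) ⟨h₁, h₂⟩, ← map_add,
      key, key, key, map_add]
    rfl
  · intro c a
    obtain ⟨U₁, h₁, a', rfl⟩ := germ_surj A.sh (A.p n) a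
    rw [← map_smul, key, key, map_smul]
    rfl
  · intro V hV t
    exact key V hV t

def ev {N : Type} (A : FS X N W) (n : N) : Stk A.sh (A.p n) →ₗ[ℂ] W := (A.exists_ev n).choose

lemma ev_germ {N : Type} (A : FS X N W) (n : N) (U : Opens X) (hy : A.p n ∈ U) (s : Sec A.sh U) :
    A.ev n (germ A.sh (A.p n) hy s) = A.val s n := (A.exists_ev n).choose_spec U hy s

end FS

variable (V : Type) [AddCommGroup V] [Module ℂ V]

/-- The sheaf `V_P`: the constant sheaf on the locally closed subset `P`, extended by zero. -/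
def KP (P : Set X) : FS X X V where
  p := id
  C y :=
    { carrier := {f | ∀ᶠ z in 𝓝 y, f z = P.indicator (fun _ => f y) z}
      add_mem' := by
        intro f g hf hg
        have hf' : ∀ᶠ z in 𝓝 y, f z = P.indicator (fun _ => f y) z := hf
        have hg' : ∀ᶠ z in 𝓝 y, g z = P.indicator (fun _ => g y) z := hg
        filter_upwards [hf', hg'] with z h1 h2
        by_cases hz : z ∈ P <;> simp [h1, h2, hz]
      zero_mem' := by
        refine Filter.Eventually.of_forall (fun z => ?_)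
        by_cases hz : z ∈ P <;> simp [hz]
      smul_mem' := by
        intro c f hf
        have hf' : ∀ᶠ z in 𝓝 y, f z = P.indicator (fun _ => f y) z := hf
        filter_upwards [hf'] with z h1
        by_cases hz : z ∈ P <;> simp [h1, hz] }
  loc := by
    intro y U hy f g hfg hf
    have hf' : ∀ᶠ z in 𝓝 y, f z = P.indicator (fun _ => f y) z := hf
    filter_upwards [hf', U.isOpen.mem_nhds hy] with z h1 h2
    rw [← hfg z h2, ← hfg y hy, h1]

variable {V}

lemma KP_mem_C {P : Set X} {y : X} {f : X → V} :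
    f ∈ (KP V P).C y ↔ ∀ᶠ z in 𝓝 y, f z = P.indicator (fun _ => f y) z := Iff.rfl

lemma KP_C_not_mem {P : Set X} {y : X} {f : X → V} (hf : f ∈ (KP V P).C y) (hy : y ∉ P) :
    f y = 0 := by
  have := (KP_mem_C.1 hf).self_of_nhds
  rw [this]
  simp [hy]

/-- `P ∩ Q` is closed in `P` and open in `Q`. -/
def LC (P Q : Set X) : Prop :=
  (∃ C, IsClosed C ∧ P ∩ Q = P ∩ C) ∧ (∃ O, IsOpen O ∧ P ∩ Q = Q ∩ O)

open Classical in
/-- multiplication by the indicator function of `Q` -/
def mulInd (V : Type) [AddCommGroup V] [Module ℂ V] (Q : Set X) : (X → V) →ₗ[ℂ] (X → V) where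
  toFun f := Q.indicator f
  map_add' f g := Set.indicator_add Q f g
  map_smul' c f := Set.indicator_const_smul Q c f

lemma mulInd_apply (Q : Set X) (f : X → V) (z : X) : mulInd V Q f z = Q.indicator f z := rfl

/-- The canonical morphism `V_P ⟶ V_Q` when `P ∩ Q` is closed in `P` and open in `Q`. -/
def mor {P Q : Set X} (h : LC P Q) : (KP V P).sh ⟶ (KP V Q).sh :=
  FS.hom (KP V P) (KP V Q) (mulInd V Q)
    (by
      intro U f
      funext z
      by_cases hz : z ∈ U
      · rw [FS.cut_apply_mem (p := (KP V Q).p) _ hz, mulInd_apply, mulInd_apply]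
        by_cases hQ : z ∈ Q
        · rw [Set.indicator_of_mem hQ, Set.indicator_of_mem hQ,
            FS.cut_apply_mem (p := (KP V P).p) _ hz]
        · rw [Set.indicator_of_notMem hQ, Set.indicator_of_notMem hQ]
      · rw [FS.cut_apply_not_mem (p := (KP V Q).p) _ hz, mulInd_apply]
        by_cases hQ : z ∈ Q
        · rw [Set.indicator_of_mem hQ, FS.cut_apply_not_mem (p := (KP V P).p) _ hz]
        · rw [Set.indicator_of_notMem hQ])
    (by
      intro y f hf
      have hf' := KP_mem_C.1 hf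
      rw [KP_mem_C]
      obtain ⟨⟨C, hC, hPC⟩, ⟨O, hO, hQO⟩⟩ := h
      by_cases hP : y ∈ P
      · by_cases hQ : y ∈ Q
        · have hyO : y ∈ O := (hQO ▸ (⟨hP, hQ⟩ : y ∈ P ∩ Q) : y ∈ Q ∩ O).2
          filter_upwards [hf', hO.mem_nhds hyO] with z h1 h2
          rw [mulInd_apply, mulInd_apply, Set.indicator_of_mem hQ f]
          by_cases hz : z ∈ Q
          · have : z ∈ P ∩ Q := hQO ▸ ⟨hz, h2⟩
            rw [Set.indicator_of_mem hz, Set.indicator_of_mem hz, h1, Set.indicator_of_mem this.1]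
          · rw [Set.indicator_of_notMem hz, Set.indicator_of_notMem hz]
        · have hyC : y ∉ C := fun hyC => hQ (hPC ▸ (⟨hP, hyC⟩ : y ∈ P ∩ C) : y ∈ P ∩ Q).2
          filter_upwards [hf', hC.isOpen_compl.mem_nhds hyC] with z h1 h2
          rw [mulInd_apply, mulInd_apply, Set.indicator_of_notMem hQ f]
          by_cases hz : z ∈ Q
          · have : z ∉ P := fun hzP => h2 (hPC ▸ (⟨hzP, hz⟩ : z ∈ P ∩ Q) : z ∈ P ∩ C).2
            rw [Set.indicator_of_mem hz, Set.indicator_of_mem hz, h1, Set.indicator_of_notMem this]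
          · rw [Set.indicator_of_notMem hz, Set.indicator_of_notMem hz]
      · have h0 := KP_C_not_mem hf hP
        filter_upwards [hf'] with z h1
        have h2 : f z = 0 := by
          rw [h1, h0]
          simp
        have h3 : mulInd V Q f y = 0 := by
          rw [mulInd_apply]
          by_cases hQ : y ∈ Q
          · rw [Set.indicator_of_mem hQ, h0]
          · rw [Set.indicator_of_notMem hQ]
        rw [h3, mulInd_apply]
        by_cases hz : z ∈ Q
        · rw [Set.indicator_of_mem hz, Set.indicator_of_mem hz, h2]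
        · rw [Set.indicator_of_notMem hz, Set.indicator_of_notMem hz])

lemma val_mor {P Q : Set X} (h : LC P Q) {U : Opens X} (s : Sec (KP V P).sh U) :
    (KP V Q).val (app (mor h) U s) = Q.indicator ((KP V P).val s) := rfl

lemma KP_val_not_mem {P : Set X} {U : Opens X} (s : Sec (KP V P).sh U) {z : X} (hz : z ∉ P) :
    (KP V P).val s z = 0 := by
  by_cases hU : z ∈ U
  · exact KP_C_not_mem (((KP V P).val_mem s).2 z hU) hz
  · exact ((KP V P).val_mem s).1 z hU

lemma mor_comp_mor {P Q R : Set X} (h : LC P Q) (h' : LC Q R) (h'' : LC P R)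
    (hPR : P ∩ R ⊆ Q) : mor (V := V) h ≫ mor h' = mor h'' := by
  apply hom_ext_app
  intro U s
  apply (KP V R).val_injective
  rw [app_comp, val_mor, val_mor, val_mor]
  funext z
  by_cases hR : z ∈ R
  · rw [Set.indicator_of_mem hR, Set.indicator_of_mem hR]
    by_cases hQ : z ∈ Q
    · rw [Set.indicator_of_mem hQ]
    · rw [Set.indicator_of_notMem hQ]
      by_cases hP : z ∈ P
      · exact absurd (hPR ⟨hP, hR⟩) hQ
      · rw [KP_val_not_mem s hP]
  · rw [Set.indicator_of_notMem hR, Set.indicator_of_notMem hR]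

lemma mor_comp_mor_zero {P Q R : Set X} (h : LC P Q) (h' : LC Q R)
    (hPR : P ∩ Q ∩ R = ∅) : mor (V := V) h ≫ mor h' = 0 := by
  apply hom_ext_app
  intro U s
  apply (KP V R).val_injective
  rw [app_comp, val_mor, val_mor, app_zero, map_zero]
  funext z
  by_cases hR : z ∈ R
  · rw [Set.indicator_of_mem hR]
    by_cases hQ : z ∈ Q
    · rw [Set.indicator_of_mem hQ]
      by_cases hP : z ∈ P
      · exact absurd (show z ∈ P ∩ Q ∩ R from ⟨⟨hP, hQ⟩, hR⟩) (by rw [hPR]; simp)
      · rw [KP_val_not_mem s hP]; rfl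
    · rw [Set.indicator_of_notMem hQ]; rfl
  · rw [Set.indicator_of_notMem hR]; rfl

lemma LC_self (P : Set X) : LC P P :=
  ⟨⟨Set.univ, isClosed_univ, by simp⟩, ⟨Set.univ, isOpen_univ, by simp⟩⟩

lemma mor_self {P : Set X} (h : LC P P) : mor (V := V) h = 𝟙 _ := by
  apply hom_ext_app
  intro U s
  apply (KP V P).val_injective
  rw [app_id, val_mor]
  funext z
  by_cases hP : z ∈ P
  · rw [Set.indicator_of_mem hP]
  · rw [Set.indicator_of_notMem hP, KP_val_not_mem s hP]

/-- A constant section. -/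
lemma ind_mem {P : Set X} {O : Opens X} (C : Set X) (hC : IsClosed C) (hP : P ∩ O = C ∩ O)
    (c : V) : (P ∩ O).indicator (fun _ => c) ∈ (KP V P).sec O := by
  refine ⟨fun z hz => Set.indicator_of_notMem (fun h => hz h.2) _, fun y hy => ?_⟩
  rw [KP_mem_C]
  by_cases hyP : y ∈ P
  · filter_upwards [O.isOpen.mem_nhds hy] with z hz
    rw [Set.indicator_of_mem (show y ∈ P ∩ O from ⟨hyP, hy⟩)]
    by_cases hzP : z ∈ P
    · rw [Set.indicator_of_mem (show z ∈ P ∩ O from ⟨hzP, hz⟩), Set.indicator_of_mem hzP]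
    · rw [Set.indicator_of_notMem (fun h => hzP h.1), Set.indicator_of_notMem hzP]
  · have hyC : y ∉ C := fun h => hyP (hP ▸ (⟨h, hy⟩ : y ∈ C ∩ O) : y ∈ P ∩ O).1
    filter_upwards [hC.isOpen_compl.mem_nhds hyC, O.isOpen.mem_nhds hy] with z hz hzO
    have hzP : z ∉ P := fun h => hz (hP ▸ (⟨h, hzO⟩ : z ∈ P ∩ O) : z ∈ C ∩ O).1
    rw [Set.indicator_of_notMem (fun h => hzP h.1), Set.indicator_of_notMem hzP]

lemma LC_of_closed {P Q : Set X} (hQ : Q ⊆ P) (h : ∃ C, IsClosed C ∧ Q = P ∩ C) : LC P Q := by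
  obtain ⟨C, hC, h⟩ := h
  refine ⟨⟨C, hC, ?_⟩, ⟨Set.univ, isOpen_univ, ?_⟩⟩
  · rw [← h, Set.inter_eq_right.2 hQ]
  · rw [Set.inter_univ, Set.inter_eq_right.2 hQ]

lemma LC_of_open {P Q : Set X} (hP : P ⊆ Q) (h : ∃ O, IsOpen O ∧ P = Q ∩ O) : LC P Q := by
  obtain ⟨C, hC, h⟩ := h
  refine ⟨⟨Set.univ, isClosed_univ, ?_⟩, ⟨C, hC, ?_⟩⟩
  · rw [Set.inter_univ, Set.inter_eq_left.2 hP]
  · rw [← h, Set.inter_eq_left.2 hP]

/-- The short exact sequence `0 → V_{P \ C} → V_P → V_{P ∩ C} → 0`. -/
lemma KP_shortExact {P Q R : Set X} (hP : IsLocallyClosed P) (C : Set X) (hC : IsClosed C)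
    (hQ : Q = P \ C) (hR : R = P ∩ C) (h₁ : LC Q P) (h₂ : LC P R) :
    (ShortComplex.mk (mor (V := V) h₁) (mor h₂) (mor_comp_mor_zero _ _ (by
      subst hQ hR; ext z; simp; tauto))).ShortExact := by
  apply shortExact_mk
  · intro U s hs
    apply (KP V Q).val_injective
    have := congrArg (KP V P).val hs
    rw [val_mor, map_zero] at this
    rw [map_zero]
    funext z
    by_cases hz : z ∈ Q
    · have hzP : z ∈ P := by rw [hQ] at hz; exact hz.1
      have := congrFun this z
      rwa [Set.indicator_of_mem hzP] at this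
    · exact KP_val_not_mem s hz
  · intro U s hs
    have hs' := congrArg (KP V R).val hs
    rw [val_mor, map_zero] at hs'
    have hs'' : ∀ z ∈ R, (KP V P).val s z = 0 := by
      intro z hz
      have := congrFun hs' z
      rwa [Set.indicator_of_mem hz] at this
    have hs3 : ∀ z, z ∉ Q → (KP V P).val s z = 0 := by
      intro z hz
      by_cases hzP : z ∈ P
      · apply hs''
        rw [hR]
        refine ⟨hzP, ?_⟩
        by_contra hC
        exact hz (by rw [hQ]; exact ⟨hzP, hC⟩)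
      · exact KP_val_not_mem s hzP
    refine ⟨(KP V Q).mks ((KP V P).val s) ?_, ?_⟩
    · have hmem := (KP V P).val_mem s
      refine ⟨hmem.1, fun y hy => ?_⟩
      rw [KP_mem_C]
      have h3 := KP_mem_C.1 (hmem.2 y hy)
      by_cases hyQ : y ∈ Q
      · have hyC : y ∉ C := by rw [hQ] at hyQ; exact hyQ.2
        filter_upwards [h3, hC.isOpen_compl.mem_nhds hyC] with z hz hzC
        rw [hz]
        by_cases hzP : z ∈ P
        · have : z ∈ Q := by rw [hQ]; exact ⟨hzP, hzC⟩
          rw [Set.indicator_of_mem hzP, Set.indicator_of_mem this]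
        · have : z ∉ Q := by rw [hQ]; exact fun h => hzP h.1
          rw [Set.indicator_of_notMem hzP, Set.indicator_of_notMem this]
      · rw [hs3 y hyQ] at h3 ⊢
        filter_upwards [h3] with z hz
        rw [hz]
        simp
    · apply (KP V P).val_injective
      rw [val_mor, FS.val_mks]
      funext z
      by_cases hz : z ∈ P
      · rw [Set.indicator_of_mem hz]
      · rw [Set.indicator_of_notMem hz, KP_val_not_mem s hz]
  · intro U s y hy
    have hmem := (KP V R).val_mem s
    by_cases hyR : y ∈ R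
    · obtain ⟨O, C', hO, hC', hPOC⟩ := hP
      have hyO : y ∈ O := by
        have : y ∈ P := by rw [hR] at hyR; exact hyR.1
        rw [hPOC] at this
        exact this.1
      obtain ⟨O', hO', hO'o, hyO'⟩ := eventually_nhds_iff.1 (KP_mem_C.1 (hmem.2 y hy))
      let W : Opens X := U ⊓ ⟨O, hO⟩ ⊓ ⟨O', hO'o⟩
      refine ⟨W, ⟨⟨hy, hyO⟩, hyO'⟩, inf_le_left.trans inf_le_left,
        (KP V P).mks ((P ∩ W).indicator (fun _ => (KP V R).val s y)) (ind_mem C' hC' ?_ _), ?_⟩
      · rw [hPOC]
        ext z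
        simp [W]
        tauto
      · apply (KP V R).val_injective
        rw [val_mor, FS.val_res, FS.val_mks]
        funext z
        by_cases hzW : z ∈ W
        · rw [FS.cut_apply_mem (p := (KP V R).p) _ hzW, hO' z hzW.2]
          by_cases hzR : z ∈ R
          · have hzP : z ∈ P := by rw [hR] at hzR; exact hzR.1
            rw [Set.indicator_of_mem hzR, Set.indicator_of_mem hzR,
              Set.indicator_of_mem (show z ∈ P ∩ W from ⟨hzP, hzW⟩)]
          · rw [Set.indicator_of_notMem hzR, Set.indicator_of_notMem hzR]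
        · rw [FS.cut_apply_not_mem (p := (KP V R).p) _ hzW]
          by_cases hzR : z ∈ R
          · rw [Set.indicator_of_mem hzR, Set.indicator_of_notMem (fun h => hzW h.2)]
          · rw [Set.indicator_of_notMem hzR]
    · have h0 := KP_val_not_mem s hyR
      have h3 := KP_mem_C.1 (hmem.2 y hy)
      rw [h0] at h3
      obtain ⟨O', hO', hO'o, hyO'⟩ := eventually_nhds_iff.1 h3
      refine ⟨U ⊓ ⟨O', hO'o⟩, ⟨hy, hyO'⟩, inf_le_left, 0, ?_⟩
      apply (KP V R).val_injective
      rw [map_zero, FS.val_res, map_zero]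
      funext z
      by_cases hzW : z ∈ U ⊓ ⟨O', hO'o⟩
      · rw [FS.cut_apply_mem (p := (KP V R).p) _ hzW, hO' z hzW.2]
        simp
      · rw [FS.cut_apply_not_mem (p := (KP V R).p) _ hzW]
        rfl

lemma stk_KP_eq_zero {P : Set X} {y : X} (hy : y ∉ P) (s : Stk (KP V P).sh y) : s = 0 := by
  obtain ⟨U, hU, t, rfl⟩ := germ_surj _ y s
  have h3 := KP_mem_C.1 (((KP V P).val_mem t).2 y hU)
  rw [KP_val_not_mem t hy] at h3
  obtain ⟨O', hO', hO'o, hyO'⟩ := eventually_nhds_iff.1 h3
  rw [← map_zero (germ (KP V P).sh y hU), FS.germ_eq_iff]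
  refine ⟨⟨O', hO'o⟩, hyO', fun z hz => ?_⟩
  rw [map_zero, hO' z hz]
  simp

lemma KP_germ_eq {P : Set X} {y : X} {U₁ U₂ : Opens X} (h₁ : y ∈ U₁) (h₂ : y ∈ U₂)
    (s : Sec (KP V P).sh U₁) (t : Sec (KP V P).sh U₂) :
    germ (KP V P).sh y h₁ s = germ (KP V P).sh y h₂ t ↔ (KP V P).val s y = (KP V P).val t y := by
  constructor
  · intro h
    rw [FS.germ_eq_iff] at h
    obtain ⟨O, hO, h⟩ := h
    exact h y hO
  · intro h
    rw [FS.germ_eq_iff]
    have h3 := KP_mem_C.1 (((KP V P).val_mem s).2 y h₁)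
    have h4 := KP_mem_C.1 (((KP V P).val_mem t).2 y h₂)
    obtain ⟨O', hO', hO'o, hyO'⟩ := eventually_nhds_iff.1 (h3.and h4)
    refine ⟨⟨O', hO'o⟩, hyO', fun z hz => ?_⟩
    rw [(hO' z hz).1, (hO' z hz).2, h]

end

end WS
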