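import Pool.Agent.helper18.WS.Box2

open CategoryTheory TopologicalSpace Topology Limits Opposite

set_option backward.isDefEq.respectTransparency false
set_option backward.isDefEq.respectTransparency.types false
set_option linter.unusedVariables false
set_option linter.unusedSectionVars false

universe w

namespace WS

noncomputable section

variable {X : Type} [TopologicalSpace X]

section KPmap

variable {V W : Type} [AddCommGroup V] [Module ℂ V] [AddCommGroup W] [Module ℂ W]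

/-- functoriality of `V_P` in `V` -/
def KPmap (φ : V →ₗ[ℂ] W) (P : Set X) : (KP V P).sh ⟶ (KP W P).sh :=
  FS.hom (KP V P) (KP W P)
    { toFun := fun f z => φ (f z)
      map_add' := fun f g => by funext z; simp
      map_smul' := fun c f => by funext z; simp }
    (by
      intro U f
      funext z
      by_cases hz : z ∈ U
      · rw [FS.cut_apply_mem (p := (KP W P).p) _ hz]
        change φ (FS.cut (KP V P).p U f z) = _
        rw [FS.cut_apply_mem (p := (KP V P).p) _ hz]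
        rfl
      · rw [FS.cut_apply_not_mem (p := (KP W P).p) _ hz]
        change φ (FS.cut (KP V P).p U f z) = _
        rw [FS.cut_apply_not_mem (p := (KP V P).p) _ hz, map_zero])
    (by
      intro y f hf
      rw [KP_mem_C] at hf ⊢
      filter_upwards [hf] with z hz
      change φ (f z) = P.indicator (fun _ => φ (f y)) z
      rw [hz]
      by_cases hzP : z ∈ P
      · simp [hzP]
      · simp [hzP])

lemma val_KPmap (φ : V →ₗ[ℂ] W) {P : Set X} {U : Opens X} (s : Sec (KP V P).sh U) (z : X) :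
    (KP W P).val (app (KPmap φ P) U s) z = φ ((KP V P).val s z) := rfl

lemma KPmap_comp_id {φ : V →ₗ[ℂ] W} {ψ : W →ₗ[ℂ] V} (h : ∀ v, ψ (φ v) = v) (P : Set X) :
    KPmap φ P ≫ KPmap ψ P = 𝟙 _ := by
  apply hom_ext_app
  intro U s
  apply (KP V P).val_injective
  funext z
  rw [app_comp, val_KPmap, val_KPmap, h, app_id]

end KPmap

section fromLin

variable {V : Type} [AddCommGroup V] [Module ℂ V]

lemma exists_fromLin (O : Opens X) (F : Sh X) (e : V →ₗ[ℂ] Sec F O) :
    ∃ f : (KP V (O : Set X)).sh ⟶ F, ∀ (y : X) (hy : y ∈ O) (U : Opens X)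
      (hU : y ∈ U) (s : Sec (KP V (O : Set X)).sh U),
      stk f y (germ (KP V (O : Set X)).sh y hU s) = germ F y hy (e ((KP V (O : Set X)).val s y)) := by
  classical
  let ψ : ∀ y : X, ∃ φ : Stk (KP V (O : Set X)).sh y →ₗ[ℂ] Stk F y, ∀ (hy : y ∈ O) (U : Opens X)
      (hU : y ∈ U) (s : Sec (KP V (O : Set X)).sh U),
      φ (germ (KP V (O : Set X)).sh y hU s) = germ F y hy (e ((KP V (O : Set X)).val s y)) := by
    intro y
    by_cases hy : y ∈ O
    · refine ⟨((germ F y hy).comp e).comp ((KP V (O : Set X)).ev y), fun hy' U hU s => ?_⟩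
      rw [LinearMap.comp_apply, LinearMap.comp_apply]
      congr 2
      exact (KP V (O : Set X)).ev_germ y U hU s
    · exact ⟨0, fun h => absurd h hy⟩
  choose φ hφ using ψ
  have := exists_hom_of_stk (F := (KP V (O : Set X)).sh) (G := F) φ (by
    intro U s y hy
    by_cases hO : y ∈ O
    · have h3 := KP_mem_C.1 (((KP V (O : Set X)).val_mem s).2 y hy)
      obtain ⟨O', hO', hO'o, hyO'⟩ := eventually_nhds_iff.1 h3
      refine ⟨U ⊓ O ⊓ ⟨O', hO'o⟩, ⟨⟨hy, hO⟩, hyO'⟩, inf_le_left.trans inf_le_left,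
        res F (inf_le_left.trans inf_le_right) (e ((KP V (O : Set X)).val s y)), fun z hz => ?_⟩
      rw [germ_res, hφ z hz.1.2, hO' z hz.2, Set.indicator_of_mem hz.1.2]
    · have h3 := KP_mem_C.1 (((KP V (O : Set X)).val_mem s).2 y hy)
      rw [KP_val_not_mem s hO] at h3
      obtain ⟨O', hO', hO'o, hyO'⟩ := eventually_nhds_iff.1 h3
      refine ⟨U ⊓ ⟨O', hO'o⟩, ⟨hy, hyO'⟩, inf_le_left, 0, fun z hz => ?_⟩
      rw [map_zero]
      by_cases hzO : z ∈ O
      · rw [hφ z hzO, hO' z hz.2]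
        simp
      · rw [stk_KP_eq_zero (fun h => hzO h) (germ (KP V (O : Set X)).sh z hz.1 s), map_zero])
  obtain ⟨f, hf⟩ := this
  exact ⟨f, fun y hy U hU s => by rw [hf, hφ y hy]⟩

/-- The morphism `V_O ⟶ F` given by a linear map `V → F(O)`. -/
def fromLin {O : Opens X} {F : Sh X} (e : V →ₗ[ℂ] Sec F O) : (KP V (O : Set X)).sh ⟶ F :=
  (exists_fromLin O F e).choose

lemma stk_fromLin {O : Opens X} {F : Sh X} (e : V →ₗ[ℂ] Sec F O) (y : X) (hy : y ∈ O) (U : Opens X)
      (hU : y ∈ U) (s : Sec (KP V (O : Set X)).sh U) :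
      stk (fromLin e) y (germ (KP V (O : Set X)).sh y hU s) =
        germ F y hy (e ((KP V (O : Set X)).val s y)) :=
  (exists_fromLin O F e).choose_spec y hy U hU s

lemma stk_KP_surj {O : Opens X} {y : X} (hy : y ∈ O) (v : V) :
    ∃ s : Sec (KP V (O : Set X)).sh O, (KP V (O : Set X)).val s y = v := by
  refine ⟨(KP V (O : Set X)).mks _ (ind_mem Set.univ isClosed_univ (by simp) v), ?_⟩
  rw [FS.val_mks]
  simp [hy]

lemma stk_fromLin_bijective {O : Opens X} {F : Sh X} (e : V →ₗ[ℂ] Sec F O) (y : X) (hy : y ∈ O)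
    (h : Function.Bijective (fun v => germ F y hy (e v))) :
    Function.Bijective (stk (fromLin e) y) := by
  constructor
  · rw [injective_iff_map_eq_zero]
    intro t ht
    obtain ⟨U, hU, s, rfl⟩ := germ_surj _ y t
    rw [stk_fromLin e y hy] at ht
    have h0 : (KP V (O : Set X)).val s y = 0 := by
      apply h.1
      change germ F y hy (e _) = germ F y hy (e 0)
      rw [ht, map_zero, map_zero]
    rw [← map_zero (germ (KP V (O : Set X)).sh y hU), KP_germ_eq, h0, map_zero]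
    rfl
  · intro t
    obtain ⟨v, hv⟩ := h.2 t
    obtain ⟨s, hs⟩ := stk_KP_surj (V := V) hy v
    refine ⟨germ _ y hy s, ?_⟩
    rw [stk_fromLin e y hy, hs]
    exact hv

lemma stk_mor_bijective {O : Opens X} {Q : Set X} (h : LC (O : Set X) Q) (y : X) (hP : y ∈ O)
    (hQ : y ∈ Q) : Function.Bijective (stk (mor (V := V) h) y) := by
  constructor
  · rw [injective_iff_map_eq_zero]
    intro t ht
    obtain ⟨U, hU, s, rfl⟩ := germ_surj _ y t
    rw [stk_germ, ← map_zero (germ (KP V Q).sh y hU), KP_germ_eq, val_mor,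
      Set.indicator_of_mem hQ, map_zero] at ht
    rw [← map_zero (germ (KP V (O : Set X)).sh y hU), KP_germ_eq, ht, map_zero]
  · intro t
    obtain ⟨U, hU, s, rfl⟩ := germ_surj _ y t
    obtain ⟨s', hs'⟩ := stk_KP_surj (V := V) hP ((KP V Q).val s y)
    refine ⟨germ _ y hP s', ?_⟩
    rw [stk_germ, KP_germ_eq, val_mor, Set.indicator_of_mem hQ, hs']

end fromLin

section ExtBij

open Abelian

variable [HasExt.{w} (Sh X)]

lemma isIso_TMap_of_stk {F G : Sh X} (f : F ⟶ G) (B : Opens X)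
    (hf : ∀ y ∈ B, Function.Bijective (stk f y)) : IsIso (TMap B f) := by
  apply isIso_of_stk
  intro y
  by_cases hy : y ∈ B
  · have h1 : ∀ t, stk (Tι B G) y (stk (TMap B f) y t) = stk f y (stk (Tι B F) y t) := by
      intro t
      rw [← stk_comp, ← stk_comp, TMap_ι]
    have hb1 : Function.Bijective (stk (Tι B G) y) := ⟨stk_Tι_injective y, stk_Tι_surjective y hy⟩
    have hb2 : Function.Bijective (stk (Tι B F) y) := ⟨stk_Tι_injective y, stk_Tι_surjective y hy⟩
    have h2 : Function.Bijective (stk (Tι B G) y ∘ stk (TMap B f) y) := by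
      have : (stk (Tι B G) y ∘ stk (TMap B f) y) = (stk f y ∘ stk (Tι B F) y) := funext h1
      rw [this]
      exact (hf y hy).comp hb2
    exact (Function.Bijective.of_comp_iff' hb1 _).1 h2
  · constructor
    · intro a b _
      rw [stk_T_eq_zero y hy a, stk_T_eq_zero y hy b]
    · intro b
      exact ⟨0, by rw [stk_T_eq_zero y hy b, map_zero]⟩

/-- If `f : F ⟶ G` is bijective on the stalks at all points of the open set `B` which contains
the support of `A` then `Ext A F → Ext A G` is bijective. -/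
lemma ext_bij_of_stk {A F G : Sh X} (f : F ⟶ G) (B : Opens X)
    (hA : ∀ y ∉ B, ∀ s : Stk A y, s = 0) (hf : ∀ y ∈ B, Function.Bijective (stk f y)) (n : ℕ) :
    Function.Bijective (fun e : Ext A F n => e.comp (Ext.mk₀ f) (add_zero n)) := by
  have hT := isIso_TMap_of_stk f B hf
  have : IsIso ((TιNat B).app A) := isIso_Tι hA
  constructor
  · let f1 : Ext A F n →+ Ext A G n :=
      { toFun := fun e' => e'.comp (Ext.mk₀ f) (add_zero n)
        map_zero' := by rw [Ext.zero_comp]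
        map_add' := fun a b => by rw [Ext.add_comp] }
    change Function.Injective f1
    rw [injective_iff_map_eq_zero]
    intro e he'
    change e.comp (Ext.mk₀ f) (add_zero n) = 0 at he'
    obtain ⟨e', rfl⟩ := T_lift (T B) (TιNat B) e
    have h1 : (e'.comp (Ext.mk₀ ((TιNat B).app F)) (add_zero n)).comp (Ext.mk₀ f) (add_zero n) =
      (e'.comp (Ext.mk₀ (TMap B f)) (add_zero n)).comp (Ext.mk₀ ((TιNat B).app G))
        (add_zero n) := by
      have h2 : (e'.comp (Ext.mk₀ ((TιNat B).app F)) (add_zero n)).comp (Ext.mk₀ f) (add_zero n) =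
        e'.comp ((Ext.mk₀ ((TιNat B).app F)).comp (Ext.mk₀ f) (add_zero 0)) (add_zero n) :=
        Ext.comp_assoc _ _ _ _ _ (by lia)
      have h3 : (e'.comp (Ext.mk₀ (TMap B f)) (add_zero n)).comp (Ext.mk₀ ((TιNat B).app G))
        (add_zero n) = e'.comp ((Ext.mk₀ (TMap B f)).comp (Ext.mk₀ ((TιNat B).app G))
          (add_zero 0)) (add_zero n) := Ext.comp_assoc _ _ _ _ _ (by lia)
      rw [h2, h3, Ext.mk₀_comp_mk₀, Ext.mk₀_comp_mk₀]
      rfl
    rw [h1] at he'
    have h4 := T_inj (T B) (TιNat B) _ he'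
    have h5 : e' = 0 := by
      have h6 := congrArg (fun z => Ext.comp z (Ext.mk₀ (inv (TMap B f))) (add_zero n)) h4
      have h7 : (e'.comp (Ext.mk₀ (TMap B f)) (add_zero n)).comp (Ext.mk₀ (inv (TMap B f)))
        (add_zero n) = e'.comp ((Ext.mk₀ (TMap B f)).comp (Ext.mk₀ (inv (TMap B f)))
          (add_zero 0)) (add_zero n) := Ext.comp_assoc _ _ _ _ _ (by lia)
      rw [Ext.mk₀_comp_mk₀, IsIso.hom_inv_id] at h7
      exact (h7.trans (Ext.comp_mk₀_id _)).symm.trans (h6.trans (Ext.zero_comp _ _ _ _ _))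
    rw [h5, Ext.zero_comp]
  · intro e
    obtain ⟨e', rfl⟩ := T_lift (T B) (TιNat B) e
    refine ⟨e'.comp (Ext.mk₀ (inv (TMap B f) ≫ Tι B F)) (add_zero n), ?_⟩
    have h2 : (e'.comp (Ext.mk₀ (inv (TMap B f) ≫ Tι B F)) (add_zero n)).comp (Ext.mk₀ f)
        (add_zero n) = e'.comp ((Ext.mk₀ (inv (TMap B f) ≫ Tι B F)).comp (Ext.mk₀ f)
          (add_zero 0)) (add_zero n) := Ext.comp_assoc _ _ _ _ _ (by lia)
    refine h2.trans ?_
    rw [Ext.mk₀_comp_mk₀, Category.assoc, ← TMap_ι, IsIso.inv_hom_id_assoc]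
    rfl

/-- There is a nonzero class in `Ext^k(ℂ_x, V_X)` for some vector space `V`. -/
def HasCls (x : X) (k : ℕ) : Prop :=
  ∃ (V : Type) (_ : AddCommGroup V) (_ : Module ℂ V)
    (α : Ext.{w} (kk {x}) (KP V (Set.univ : Set X)).sh k), α ≠ 0

lemma kk_point_supp {x : X} {B : Opens X} (hx : x ∈ B) : ∀ y ∉ B, ∀ s : Stk (kk {x}) y, s = 0 := by
  intro y hy s
  apply stk_KP_eq_zero
  rintro rfl
  exact hy hx

lemma LC_univ (O : Opens X) : LC (O : Set X) (Set.univ : Set X) :=
  LC_of_open (Set.subset_univ _) ⟨O, O.isOpen, by simp⟩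

/-- For a locally constant sheaf `A` with local model `V` near `x`,
`Ext^n(ℂ_x, A) ≅ Ext^n(ℂ_x, V_X)`. -/
lemma ext_point_locConst {V : Type} [AddCommGroup V] [Module ℂ V] {x : X} {A : Sh X}
    {U : Opens X} (hx : x ∈ U) (e : V →ₗ[ℂ] Sec A U)
    (he : ∀ y (hy : y ∈ U), Function.Bijective (fun v => germ A y hy (e v))) (n : ℕ) :
    Nonempty (Ext.{w} (kk {x}) A n ≃+ Ext.{w} (kk {x}) (KP V (Set.univ : Set X)).sh n) := by
  have h1 := ext_bij_of_stk.{w} (A := kk {x}) (fromLin e) U (kk_point_supp hx)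
    (fun y hy => stk_fromLin_bijective e y hy (he y hy)) n
  have h2 := ext_bij_of_stk.{w} (A := kk {x}) (mor (V := V) (LC_univ U)) U (kk_point_supp hx)
    (fun y hy => stk_mor_bijective (LC_univ U) y hy trivial) n
  let f1 : Ext.{w} (kk {x}) (KP V (U : Set X)).sh n →+ Ext.{w} (kk {x}) A n :=
    { toFun := fun e' => e'.comp (Ext.mk₀ (fromLin e)) (add_zero n)
      map_zero' := by rw [Ext.zero_comp]
      map_add' := fun a b => by rw [Ext.add_comp] }
  let f2 : Ext.{w} (kk {x}) (KP V (U : Set X)).sh n →+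
      Ext.{w} (kk {x}) (KP V (Set.univ : Set X)).sh n :=
    { toFun := fun e' => e'.comp (Ext.mk₀ (mor (V := V) (LC_univ U))) (add_zero n)
      map_zero' := by rw [Ext.zero_comp]
      map_add' := fun a b => by rw [Ext.add_comp] }
  exact ⟨(AddEquiv.ofBijective f1 h1).symm.trans (AddEquiv.ofBijective f2 h2)⟩

lemma ext_locConst_eq_zero {x : X} {k : ℕ} (hk : ∀ j < k, ¬ HasCls.{w} x j) {A : Sh X}
    (hA : IsLocConst A) (j : ℕ) (hj : j < k) (e : Ext.{w} (kk {x}) A j) : e = 0 := by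
  obtain ⟨U, hxU, V, _, _, f, hf⟩ := hA x
  obtain ⟨φ⟩ := ext_point_locConst.{w} hxU f hf j
  by_contra hne
  apply hk j hj
  refine ⟨V, inferInstance, inferInstance, φ e, fun h => hne ?_⟩
  exact φ.injective (by rw [h, map_zero])

/-- A locally constant sheaf whose fibre at `x` has `V` as a retract has a nonzero class. -/
lemma exists_ext_ne_zero {V W : Type} [AddCommGroup V] [Module ℂ V] [AddCommGroup W] [Module ℂ W]
    {x : X} {k : ℕ} (α : Ext.{w} (kk {x}) (KP V (Set.univ : Set X)).sh k) (hα : α ≠ 0)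
    (φ : V →ₗ[ℂ] W) (ψ : W →ₗ[ℂ] V) (h : ∀ v, ψ (φ v) = v) {A : Sh X}
    {U : Opens X} (hx : x ∈ U) (e : W →ₗ[ℂ] Sec A U)
    (he : ∀ y (hy : y ∈ U), Function.Bijective (fun v => germ A y hy (e v))) :
    ∃ β : Ext.{w} (kk {x}) A k, β ≠ 0 := by
  obtain ⟨f⟩ := ext_point_locConst.{w} hx e he k
  refine ⟨f.symm (α.comp (Ext.mk₀ (KPmap φ _)) (add_zero k)), fun h0 => hα ?_⟩
  have h1 : α.comp (Ext.mk₀ (KPmap φ _)) (add_zero k) = 0 := by
    apply f.symm.injective
    rw [h0, map_zero]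
  have h2 := congrArg (fun z => Ext.comp z (Ext.mk₀ (KPmap ψ Set.univ)) (add_zero k)) h1
  have h3 : (α.comp (Ext.mk₀ (KPmap φ _)) (add_zero k)).comp (Ext.mk₀ (KPmap ψ Set.univ))
    (add_zero k) = α.comp ((Ext.mk₀ (KPmap φ _)).comp (Ext.mk₀ (KPmap ψ Set.univ))
      (add_zero 0)) (add_zero k) := Ext.comp_assoc _ _ _ _ _ (by lia)
  rw [Ext.mk₀_comp_mk₀, KPmap_comp_id h, Ext.comp_mk₀_id] at h3
  rw [← h3]
  exact h2.trans (Ext.zero_comp _ _ _ _ _)

/-- For a point of a topological manifold of dimension `m`, there is a nonzero class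
in `Ext^m(ℂ_x, ℂ_X)`. -/
lemma hasCls_of_chart [T2Space X] {m : ℕ} (ψ : OpenPartialHomeomorph X (Fin m → ℝ)) (x : X)
    (hx : x ∈ ψ.source) : HasCls.{w} x m := by
  obtain ⟨r, hr, hball⟩ := Metric.nhds_basis_closedBall.mem_iff.1
    (ψ.open_target.mem_nhds (ψ.map_source hx))
  have hK : Set.Icc (fun i => ψ x i - r) (fun i => ψ x i + r) ⊆ ψ.target := by
    refine Set.Subset.trans ?_ hball
    intro z hz
    rw [closedBall_pi _ hr.le]
    intro i _
    change z i ∈ Metric.closedBall (ψ x i) r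
    rw [Real.closedBall_eq_Icc]
    exact ⟨hz.1 i, hz.2 i⟩
  obtain ⟨α, hα⟩ := ext_box_ne_zero.{w} ψ x hx r hr hK
  let B : Opens X := ⟨pb ψ (bx (fun i => Set.Ioo (ψ x i - r) (ψ x i + r))), pb_open ψ (by
    have : bx (fun i => Set.Ioo (ψ x i - r) (ψ x i + r)) =
      Set.univ.pi (fun i => Set.Ioo (ψ x i - r) (ψ x i + r)) := by ext z; simp [bx]
    rw [this]
    exact isOpen_set_pi Set.finite_univ (fun i _ => isOpen_Ioo))⟩
  have hxB : x ∈ B := ⟨hx, fun i => ⟨by linarith, by linarith⟩⟩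
  have h2 := ext_bij_of_stk.{w} (A := kk {x}) (mor (V := ℂ) (LC_univ B)) B (kk_point_supp hxB)
    (fun y hy => stk_mor_bijective (LC_univ B) y hy trivial) m
  refine ⟨ℂ, inferInstance, inferInstance, _, fun h0 => hα (h2.1 (h0.trans ?_))⟩
  exact (Ext.zero_comp _ _ _ _ _).symm

end ExtBij

end

end WS
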