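import Pool.Agent.helper18.WS.Sky

open CategoryTheory TopologicalSpace Topology Limits Opposite
open scoped Manifold ContDiff

set_option backward.isDefEq.respectTransparency false
set_option backward.isDefEq.respectTransparency.types false
set_option linter.unusedVariables false
set_option linter.unusedSectionVars false

universe w

namespace WS

noncomputable section

section

variable {X : Type} [TopologicalSpace X] [HasDerivedCategory.{w} (Sh X)]

omit [HasDerivedCategory.{w} (Sh X)] in
lemma stk_hom_inv {A B : Sh X} (e : A ≅ B) (y : X) (t : Stk B y) :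
    stk e.hom y (stk e.inv y t) = t := by
  rw [← stk_comp, e.inv_hom_id, stk_id]

/-- joint surjectivity on stalks of the cohomology sheaves, for a sequential colimit. -/
lemma IsSeqColimit.surj {K : ℕ ⥤ DerivedCategory (Sh X)} {W : DerivedCategory (Sh X)}
    (h : IsSeqColimit K W) : ∃ c : ∀ n, K.obj n ⟶ W, ∀ (j : ℤ) (y : X) (t : Stk (cohSheaf j W) y),
      ∃ n, ∃ s : Stk (cohSheaf j (K.obj n)) y,
        stk ((DerivedCategory.homologyFunctor (Sh X) j).map (c n)) y s = t := by
  obtain ⟨c, ⟨e⟩, hc⟩ := h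
  refine ⟨fun n => c.ι.app n ≫ e.hom, fun j y t => ?_⟩
  obtain ⟨hc⟩ := hc j
  obtain ⟨n, s, hs⟩ := stk_colim_rep hc y
    (stk ((DerivedCategory.homologyFunctor (Sh X) j).map e.inv) y t)
  refine ⟨n, s, ?_⟩
  rw [Functor.map_comp, stk_comp]
  have hs' : stk ((DerivedCategory.homologyFunctor (Sh X) j).map (c.ι.app n)) y s =
    stk ((DerivedCategory.homologyFunctor (Sh X) j).map e.inv) y t := hs
  rw [hs']
  exact stk_hom_inv ((DerivedCategory.homologyFunctor (Sh X) j).mapIso e) y t

/-- If `W` is a wrapping of the skyscraper sheaf, it has the universal property for `kk {x}`. -/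
lemma IsWrapping.toKK [T1Space X] {x : X} {W : DerivedCategory (Sh X)} {η : skyD x ⟶ W}
    (h : IsWrapping x W η) : ∃ η' : (DerivedCategory.singleFunctor (Sh X) 0).obj (kk {x}) ⟶ W,
      ∀ L : DerivedCategory (Sh X), CohP IsLocConst L →
        Function.Bijective (fun f : W ⟶ L => η' ≫ f) := by
  obtain ⟨i⟩ := exists_iso_sky x
  refine ⟨(DerivedCategory.singleFunctor (Sh X) 0).map i.hom ≫ η, fun L hL => ?_⟩
  have h1 := h.univ L hL
  have h2 : (fun f : W ⟶ L => ((DerivedCategory.singleFunctor (Sh X) 0).map i.hom ≫ η) ≫ f) =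
      (fun g => (DerivedCategory.singleFunctor (Sh X) 0).map i.hom ≫ g) ∘
        (fun f : W ⟶ L => η ≫ f) := by
    funext f
    simp
  rw [h2]
  refine Function.Bijective.comp ?_ h1
  constructor
  · intro a b hab
    exact (cancel_epi _).1 hab
  · intro b
    exact ⟨(DerivedCategory.singleFunctor (Sh X) 0).map i.inv ≫ b, by
      change (DerivedCategory.singleFunctor (Sh X) 0).map i.hom ≫
        (DerivedCategory.singleFunctor (Sh X) 0).map i.inv ≫ b = b
      rw [← Category.assoc, ← Functor.map_comp, i.hom_inv_id, CategoryTheory.Functor.map_id,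
        Category.id_comp]⟩

end

section

variable {E : Type} [NormedAddCommGroup E] [NormedSpace ℂ E] [FiniteDimensional ℂ E]
  {M : Type} [TopologicalSpace M] [T2Space M] [ConnectedSpace M] [ChartedSpace E M]
  [IsManifold 𝓘(ℂ, E) 1 M] [HasDerivedCategory.{w} (Sh M)]

variable (E) in
include E in
omit [T2Space M] [ConnectedSpace M] [IsManifold 𝓘(ℂ, E) 1 M] [HasDerivedCategory.{w} (Sh M)] in
/-- a real chart -/
lemma exists_real_chart (x : M) : ∃ (m : ℕ) (ψ : OpenPartialHomeomorph M (Fin m → ℝ)),
    x ∈ ψ.source := by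
  let L : E ≃L[ℝ] (Fin (Module.finrank ℝ E) → ℝ) :=
    ContinuousLinearEquiv.ofFinrankEq (by simp)
  refine ⟨_, (chartAt E x).trans L.toHomeomorph.toOpenPartialHomeomorph, ?_⟩
  simp

theorem main_aux {N : Type} [TopologicalSpace N] [PreconnectedSpace N] {p : N → M}
    (hp : IsCoveringMap p) (hinf : ∀ y, (p ⁻¹' {y}).Infinite) {x : M}
    {W : DerivedCategory (Sh M)} {η : skyD x ⟶ W} (hW : IsWrapping x W η)
    (K : ℕ ⥤ DerivedCategory (Sh M)) (hK : ∀ n j, IsCConstructibleSheaf E (cohSheaf j (K.obj n)))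
    (hKW : IsSeqColimit K W) : False := by
  have : LocallyCompactSpace E := inferInstance
  have : LocallyCompactSpace M := ChartedSpace.locallyCompactSpace E M
  have : LocallyConnectedSpace M := ChartedSpace.locallyConnectedSpace E M
  obtain ⟨m, ψ, hx⟩ := exists_real_chart E x
  obtain ⟨η', hη'⟩ := hW.toKK
  obtain ⟨c, hc⟩ := hKW.surj
  refine core.{w} ψ hx hp hinf hW.locConst η' hη' (fun n j => cohSheaf j (K.obj n))
    (fun n j => (DerivedCategory.homologyFunctor (Sh M) j).map (c n)) hc ?_
  intro n j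
  obtain ⟨ι, _, S, hS, hSa, hSF⟩ := hK n j
  obtain ⟨i, hi, hid, hia⟩ := exists_open_stratum S hS hSa
  exact ⟨S i, hi, hid, conn_preimage_analytic hp hi hid hia, finOn_of_restrict hi (hSF i)⟩

end

end

end WS
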