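import Pool.Agent.helper18.WS.LocConst

open CategoryTheory TopologicalSpace Topology Limits Opposite

set_option backward.isDefEq.respectTransparency false
set_option backward.isDefEq.respectTransparency.types false
set_option linter.unusedVariables false
set_option linter.unusedSectionVars false

universe w

namespace WS

noncomputable section

variable {X : Type} [TopologicalSpace X]

/-- A section of a locally constant sheaf over a connected open set which vanishes at one
point is zero. -/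
lemma IsLocConst.sec_zero {B : Sh X} (hB : IsLocConst B) {U : Opens X} (hU : _root_.IsPreconnected (U : Set X))
    (s : Sec B U) {y₀ : X} (hy₀ : y₀ ∈ U) (h0 : germ B y₀ hy₀ s = 0) : s = 0 := by
  have key : ∀ y (hy : y ∈ U), ∃ O : Opens X, y ∈ O ∧ ∀ z (hz : z ∈ U), z ∈ O →
      (germ B z hz s = 0 ↔ germ B y hy s = 0) := by
    intro y hy
    obtain ⟨U', hyU', V, _, _, e, he⟩ := hB y
    obtain ⟨v, hv⟩ := (he y hyU').2 (germ B y hy s)
    obtain ⟨W, hW, iU, iU', heq⟩ := germ_eq B y hyU' hy (e v) s hv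
    have h1 : ∀ z (hz : z ∈ W), (germ B z (iU' hz) s = 0 ↔ v = 0) := by
      intro z hz
      rw [← germ_res B iU' z hz, ← heq, germ_res]
      constructor
      · intro h
        apply (he z (iU hz)).1
        change germ B z _ (e v) = germ B z _ (e 0)
        rw [h, map_zero, map_zero]
      · rintro rfl
        rw [map_zero, map_zero]
    exact ⟨W, hW, fun z hz hzW => (h1 z hzW).trans (h1 y hW).symm⟩
  let U₁ : Set X := {y | ∀ᶠ z in 𝓝 y, ∀ hz : z ∈ U, germ B z hz s = 0}
  let U₂ : Set X := {y | ∀ᶠ z in 𝓝 y, ∀ hz : z ∈ U, germ B z hz s ≠ 0}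
  have hU₁ : IsOpen U₁ := by
    rw [isOpen_iff_mem_nhds]
    intro z hz
    exact eventually_eventually_nhds.2 hz
  have hU₂ : IsOpen U₂ := by
    rw [isOpen_iff_mem_nhds]
    intro z hz
    exact eventually_eventually_nhds.2 hz
  have h1 : ∀ y (hy : y ∈ U), germ B y hy s = 0 → y ∈ U₁ := by
    intro y hy h
    obtain ⟨O, hyO, hO⟩ := key y hy
    change ∀ᶠ z in 𝓝 y, ∀ hz : z ∈ U, germ B z hz s = 0
    filter_upwards [O.isOpen.mem_nhds hyO] with z hz hzU
    exact (hO z hzU hz).2 h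
  have h2 : ∀ y (hy : y ∈ U), germ B y hy s ≠ 0 → y ∈ U₂ := by
    intro y hy h
    obtain ⟨O, hyO, hO⟩ := key y hy
    change ∀ᶠ z in 𝓝 y, ∀ hz : z ∈ U, germ B z hz s ≠ 0
    filter_upwards [O.isOpen.mem_nhds hyO] with z hz hzU h3
    exact h ((hO z hzU hz).1 h3)
  apply sec_ext
  intro y hy
  rw [map_zero]
  by_contra hne
  obtain ⟨z, hzU, hz1, hz2⟩ := hU U₁ U₂ hU₁ hU₂ (fun y hy => by
    by_cases h : germ B y hy s = 0
    · exact Or.inl (h1 y hy h)
    · exact Or.inr (h2 y hy h)) ⟨y₀, hy₀, h1 y₀ hy₀ h0⟩ ⟨y, hy, h2 y hy hne⟩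
  exact (Filter.Eventually.self_of_nhds hz2) hzU ((Filter.Eventually.self_of_nhds hz1) hzU)

/-- A morphism between locally constant sheaves on a connected, locally connected space which
vanishes at one point is zero. -/
lemma IsLocConst.hom_zero [ConnectedSpace X] [LocallyConnectedSpace X] {A B : Sh X} (hA : IsLocConst A)
    (hB : IsLocConst B) (φ : A ⟶ B) {y₀ : X} (h0 : ∀ t : Stk A y₀, stk φ y₀ t = 0) : φ = 0 := by
  have key : ∀ y, ∃ O : Opens X, y ∈ O ∧ ∀ z ∈ O, ∀ z' ∈ O, (∀ t : Stk A z, stk φ z t = 0) →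
      ∀ t : Stk A z', stk φ z' t = 0 := by
    intro y
    obtain ⟨U, hyU, V, _, _, e, he⟩ := hA y
    obtain ⟨O, hOU, hO, hyO, hOc⟩ := locallyConnectedSpace_iff_subsets_isOpen_isConnected.1
      inferInstance y (U : Set X) (U.isOpen.mem_nhds hyU)
    let O' : Opens X := ⟨O, hO⟩
    have hO' : O' ≤ U := hOU
    refine ⟨O', hyO, fun z hz z' hz' h t => ?_⟩
    obtain ⟨v, rfl⟩ := (he z' (hO' hz')).2 t
    have h1 : app φ O' (res A hO' (e v)) = 0 := by
      apply hB.sec_zero hOc.isPreconnected _ hz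
      rw [← stk_germ, h]
    change stk φ z' (germ A z' _ (e v)) = 0
    rw [← germ_res A hO' z' hz', stk_germ, h1, map_zero]
  have hclopen : IsClopen {y : X | ∀ t : Stk A y, stk φ y t = 0} := by
    constructor
    · rw [← isOpen_compl_iff, isOpen_iff_mem_nhds]
      intro y hy
      obtain ⟨O, hyO, hO⟩ := key y
      filter_upwards [O.isOpen.mem_nhds hyO] with z hz h
      exact hy (hO z hz y hyO h)
    · rw [isOpen_iff_mem_nhds]
      intro y hy
      obtain ⟨O, hyO, hO⟩ := key y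
      filter_upwards [O.isOpen.mem_nhds hyO] with z hz
      exact hO y hyO z hz hy
  have huniv := hclopen.eq_univ ⟨y₀, h0⟩
  apply hom_ext_stk
  intro y t
  have : y ∈ {y : X | ∀ t : Stk A y, stk φ y t = 0} := huniv ▸ Set.mem_univ y
  have h1 := this t
  rw [h1]
  obtain ⟨U, hU, s, rfl⟩ := germ_surj _ y t
  rw [stk_germ, app_zero, map_zero]

variable {N : Type} [TopologicalSpace N]

/-- The sheaf `p_! V_N` for a covering map `p : N → X` of a locally connected space. -/
def PS (V : Type) [AddCommGroup V] [Module ℂ V] (p : N → X) (hp : Continuous p) : FS X N V where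
  p := p
  C y :=
    { carrier := {f | (∃ O : Opens X, y ∈ O ∧ ∀ n, p n ∈ O → ∀ᶠ n' in 𝓝 n, f n' = f n) ∧
        {n | p n = y ∧ f n ≠ 0}.Finite}
      add_mem' := by
        rintro f g ⟨⟨O, hyO, hO⟩, hf⟩ ⟨⟨O', hyO', hO'⟩, hg⟩
        refine ⟨⟨O ⊓ O', ⟨hyO, hyO'⟩, fun n hn => ?_⟩, (hf.union hg).subset ?_⟩
        · filter_upwards [hO n hn.1, hO' n hn.2] with n' h1 h2
          rw [Pi.add_apply, Pi.add_apply, h1, h2]
        · rintro n ⟨hn, hne⟩
          by_cases h : f n = 0
          · right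
            refine ⟨hn, fun h' => hne ?_⟩
            rw [Pi.add_apply, h, h', add_zero]
          · exact Or.inl ⟨hn, h⟩
      zero_mem' := by
        refine ⟨⟨⊤, trivial, fun n _ => Filter.Eventually.of_forall (fun _ => rfl)⟩, ?_⟩
        convert Set.finite_empty
        ext n
        simp
      smul_mem' := by
        rintro c f ⟨⟨O, hyO, hO⟩, hf⟩
        refine ⟨⟨O, hyO, fun n hn => ?_⟩, hf.subset ?_⟩
        · filter_upwards [hO n hn] with n' h1
          rw [Pi.smul_apply, Pi.smul_apply, h1]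
        · rintro n ⟨hn, hne⟩
          refine ⟨hn, fun h => hne ?_⟩
          rw [Pi.smul_apply, h, smul_zero] }
  loc := by
    rintro y U hy f g hfg ⟨⟨O, hyO, hO⟩, hf⟩
    refine ⟨⟨O ⊓ U, ⟨hyO, hy⟩, fun n hn => ?_⟩, hf.subset ?_⟩
    · filter_upwards [hO n hn.1, (U.isOpen.preimage hp).mem_nhds hn.2] with n' h1 h2
      rw [← hfg n' h2, ← hfg n hn.2, h1]
    · rintro n ⟨hn, hne⟩
      refine ⟨hn, ?_⟩
      rwa [hfg n (hn ▸ hy)]

/-- sheets of a covering over a connected open neighbourhood. -/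
lemma exists_sheets [LocallyConnectedSpace X] {p : N → X} (hp : IsCoveringMap p) (y : X)
    [hne : Nonempty (p ⁻¹' {y})] (O : Opens X) (hy : y ∈ O) :
    ∃ (U : Opens X) (_ : y ∈ U) (_ : U ≤ O)
    (_ : _root_.IsPreconnected (U : Set X)) (s : (p ⁻¹' {y}) → X → N) (idx : N → (p ⁻¹' {y})),
    (∀ i, ∀ z ∈ U, p (s i z) = z) ∧ (∀ i, ContinuousOn (s i) U) ∧
    (∀ n, p n ∈ U → s (idx n) (p n) = n) ∧ (∀ i, ∀ z ∈ U, idx (s i z) = i) ∧
    (∀ n, p n ∈ U → ∀ᶠ n' in 𝓝 n, idx n' = idx n) := by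
  classical
  obtain ⟨hdisc, U₀, hyU₀, hU₀, hpU₀, H, hH⟩ := hp y
  obtain ⟨U, hUU₀, hU, hyU, hUc⟩ := locallyConnectedSpace_iff_subsets_isOpen_isConnected.1
      inferInstance y (U₀ ∩ (O : Set X)) ((hU₀.inter O.isOpen).mem_nhds ⟨hyU₀, hy⟩)
  let i₀ : p ⁻¹' {y} := Classical.arbitrary _
  let s : (p ⁻¹' {y}) → X → N := fun i z => if h : z ∈ U₀ then (H.symm (⟨z, h⟩, i)).1 else i₀.1
  let idx : N → (p ⁻¹' {y}) := fun n => if h : p n ∈ U₀ then (H ⟨n, h⟩).2 else i₀
  have hps : ∀ i, ∀ z ∈ U₀, p (s i z) = z := by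
    intro i z hz
    simp only [s, dif_pos hz]
    rw [← hH, Homeomorph.apply_symm_apply]
  refine ⟨⟨U, hU⟩, hyU, fun z hz => (hUU₀ hz).2, hUc.isPreconnected, s, idx,
    fun i z hz => hps i z (hUU₀ hz).1, ?_, ?_, ?_, ?_⟩
  · intro i
    have h1 : ContinuousOn (s i) U₀ := by
      rw [continuousOn_iff_continuous_domRestrict]
      have h2 : U₀.domRestrict (s i) = fun z => (H.symm (z, i)).1 := by
        funext z
        change s i z.1 = _
        simp only [s, dif_pos z.2]
      rw [h2]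
      fun_prop
    exact h1.mono (fun z hz => (hUU₀ hz).1)
  · intro n hn
    have hn' : p n ∈ U₀ := (hUU₀ hn).1
    simp only [s, idx, dif_pos hn']
    have h1 : ((⟨p n, hn'⟩, (H ⟨n, hn'⟩).2) : U₀ × (p ⁻¹' {y})) = H ⟨n, hn'⟩ := by
      apply Prod.ext
      · apply Subtype.ext
        exact (hH ⟨n, hn'⟩).symm
      · rfl
    rw [h1, Homeomorph.symm_apply_apply]
  · intro i z hz
    have hz' : z ∈ U₀ := (hUU₀ hz).1
    have h1 : p (s i z) ∈ U₀ := by rw [hps i z hz']; exact hz'
    simp only [idx, dif_pos h1]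
    have h2 : (⟨s i z, h1⟩ : p ⁻¹' U₀) = H.symm (⟨z, hz'⟩, i) := by
      apply Subtype.ext
      simp only [s, dif_pos hz']
    rw [h2, Homeomorph.apply_symm_apply]
  · intro n hn
    have hn' : p n ∈ U₀ := (hUU₀ hn).1
    have h1 : Continuous (fun n : p ⁻¹' U₀ => (H n).2) := by fun_prop
    have h2 : ∀ᶠ n' : p ⁻¹' U₀ in 𝓝 ⟨n, hn'⟩, (H n').2 = (H ⟨n, hn'⟩).2 :=
      h1.continuousAt.eventually (isOpen_discrete {(H ⟨n, hn'⟩).2} |>.mem_nhds rfl)
    have h3 : ∀ᶠ n' in 𝓝 n, ∀ h : n' ∈ p ⁻¹' U₀, (H ⟨n', h⟩).2 = (H ⟨n, hn'⟩).2 := by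
      rw [nhds_subtype_eq_comap, Filter.eventually_comap] at h2
      filter_upwards [h2] with n' h4 h5
      exact h4 ⟨n', h5⟩ rfl
    filter_upwards [h3, hpU₀.mem_nhds hn'] with n' h4 h5
    simp only [idx, dif_pos (show p n ∈ U₀ from hn'), dif_pos (show p n' ∈ U₀ from h5)]
    exact h4 h5

section

variable {V : Type} [AddCommGroup V] [Module ℂ V] {p : N → X} (hp : IsCoveringMap p)

/-- `p_! V` -/
abbrev PSs (V : Type) [AddCommGroup V] [Module ℂ V] {p : N → X} (hp : IsCoveringMap p) : Sh X :=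
  (PS V p hp.continuous).sh

/-- A section of `p_! V` over a connected open set is constant along sections of `p`. -/
lemma PS_const {U : Opens X} (hU : _root_.IsPreconnected (U : Set X))
    (f : Sec (PSs V hp) U) (s : X → N) (hs : ContinuousOn s U) (hps : ∀ z ∈ U, p (s z) = z)
    {z z' : X} (hz : z ∈ U) (hz' : z' ∈ U) :
    (PS V p hp.continuous).val f (s z) = (PS V p hp.continuous).val f (s z') := by
  have hloc : ∀ n, p n ∈ U → ∀ᶠ n' in 𝓝 n, (PS V p hp.continuous).val f n' =
      (PS V p hp.continuous).val f n := by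
    intro n hn
    obtain ⟨⟨O, hyO, hO⟩, _⟩ := ((PS V p hp.continuous).val_mem f).2 (p n) hn
    exact hO n hyO
  by_contra hne
  let U₁ : Set X := {y | ∀ᶠ w in 𝓝 y, w ∈ U → (PS V p hp.continuous).val f (s w) =
    (PS V p hp.continuous).val f (s z)}
  let U₂ : Set X := {y | ∀ᶠ w in 𝓝 y, w ∈ U → (PS V p hp.continuous).val f (s w) ≠
    (PS V p hp.continuous).val f (s z)}
  have hU₁ : IsOpen U₁ := by
    rw [isOpen_iff_mem_nhds]
    intro z hz
    exact eventually_eventually_nhds.2 hz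
  have hU₂ : IsOpen U₂ := by
    rw [isOpen_iff_mem_nhds]
    intro z hz
    exact eventually_eventually_nhds.2 hz
  have hloc2 : ∀ y ∈ U, ∀ᶠ w in 𝓝 y, w ∈ U → (PS V p hp.continuous).val f (s w) =
      (PS V p hp.continuous).val f (s y) := by
    intro y hy
    have h1 := hloc (s y) (by rw [hps y hy]; exact hy)
    have h2 := (hs y hy).eventually h1
    rw [eventually_nhdsWithin_iff] at h2
    exact h2
  have h1 : ∀ y ∈ U, (PS V p hp.continuous).val f (s y) =
      (PS V p hp.continuous).val f (s z) → y ∈ U₁ := by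
    intro y hy h
    change ∀ᶠ w in 𝓝 y, w ∈ U → _
    filter_upwards [hloc2 y hy] with w hw hwU
    rw [hw hwU, h]
  have h2 : ∀ y ∈ U, (PS V p hp.continuous).val f (s y) ≠
      (PS V p hp.continuous).val f (s z) → y ∈ U₂ := by
    intro y hy h
    change ∀ᶠ w in 𝓝 y, w ∈ U → _
    filter_upwards [hloc2 y hy] with w hw hwU
    rw [hw hwU]
    exact h
  obtain ⟨w, hwU, hw1, hw2⟩ := hU U₁ U₂ hU₁ hU₂ (fun y hy => by
    by_cases h : (PS V p hp.continuous).val f (s y) = (PS V p hp.continuous).val f (s z)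
    · exact Or.inl (h1 y hy h)
    · exact Or.inr (h2 y hy h)) ⟨z, hz, h1 z hz rfl⟩ ⟨z', hz', h2 z' hz' (fun h => hne h.symm)⟩
  exact (Filter.Eventually.self_of_nhds hw2) hwU ((Filter.Eventually.self_of_nhds hw1) hwU)

/-- local triviality of `p_! V` -/
lemma PS_local [LocallyConnectedSpace X] (y : X) [hne : Nonempty (p ⁻¹' {y})] :
    ∃ (U : Opens X) (_ : y ∈ U) (e : ((p ⁻¹' {y}) →₀ V) →ₗ[ℂ] Sec (PSs V hp) U),
    ∀ z (hz : z ∈ U), Function.Bijective (fun v => germ (PSs V hp) z hz (e v)) := by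
  classical
  obtain ⟨U, hyU, -, hUc, s, idx, hps, hsc, hsi, his, hidx⟩ := exists_sheets hp y ⊤ trivial
  have hmem : ∀ φ : (p ⁻¹' {y}) →₀ V, (fun n => if p n ∈ U then φ (idx n) else 0) ∈
      (PS V p hp.continuous).sec U := by
    intro φ
    refine ⟨fun n hn => if_neg hn, fun z hz => ⟨⟨U, hz, fun n hn => ?_⟩, ?_⟩⟩
    · filter_upwards [hidx n hn, (U.isOpen.preimage hp.continuous).mem_nhds hn] with n' h1 h2
      rw [if_pos hn, if_pos (show p n' ∈ U from h2), h1]
    · refine (φ.support.finite_toSet.image (fun i => s i z)).subset ?_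
      rintro n ⟨hn, hne⟩
      have hnU : p n ∈ U := hn ▸ hz
      simp only [if_pos hnU] at hne
      refine ⟨idx n, by simpa using hne, ?_⟩
      simp only
      rw [← hn, hsi n hnU]
  let e : ((p ⁻¹' {y}) →₀ V) →ₗ[ℂ] Sec (PSs V hp) U :=
    { toFun := fun φ => (PS V p hp.continuous).mks _ (hmem φ)
      map_add' := by
        intro φ φ'
        apply (PS V p hp.continuous).val_injective
        rw [FS.val_mks, map_add, FS.val_mks, FS.val_mks]
        funext n
        by_cases hn : p n ∈ U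
        · simp [hn]
        · simp [hn]
      map_smul' := by
        intro c φ
        apply (PS V p hp.continuous).val_injective
        rw [FS.val_mks, map_smul, FS.val_mks]
        funext n
        by_cases hn : p n ∈ U
        · simp [hn]
        · simp [hn] }
  have hval : ∀ φ i, ∀ z ∈ U, (PS V p hp.continuous).val (e φ) (s i z) = φ i := by
    intro φ i z hz
    change (if p (s i z) ∈ U then φ (idx (s i z)) else 0) = φ i
    rw [hps i z hz, if_pos hz, his i z hz]
  refine ⟨U, hyU, e, fun z hz => ⟨?_, ?_⟩⟩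
  · intro φ φ' h
    obtain ⟨W, hW, hW'⟩ := ((PS V p hp.continuous).germ_eq_iff hz hz (e φ) (e φ')).1 h
    ext i
    rw [← hval φ i z hz, ← hval φ' i z hz]
    apply hW'
    change p (s i z) ∈ W
    rw [hps i z hz]
    exact hW
  · intro t
    obtain ⟨U', hU'U, hzU', g, rfl⟩ := germ_surj_le _ z t hz
    obtain ⟨O, hOU', hO, hzO, hOc⟩ := locallyConnectedSpace_iff_subsets_isOpen_isConnected.1
      inferInstance z (U' : Set X) (U'.isOpen.mem_nhds hzU')
    let O' : Opens X := ⟨O, hO⟩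
    have hO' : O' ≤ U' := hOU'
    obtain ⟨_, hfin⟩ := ((PS V p hp.continuous).val_mem g).2 z hzU'
    have hfin' : (Function.support (fun i => (PS V p hp.continuous).val g (s i z))).Finite := by
      refine Set.Finite.of_finite_image (f := fun i => s i z) (hfin.subset ?_) ?_
      · rintro _ ⟨i, hi, rfl⟩
        exact ⟨hps i z hz, hi⟩
      · intro i _ j _ hij
        have := congrArg idx hij
        rwa [his i z hz, his j z hz] at this
    let φ : (p ⁻¹' {y}) →₀ V := Finsupp.ofSupportFinite _ hfin'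
    refine ⟨φ, ?_⟩
    change germ (PSs V hp) z hz (e φ) = _
    rw [FS.germ_eq_iff]
    refine ⟨O', hzO, fun n hn => ?_⟩
    have hn' : p n ∈ O' := hn
    have hnU : p n ∈ U := hU'U (hO' hn')
    have h1 : (PS V p hp.continuous).val (e φ) n = φ (idx n) := if_pos hnU
    rw [h1]
    change (PS V p hp.continuous).val g (s (idx n) z) = _
    have h2 : ∀ w ∈ O', (PS V p hp.continuous).val g (s (idx n) w) =
        (PS V p hp.continuous).val (res _ hO' g) (s (idx n) w) := by
      intro w hw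
      rw [FS.val_res, FS.cut_apply_mem]
      change p (s (idx n) w) ∈ O'
      rw [hps _ w (hU'U (hO' hw))]
      exact hw
    rw [h2 z hzO]
    have h3 := PS_const hp hOc.isPreconnected (res _ hO' g) (s (idx n))
      ((hsc _).mono (fun w hw => hU'U (hO' hw))) (fun w hw => hps _ w (hU'U (hO' hw)))
      (z := z) (z' := p n) hzO hn'
    refine h3.trans ?_
    rw [← h2 (p n) hn', hsi n hnU]

lemma PS_locConst [LocallyConnectedSpace X] (hne : ∀ y, Nonempty (p ⁻¹' {y})) : IsLocConst (PSs V hp) := by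
  intro y
  have := hne y
  obtain ⟨U, hyU, e, he⟩ := PS_local (V := V) hp y
  exact ⟨U, hyU, _, inferInstance, inferInstance, e, he⟩

/-- finite generation of a sheaf on an open subset -/
def FinOn (F : Sh X) (U : Set X) : Prop :=
  ∀ y ∈ U, ∃ (O : Opens X) (_ : y ∈ O) (ι : Type) (_ : Fintype ι) (b : ι → Sec F O),
    ∀ z (hz : z ∈ O), z ∈ U → ∀ t : Stk F z, t ∈ Submodule.span ℂ
      (Set.range (fun i => germ F z hz (b i)))

/-- Monodromy argument: a morphism from a sheaf which is locally constant of finite rank on an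
open subset `U` whose preimage under `p` is connected, to `p_! V`, vanishes on `U`. -/
lemma monodromy_zero {U : Set X} (hU : IsOpen U) (hUc : _root_.IsPreconnected (p ⁻¹' U))
    (hinf : ∀ y ∈ U, (p ⁻¹' {y}).Infinite) {F : Sh X} (hF : FinOn F U)
    (φ : F ⟶ PSs V hp) : ∀ y ∈ U, ∀ t : Stk F y, stk φ y t = 0 := by
  classical
  -- the set of points of `N` where the evaluation of `φ` vanishes
  let Z : Set N := {n | ∀ (O : Opens X) (h : p n ∈ O) (s : Sec F O),
    (PS V p hp.continuous).val (app φ O s) n = 0}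
  have key : ∀ y (hyU : y ∈ U), ∃ (O : Opens X) (_ : y ∈ O) (ι : Type) (_ : Fintype ι)
      (b : ι → Sec F O), ∀ n, p n ∈ O → p n ∈ U →
        (n ∈ Z ↔ ∀ i, (PS V p hp.continuous).val (app φ O (b i)) n = 0) := by
    intro y hyU
    obtain ⟨O, hyO, ι, _, b, hb⟩ := hF y hyU
    refine ⟨O, hyO, ι, inferInstance, b, fun n hn hnU => ?_⟩
    constructor
    · intro hnZ i
      exact hnZ O hn (b i)
    · intro h O' hnO' s
      have h1 := hb (p n) hn hnU (germ F (p n) hnO' s)
      -- evaluation at `n`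
      have h2 : ∀ t ∈ Submodule.span ℂ (Set.range (fun i => germ F (p n) hn (b i))),
          (PS V p hp.continuous).ev n (stk φ (p n) t) = 0 := by
        intro t ht
        induction ht using Submodule.span_induction with
        | mem t ht =>
          obtain ⟨i, rfl⟩ := ht
          simp only
          rw [stk_germ]
          have := (PS V p hp.continuous).ev_germ n O hn (app φ O (b i))
          refine this.trans (h i)
        | zero => rw [map_zero, map_zero]
        | add a b _ _ ha hb => rw [map_add, map_add, ha, hb, add_zero]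
        | smul c a _ ha => rw [map_smul, map_smul, ha, smul_zero]
      have h3 := h2 _ h1
      rw [stk_germ] at h3
      exact ((PS V p hp.continuous).ev_germ n O' hnO' (app φ O' s)).symm.trans h3
  have hloc : ∀ n, p n ∈ U → ∀ᶠ n' in 𝓝 n, (n' ∈ Z ↔ n ∈ Z) := by
    intro n hn
    obtain ⟨O, hyO, ι, _, b, hb⟩ := key (p n) hn
    have h1 : ∀ i, ∀ᶠ n' in 𝓝 n, (PS V p hp.continuous).val (app φ O (b i)) n' =
        (PS V p hp.continuous).val (app φ O (b i)) n := by
      intro i
      obtain ⟨⟨O', hyO', hO'⟩, _⟩ := ((PS V p hp.continuous).val_mem (app φ O (b i))).2 (p n) hyO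
      exact hO' n hyO'
    filter_upwards [Filter.eventually_all.2 h1,
      ((O.isOpen.inter hU).preimage hp.continuous).mem_nhds ⟨hyO, hn⟩] with n' h2 h3
    rw [hb n' h3.1 h3.2, hb n hyO hn]
    constructor
    · intro h i; rw [← h2 i]; exact h i
    · intro h i; rw [h2 i]; exact h i
  have hpt : ∀ y ∈ U, ∃ n, p n = y ∧ n ∈ Z := by
    intro y hyU
    obtain ⟨O, hyO, ι, _, b, hb⟩ := key y hyU
    have hfin : (⋃ i, {n | p n = y ∧ (PS V p hp.continuous).val (app φ O (b i)) n ≠ 0}).Finite :=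
      Set.finite_iUnion (fun i => (((PS V p hp.continuous).val_mem (app φ O (b i))).2 y hyO).2)
    obtain ⟨n, hn, hn'⟩ := ((hinf y hyU).sdiff hfin).nonempty
    have hpn : p n = y := hn
    refine ⟨n, hpn, (hb n (hpn ▸ hyO) (hpn ▸ hyU)).2 (fun i => ?_)⟩
    by_contra h
    exact hn' (Set.mem_iUnion.2 ⟨i, hpn, h⟩)
  have hall : ∀ n, p n ∈ U → n ∈ Z := by
    intro n hn
    by_contra hne
    obtain ⟨n₀, hn₀, hn₀Z⟩ := hpt (p n) hn
    obtain ⟨w, hwU, hw1, hw2⟩ := hUc {m | ∀ᶠ n' in 𝓝 m, n' ∈ Z} {m | ∀ᶠ n' in 𝓝 m, n' ∉ Z}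
      (by
        rw [isOpen_iff_mem_nhds]
        intro z hz
        exact eventually_eventually_nhds.2 hz)
      (by
        rw [isOpen_iff_mem_nhds]
        intro z hz
        exact eventually_eventually_nhds.2 hz)
      (by
        intro m hm
        by_cases hmZ : m ∈ Z
        · left
          change ∀ᶠ n' in 𝓝 m, n' ∈ Z
          filter_upwards [hloc m hm] with n' h
          exact h.2 hmZ
        · right
          change ∀ᶠ n' in 𝓝 m, n' ∉ Z
          filter_upwards [hloc m hm] with n' h h'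
          exact hmZ (h.1 h'))
      ⟨n₀, (show p n₀ ∈ U by rw [hn₀]; exact hn), by
        change ∀ᶠ n' in 𝓝 n₀, n' ∈ Z
        filter_upwards [hloc n₀ (by rw [hn₀]; exact hn)] with n' h
        exact h.2 hn₀Z⟩
      ⟨n, hn, by
        change ∀ᶠ n' in 𝓝 n, n' ∉ Z
        filter_upwards [hloc n hn] with n' h h'
        exact hne (h.1 h')⟩
    exact (Filter.Eventually.self_of_nhds hw2) (Filter.Eventually.self_of_nhds hw1)
  intro y hyU t
  obtain ⟨O, hyO, s, rfl⟩ := germ_surj _ y t
  rw [stk_germ, ← map_zero (germ (PSs V hp) y hyO), FS.germ_eq_iff]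
  refine ⟨⟨U, hU⟩ ⊓ O, ⟨hyU, hyO⟩, fun n hn => ?_⟩
  rw [map_zero]
  exact hall n hn.1 O hn.2 s

end

end

end WS
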