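import Pool.Agent.helper18.WS.QExt

open CategoryTheory TopologicalSpace Topology Limits Opposite Abelian

set_option backward.isDefEq.respectTransparency false
set_option backward.isDefEq.respectTransparency.types false
set_option linter.unusedVariables false
set_option linter.unusedSectionVars false

universe w

namespace WS

noncomputable section

variable {X : Type} [TopologicalSpace X] {m : ℕ} {p : (Fin m → ℝ) → X}
  (hpl : IsLocalHomeomorph p) [HasExt.{w} (Sh X)]

/-- Vanishing near boxes, by a Cousin argument. -/
lemma box_zero {F : Sh X} {n : ℕ} {U : Set (Fin m → ℝ)} (hU : IsOpen U)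
    (e : Ext.{w} (qk hpl U) F (n + 1))
    (Q Q' : (Fin m → ℝ) → (Fin m → ℝ) → Prop)
    (hQ : ∀ c d c' d', Q c d → c ≤ c' → d' ≤ d → Q c' d')
    (hQQ' : ∀ c d j t, Q c d → c j < t → t < d j →
      Q' (Function.update c j t) (Function.update d j t))
    (hE : ∀ c d, c ≤ d → Q' c d → ExtendsNear.{w} hpl F n (Set.Icc c d))
    (a b : Fin m → ℝ) (hab : a ≤ b) (habU : Set.Icc a b ⊆ U) (hQab : Q a b) :
    ZeroNear hpl e (Set.Icc a b) := by
  have claim : ∀ J : Finset (Fin m), ∀ z ∈ Set.Icc a b, ∃ δ > 0, ∀ c d : Fin m → ℝ,
      a ≤ c → c ≤ d → d ≤ b → (∀ i, i ∉ J → z i - δ < c i ∧ d i < z i + δ) →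
      ZeroNear hpl e (Set.Icc c d) := by
    intro J
    induction J using Finset.induction_on with
    | empty =>
      intro z hz
      obtain ⟨U', hU', h, hzU', h0⟩ := qext_locally_zero hpl hU e z (habU hz)
      obtain ⟨δ, hδ, hball⟩ := Metric.mem_nhds_iff.1 (hU'.mem_nhds hzU')
      refine ⟨δ, hδ, fun c d hc hcd hd hcz => ⟨U', hU', h, ?_, h0⟩⟩
      refine Set.Subset.trans ?_ hball
      intro y hy
      rw [Metric.mem_ball, dist_pi_lt_iff hδ]
      intro i
      have h1 := hcz i (by simp)
      have h2 := hy.1 i
      have h3 := hy.2 i
      rw [Real.dist_eq, abs_lt]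
      constructor <;> linarith
    | insert j J hj IH =>
      intro z hz
      let P : ℝ → ℝ → Prop := fun s u => ∃ δ > 0, ∀ c d : Fin m → ℝ,
        a ≤ c → c ≤ d → d ≤ b →
        (∀ i, i ∉ insert j J → z i - δ < c i ∧ d i < z i + δ) → s ≤ c j → d j ≤ u →
        ZeroNear hpl e (Set.Icc c d)
      have hP : P (a j) (b j) := by
        apply cousin (hab j)
        · rintro s t u has hst htu hub ⟨δ₁, hδ₁, h₁⟩ ⟨δ₂, hδ₂, h₂⟩
          refine ⟨min δ₁ δ₂, lt_min hδ₁ hδ₂, fun c d hc hcd hd hcz hs hu => ?_⟩
          have hcz₁ : ∀ i, i ∉ insert j J → z i - δ₁ < c i ∧ d i < z i + δ₁ := by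
            intro i hi
            have := hcz i hi
            have h3 := min_le_left δ₁ δ₂
            constructor <;> linarith
          have hcz₂ : ∀ i, i ∉ insert j J → z i - δ₂ < c i ∧ d i < z i + δ₂ := by
            intro i hi
            have := hcz i hi
            have h3 := min_le_right δ₁ δ₂
            constructor <;> linarith
          by_cases hdt : d j ≤ t
          · exact h₁ c d hc hcd hd hcz₁ hs hdt
          by_cases hct : t ≤ c j
          · exact h₂ c d hc hcd hd hcz₂ hct hu
          push Not at hdt hct
          -- split
          let d' := Function.update d j t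
          let c' := Function.update c j t
          have hcd' : c ≤ d' := by
            intro i
            by_cases hi : i = j
            · subst hi; simp [d', hct.le]
            · simp [d', hi, hcd i]
          have hd'd : d' ≤ d := by
            intro i
            by_cases hi : i = j
            · subst hi; simp [d', hdt.le]
            · simp [d', hi]
          have hc'd : c' ≤ d := by
            intro i
            by_cases hi : i = j
            · subst hi; simp [c', hdt.le]
            · simp [c', hi, hcd i]
          have hcc' : c ≤ c' := by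
            intro i
            by_cases hi : i = j
            · subst hi; simp [c', hct.le]
            · simp [c', hi]
          have hc'd' : c' ≤ d' := by
            intro i
            by_cases hi : i = j
            · subst hi; simp [c', d']
            · simp [c', d', hi, hcd i]
          have e1 := h₁ c d' hc hcd' (hd'd.trans hd) (by
            intro i hi
            have hij : i ≠ j := fun h => hi (by simp [h])
            have := hcz₁ i hi
            simp only [d', Function.update_of_ne hij]
            exact this) hs (by simp [d'])
          have e2 := h₂ c' d (hc.trans hcc') hc'd hd (by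
            intro i hi
            have hij : i ≠ j := fun h => hi (by simp [h])
            have := hcz₂ i hi
            simp only [c', Function.update_of_ne hij]
            exact this) (by simp [c']) hu
          have hcup : Set.Icc c d = Set.Icc c d' ∪ Set.Icc c' d := by
            ext w
            constructor
            · intro hw
              by_cases hwt : w j ≤ t
              · left
                refine ⟨hw.1, fun i => ?_⟩
                by_cases hi : i = j
                · subst hi; simpa [d'] using hwt
                · simpa [d', hi] using hw.2 i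
              · right
                push Not at hwt
                refine ⟨fun i => ?_, hw.2⟩
                by_cases hi : i = j
                · subst hi; simpa [c'] using hwt.le
                · simpa [c', hi] using hw.1 i
            · rintro (hw | hw)
              · exact ⟨hw.1, hw.2.trans hd'd⟩
              · exact ⟨hcc'.trans hw.1, hw.2⟩
          have hcap : Set.Icc c d' ∩ Set.Icc c' d = Set.Icc c' d' := by
            ext w
            constructor
            · rintro ⟨hw1, hw2⟩
              exact ⟨hw2.1, hw1.2⟩
            · intro hw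
              exact ⟨⟨hcc'.trans hw.1, hw.2⟩, ⟨hw.1, hw.2.trans hd'd⟩⟩
          rw [hcup]
          apply ZeroNear.glue hpl hU e isCompact_Icc isCompact_Icc e1 e2
          rw [hcap]
          exact hE c' d' hc'd' (hQQ' c d j t (hQ a b c d hQab hc hd) hct hdt)
        · intro t ht
          obtain ⟨δ, hδ, h⟩ := IH (Function.update z j t) (by
            constructor
            · intro i
              by_cases hi : i = j
              · subst hi; simpa using ht.1
              · simpa [hi] using hz.1 i
            · intro i
              by_cases hi : i = j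
              · subst hi; simpa using ht.2
              · simpa [hi] using hz.2 i)
          refine ⟨δ, hδ, fun s u hts hsu hut has hub => ⟨δ, hδ, fun c d hc hcd hd hcz hs hu => ?_⟩⟩
          apply h c d hc hcd hd
          intro i hi
          by_cases hij : i = j
          · subst hij
            rw [Function.update_self]
            constructor <;> linarith
          · rw [Function.update_of_ne hij]
            exact hcz i (by simp [hij, hi])
      obtain ⟨δ, hδ, h⟩ := hP
      exact ⟨δ, hδ, fun c d hc hcd hd hcz => h c d hc hcd hd hcz (hc j) (hd j)⟩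
  obtain ⟨δ, hδ, h⟩ := claim Finset.univ a ⟨le_rfl, hab⟩
  exact h a b le_rfl hab le_rfl (fun i hi => absurd (Finset.mem_univ i) hi)

lemma ZeroNear.extends {F : Sh X} {n : ℕ} {B : Set (Fin m → ℝ)}
    (h : ∀ (W : Set (Fin m → ℝ)) (hW : IsOpen W) (hBW : B ⊆ W) (γ : Ext.{w} (qk hpl W) F n),
      ZeroNear hpl γ B) : ExtendsNear.{w} hpl F n B := by
  intro W hW hBW γ
  obtain ⟨W', hW', h', hB, h0⟩ := h W hW hBW γ
  exact ⟨W', hW', h', hB, 0, by rw [rs_zero, h0]⟩

/-- number of nondegenerate directions of a box -/
def bdim (c d : Fin m → ℝ) : ℕ := (Finset.univ.filter (fun i => c i < d i)).card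

lemma bdim_mono {c d c' d' : Fin m → ℝ} (h : c ≤ c') (h' : d' ≤ d) : bdim c' d' ≤ bdim c d := by
  apply Finset.card_le_card
  intro i hi
  simp only [Finset.mem_filter, Finset.mem_univ, true_and] at hi ⊢
  exact (h i).trans_lt (hi.trans_le (h' i))

lemma bdim_update {c d : Fin m → ℝ} {j : Fin m} {t : ℝ} (h : c j < t) (h' : t < d j) :
    bdim (Function.update c j t) (Function.update d j t) < bdim c d := by
  apply Finset.card_lt_card
  rw [Finset.ssubset_iff_of_subset]
  · refine ⟨j, by simp [h.trans h'], by simp⟩
  · intro i hi
    simp only [Finset.mem_filter, Finset.mem_univ, true_and] at hi ⊢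
    by_cases hij : i = j
    · subst hij
      simp at hi
    · simpa [hij] using hi

lemma bdim_le (c d : Fin m → ℝ) : bdim c d ≤ m := by
  refine (Finset.card_filter_le _ _).trans ?_
  simp

/-- Vanishing near boxes in degrees larger than the dimension, for all sheaves. -/
lemma box_zero_dim (F : Sh X) (n : ℕ) : ∀ {U : Set (Fin m → ℝ)} (hU : IsOpen U)
    (e : Ext.{w} (qk hpl U) F (n + 1)) (a b : Fin m → ℝ) (hab : a ≤ b) (habU : Set.Icc a b ⊆ U)
    (hd : bdim a b ≤ n), ZeroNear hpl e (Set.Icc a b) := by
  induction n with
  | zero =>
    intro U hU e a b hab habU hd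
    refine box_zero hpl hU e (fun c d => bdim c d ≤ 0) (fun c d => bdim c d < 0)
      (fun c d c' d' h h1 h2 => (bdim_mono h1 h2).trans h)
      (fun c d j t h h1 h2 => (bdim_update h1 h2).trans_le h)
      (fun c d _ h => absurd h (Nat.not_lt_zero _)) a b hab habU hd
  | succ n ih =>
    intro U hU e a b hab habU hd
    refine box_zero hpl hU e (fun c d => bdim c d ≤ n + 1) (fun c d => bdim c d < n + 1)
      (fun c d c' d' h h1 h2 => (bdim_mono h1 h2).trans h)
      (fun c d j t h h1 h2 => (bdim_update h1 h2).trans_le h) ?_ a b hab habU hd
    intro c d hcd h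
    apply ZeroNear.extends
    intro W hW hBW γ
    exact ih hW γ c d hcd hBW (by lia)

/-- Vanishing near boxes in positive degrees, for sheaves whose sections near boxes extend. -/
lemma box_zero_ext (F : Sh X)
    (hF : ∀ c d : Fin m → ℝ, c ≤ d → ExtendsNear.{w} hpl F 0 (Set.Icc c d)) (n : ℕ) :
    ∀ {U : Set (Fin m → ℝ)} (hU : IsOpen U)
    (e : Ext.{w} (qk hpl U) F (n + 1)) (a b : Fin m → ℝ) (hab : a ≤ b)
    (habU : Set.Icc a b ⊆ U), ZeroNear hpl e (Set.Icc a b) := by
  induction n with
  | zero =>
    intro U hU e a b hab habU
    exact box_zero hpl hU e (fun c d => True) (fun c d => True) (fun _ _ _ _ _ _ _ => trivial)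
      (fun _ _ _ _ _ _ _ => trivial) (fun c d h _ => hF c d h) a b hab habU trivial
  | succ n ih =>
    intro U hU e a b hab habU
    refine box_zero hpl hU e (fun c d => True) (fun c d => True) (fun _ _ _ _ _ _ _ => trivial)
      (fun _ _ _ _ _ _ _ => trivial) (fun c d h _ => ?_) a b hab habU trivial
    apply ZeroNear.extends
    intro W hW hBW γ
    exact ih hW γ c d h hBW

end

end WS
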