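import Pool.Agent.helper18.WS.TStr

open CategoryTheory Limits Abelian Pretriangulated Triangulated

set_option backward.isDefEq.respectTransparency false
set_option backward.isDefEq.respectTransparency.types false
set_option linter.unusedVariables false
set_option linter.unusedSectionVars false

universe w w' v u

namespace WS

noncomputable section

variable {C : Type u} [Category.{v} C] [Abelian C] [HasDerivedCategory.{w} C]

open DerivedCategory

lemma exists_epi_kill {K : C} {X : DerivedCategory C} (hX : X.IsLE (-1))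
    (f : (singleFunctor C 0).obj K ⟶ X) :
    ∃ (K' : C) (π : K' ⟶ K) (_ : Epi π), (singleFunctor C 0).map π ≫ f = 0 := by
  obtain ⟨L, hL, ⟨e⟩⟩ := exists_iso_Q_obj_of_isLE X (-1)
  obtain ⟨K'', hK'', s, hs, g, hg⟩ := right_fac_of_isStrictlyLE
    (X := (HomologicalComplex.single C (ComplexShape.up ℤ) 0).obj K) (Y := L) (f ≫ e.hom) 0
  let π : K''.X 0 ⟶ K := s.f 0 ≫ (HomologicalComplex.singleObjXSelf (ComplexShape.up ℤ) 0 K).hom
  let ι : (HomologicalComplex.single C (ComplexShape.up ℤ) 0).obj (K''.X 0) ⟶ K'' :=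
    HomologicalComplex.mkHomFromSingle (𝟙 (K''.X 0)) (fun k hk => by
      have hk' : k = 1 := by
        simp at hk
        lia
      apply IsZero.eq_of_tgt
      exact K''.isZero_of_isStrictlyLE 0 k (by lia))
  have h1 : ι ≫ s = (HomologicalComplex.single C (ComplexShape.up ℤ) 0).map π := by
    apply HomologicalComplex.from_single_hom_ext
    simp [ι, π, HomologicalComplex.single_map_f_self]
  have h2 : ι ≫ g = 0 := by
    apply HomologicalComplex.from_single_hom_ext
    apply IsZero.eq_of_tgt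
    exact L.isZero_of_isStrictlyLE (-1) 0
  refine ⟨K''.X 0, π, ?_, ?_⟩
  · rw [Preadditive.epi_iff_cancel_zero]
    intro B h hh
    have h3 : s ≫ (HomologicalComplex.single C (ComplexShape.up ℤ) 0).map h = 0 := by
      apply HomologicalComplex.to_single_hom_ext
      rw [HomologicalComplex.comp_f, HomologicalComplex.single_map_f_self]
      have h5 : s.f 0 ≫ (HomologicalComplex.singleObjXSelf (ComplexShape.up ℤ) 0 K).hom ≫ h =
        0 := by
        rw [← Category.assoc]
        exact hh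
      simp [reassoc_of% h5]
    have h4 : Q.map ((HomologicalComplex.single C (ComplexShape.up ℤ) 0).map h) = 0 := by
      rw [← cancel_epi (Q.map s), ← Functor.map_comp, h3, Functor.map_zero, comp_zero]
    apply (singleFunctor C 0).map_injective
    rw [Functor.map_zero]
    exact h4
  · rw [← cancel_mono e.hom, zero_comp, Category.assoc]
    have h5 : (singleFunctor C 0).map π =
      Q.map ((HomologicalComplex.single C (ComplexShape.up ℤ) 0).map π) := rfl
    rw [h5, ← h1, hg, Functor.map_comp, Category.assoc]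
    have h6 : Q.map s ≫ inv (Q.map s) ≫ Q.map g = Q.map g := by simp
    rw [h6, ← Functor.map_comp, h2, Functor.map_zero]

/-- A morphism from an object to an object of `D^{≤ -n}` factors through a Yoneda extension of
degree `n`. -/
lemma exists_factor (n : ℕ) : ∀ (K : C) (X : DerivedCategory C) (hX : X.IsLE (-n))
    (f : (singleFunctor C 0).obj K ⟶ X),
    ∃ (B : C) (a : (singleFunctor C 0).obj K ⟶ ((singleFunctor C 0).obj B)⟦(n : ℤ)⟧)
      (b : ((singleFunctor C 0).obj B)⟦(n : ℤ)⟧ ⟶ X), f = a ≫ b := by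
  induction n with
  | zero =>
    intro K X hX f
    let e₀ : ((singleFunctor C 0).obj K)⟦((0 : ℕ) : ℤ)⟧ ≅ (singleFunctor C 0).obj K :=
      (shiftFunctorZero' (DerivedCategory C) ((0 : ℕ) : ℤ) (by simp)).app _
    exact ⟨K, e₀.inv, e₀.hom ≫ f, (e₀.inv_hom_id_assoc f).symm⟩
  | succ n ih =>
    intro K X hX f
    have hX1 : X.IsLE (-1) := TStructure.isLE_of_le (TStructure.t (C := C)) X (-(n + 1 : ℕ)) (-1)
      (by push_cast; lia)
    obtain ⟨K', π, hπ, hf⟩ := exists_epi_kill hX1 f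
    let S : ShortComplex C := ShortComplex.mk (kernel.ι π) π (kernel.condition π)
    have hS : S.ShortExact := { exact := ShortComplex.exact_of_f_is_kernel _ (kernelIsKernel π) }
    obtain ⟨f₁, hf₁⟩ := Triangle.yoneda_exact₃ _ hS.singleTriangle_distinguished f hf
    change ((singleFunctor C 0).obj (kernel π))⟦(1 : ℤ)⟧ ⟶ X at f₁
    let e : (X⟦(-1 : ℤ)⟧)⟦(1 : ℤ)⟧ ≅ X :=
      (shiftFunctorCompIsoId (DerivedCategory C) (-1 : ℤ) 1 (by simp)).app X
    obtain ⟨f₂, hf₂⟩ := (shiftFunctor (DerivedCategory C) (1 : ℤ)).map_surjective (f₁ ≫ e.inv)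
    have hX2 : (X⟦(-1 : ℤ)⟧).IsLE (-n) :=
      (TStructure.t (C := C)).isLE_shift X (-(n + 1 : ℕ)) (-1) (-n) (by push_cast; lia)
    obtain ⟨B, a, b, hab⟩ := ih _ _ hX2 f₂
    let e' : ((singleFunctor C 0).obj B)⟦((n + 1 : ℕ) : ℤ)⟧ ≅
        (((singleFunctor C 0).obj B)⟦(n : ℤ)⟧)⟦(1 : ℤ)⟧ :=
      (shiftFunctorAdd' (DerivedCategory C) (n : ℤ) 1 ((n + 1 : ℕ) : ℤ) (by simp)).app _
    refine ⟨B, hS.singleδ ≫ a⟦(1 : ℤ)⟧' ≫ e'.inv, e'.hom ≫ b⟦(1 : ℤ)⟧' ≫ e.hom, ?_⟩
    have h1 : f = hS.singleδ ≫ f₁ := hf₁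
    have h2 : f₁ = f₂⟦(1 : ℤ)⟧' ≫ e.hom := by rw [hf₂]; simp
    rw [h1, h2, hab]
    simp

lemma hom_zero_of_projDim [HasExt.{w'} C] {K : C} {d : ℕ}
    (hK : ∀ B (e : Ext.{w'} K B d), e = 0) {X : DerivedCategory C} (hX : X.IsLE (-d))
    (f : (singleFunctor C 0).obj K ⟶ X) : f = 0 := by
  obtain ⟨B, a, b, rfl⟩ := exists_factor d K X hX f
  have h5 := congrArg Ext.homEquiv (hK B (Ext.homEquiv.symm a))
  rw [Equiv.apply_symm_apply] at h5
  have h6 : a = 0 := h5.trans (Ext.zero_hom _ _ _)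
  rw [h6, zero_comp]

/-- Dévissage: an object of finite projective dimension which is left orthogonal to all
`A` satisfying `P` is left orthogonal to all unbounded complexes with cohomology in `P`. -/
theorem hom_zero_of_acyclic [HasExt.{w'} C] {P : C → Prop} (hiso : ∀ A B, (A ≅ B) → P A → P B)
    (hzero : ∀ A, IsZero A → P A) {K : C}
    (hK : ∀ A, P A → ∀ n (e : Ext.{w'} K A n), e = 0) {d : ℕ}
    (hd : ∀ B (e : Ext.{w'} K B d), e = 0) {L : DerivedCategory C} (hL : CohP P L)
    (f : (singleFunctor C 0).obj K ⟶ L) : f = 0 := by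
  obtain ⟨X, Z, a, b, c, hT, hX, hZ, ha, hb⟩ := exists_trunc L (-d)
  obtain ⟨hXP, hZP⟩ := cohP_trunc hiso hzero hX hZ ha hb hL
  have h1 : f ≫ b = 0 := by
    apply stepA.{w, w'} hiso hzero (k := d) (fun j _ A hA e => hK A hA j e) d le_rfl Z _ hZP
    have : (-(d : ℤ) + 1) = 1 - d := by ring
    rwa [this] at hZ
  obtain ⟨g, hg⟩ := Triangle.coyoneda_exact₂ _ hT f h1
  have h2 : g = 0 := hom_zero_of_projDim hd hX g
  rw [hg, h2]
  exact zero_comp

end

end WS
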