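import Pool.Agent.helper18.WS.QS3

open CategoryTheory TopologicalSpace Topology Limits Opposite Abelian

set_option backward.isDefEq.respectTransparency false
set_option backward.isDefEq.respectTransparency.types false
set_option linter.unusedVariables false
set_option linter.unusedSectionVars false

universe w

namespace WS

noncomputable section

variable {X : Type} [TopologicalSpace X] {N : Type} [TopologicalSpace N] [T2Space N]
  {p : N → X} (hpl : IsLocalHomeomorph p) [HasExt.{w} (Sh X)]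

lemma LCo {U' U : Set N} (h : U' ⊆ U) (hU' : IsOpen U') : LC U' U :=
  LC_of_open h ⟨U', hU', (Set.inter_eq_right.2 h).symm⟩

lemma stk_qmor_dl {U' U : Set N} (hU : IsOpen U) (hU' : IsOpen U') (h : U' ⊆ U) {y : X} (n : N)
    (hn : p n = y) (hnU : n ∈ U') :
    stk (qmor hpl.continuous (LCo h hU')) y (dl hpl hU' n hn hnU) = dl hpl hU n hn (h hnU) := by
  apply evF_injective hpl U y
  rw [evF_dl]
  ext n'
  by_cases hn' : n'.1 ∈ U
  · rw [evF_qmor hpl _ _ n' hn', evF_dl]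
  · rw [evF_not_mem hpl _ n' hn', Finsupp.single_eq_of_ne]
    rintro rfl
    exact hn' (h hnU)

/-- restriction of classes to smaller open sets -/
def rs {F : Sh X} {n : ℕ} {U' U : Set N} (h : U' ⊆ U) (hU' : IsOpen U')
    (e : Ext.{w} (qk hpl U) F n) : Ext.{w} (qk hpl U') F n :=
  (Ext.mk₀ (qmor hpl.continuous (LCo h hU'))).comp e (zero_add n)

lemma rs_rs {F : Sh X} {n : ℕ} {U'' U' U : Set N} (h : U' ⊆ U) (hU' : IsOpen U')
    (h' : U'' ⊆ U') (hU'' : IsOpen U'') (e : Ext.{w} (qk hpl U) F n) :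
    rs hpl h' hU'' (rs hpl h hU' e) = rs hpl (h'.trans h) hU'' e := by
  unfold rs
  rw [Ext.mk₀_comp_mk₀_assoc, qmor_comp_qmor]
  exact fun z hz => h' hz.1

lemma rs_zero {F : Sh X} {n : ℕ} {U' U : Set N} (h : U' ⊆ U) (hU' : IsOpen U') :
    rs hpl h hU' (0 : Ext.{w} (qk hpl U) F n) = 0 := Ext.comp_zero _ _ _ _ _

lemma rs_add {F : Sh X} {n : ℕ} {U' U : Set N} (h : U' ⊆ U) (hU' : IsOpen U')
    (a b : Ext.{w} (qk hpl U) F n) : rs hpl h hU' (a + b) = rs hpl h hU' a + rs hpl h hU' b :=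
  Ext.comp_add _ _ _ _

lemma rs_sub {F : Sh X} {n : ℕ} {U' U : Set N} (h : U' ⊆ U) (hU' : IsOpen U')
    (a b : Ext.{w} (qk hpl U) F n) : rs hpl h hU' (a - b) = rs hpl h hU' a - rs hpl h hU' b := by
  have := rs_add hpl h hU' (a - b) b
  rw [sub_add_cancel] at this
  rw [this, add_sub_cancel_right]

lemma rs_self {F : Sh X} {n : ℕ} {U : Set N} (h : U ⊆ U) (hU : IsOpen U)
    (e : Ext.{w} (qk hpl U) F n) : rs hpl h hU e = e := by
  unfold rs
  rw [qmor_self]
  exact Ext.mk₀_id_comp e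

/-- classes of positive degree are locally trivial -/
lemma qext_locally_zero {U : Set N} (hU : IsOpen U) {F : Sh X} {n : ℕ}
    (e : Ext.{w} (qk hpl U) F (n + 1)) (x : N) (hx : x ∈ U) :
    ∃ (U' : Set N) (hU' : IsOpen U') (h : U' ⊆ U), x ∈ U' ∧ rs hpl h hU' e = 0 := by
  classical
  induction n generalizing F with
  | zero =>
    obtain ⟨S, hS, rfl, e', he'⟩ := exists_eq_comp_extClass e
    dsimp at he'
    subst he'
    obtain ⟨f, rfl⟩ := (Ext.mk₀_bijective _ _).2 e'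
    have hepi := hS.epi_g
    have hls := (TopCat.Sheaf.isLocallySurjective_iff_epi (X := TopCat.of X) S.g).2 hepi
    rw [TopCat.Presheaf.isLocallySurjective_iff] at hls
    obtain ⟨ep, O, -, hxO, b, hep, hOt, hOG, hpe, hex, hb⟩ :=
      exists_basic hpl hU hx isOpen_univ (Set.mem_univ x) ⊤ trivial
    obtain ⟨W, hWO, ⟨t, ht⟩, hW⟩ := hls O (app f O b) (p x) hxO
    have ht' : app S.g W t = res _ hWO (app f O b) := ht
    let U' : Set N := ep.source ∩ p ⁻¹' W
    have hU' : IsOpen U' := ep.open_source.inter (W.isOpen.preimage hpl.continuous)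
    have hsym : ∀ n ∈ U', ep.symm (p n) = n := by
      intro n hn
      have h4 : ep.symm (ep n) = n := ep.left_inv hn.1
      rwa [hep] at h4
    have hU'U : U' ⊆ U := by
      intro n hn
      have := (hOG (p n) (hWO hn.2)).2
      rwa [hsym n hn] at this
    have hxU' : x ∈ U' := by
      refine ⟨?_, hW⟩
      rw [← hex]
      exact ep.map_target (hOt hxO)
    obtain ⟨k, hk⟩ := exists_qk_hom hpl hU' (F := S.X₂)
      (fun y _ => if h : y ∈ W then germ S.X₂ y h t else 0)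
      (fun n hn => ⟨W, hn.2, t, Filter.Eventually.of_forall (fun n' h' => dif_pos h')⟩)
    refine ⟨U', hU', hU'U, hxU', ?_⟩
    have h1 : qmor hpl.continuous (LCo hU'U hU') ≫ f = k ≫ S.g := by
      apply qk_hom_ext hpl hU'
      intro n hn
      rw [stk_comp, stk_comp, stk_qmor_dl hpl hU hU' hU'U n rfl hn, hk (p n) n rfl hn, dif_pos (show p n ∈ W from hn.2), stk_germ, ht',
        germ_res, ← stk_germ]
      congr 1
      have h5 := hsym n hn
      have h6 := hb (p n) (hWO hn.2) (hpe _ (hWO hn.2)) (hOG _ (hWO hn.2)).2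
      rw [h6]
      congr 1
      exact h5.symm
    have h2 : rs hpl hU'U hU' ((Ext.mk₀ f).comp hS.extClass rfl) =
        (Ext.mk₀ (qmor hpl.continuous (LCo hU'U hU') ≫ f)).comp hS.extClass (zero_add 1) :=
      Ext.mk₀_comp_mk₀_assoc _ _ _
    have h3 : (Ext.mk₀ k).comp ((Ext.mk₀ S.g).comp hS.extClass (zero_add 1))
        (zero_add 1) = (Ext.mk₀ (k ≫ S.g)).comp hS.extClass (zero_add 1) :=
      Ext.mk₀_comp_mk₀_assoc _ _ _
    rw [h2, h1, ← h3, ShortComplex.ShortExact.comp_extClass, Ext.comp_zero]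
  | succ n hn =>
    obtain ⟨S, hS, rfl, e', he'⟩ := exists_eq_comp_extClass e
    dsimp at he'
    subst he'
    obtain ⟨U', hU', h, hy', h0⟩ := hn e'
    refine ⟨U', hU', h, hy', ?_⟩
    have h2 : (rs hpl h hU' e').comp hS.extClass rfl =
        rs hpl h hU' (e'.comp hS.extClass rfl) := Ext.comp_assoc _ _ _ _ _ (by lia)
    rw [← h2, h0, Ext.zero_comp]

/-- `e` vanishes near `B`. -/
def ZeroNear {F : Sh X} {n : ℕ} {U : Set N} (e : Ext.{w} (qk hpl U) F n) (B : Set N) : Prop :=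
  ∃ (U' : Set N) (hU' : IsOpen U') (h : U' ⊆ U), B ⊆ U' ∧ rs hpl h hU' e = 0

/-- Every class of degree `n` defined near `B` agrees near `B` with a global class. -/
def ExtendsNear (F : Sh X) (n : ℕ) (B : Set N) : Prop :=
  ∀ (W : Set N) (hW : IsOpen W) (hBW : B ⊆ W) (γ : Ext.{w} (qk hpl W) F n),
    ∃ (W' : Set N) (hW' : IsOpen W') (h : W' ⊆ W), B ⊆ W' ∧
      ∃ γ' : Ext.{w} (qk hpl (Set.univ : Set N)) F n,
        rs hpl (Set.subset_univ W') hW' γ' = rs hpl h hW' γ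

/-- Gluing. -/
lemma ZeroNear.glue {F : Sh X} {n : ℕ} {U : Set N} (hU : IsOpen U)
    (e : Ext.{w} (qk hpl U) F (n + 1)) {B₁ B₂ : Set N} (hB₁ : IsCompact B₁) (hB₂ : IsCompact B₂)
    (h₁ : ZeroNear hpl e B₁) (h₂ : ZeroNear hpl e B₂)
    (hE : ExtendsNear.{w} hpl F n (B₁ ∩ B₂)) : ZeroNear hpl e (B₁ ∪ B₂) := by
  obtain ⟨U₁, hU₁, hU₁U, hBU₁, e₁⟩ := h₁
  obtain ⟨U₂, hU₂, hU₂U, hBU₂, e₂⟩ := h₂
  let Y : Set N := U₁ ∪ U₂
  have hY : IsOpen Y := hU₁.union hU₂
  have hYU : Y ⊆ U := Set.union_subset hU₁U hU₂U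
  let R : Set N := U₂ \ U₁
  -- first sequence
  have lc1 : LC U₁ Y := LCo Set.subset_union_left hU₁
  have lc2 : LC Y R := LC_of_closed (fun z hz => Or.inr hz.1) ⟨U₁ᶜ, hU₁.isClosed_compl, by
    ext z; simp [Y, R]; tauto⟩
  have ses1 := QS_shortExact (V := ℂ) hpl (P := Y) (Q := U₁) (R := R) hY.isLocallyClosed U₁ᶜ
    hU₁.isClosed_compl (by ext z; simp [Y]) (by ext z; simp [Y, R]; tauto) lc1 lc2
  have f1 : (Ext.mk₀ (qmor (V := ℂ) hpl.continuous lc1)).comp (rs hpl hYU hY e)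
      (zero_add (n + 1)) = 0 := by
    have h3 := rs_rs hpl hYU hY Set.subset_union_left hU₁ e
    exact h3.trans e₁
  obtain ⟨ε, hε⟩ := Ext.contravariant_sequence_exact₂ ses1 F (rs hpl hYU hY e) f1
  -- second sequence
  have lc3 : LC (U₁ ∩ U₂) U₂ := LCo Set.inter_subset_right (hU₁.inter hU₂)
  have lc4 : LC U₂ R := LC_of_closed (fun z hz => hz.1) ⟨U₁ᶜ, hU₁.isClosed_compl, by
    ext z; simp [R]⟩
  have ses2 := QS_shortExact (V := ℂ) hpl (P := U₂) (Q := U₁ ∩ U₂) (R := R)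
    hU₂.isLocallyClosed U₁ᶜ hU₁.isClosed_compl (by ext z; simp; tauto) (by ext z; simp [R])
    lc3 lc4
  have f2 : (Ext.mk₀ (qmor (V := ℂ) hpl.continuous lc4)).comp ε (zero_add (n + 1)) = 0 := by
    have h3 := rs_rs hpl hYU hY Set.subset_union_right hU₂ e
    rw [e₂] at h3
    rw [← h3, ← hε]
    unfold rs
    rw [Ext.mk₀_comp_mk₀_assoc, qmor_comp_qmor]
    exact fun z hz => Or.inr hz.1
  obtain ⟨γ, hγ⟩ := Ext.contravariant_sequence_exact₃ ses2 F ε f2 (add_comm 1 n)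
  -- correction
  obtain ⟨W, hW, hWU, hBW, γ', hγ'⟩ := hE (U₁ ∩ U₂) (hU₁.inter hU₂)
    (fun z hz => ⟨hBU₁ hz.1, hBU₂ hz.2⟩) γ
  let δ : Ext.{w} (qk hpl (U₁ ∩ U₂)) F n :=
    γ - rs hpl (Set.subset_univ _) (hU₁.inter hU₂) γ'
  have hδW : rs hpl hWU hW δ = 0 := by
    rw [rs_sub, rs_rs, hγ', sub_self]
  have hδ : (ses2.extClass : Ext.{w} _ _ 1).comp δ (add_comm 1 n) = ε := by
    have h3 : rs hpl (Set.subset_univ _) (hU₁.inter hU₂) γ' =
        (Ext.mk₀ (qmor (V := ℂ) hpl.continuous lc3)).comp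
          (rs hpl (Set.subset_univ _) hU₂ γ') (zero_add n) :=
      (rs_rs hpl (Set.subset_univ _) hU₂ Set.inter_subset_right (hU₁.inter hU₂) γ').symm
    have h4 : (ses2.extClass : Ext.{w} _ _ 1).comp
        (rs hpl (Set.subset_univ _) (hU₁.inter hU₂) γ') (add_comm 1 n) = 0 := by
      rw [h3]
      have h5 : ((ses2.extClass : Ext.{w} _ _ 1).comp
          (Ext.mk₀ (qmor (V := ℂ) hpl.continuous lc3)) (add_zero 1)).comp
          (rs hpl (Set.subset_univ _) hU₂ γ') (add_comm 1 n) =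
          (ses2.extClass : Ext.{w} _ _ 1).comp ((Ext.mk₀ (qmor (V := ℂ) hpl.continuous lc3)).comp
          (rs hpl (Set.subset_univ _) hU₂ γ') (zero_add n)) (add_comm 1 n) :=
        Ext.comp_assoc _ _ _ _ _ (by lia)
      rw [← h5]
      have h6 : (ses2.extClass : Ext.{w} _ _ 1).comp
          (Ext.mk₀ (qmor (V := ℂ) hpl.continuous lc3)) (add_zero 1) = 0 := ses2.extClass_comp
      rw [h6, Ext.zero_comp]
    have h7 : (ses2.extClass : Ext.{w} _ _ 1).comp
        (δ + rs hpl (Set.subset_univ _) (hU₁.inter hU₂) γ') (add_comm 1 n) =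
        (ses2.extClass : Ext.{w} _ _ 1).comp δ (add_comm 1 n) +
        (ses2.extClass : Ext.{w} _ _ 1).comp
          (rs hpl (Set.subset_univ _) (hU₁.inter hU₂) γ') (add_comm 1 n) :=
      Ext.comp_add _ _ _ _
    have h8 : δ + rs hpl (Set.subset_univ _) (hU₁.inter hU₂) γ' = γ := sub_add_cancel _ _
    rw [h4, add_zero, h8] at h7
    rw [← h7, hγ]
  -- shrinking
  have hdisj : Disjoint (B₁ \ W) (B₂ \ W) := by
    rw [Set.disjoint_left]
    rintro z ⟨h1, h2⟩ ⟨h3, _⟩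
    exact h2 (hBW ⟨h1, h3⟩)
  obtain ⟨O₁, O₂, hO₁, hO₂, hBO₁, hBO₂, hO⟩ :=
    SeparatedNhds.of_isCompact_isCompact (hB₁.diff hW) (hB₂.diff hW) hdisj
  let U₁' : Set N := (O₁ ∪ W) ∩ U₁
  let U₂' : Set N := (O₂ ∪ W) ∩ U₂
  have hU₁' : IsOpen U₁' := (hO₁.union hW).inter hU₁
  have hU₂' : IsOpen U₂' := (hO₂.union hW).inter hU₂
  have hU₁'U : U₁' ⊆ U₁ := Set.inter_subset_right
  have hU₂'U : U₂' ⊆ U₂ := Set.inter_subset_right
  have hcap : U₁' ∩ U₂' ⊆ W := by
    rintro z ⟨⟨h1, _⟩, ⟨h2, _⟩⟩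
    rcases h1 with h1 | h1
    · rcases h2 with h2 | h2
      · exact absurd h2 (Set.disjoint_left.1 hO h1)
      · exact h2
    · exact h1
  let U' : Set N := U₁' ∪ U₂'
  have hU' : IsOpen U' := hU₁'.union hU₂'
  have hU'Y : U' ⊆ Y := Set.union_subset_union hU₁'U hU₂'U
  let P' : Set N := U₂' \ U₁'
  have lc5 : LC (U₁' ∩ U₂') U₂' := LCo Set.inter_subset_right (hU₁'.inter hU₂')
  have lc6 : LC U₂' P' := LC_of_closed (fun z hz => hz.1) ⟨U₁'ᶜ, hU₁'.isClosed_compl, by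
    ext z; simp [P']⟩
  have ses3 := QS_shortExact (V := ℂ) hpl (P := U₂') (Q := U₁' ∩ U₂') (R := P')
    hU₂'.isLocallyClosed U₁'ᶜ hU₁'.isClosed_compl (by ext z; simp; tauto) (by ext z; simp [P'])
    lc5 lc6
  have lc7 : LC U' P' := LC_of_closed (fun z hz => Or.inr hz.1) ⟨U₁'ᶜ, hU₁'.isClosed_compl, by
    ext z; simp only [P', U', Set.mem_sdiff, Set.mem_inter_iff, Set.mem_union, Set.mem_compl_iff]
    tauto⟩
  have lc8 : LC P' R := by
    refine ⟨⟨U₁ᶜ, hU₁.isClosed_compl, ?_⟩, ⟨U₂', hU₂', ?_⟩⟩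
    · ext z
      simp only [P', R, Set.mem_inter_iff, Set.mem_sdiff, Set.mem_compl_iff]
      have := @hU₂'U z
      tauto
    · ext z
      simp only [P', R, Set.mem_inter_iff, Set.mem_sdiff]
      have := @hU₁'U z
      tauto
  have lc9 : LC (U₁' ∩ U₂') (U₁ ∩ U₂) :=
    LCo (Set.inter_subset_inter hU₁'U hU₂'U) (hU₁'.inter hU₂')
  have lc10 : LC U₂' U₂ := LCo hU₂'U hU₂'
  refine ⟨U', hU', hU'Y.trans hYU, ?_, ?_⟩
  · rintro z (hz | hz)
    · left
      refine ⟨?_, hBU₁ hz⟩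
      by_cases hzW : z ∈ W
      · exact Or.inr hzW
      · exact Or.inl (hBO₁ ⟨hz, hzW⟩)
    · right
      refine ⟨?_, hBU₂ hz⟩
      by_cases hzW : z ∈ W
      · exact Or.inr hzW
      · exact Or.inl (hBO₂ ⟨hz, hzW⟩)
  · rw [← rs_rs hpl hYU hY hU'Y hU', ← hε]
    have lc11 : LC U' Y := LCo hU'Y hU'
    have lc12 : LC U' R := by
      refine ⟨⟨U₁ᶜ, hU₁.isClosed_compl, ?_⟩, ⟨U₂', hU₂', ?_⟩⟩
      · ext z
        simp only [U', R, Set.mem_inter_iff, Set.mem_sdiff, Set.mem_compl_iff, Set.mem_union]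
        have := @hU₂'U z
        have := @hU₁'U z
        tauto
      · ext z
        simp only [U', R, Set.mem_inter_iff, Set.mem_sdiff, Set.mem_union]
        have := @hU₁'U z
        tauto
    have h8 : rs hpl hU'Y hU' ((Ext.mk₀ (qmor (V := ℂ) hpl.continuous lc2)).comp ε
        (zero_add (n + 1))) = (Ext.mk₀ (qmor (V := ℂ) hpl.continuous lc7)).comp
          ((Ext.mk₀ (qmor (V := ℂ) hpl.continuous lc8)).comp ε (zero_add (n + 1)))
          (zero_add (n + 1)) := by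
      unfold rs
      rw [Ext.mk₀_comp_mk₀_assoc, Ext.mk₀_comp_mk₀_assoc, qmor_comp_qmor (h'' := lc12),
        qmor_comp_qmor (h'' := lc12)]
      · rintro z ⟨h1, h2⟩
        rcases h1 with h1 | h1
        · exact absurd (hU₁'U h1) h2.2
        · exact ⟨h1, fun h => h2.2 (hU₁'U h)⟩
      · exact fun z hz => hU'Y hz.1
    rw [h8, ← hδ]
    -- naturality
    let τ : ShortComplex.mk (qmor (V := ℂ) hpl.continuous lc5) (qmor hpl.continuous lc6)
        (qmor_comp_qmor_zero _ _ _ (by ext z; simp [P']; tauto)) ⟶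
      ShortComplex.mk (qmor (V := ℂ) hpl.continuous lc3) (qmor hpl.continuous lc4)
        (qmor_comp_qmor_zero _ _ _ (by ext z; simp [R]; tauto)) :=
      { τ₁ := qmor hpl.continuous lc9
        τ₂ := qmor hpl.continuous lc10
        τ₃ := qmor hpl.continuous lc8
        comm₁₂ := by
          have lc13 : LC (U₁' ∩ U₂') U₂ :=
            LCo (Set.inter_subset_right.trans hU₂'U) (hU₁'.inter hU₂')
          change qmor (V := ℂ) hpl.continuous lc9 ≫ qmor hpl.continuous lc3 =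
            qmor hpl.continuous lc5 ≫ qmor hpl.continuous lc10
          rw [qmor_comp_qmor (h'' := lc13), qmor_comp_qmor (h'' := lc13)]
          · exact fun z hz => hz.1.2
          · exact fun z hz => ⟨hU₁'U hz.1.1, hz.2⟩
        comm₂₃ := by
          have lc14 : LC U₂' R := by
            refine ⟨⟨U₁ᶜ, hU₁.isClosed_compl, ?_⟩, ⟨U₂', hU₂', ?_⟩⟩
            · ext z
              simp only [R, Set.mem_inter_iff, Set.mem_sdiff, Set.mem_compl_iff]
              have := @hU₂'U z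
              tauto
            · ext z
              simp only [R, Set.mem_inter_iff, Set.mem_sdiff]
              tauto
          change qmor (V := ℂ) hpl.continuous lc10 ≫ qmor hpl.continuous lc4 =
            qmor hpl.continuous lc6 ≫ qmor hpl.continuous lc8
          rw [qmor_comp_qmor (h'' := lc14), qmor_comp_qmor (h'' := lc14)]
          · rintro z ⟨h1, h2⟩
            exact ⟨h1, fun h => h2.2 (hU₁'U h)⟩
          · exact fun z hz => hz.2.1 }
    have nat : (ses3.extClass : Ext.{w} _ _ 1).comp (Ext.mk₀ (qmor (V := ℂ) hpl.continuous lc9))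
        (add_zero 1) = (Ext.mk₀ (qmor (V := ℂ) hpl.continuous lc8)).comp
          (ses2.extClass : Ext.{w} _ _ 1) (zero_add 1) :=
      ShortComplex.ShortExact.extClass_naturality ses3 ses2 τ
    have h9 : (Ext.mk₀ (qmor (V := ℂ) hpl.continuous lc8)).comp
        ((ses2.extClass : Ext.{w} _ _ 1).comp δ (add_comm 1 n)) (zero_add (n + 1)) = 0 := by
      have h10 : ((Ext.mk₀ (qmor (V := ℂ) hpl.continuous lc8)).comp
          (ses2.extClass : Ext.{w} _ _ 1) (zero_add 1)).comp δ (add_comm 1 n) =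
          (Ext.mk₀ (qmor (V := ℂ) hpl.continuous lc8)).comp
        ((ses2.extClass : Ext.{w} _ _ 1).comp δ (add_comm 1 n)) (zero_add (n + 1)) :=
        Ext.comp_assoc _ _ _ _ _ (by lia)
      rw [← h10, ← nat]
      have h11 : ((ses3.extClass : Ext.{w} _ _ 1).comp
          (Ext.mk₀ (qmor (V := ℂ) hpl.continuous lc9)) (add_zero 1)).comp δ (add_comm 1 n) =
          (ses3.extClass : Ext.{w} _ _ 1).comp
          ((Ext.mk₀ (qmor (V := ℂ) hpl.continuous lc9)).comp δ (zero_add n)) (add_comm 1 n) :=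
        Ext.comp_assoc _ _ _ _ _ (by lia)
      rw [h11]
      have h12 : (Ext.mk₀ (qmor (V := ℂ) hpl.continuous lc9)).comp δ (zero_add n) = 0 := by
        have h13 := rs_rs hpl hWU hW hcap (hU₁'.inter hU₂') δ
        rw [hδW, rs_zero] at h13
        exact h13.symm
      rw [h12, Ext.comp_zero]
    rw [h9, Ext.comp_zero]

end

end WS
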