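import Pool.Agent.helper18.WS.PShriek

open CategoryTheory TopologicalSpace Topology Limits Opposite

set_option backward.isDefEq.respectTransparency false
set_option backward.isDefEq.respectTransparency.types false
set_option linter.unusedVariables false
set_option linter.unusedSectionVars false

universe w

namespace WS

noncomputable section

variable {X : Type} [TopologicalSpace X] {N : Type} [TopologicalSpace N]
  {V : Type} [AddCommGroup V] [Module ℂ V]

/-- The condition defining `p_! V_S`: locally at the points of the fibre `f` is a section of `V_S`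
and near the fibre over `y`, the support of `f` is close to a finite subset of the fibre. -/
def QC (V : Type) [AddCommGroup V] [Module ℂ V] (p : N → X) (S : Set N) (y : X) :
    Submodule ℂ (N → V) where
  carrier := {f | (∀ n, p n = y → f ∈ (KP V S).C n) ∧ ∃ T : Finset N, (∀ t ∈ T, p t = y) ∧
    ∀ G : Set N, IsOpen G → (T : Set N) ⊆ G → ∀ᶠ y' in 𝓝 y, ∀ n, p n = y' → f n ≠ 0 → n ∈ G}
  add_mem' := by
    classical
    rintro f g ⟨hf, T, hT, hTG⟩ ⟨hg, T', hT', hTG'⟩
    refine ⟨fun n hn => ((KP V S).C n).add_mem (hf n hn) (hg n hn), T ∪ T', ?_, ?_⟩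
    · intro t ht
      rcases Finset.mem_union.1 ht with h | h
      · exact hT t h
      · exact hT' t h
    · intro G hG hTTG
      have h1 : (T : Set N) ⊆ G := fun t ht => hTTG (by simp; exact Or.inl ht)
      have h2 : (T' : Set N) ⊆ G := fun t ht => hTTG (by simp; exact Or.inr ht)
      filter_upwards [hTG G hG h1, hTG' G hG h2] with y' h3 h4 n hn hne
      by_cases h : f n = 0
      · apply h4 n hn
        intro h'
        exact hne (by rw [Pi.add_apply, h, h', add_zero])
      · exact h3 n hn h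
  zero_mem' := by
    refine ⟨fun n _ => ((KP V S).C n).zero_mem, ∅, by simp, fun G _ _ => ?_⟩
    exact Filter.Eventually.of_forall (fun y' n _ hne => absurd rfl hne)
  smul_mem' := by
    rintro c f ⟨hf, T, hT, hTG⟩
    refine ⟨fun n hn => ((KP V S).C n).smul_mem c (hf n hn), T, hT, fun G hG h => ?_⟩
    filter_upwards [hTG G hG h] with y' h3 n hn hne
    apply h3 n hn
    intro h'
    exact hne (by rw [Pi.smul_apply, h', smul_zero])

/-- The sheaf `p_! V_S` on `X` for a local homeomorphism `p : N → X` and `S ⊆ N` locally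
closed. -/
def QS (V : Type) [AddCommGroup V] [Module ℂ V] (p : N → X) (hp : Continuous p) (S : Set N) :
    FS X N V where
  p := p
  C := QC V p S
  loc := by
    rintro y U hy f g hfg ⟨hf, T, hT, hTG⟩
    refine ⟨fun n hn => ?_, T, hT, fun G hG h => ?_⟩
    · have hnU : p n ∈ U := hn ▸ hy
      exact (KP V S).loc n ⟨p ⁻¹' U, U.isOpen.preimage hp⟩ hnU f g (fun n' hn' => hfg n' hn')
        (hf n hn)
    · filter_upwards [hTG G hG h, U.isOpen.mem_nhds hy] with y' h3 h4 n hn hne
      apply h3 n hn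
      rwa [hfg n (hn ▸ h4)]

section

variable {p : N → X} (hp : Continuous p)

lemma QS_mem {S : Set N} {y : X} {f : N → V} : f ∈ (QS V p hp S).C y ↔
    (∀ n, p n = y → f ∈ (KP V S).C n) ∧ ∃ T : Finset N, (∀ t ∈ T, p t = y) ∧
    ∀ G : Set N, IsOpen G → (T : Set N) ⊆ G →
      ∀ᶠ y' in 𝓝 y, ∀ n, p n = y' → f n ≠ 0 → n ∈ G := Iff.rfl

lemma QS_not_mem {S : Set N} {U : Opens X} (s : Sec (QS V p hp S).sh U) {n : N} (hn : n ∉ S) :
    (QS V p hp S).val s n = 0 := by
  by_cases hU : p n ∈ U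
  · exact KP_C_not_mem (((QS_mem hp).1 (((QS V p hp S).val_mem s).2 (p n) hU)).1 n rfl) hn
  · exact ((QS V p hp S).val_mem s).1 n hU

lemma QS_near {S : Set N} {U : Opens X} (s : Sec (QS V p hp S).sh U) {n : N} (hU : p n ∈ U) :
    ∀ᶠ n' in 𝓝 n, (QS V p hp S).val s n' = S.indicator (fun _ => (QS V p hp S).val s n) n' :=
  KP_mem_C.1 (((QS_mem hp).1 (((QS V p hp S).val_mem s).2 (p n) hU)).1 n rfl)

lemma QS_supp {S : Set N} {U : Opens X} (s : Sec (QS V p hp S).sh U) {y : X} (hU : y ∈ U) :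
    ∃ T : Finset N, (∀ t ∈ T, p t = y) ∧ ∀ G : Set N, IsOpen G → (T : Set N) ⊆ G →
      ∀ᶠ y' in 𝓝 y, ∀ n, p n = y' → (QS V p hp S).val s n ≠ 0 → n ∈ G :=
  ((QS_mem hp).1 (((QS V p hp S).val_mem s).2 y hU)).2

/-- two germs are equal if and only if the sections are equal on the fibre. -/
lemma QS_germ_eq {S : Set N} {y : X} {U₁ U₂ : Opens X} (h₁ : y ∈ U₁) (h₂ : y ∈ U₂)
    (s : Sec (QS V p hp S).sh U₁) (t : Sec (QS V p hp S).sh U₂) :
    germ (QS V p hp S).sh y h₁ s = germ (QS V p hp S).sh y h₂ t ↔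
      ∀ n, p n = y → (QS V p hp S).val s n = (QS V p hp S).val t n := by
  classical
  constructor
  · intro h n hn
    rw [FS.germ_eq_iff] at h
    obtain ⟨O, hO, h⟩ := h
    exact h n (by change p n ∈ O; rw [hn]; exact hO)
  · intro h
    obtain ⟨T, hT, hTG⟩ := QS_supp hp s h₁
    obtain ⟨T', hT', hTG'⟩ := QS_supp hp t h₂
    have h3 : ∀ n, p n = y → ∀ᶠ n' in 𝓝 n, (QS V p hp S).val s n' = (QS V p hp S).val t n' := by
      intro n hn
      have h4 := QS_near hp s (n := n) (hn ▸ h₁)
      have h5 := QS_near hp t (n := n) (hn ▸ h₂)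
      filter_upwards [h4, h5] with n' h6 h7
      rw [h6, h7, h n hn]
    let G : Set N := {n | ∀ᶠ n' in 𝓝 n, (QS V p hp S).val s n' = (QS V p hp S).val t n'}
    have hG : IsOpen G := by
      rw [isOpen_iff_mem_nhds]
      intro n hn
      exact eventually_eventually_nhds.2 hn
    have h6 := hTG G hG (fun n hn => h3 n (hT n hn))
    have h7 := hTG' G hG (fun n hn => h3 n (hT' n hn))
    obtain ⟨O, hO, hOo, hyO⟩ := eventually_nhds_iff.1 (h6.and h7)
    rw [FS.germ_eq_iff]
    refine ⟨⟨O, hOo⟩, hyO, fun n hn => ?_⟩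
    have h8 := hO (p n) hn
    by_cases hs : (QS V p hp S).val s n = 0
    · by_cases ht : (QS V p hp S).val t n = 0
      · rw [hs, ht]
      · exact (h8.2 n rfl ht).self_of_nhds
    · exact (h8.1 n rfl hs).self_of_nhds

end

lemma KP_mulInd_mem {P Q : Set N} (h : LC P Q) {y : N} {f : N → V} (hf : f ∈ (KP V P).C y) :
    mulInd V Q f ∈ (KP V Q).C y := by
  have hf' := KP_mem_C.1 hf
  rw [KP_mem_C]
  obtain ⟨⟨C, hC, hPC⟩, ⟨O, hO, hQO⟩⟩ := h
  by_cases hP : y ∈ P
  · by_cases hQ : y ∈ Q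
    · have hyO : y ∈ O := (hQO ▸ (⟨hP, hQ⟩ : y ∈ P ∩ Q) : y ∈ Q ∩ O).2
      filter_upwards [hf', hO.mem_nhds hyO] with z h1 h2
      rw [mulInd_apply, mulInd_apply, Set.indicator_of_mem hQ f]
      by_cases hz : z ∈ Q
      · have : z ∈ P ∩ Q := hQO ▸ ⟨hz, h2⟩
        rw [Set.indicator_of_mem hz, Set.indicator_of_mem hz, h1, Set.indicator_of_mem this.1]
      · rw [Set.indicator_of_notMem hz, Set.indicator_of_notMem hz]
    · have hyC : y ∉ C := fun hyC => hQ (hPC ▸ (⟨hP, hyC⟩ : y ∈ P ∩ C) : y ∈ P ∩ Q).2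
      filter_upwards [hf', hC.isOpen_compl.mem_nhds hyC] with z h1 h2
      rw [mulInd_apply, mulInd_apply, Set.indicator_of_notMem hQ f]
      by_cases hz : z ∈ Q
      · have : z ∉ P := fun hzP => h2 (hPC ▸ (⟨hzP, hz⟩ : z ∈ P ∩ Q) : z ∈ P ∩ C).2
        rw [Set.indicator_of_mem hz, Set.indicator_of_mem hz, h1, Set.indicator_of_notMem this]
      · rw [Set.indicator_of_notMem hz, Set.indicator_of_notMem hz]
  · have h0 := KP_C_not_mem hf hP
    filter_upwards [hf'] with z h1
    have h2 : f z = 0 := by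
      rw [h1, h0]
      simp
    have h3 : mulInd V Q f y = 0 := by
      rw [mulInd_apply]
      by_cases hQ : y ∈ Q
      · rw [Set.indicator_of_mem hQ, h0]
      · rw [Set.indicator_of_notMem hQ]
    rw [h3, mulInd_apply]
    by_cases hz : z ∈ Q
    · rw [Set.indicator_of_mem hz, Set.indicator_of_mem hz, h2]
    · rw [Set.indicator_of_notMem hz, Set.indicator_of_notMem hz]

section

variable {p : N → X} (hp : Continuous p)

/-- The canonical morphism `p_! V_P ⟶ p_! V_Q`. -/
def qmor {P Q : Set N} (h : LC P Q) : (QS V p hp P).sh ⟶ (QS V p hp Q).sh :=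
  FS.hom (QS V p hp P) (QS V p hp Q) (mulInd V Q)
    (by
      intro U f
      funext z
      by_cases hz : p z ∈ U
      · rw [FS.cut_apply_mem (p := (QS V p hp Q).p) _ hz, mulInd_apply, mulInd_apply]
        by_cases hQ : z ∈ Q
        · rw [Set.indicator_of_mem hQ, Set.indicator_of_mem hQ,
            FS.cut_apply_mem (p := (QS V p hp P).p) _ hz]
        · rw [Set.indicator_of_notMem hQ, Set.indicator_of_notMem hQ]
      · rw [FS.cut_apply_not_mem (p := (QS V p hp Q).p) _ hz, mulInd_apply]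
        by_cases hQ : z ∈ Q
        · rw [Set.indicator_of_mem hQ, FS.cut_apply_not_mem (p := (QS V p hp P).p) _ hz]
        · rw [Set.indicator_of_notMem hQ])
    (by
      rintro y f ⟨hf, T, hT, hTG⟩
      refine ⟨fun n hn => KP_mulInd_mem h (hf n hn), T, hT, fun G hG h' => ?_⟩
      filter_upwards [hTG G hG h'] with y' h3 n hn hne
      apply h3 n hn
      intro h0
      apply hne
      rw [mulInd_apply]
      by_cases hz : n ∈ Q
      · rw [Set.indicator_of_mem hz, h0]
      · rw [Set.indicator_of_notMem hz])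

lemma val_qmor {P Q : Set N} (h : LC P Q) {U : Opens X} (s : Sec (QS V p hp P).sh U) :
    (QS V p hp Q).val (app (qmor hp h) U s) = Q.indicator ((QS V p hp P).val s) := rfl

lemma qmor_comp_qmor {P Q R : Set N} (h : LC P Q) (h' : LC Q R) (h'' : LC P R)
    (hPR : P ∩ R ⊆ Q) : qmor (V := V) hp h ≫ qmor hp h' = qmor hp h'' := by
  apply hom_ext_app
  intro U s
  apply (QS V p hp R).val_injective
  rw [app_comp, val_qmor, val_qmor, val_qmor]
  funext z
  by_cases hR : z ∈ R
  · rw [Set.indicator_of_mem hR, Set.indicator_of_mem hR]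
    by_cases hQ : z ∈ Q
    · rw [Set.indicator_of_mem hQ]
    · rw [Set.indicator_of_notMem hQ]
      by_cases hP : z ∈ P
      · exact absurd (hPR ⟨hP, hR⟩) hQ
      · rw [QS_not_mem hp s hP]
  · rw [Set.indicator_of_notMem hR, Set.indicator_of_notMem hR]

lemma qmor_comp_qmor_zero {P Q R : Set N} (h : LC P Q) (h' : LC Q R)
    (hPR : P ∩ Q ∩ R = ∅) : qmor (V := V) hp h ≫ qmor hp h' = 0 := by
  apply hom_ext_app
  intro U s
  apply (QS V p hp R).val_injective
  rw [app_comp, val_qmor, val_qmor, app_zero, map_zero]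
  funext z
  by_cases hR : z ∈ R
  · rw [Set.indicator_of_mem hR]
    by_cases hQ : z ∈ Q
    · rw [Set.indicator_of_mem hQ]
      by_cases hP : z ∈ P
      · exact absurd (show z ∈ P ∩ Q ∩ R from ⟨⟨hP, hQ⟩, hR⟩) (by rw [hPR]; simp)
      · rw [QS_not_mem hp s hP]; rfl
    · rw [Set.indicator_of_notMem hQ]; rfl
  · rw [Set.indicator_of_notMem hR]; rfl

lemma qmor_self {P : Set N} (h : LC P P) : qmor (V := V) hp h = 𝟙 _ := by
  apply hom_ext_app
  intro U s
  apply (QS V p hp P).val_injective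
  rw [app_id, val_qmor]
  funext z
  by_cases hP : z ∈ P
  · rw [Set.indicator_of_mem hP]
  · rw [Set.indicator_of_notMem hP, QS_not_mem hp s hP]

end

section

variable [T2Space N] {p : N → X} (hpl : IsLocalHomeomorph p)

include hpl in
/-- small sheets -/
lemma exists_sheet {n : N} {G : Set N} (hG : IsOpen G) (hn : n ∈ G) :
    ∃ e : OpenPartialHomeomorph N X, n ∈ e.source ∧ e.source ⊆ G ∧ ⇑e = p := by
  obtain ⟨e, he, hep⟩ := hpl n
  refine ⟨e.restrOpen G hG, ⟨he, hn⟩, fun z hz => hz.2, ?_⟩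
  rw [hep]
  rfl

include hpl in
/-- a sheet is closed over its image -/
lemma sheet_closed {e : OpenPartialHomeomorph N X} (he : ⇑e = p) {n : N} (hn : n ∉ e.source)
    (hnt : p n ∈ e.target) : ∀ᶠ n' in 𝓝 n, n' ∉ e.source := by
  have hne : n ≠ e.symm (p n) := fun h => hn (h ▸ e.map_target hnt)
  obtain ⟨A, B, hA, hB, hnA, hnB, hAB⟩ := t2_separation hne
  have h1 : ∀ᶠ n' in 𝓝 n, e.symm (p n') ∈ B :=
    ((e.symm.continuousAt hnt).comp hpl.continuous.continuousAt).eventually (hB.mem_nhds hnB)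
  filter_upwards [hA.mem_nhds hnA, h1] with n' h2 h3 h4
  have h5 : e.symm (p n') = n' := by rw [← he]; exact e.left_inv h4
  rw [h5] at h3
  exact Set.disjoint_left.1 hAB h2 h3

open Classical in
/-- The section of `p_! V_S` over `O` given by a constant on a sheet. -/
lemma bs_mem {S : Set N} (e : OpenPartialHomeomorph N X) (he : ⇑e = p) {O : Opens X}
    (hO : (O : Set X) ⊆ e.target) (C : Set N) (hC : IsClosed C)
    (hS : S ∩ e.source = C ∩ e.source) (c : V) :
    (fun n => if p n ∈ O ∧ n ∈ e.source ∧ n ∈ S then c else 0) ∈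
      (QS V p hpl.continuous S).sec O := by
  refine ⟨fun n hn => if_neg (fun h => hn h.1), fun y hy => ⟨fun n hn => ?_, ?_⟩⟩
  · have hnO : p n ∈ O := hn ▸ hy
    have hO' : ∀ᶠ n' in 𝓝 n, p n' ∈ O :=
      hpl.continuous.continuousAt.eventually (O.isOpen.mem_nhds hnO)
    rw [KP_mem_C]
    by_cases h1 : n ∈ e.source
    · by_cases h2 : n ∈ S
      · filter_upwards [hO', e.open_source.mem_nhds h1] with n' h3 h4
        by_cases h5 : n' ∈ S
        · rw [Set.indicator_of_mem h5, if_pos ⟨h3, h4, h5⟩, if_pos ⟨hnO, h1, h2⟩]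
        · rw [Set.indicator_of_notMem h5, if_neg (fun h => h5 h.2.2)]
      · have h6 : n ∉ C := fun h => h2 ((hS ▸ (⟨h, h1⟩ : n ∈ C ∩ e.source) : n ∈ S ∩ e.source).1)
        filter_upwards [e.open_source.mem_nhds h1, hC.isOpen_compl.mem_nhds h6] with n' h4 h5
        have h7 : n' ∉ S := fun h => h5 ((hS ▸ (⟨h, h4⟩ : n' ∈ S ∩ e.source) :
          n' ∈ C ∩ e.source).1)
        rw [Set.indicator_of_notMem h7, if_neg (fun h => h7 h.2.2)]
    · filter_upwards [sheet_closed hpl he h1 (hO hnO)] with n' h4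
      rw [if_neg (fun h => h4 h.2.1), if_neg (fun h => h1 h.2.1)]
      simp
  · refine ⟨{e.symm y}, ?_, fun G hG h => ?_⟩
    · intro t ht
      rw [Finset.mem_singleton] at ht
      rw [ht, ← he]
      exact e.right_inv (hO hy)
    · have h1 : e.symm y ∈ G := h (by simp)
      filter_upwards [(e.symm.continuousAt (hO hy)).eventually (hG.mem_nhds h1)] with y' h2 n hn hne
      have h3 : n ∈ e.source := by
        by_contra h3
        exact hne (if_neg (fun h => h3 h.2.1))
      have h4 : e.symm y' = n := by rw [← hn, ← he]; exact e.left_inv h3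
      rwa [h4] at h2

end

end

end WS
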