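import Pool.Agent.helper18.WS.QS

open CategoryTheory TopologicalSpace Topology Limits Opposite

set_option backward.isDefEq.respectTransparency false
set_option backward.isDefEq.respectTransparency.types false
set_option linter.unusedVariables false
set_option linter.unusedSectionVars false

universe w

namespace WS

noncomputable section

variable {X : Type} [TopologicalSpace X] {N : Type} [TopologicalSpace N] [T2Space N]
  {V : Type} [AddCommGroup V] [Module ℂ V] {p : N → X} (hpl : IsLocalHomeomorph p)

include hpl in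
/-- sections with one prescribed value -/
lemma exists_bs {S : Set N} (hS : IsLocallyClosed S) {n₀ : N} (hn₀ : n₀ ∈ S) (c : V) :
    ∃ (O : Opens X) (_ : p n₀ ∈ O) (s : Sec (QS V p hpl.continuous S).sh O),
      (QS V p hpl.continuous S).val s n₀ = c ∧
      ∀ n, p n = p n₀ → n ≠ n₀ → (QS V p hpl.continuous S).val s n = 0 := by
  classical
  obtain ⟨A, C, hA, hC, hAC⟩ := hS
  have hnA : n₀ ∈ A := by rw [hAC] at hn₀; exact hn₀.1
  obtain ⟨e, hne, heA, he⟩ := exists_sheet hpl hA hnA
  have h1 : p n₀ ∈ (⟨e.target, e.open_target⟩ : Opens X) := by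
    rw [← he]; exact e.map_source hne
  refine ⟨⟨e.target, e.open_target⟩, h1, (QS V p hpl.continuous S).mks _
    (bs_mem hpl e he (O := ⟨e.target, e.open_target⟩) (le_refl _) C hC ?_ c), ?_, ?_⟩
  · rw [hAC]
    ext z
    simp only [Set.mem_inter_iff]
    constructor
    · rintro ⟨⟨_, h2⟩, h3⟩
      exact ⟨h2, h3⟩
    · rintro ⟨h2, h3⟩
      exact ⟨⟨heA h3, h2⟩, h3⟩
  · rw [FS.val_mks]
    exact if_pos ⟨h1, hne, hn₀⟩
  · intro n hn hnn
    rw [FS.val_mks]
    refine if_neg (fun h => hnn ?_)
    apply e.injOn h.2.1 hne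
    rw [he, hn]

include hpl in
lemma exists_sec_fibre {S : Set N} (hS : IsLocallyClosed S) (y : X) (T : Finset N)
    (hT : ∀ t ∈ T, p t = y) (c : N → V) (hc : ∀ t, t ∉ S → c t = 0) :
    ∃ (O : Opens X) (_ : y ∈ O) (s : Sec (QS V p hpl.continuous S).sh O),
      (∀ n ∈ T, (QS V p hpl.continuous S).val s n = c n) ∧
      ∀ n, p n = y → n ∉ T → (QS V p hpl.continuous S).val s n = 0 := by
  classical
  induction T using Finset.induction_on with
  | empty => exact ⟨⊤, trivial, 0, by simp, fun n _ _ => by rw [map_zero]; rfl⟩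
  | insert t T ht ih =>
    obtain ⟨O, hyO, s, hs1, hs2⟩ := ih (fun t' ht' => hT t' (Finset.mem_insert_of_mem ht'))
    by_cases htS : t ∈ S
    · have hty : p t = y := hT t (Finset.mem_insert_self t T)
      subst hty
      obtain ⟨O', hyO', s', hs1', hs2'⟩ := exists_bs hpl hS htS (c t)
      have hle1 : O ⊓ O' ≤ O := inf_le_left
      have hle2 : O ⊓ O' ≤ O' := inf_le_right
      have hval : ∀ n, p n = p t → (QS V p hpl.continuous S).val (res _ hle1 s + res _ hle2 s') n =
          (QS V p hpl.continuous S).val s n + (QS V p hpl.continuous S).val s' n := by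
        intro n hn
        have hn' : (QS V p hpl.continuous S).p n ∈ O ⊓ O' := by
          change p n ∈ O ⊓ O'
          rw [hn]; exact ⟨hyO, hyO'⟩
        rw [map_add, Pi.add_apply, FS.val_res, FS.val_res, FS.cut_apply_mem _ hn',
          FS.cut_apply_mem _ hn']
      refine ⟨O ⊓ O', ⟨hyO, hyO'⟩, res _ hle1 s + res _ hle2 s', ?_, ?_⟩
      · intro n hn
        rcases Finset.mem_insert.1 hn with rfl | hn
        · rw [hval _ rfl, hs1', hs2 _ rfl ht, zero_add]
        · have hnt : n ≠ t := fun h => ht (h ▸ hn)
          have hnp := hT n (Finset.mem_insert_of_mem hn)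
          rw [hval n hnp, hs1 n hn, hs2' n hnp hnt, add_zero]
      · intro n hn hnT
        have h1 : n ≠ t := fun h => hnT (by simp [h])
        have h2 : n ∉ T := fun h => hnT (by simp [h])
        rw [hval n hn, hs2 n hn h2, hs2' n hn h1, add_zero]
    · refine ⟨O, hyO, s, ?_, fun n hn hnT => hs2 n hn (fun h => hnT (by simp [h]))⟩
      intro n hn
      rcases Finset.mem_insert.1 hn with rfl | hn
      · rw [hs2 _ (hT _ (Finset.mem_insert_self _ T)) ht, hc _ htS]
      · exact hs1 n hn

include hpl in
/-- The short exact sequence `0 → p_! V_{P \ C} → p_! V_P → p_! V_{P ∩ C} → 0`. -/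
lemma QS_shortExact {P Q R : Set N} (hP : IsLocallyClosed P) (C : Set N) (hC : IsClosed C)
    (hQ : Q = P \ C) (hR : R = P ∩ C) (h₁ : LC Q P) (h₂ : LC P R) :
    (ShortComplex.mk (qmor (V := V) hpl.continuous h₁) (qmor hpl.continuous h₂)
      (qmor_comp_qmor_zero _ _ _ (by
      subst hQ hR; ext z; simp; tauto))).ShortExact := by
  apply shortExact_mk
  · intro U s hs
    apply (QS V p hpl.continuous Q).val_injective
    have := congrArg (QS V p hpl.continuous P).val hs
    rw [val_qmor, map_zero] at this
    rw [map_zero]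
    funext z
    by_cases hz : z ∈ Q
    · have hzP : z ∈ P := by rw [hQ] at hz; exact hz.1
      have := congrFun this z
      rwa [Set.indicator_of_mem hzP] at this
    · exact QS_not_mem _ s hz
  · intro U s hs
    have hs' := congrArg (QS V p hpl.continuous R).val hs
    rw [val_qmor, map_zero] at hs'
    have hs'' : ∀ z ∈ R, (QS V p hpl.continuous P).val s z = 0 := by
      intro z hz
      have := congrFun hs' z
      rwa [Set.indicator_of_mem hz] at this
    have hs3 : ∀ z, z ∉ Q → (QS V p hpl.continuous P).val s z = 0 := by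
      intro z hz
      by_cases hzP : z ∈ P
      · apply hs''
        rw [hR]
        refine ⟨hzP, ?_⟩
        by_contra hC
        exact hz (by rw [hQ]; exact ⟨hzP, hC⟩)
      · exact QS_not_mem _ s hzP
    refine ⟨(QS V p hpl.continuous Q).mks ((QS V p hpl.continuous P).val s) ?_, ?_⟩
    · have hmem := (QS V p hpl.continuous P).val_mem s
      refine ⟨hmem.1, fun y hy => ⟨fun n hn => ?_, (hmem.2 y hy).2⟩⟩
      rw [KP_mem_C]
      have h3 := QS_near _ s (n := n) (hn ▸ hy)
      by_cases hyQ : n ∈ Q
      · have hyC : n ∉ C := by rw [hQ] at hyQ; exact hyQ.2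
        filter_upwards [h3, hC.isOpen_compl.mem_nhds hyC] with z hz hzC
        rw [hz]
        by_cases hzP : z ∈ P
        · have : z ∈ Q := by rw [hQ]; exact ⟨hzP, hzC⟩
          rw [Set.indicator_of_mem hzP, Set.indicator_of_mem this]
        · have : z ∉ Q := by rw [hQ]; exact fun h => hzP h.1
          rw [Set.indicator_of_notMem hzP, Set.indicator_of_notMem this]
      · rw [hs3 n hyQ] at h3 ⊢
        filter_upwards [h3] with z hz
        rw [hz]
        simp
    · apply (QS V p hpl.continuous P).val_injective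
      rw [val_qmor, FS.val_mks]
      funext z
      by_cases hz : z ∈ P
      · rw [Set.indicator_of_mem hz]
      · rw [Set.indicator_of_notMem hz, QS_not_mem _ s hz]
  · intro U s y hy
    obtain ⟨T, hT, hTG⟩ := QS_supp _ s hy
    have hRP : R ⊆ P := by rw [hR]; exact Set.inter_subset_left
    obtain ⟨O, hyO, t, ht1, ht2⟩ := exists_sec_fibre hpl hP y T hT
      ((QS V p hpl.continuous R).val s) (fun t ht => QS_not_mem _ s (fun h => ht (hRP h)))
    have hT2 : ∀ n, p n = y → n ∉ T → (QS V p hpl.continuous R).val s n = 0 := by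
      intro n hn hnT
      by_contra hne
      -- `n` would be in every open set containing `T`
      have h1 := hTG {n}ᶜ isOpen_compl_singleton (fun t ht h => hnT (by
        rw [Set.mem_singleton_iff] at h; exact h ▸ ht))
      exact (h1.self_of_nhds n hn hne) rfl
    have hgerm : germ (QS V p hpl.continuous R).sh y hyO (app (qmor hpl.continuous h₂) O t) =
        germ (QS V p hpl.continuous R).sh y hy s := by
      rw [QS_germ_eq]
      intro n hn
      rw [val_qmor]
      by_cases hnT : n ∈ T
      · by_cases hnR : n ∈ R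
        · rw [Set.indicator_of_mem hnR, ht1 n hnT]
        · rw [Set.indicator_of_notMem hnR, QS_not_mem _ s hnR]
      · by_cases hnR : n ∈ R
        · rw [Set.indicator_of_mem hnR, ht2 n hn hnT, hT2 n hn hnT]
        · rw [Set.indicator_of_notMem hnR, QS_not_mem _ s hnR]
    obtain ⟨W, hW, iO, iU, heq⟩ := WS.germ_eq _ y hyO hy _ _ hgerm
    exact ⟨W, hW, iU, res _ iO t, by rw [app_res]; exact heq⟩

end

end WS
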