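import Pool.Agent.helper18.WS.QS2

open CategoryTheory TopologicalSpace Topology Limits Opposite

set_option backward.isDefEq.respectTransparency false
set_option backward.isDefEq.respectTransparency.types false
set_option linter.unusedVariables false
set_option linter.unusedSectionVars false

universe w

namespace WS

noncomputable section

variable {X : Type} [TopologicalSpace X] {N : Type} [TopologicalSpace N] [T2Space N]
  {V : Type} [AddCommGroup V] [Module ℂ V] {p : N → X} (hpl : IsLocalHomeomorph p)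

include hpl in
lemma QS_fin {S : Set N} {y : X} {U : Opens X} (hy : y ∈ U) (s : Sec (QS V p hpl.continuous S).sh U) :
    ∃ T : Finset N, (∀ t ∈ T, p t = y) ∧
      ∀ n, p n = y → (QS V p hpl.continuous S).val s n ≠ 0 → n ∈ T := by
  obtain ⟨T, hT, hTG⟩ := QS_supp _ s hy
  refine ⟨T, hT, fun n hn hne => ?_⟩
  by_contra hnT
  have h1 := hTG {n}ᶜ isOpen_compl_singleton (fun t ht h => hnT (by
    rw [Set.mem_singleton_iff] at h; exact h ▸ ht))
  exact (h1.self_of_nhds n hn hne) rfl

include hpl in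
lemma QS_finsupp {S : Set N} {y : X} {U : Opens X} (hy : y ∈ U)
    (s : Sec (QS V p hpl.continuous S).sh U) :
    (Function.support (fun n : {n // p n = y} => (QS V p hpl.continuous S).val s n.1)).Finite := by
  obtain ⟨T, hT, h⟩ := QS_fin hpl hy s
  apply Set.Finite.of_finite_image (f := Subtype.val) (T.finite_toSet.subset ?_)
    Subtype.val_injective.injOn
  rintro _ ⟨n, hn, rfl⟩
  exact h n.1 n.2 hn

include hpl in
/-- The stalk of `p_! V_S` as functions on the fibre. -/
lemma exists_evF (V : Type) [AddCommGroup V] [Module ℂ V] (S : Set N) (y : X) :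
    ∃ φ : Stk (QS V p hpl.continuous S).sh y →ₗ[ℂ] ({n // p n = y} →₀ V),
      ∀ (U : Opens X) (hy : y ∈ U) (s : Sec (QS V p hpl.continuous S).sh U) (n : {n // p n = y}),
        φ (germ _ y hy s) n = (QS V p hpl.continuous S).val s n.1 := by
  have h := fun t => germ_surj (QS V p hpl.continuous S).sh y t
  choose U hU s hs using h
  have key : ∀ (W : Opens X) (hW : y ∈ W) (t : Sec (QS V p hpl.continuous S).sh W)
      (n : {n // p n = y}), (QS V p hpl.continuous S).val (s (germ _ y hW t)) n.1 =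
        (QS V p hpl.continuous S).val t n.1 := by
    intro W hW t n
    have := hs (germ _ y hW t)
    rw [QS_germ_eq] at this
    exact this n.1 n.2
  refine ⟨{ toFun := fun t => Finsupp.ofSupportFinite _ (QS_finsupp hpl (hU t) (s t))
            map_add' := ?_
            map_smul' := ?_ }, ?_⟩
  · intro a b
    ext n
    obtain ⟨U₁, h₁, a', rfl⟩ := germ_surj _ y a
    obtain ⟨U₂, h₂, b', rfl⟩ := germ_surj _ y b
    rw [Finsupp.add_apply]
    change (QS V p hpl.continuous S).val (s _) n.1 = (QS V p hpl.continuous S).val (s _) n.1 +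
      (QS V p hpl.continuous S).val (s _) n.1
    rw [← WS.germ_res _ (inf_le_left : U₁ ⊓ U₂ ≤ U₁) y ⟨h₁, h₂⟩,
      ← WS.germ_res _ (inf_le_right : U₁ ⊓ U₂ ≤ U₂) y ⟨h₁, h₂⟩, ← map_add,
      key, key, key, map_add]
    rfl
  · intro c a
    ext n
    obtain ⟨U₁, h₁, a', rfl⟩ := germ_surj _ y a
    rw [Finsupp.smul_apply]
    change (QS V p hpl.continuous S).val (s _) n.1 = c • (QS V p hpl.continuous S).val (s _) n.1
    rw [← map_smul, key, key, map_smul]
    rfl
  · intro W hW t n
    exact key W hW t n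

def evF (V : Type) [AddCommGroup V] [Module ℂ V] (S : Set N) (y : X) :
    Stk (QS V p hpl.continuous S).sh y →ₗ[ℂ] ({n // p n = y} →₀ V) :=
  (exists_evF hpl V S y).choose

lemma evF_germ {S : Set N} {y : X} {U : Opens X} (hy : y ∈ U)
    (s : Sec (QS V p hpl.continuous S).sh U) (n : {n // p n = y}) :
    evF hpl V S y (germ _ y hy s) n = (QS V p hpl.continuous S).val s n.1 :=
  (exists_evF hpl V S y).choose_spec U hy s n

lemma evF_injective (S : Set N) (y : X) : Function.Injective (evF hpl V S y) := by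
  intro a b hab
  obtain ⟨U₁, h₁, a', rfl⟩ := germ_surj _ y a
  obtain ⟨U₂, h₂, b', rfl⟩ := germ_surj _ y b
  rw [QS_germ_eq]
  intro n hn
  have := congrArg (fun f => f ⟨n, hn⟩) hab
  simp only [evF_germ] at this
  exact this

lemma evF_not_mem {S : Set N} {y : X} (t : Stk (QS V p hpl.continuous S).sh y)
    (n : {n // p n = y}) (hn : n.1 ∉ S) : evF hpl V S y t n = 0 := by
  obtain ⟨U₁, h₁, a', rfl⟩ := germ_surj _ y t
  rw [evF_germ]
  exact QS_not_mem _ a' hn

lemma evF_qmor {P Q : Set N} (h : LC P Q) {y : X} (t : Stk (QS V p hpl.continuous P).sh y)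
    (n : {n // p n = y}) (hn : n.1 ∈ Q) :
    evF hpl V Q y (stk (qmor hpl.continuous h) y t) n = evF hpl V P y t n := by
  obtain ⟨U₁, h₁, a', rfl⟩ := germ_surj _ y t
  rw [stk_germ, evF_germ, evF_germ, val_qmor, Set.indicator_of_mem hn]

include hpl in
/-- existence of elements of the stalk -/
lemma exists_dl {S : Set N} (hS : IsLocallyClosed S) {y : X} (n : N) (hn : p n = y) (hnS : n ∈ S)
    (c : V) : ∃ t, evF hpl V S y t = Finsupp.single ⟨n, hn⟩ c := by
  classical
  subst hn
  obtain ⟨O, hO, s, hs1, hs2⟩ := exists_bs hpl hS hnS c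
  refine ⟨germ _ _ hO s, ?_⟩
  ext n'
  rw [evF_germ]
  by_cases h : n' = ⟨n, rfl⟩
  · subst h
    rw [Finsupp.single_eq_same]
    exact hs1
  · rw [Finsupp.single_eq_of_ne h]
    exact hs2 n'.1 n'.2 (fun h' => h (Subtype.ext h'))

/-- surjectivity of the evaluation onto the functions supported in `S` -/
lemma evF_surj {S : Set N} (hS : IsLocallyClosed S) {y : X} (f : {n // p n = y} →₀ V)
    (hf : ∀ n, n.1 ∉ S → f n = 0) : ∃ t, evF hpl V S y t = f := by
  classical
  induction f using Finsupp.induction with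
  | zero => exact ⟨0, map_zero _⟩
  | single_add n b f hnf hb ih =>
    have h1 : n.1 ∈ S := by
      by_contra h
      have := hf n h
      rw [Finsupp.add_apply, Finsupp.single_eq_same, Finsupp.notMem_support_iff.1 hnf,
        add_zero] at this
      exact hb this
    obtain ⟨t, ht⟩ := ih (fun n' hn' => by
      have h2 : n' ≠ n := fun h => hn' (h ▸ h1)
      have := hf n' hn'
      rwa [Finsupp.add_apply, Finsupp.single_eq_of_ne h2, zero_add] at this)
    obtain ⟨t', ht'⟩ := exists_dl hpl hS n.1 n.2 h1 b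
    exact ⟨t' + t, by rw [map_add, ht, ht']⟩

section OpenU

/-- `p_! ℂ_U` -/
abbrev qk (S : Set N) : Sh X := (QS ℂ p hpl.continuous S).sh

variable {U : Set N} (hU : IsOpen U)

/-- the basis element of the stalk of `p_! ℂ_U` at a point `n` over `y`. -/
def dl {y : X} (n : N) (hn : p n = y) (hnU : n ∈ U) : Stk (qk hpl U) y :=
  (exists_dl hpl (V := ℂ) hU.isLocallyClosed n hn hnU 1).choose

lemma evF_dl {y : X} (n : N) (hn : p n = y) (hnU : n ∈ U) :
    evF hpl ℂ U y (dl hpl hU n hn hnU) = Finsupp.single ⟨n, hn⟩ 1 :=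
  (exists_dl hpl (V := ℂ) hU.isLocallyClosed n hn hnU 1).choose_spec

lemma dl_span {y : X} (P : Submodule ℂ (Stk (qk hpl U) y))
    (hP : ∀ n (hn : p n = y) (hnU : n ∈ U), dl hpl hU n hn hnU ∈ P) (t : Stk (qk hpl U) y) :
    t ∈ P := by
  classical
  have key : ∀ f : {n // p n = y} →₀ ℂ, (∀ n, n.1 ∉ U → f n = 0) → ∀ t,
      evF hpl ℂ U y t = f → t ∈ P := by
    intro f
    induction f using Finsupp.induction with
    | zero =>
      intro _ t ht
      have : t = 0 := evF_injective hpl U y (by rw [ht, map_zero])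
      rw [this]
      exact P.zero_mem
    | single_add n b f hnf hb ih =>
      intro hf t ht
      have h1 : n.1 ∈ U := by
        by_contra h
        have := hf n h
        rw [Finsupp.add_apply, Finsupp.single_eq_same, Finsupp.notMem_support_iff.1 hnf,
          add_zero] at this
        exact hb this
      have h3 : t - b • dl hpl hU n.1 n.2 h1 ∈ P := by
        apply ih
        · intro n' hn'
          have h2 : n' ≠ n := fun h => hn' (h ▸ h1)
          have := hf n' hn'
          rwa [Finsupp.add_apply, Finsupp.single_eq_of_ne h2, zero_add] at this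
        · rw [map_sub, ht, map_smul, evF_dl]
          ext n'
          simp
      have h4 := P.add_mem h3 (P.smul_mem b (hP n.1 n.2 h1))
      rwa [sub_add_cancel] at h4
  exact key _ (fun n hn => evF_not_mem hpl t n hn) t rfl

/-- Two morphisms from `p_! ℂ_U` are equal if they agree on the basis elements. -/
lemma qk_hom_ext {F : Sh X} {f g : qk hpl U ⟶ F}
    (h : ∀ n (hnU : n ∈ U), stk f (p n) (dl hpl hU n rfl hnU) = stk g (p n) (dl hpl hU n rfl hnU)) :
    f = g := by
  apply hom_ext_stk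
  intro y t
  have := dl_span hpl hU (LinearMap.eqLocus (stk f y) (stk g y)) (fun n hn hnU => by
    subst hn
    exact h n hnU) t
  exact this

/-- The basic sections of `p_! ℂ_U`. -/
lemma exists_basic {n : N} (hn : n ∈ U) {G : Set N} (hG : IsOpen G) (hnG : n ∈ G) (O₀ : Opens X)
    (hO₀ : p n ∈ O₀) :
    ∃ (e : OpenPartialHomeomorph N X) (O : Opens X) (hO : O ≤ O₀) (_ : p n ∈ O)
      (s : Sec (qk hpl U) O), ⇑e = p ∧ (O : Set X) ⊆ e.target ∧ (∀ z ∈ O, e.symm z ∈ G ∩ U) ∧
      (∀ z ∈ O, p (e.symm z) = z) ∧ e.symm (p n) = n ∧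
      ∀ z (hz : z ∈ O) (h1 : p (e.symm z) = z) (h2 : e.symm z ∈ U),
        germ _ z hz s = dl hpl hU (e.symm z) h1 h2 := by
  classical
  obtain ⟨e, hne, heG, he⟩ := exists_sheet hpl (hG.inter hU) (⟨hnG, hn⟩ : n ∈ G ∩ U)
  let O : Opens X := O₀ ⊓ ⟨e.target, e.open_target⟩
  have hnt : p n ∈ e.target := by rw [← he]; exact e.map_source hne
  have hpe : ∀ z ∈ e.target, p (e.symm z) = z := fun z hz => by
    rw [← he]; exact e.right_inv hz
  refine ⟨e, O, inf_le_left, ⟨hO₀, hnt⟩, (QS ℂ p hpl.continuous U).mks _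
    (bs_mem hpl e he (O := O) (fun z hz => hz.2) Set.univ isClosed_univ ?_ 1), he,
    fun z hz => hz.2, fun z hz => heG (e.map_target hz.2), fun z hz => hpe z hz.2, ?_, ?_⟩
  · rw [Set.univ_inter, Set.inter_eq_right]
    exact fun z hz => (heG hz).2
  · rw [← he]; exact e.left_inv hne
  · intro z hz h1 h2
    apply evF_injective hpl U z
    rw [evF_dl]
    ext n'
    rw [evF_germ, FS.val_mks]
    have hz' : e.symm z ∈ e.source := e.map_target hz.2
    by_cases h : n' = ⟨e.symm z, h1⟩
    · subst h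
      rw [Finsupp.single_eq_same]
      exact if_pos ⟨by rw [h1]; exact hz, hz', h2⟩
    · rw [Finsupp.single_eq_of_ne h]
      refine if_neg (fun h3 => h ?_)
      apply Subtype.ext
      have h4 : e.symm (e n'.1) = n'.1 := e.left_inv h3.2.1
      rw [he, n'.2] at h4
      exact h4.symm

/-- Construction of morphisms `p_! ℂ_U ⟶ F`. -/
lemma exists_qk_hom {F : Sh X} (g : ∀ y : X, {n // p n = y} → Stk F y)
    (hg : ∀ n ∈ U, ∃ (O : Opens X) (_ : p n ∈ O) (s : Sec F O), ∀ᶠ n' in 𝓝 n,
      ∀ h' : p n' ∈ O, g (p n') ⟨n', rfl⟩ = germ F (p n') h' s) :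
    ∃ φ : qk hpl U ⟶ F, ∀ y n (h : p n = y) (hn : n ∈ U),
      stk φ y (dl hpl hU n h hn) = g y ⟨n, h⟩ := by
  classical
  let Φ : ∀ y, Stk (qk hpl U) y →ₗ[ℂ] Stk F y := fun y =>
    (Finsupp.linearCombination ℂ (g y)).comp (evF hpl ℂ U y)
  have hΦ : ∀ y n (h : p n = y) (hn : n ∈ U), Φ y (dl hpl hU n h hn) = g y ⟨n, h⟩ := by
    intro y n h hn
    change Finsupp.linearCombination ℂ (g y) (evF hpl ℂ U y _) = _
    rw [evF_dl, Finsupp.linearCombination_single, one_smul]
  obtain ⟨φ, hφ⟩ := exists_hom_of_stk (F := qk hpl U) (G := F) Φ (by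
    intro U' s y hy
    let P : Submodule ℂ (Stk (qk hpl U) y) :=
      { carrier := {τ | ∃ (W : Opens X) (hW : y ∈ W) (s : Sec (qk hpl U) W) (t : Sec F W),
          germ _ y hW s = τ ∧ ∀ z (hz : z ∈ W), germ F z hz t = Φ z (germ _ z hz s)}
        add_mem' := by
          rintro a b ⟨W₁, h₁, s₁, t₁, rfl, e₁⟩ ⟨W₂, h₂, s₂, t₂, rfl, e₂⟩
          refine ⟨W₁ ⊓ W₂, ⟨h₁, h₂⟩, res _ inf_le_left s₁ + res _ inf_le_right s₂,
            res _ inf_le_left t₁ + res _ inf_le_right t₂, ?_, fun z hz => ?_⟩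
          · rw [map_add, germ_res, germ_res]
          · rw [map_add, map_add, map_add, germ_res, germ_res, germ_res, germ_res, e₁, e₂]
        zero_mem' := ⟨⊤, trivial, 0, 0, map_zero _, fun z hz => by
          rw [map_zero, map_zero, map_zero]⟩
        smul_mem' := by
          rintro c a ⟨W₁, h₁, s₁, t₁, rfl, e₁⟩
          refine ⟨W₁, h₁, c • s₁, c • t₁, by rw [map_smul], fun z hz => ?_⟩
          rw [map_smul, map_smul, map_smul, e₁] }
    have hP := dl_span hpl hU P (by
      intro n hn hnU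
      subst hn
      obtain ⟨O, hnO, s, hs⟩ := hg n hnU
      obtain ⟨G, hG, hGo, hnG⟩ := eventually_nhds_iff.1 hs
      obtain ⟨e, W, hWO, hnW, b, he, hWt, hWG, hpe, hen, hb⟩ :=
        exists_basic hpl hU hnU hGo hnG O hnO
      refine ⟨W, hnW, b, res _ hWO s, ?_, ?_⟩
      · rw [hb (p n) hnW (hpe _ hnW) (hWG _ hnW).2]
        congr 1
      · intro z hz
        rw [germ_res, hb z hz (hpe z hz) (hWG z hz).2, hΦ]
        have h3 := hpe z hz
        have h4 := hG (e.symm z) (hWG z hz).1
        have h5 : ∀ (z' : X) (hz' : z' = z) (h' : p (e.symm z) = z') (h'' : z' ∈ O)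
          (hh : p (e.symm z) ∈ O → True),
            g z' ⟨e.symm z, h'⟩ = germ F z' h'' s := by
          intro z' hz' h' h'' _
          subst h'
          exact h4 h''
        exact (h5 z rfl h3 (hWO hz) (fun _ => trivial)).symm) (germ _ y hy s)
    obtain ⟨W, hW, s', t, hs', ht⟩ := hP
    obtain ⟨W', hW', i₁, i₂, heq⟩ := germ_eq _ y hW hy s' s hs'
    refine ⟨W', hW', i₂, res _ i₁ t, fun z hz => ?_⟩
    rw [germ_res, ht z (i₁ hz), ← germ_res _ i₂ z hz, ← heq, germ_res])
  exact ⟨φ, fun y n h hn => by rw [hφ, hΦ]⟩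

end OpenU

end

end WS
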