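import Pool.Agent.helper18.WS.QTr

open CategoryTheory TopologicalSpace Topology Limits Opposite Abelian

set_option backward.isDefEq.respectTransparency false
set_option backward.isDefEq.respectTransparency.types false
set_option linter.unusedVariables false
set_option linter.unusedSectionVars false

universe w

namespace WS

noncomputable section

section

variable {X : Type} [TopologicalSpace X] {N : Type} [TopologicalSpace N] [T2Space N]
  {p : N → X} (hpl : IsLocalHomeomorph p)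

/-- the canonical morphism `p_! ℂ_A ⟶ p_! ℂ_B` for open sets `A ⊆ B`. -/
abbrev ri {A B : Set N} (h : A ⊆ B) (hA : IsOpen A) : qk hpl A ⟶ qk hpl B :=
  qmor hpl.continuous (LCo h hA)

lemma ri_comp {A B D : Set N} (h : A ⊆ B) (hA : IsOpen A) (h' : B ⊆ D) (hB : IsOpen B) :
    ri hpl h hA ≫ ri hpl h' hB = ri hpl (h.trans h') hA :=
  qmor_comp_qmor _ _ _ _ (fun z hz => h hz.1)

lemma ri_comp_assoc {A B D : Set N} (h : A ⊆ B) (hA : IsOpen A) (h' : B ⊆ D) (hB : IsOpen B)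
    {F : Sh X} (f : qk hpl D ⟶ F) :
    ri hpl h hA ≫ ri hpl h' hB ≫ f = ri hpl (h.trans h') hA ≫ f := by
  rw [← Category.assoc, ri_comp]

lemma ri_mono {A B : Set N} (h : A ⊆ B) (hA : IsOpen A) (hB : IsOpen B) :
    Mono (ri hpl h hA) := by
  have lc2 : LC B (B \ A) := LC_of_closed (fun z hz => hz.1) ⟨Aᶜ, hA.isClosed_compl, by
    ext z; simp⟩
  exact (QS_shortExact (V := ℂ) hpl (P := B) (Q := A) (R := B \ A) hB.isLocallyClosed Aᶜ
    hA.isClosed_compl (by ext z; simp; exact fun hz => h hz) (by ext z; simp) (LCo h hA)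
    lc2).mono_f

variable [HasExt.{w} (Sh X)]

lemma rs_mk₀ {A B : Set N} (h : A ⊆ B) (hA : IsOpen A) {F : Sh X} (f : qk hpl B ⟶ F) :
    rs hpl h hA (Ext.mk₀ f) = Ext.mk₀ (ri hpl h hA ≫ f) := Ext.mk₀_comp_mk₀ _ _

lemma rs_comp {A B : Set N} (h : A ⊆ B) (hA : IsOpen A) {F G : Sh X} {a b c : ℕ}
    (e : Ext.{w} (qk hpl B) F a) (e' : Ext.{w} F G b) (hc : a + b = c) :
    rs hpl h hA (e.comp e' hc) = (rs hpl h hA e).comp e' hc :=
  (Ext.comp_assoc _ _ _ _ _ (by lia)).symm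

lemma exists_inj_ses (F : Sh X) : ∃ (I G : Sh X) (f : F ⟶ I) (g : I ⟶ G) (w : f ≫ g = 0),
    (ShortComplex.mk f g w).ShortExact ∧ Injective I := by
  let I : InjectivePresentation F := Classical.arbitrary _
  exact ⟨I.J, cokernel I.f, I.f, cokernel.π I.f, cokernel.condition I.f,
    { exact := ShortComplex.exact_cokernel I.f }, I.injective⟩

lemma inj_extend {A B : Set N} (h : A ⊆ B) (hA : IsOpen A) (hB : IsOpen B) {I : Sh X}
    [Injective I] {n : ℕ} (x : Ext.{w} (qk hpl A) I n) :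
    ∃ x' : Ext.{w} (qk hpl B) I n, rs hpl h hA x' = x := by
  cases n with
  | zero =>
    obtain ⟨f, rfl⟩ := (Ext.mk₀_bijective _ _).2 x
    have := ri_mono hpl h hA hB
    refine ⟨Ext.mk₀ (Injective.factorThru f (ri hpl h hA)), ?_⟩
    rw [rs_mk₀, Injective.comp_factorThru]
  | succ n => exact ⟨0, by rw [rs_zero, Ext.eq_zero_of_injective x]⟩

end

variable {X : Type} [TopologicalSpace X] {N : Type} [TopologicalSpace N] [T2Space N]
  {p : N → X} (hpl : IsLocalHomeomorph p) {U : ℕ → Set N} (hU : ∀ k, IsOpen (U k))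
  {O : Set N} (hO : IsOpen O) (hsub : ∀ k, U k ⊆ O) (hcov : ∀ n ∈ O, ∃ k, n ∈ U k)
  (hmono : ∀ k, U k ⊆ U (k + 1))

include hU hO hsub hcov hmono

lemma tel_glue {F : Sh X} (t : ∀ k, qk hpl (U k) ⟶ F)
    (ht : ∀ k, qmor hpl.continuous (LCo (hmono k) (hU k)) ≫ t (k + 1) = t k) :
    ∃ t' : qk hpl O ⟶ F, ∀ k, qmor hpl.continuous (LCo (hsub k) (hU k)) ≫ t' = t k := by
  classical
  have hmono' : ∀ j k, j ≤ k → U j ⊆ U k := fun j k h => monotone_nat_of_le_succ hmono h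
  have ht' : ∀ k d, qmor hpl.continuous (LCo (hmono' k (k + d) (Nat.le_add_right k d)) (hU k)) ≫
      t (k + d) = t k := by
    intro k d
    induction d with
    | zero =>
      have h1 : ∀ (h : LC (U k) (U k)), qmor (V := ℂ) hpl.continuous h ≫ t k = t k := by
        intro h
        rw [qmor_self, Category.id_comp]
      exact h1 _
    | succ d ih =>
      have h2 := ht (k + d)
      have h3 : qmor (V := ℂ) hpl.continuous
          (LCo (hmono' k (k + d) (Nat.le_add_right k d)) (hU k)) ≫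
          qmor hpl.continuous (LCo (hmono (k + d)) (hU (k + d))) =
          qmor hpl.continuous (LCo (hmono' k (k + (d + 1)) (Nat.le_add_right k (d + 1))) (hU k)) :=
        qmor_comp_qmor _ _ _ _ (fun z hz => hmono' k (k + d) (Nat.le_add_right k d) hz.1)
      have h4 := congrArg (fun ξ => ξ ≫ t (k + (d + 1))) h3
      simp only [Category.assoc] at h4
      rw [← h4]
      exact (congrArg (fun ξ => qmor hpl.continuous
        (LCo (hmono' k (k + d) (Nat.le_add_right k d)) (hU k)) ≫ ξ) h2).trans ih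
  have hg : ∀ k, ∃ g : ∀ n, Stk F (p n), (∀ n ∈ U k, GS F p g n) ∧
      ∀ n (hn : n ∈ U k), stk (t k) (p n) (dl hpl (hU k) n rfl hn) = g n :=
    fun k => exists_GS_of_hom hpl (hU k) (t k)
  choose g hg1 hg2 using hg
  have hgg : ∀ j k, j ≤ k → ∀ n ∈ U j, g j n = g k n := by
    intro j k hjk n hn
    obtain ⟨d, rfl⟩ := Nat.exists_eq_add_of_le hjk
    have h1 := congrArg (fun ξ => stk ξ (p n) (dl hpl (hU j) n rfl hn)) (ht' j d)
    simp only [stk_comp] at h1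
    rw [stk_qmor_dl hpl (hU _) (hU _) (hmono' j (j + d) hjk) n rfl hn, hg2, hg2] at h1
    exact h1.symm
  let G : ∀ n, Stk F (p n) := fun n => if h : ∃ k, n ∈ U k then g (Nat.find h) n else 0
  have hG : ∀ k, ∀ n ∈ U k, G n = g k n := by
    intro k n hn
    have h : ∃ k, n ∈ U k := ⟨k, hn⟩
    have h1 : G n = g (Nat.find h) n := dif_pos h
    rw [h1]
    exact hgg _ _ (Nat.find_min' h hn) n (Nat.find_spec h)
  obtain ⟨t', ht''⟩ := exists_hom_of_GS hpl hO G (by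
    intro n hn
    obtain ⟨k, hk⟩ := hcov n hn
    obtain ⟨W, hW, s, hs⟩ := hg1 k n hk
    refine ⟨W, hW, s, ?_⟩
    filter_upwards [hs, (hU k).mem_nhds hk] with n' h1 h2 h3
    rw [hG k n' h2, h1 h3])
  refine ⟨t', fun k => qk_hom_ext hpl (hU k) (fun n hn => ?_)⟩
  rw [stk_comp, stk_qmor_dl hpl hO (hU k) (hsub k) n rfl hn, ht'', hG k n hn, hg2]

lemma tel_ext {F : Sh X} {s t : qk hpl O ⟶ F}
    (h : ∀ k, qmor hpl.continuous (LCo (hsub k) (hU k)) ≫ s =
      qmor hpl.continuous (LCo (hsub k) (hU k)) ≫ t) : s = t := by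
  refine qk_hom_ext hpl hO (fun n hn => ?_)
  obtain ⟨k, hk⟩ := hcov n hn
  have h1 := congrArg (fun ξ => stk ξ (p n) (dl hpl (hU k) n rfl hk)) (h k)
  simp only [stk_comp] at h1
  rwa [stk_qmor_dl hpl hO (hU k) (hsub k) n rfl hk] at h1

variable [HasExt.{w} (Sh X)]

lemma tel_base (F : Sh X) (e : Ext.{w} (qk hpl O) F 1)
    (he : ∀ k, rs hpl (hsub k) (hU k) e = 0)
    (hML : ∀ k (γ : qk hpl (U (k + 1)) ⟶ F), ∃ γ' : qk hpl O ⟶ F,
      ri hpl (hsub k) (hU k) ≫ γ' = ri hpl (hmono k) (hU k) ≫ γ) : e = 0 := by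
  obtain ⟨I, G, f, g, hfg, hS, hI⟩ := exists_inj_ses F
  obtain ⟨e', he'⟩ := Ext.covariant_sequence_exact₁ (qk hpl O) hS e
    (Ext.eq_zero_of_injective _) (zero_add 1)
  obtain ⟨s, rfl⟩ := (Ext.mk₀_bijective _ _).2 e'
  have hlift : ∀ k, ∃ t : qk hpl (U k) ⟶ I, t ≫ g = ri hpl (hsub k) (hU k) ≫ s := by
    intro k
    have h1 : (rs hpl (hsub k) (hU k) (Ext.mk₀ s)).comp hS.extClass (zero_add 1) = 0 := by
      rw [← rs_comp, he', he]
    obtain ⟨x, hx⟩ := Ext.covariant_sequence_exact₃ (qk hpl (U k)) hS _ (zero_add 1) h1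
    obtain ⟨t, rfl⟩ := (Ext.mk₀_bijective _ _).2 x
    refine ⟨t, (Ext.mk₀_bijective _ _).1 ?_⟩
    have h2 := rs_mk₀ hpl (hsub k) (hU k) s
    rw [← h2, ← hx]
    exact (Ext.mk₀_comp_mk₀ _ _).symm
  have hmono2 : ∀ k, U k ⊆ U (k + 1 + 1) := fun k => (hmono k).trans (hmono (k + 1))
  have step : ∀ k (t : {t : qk hpl (U (k + 1)) ⟶ I // t ≫ g = ri hpl (hsub (k + 1)) (hU _) ≫ s}),
      ∃ t' : {t : qk hpl (U (k + 1 + 1)) ⟶ I //
        t ≫ g = ri hpl (hsub (k + 1 + 1)) (hU _) ≫ s},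
        ri hpl (hmono2 k) (hU k) ≫ t'.1 = ri hpl (hmono k) (hU k) ≫ t.1 := by
    rintro k ⟨t, ht⟩
    obtain ⟨t₁, ht₁⟩ := hlift (k + 1 + 1)
    have h1 : (ri hpl (hmono (k + 1)) (hU _) ≫ t₁ - t) ≫ g = 0 := by
      rw [Preadditive.sub_comp, Category.assoc, ht₁, ht, ri_comp_assoc, sub_self]
    have := hS.mono_f
    let D : qk hpl (U (k + 1)) ⟶ F := hS.exact.lift (ri hpl (hmono (k + 1)) (hU _) ≫ t₁ - t) h1
    have hD : D ≫ f = ri hpl (hmono (k + 1)) (hU _) ≫ t₁ - t := hS.exact.lift_f _ h1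
    obtain ⟨d, hd⟩ := hML k D
    refine ⟨⟨t₁ - ri hpl (hsub _) (hU _) ≫ d ≫ f, ?_⟩, ?_⟩
    · rw [Preadditive.sub_comp, Category.assoc, Category.assoc, hfg, comp_zero, comp_zero,
        sub_zero, ht₁]
    · rw [Preadditive.comp_sub, ri_comp_assoc]
      have h2 : ri hpl (hsub k) (hU k) ≫ d ≫ f = ri hpl (hmono k) (hU k) ≫ D ≫ f := by
        rw [← Category.assoc, hd, Category.assoc]
      rw [h2, hD, Preadditive.comp_sub, ri_comp_assoc, sub_sub_cancel]
  choose nxt hnxt using step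
  obtain ⟨t₀, ht₀⟩ := hlift (0 + 1)
  let t : ∀ k, {t : qk hpl (U (k + 1)) ⟶ I // t ≫ g = ri hpl (hsub (k + 1)) (hU _) ≫ s} :=
    fun k => Nat.rec ⟨t₀, ht₀⟩ (fun k t => nxt k t) k
  have ht : ∀ k, ri hpl (hmono2 k) (hU k) ≫ (t (k + 1)).1 = ri hpl (hmono k) (hU k) ≫ (t k).1 :=
    fun k => hnxt k (t k)
  obtain ⟨t', ht'⟩ := tel_glue hpl hU hO hsub hcov hmono
    (fun k => ri hpl (hmono k) (hU k) ≫ (t k).1) (fun k => by
      rw [← ht k]
      exact ri_comp_assoc hpl (hmono k) (hU k) (hmono (k + 1)) (hU (k + 1)) (t (k + 1)).1)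
  have h3 : t' ≫ g = s := by
    apply tel_ext hpl hU hO hsub hcov hmono
    intro k
    rw [← Category.assoc]
    refine (congrArg (fun ξ => ξ ≫ g) (ht' k)).trans ?_
    change (ri hpl (hmono k) (hU k) ≫ (t k).1) ≫ g = _
    rw [Category.assoc, (t k).2, ri_comp_assoc]
  rw [← he', ← h3]
  have h4 : (Ext.mk₀ t').comp ((Ext.mk₀ g).comp hS.extClass (zero_add 1))
        (zero_add 1) = (Ext.mk₀ (t' ≫ g)).comp hS.extClass (zero_add 1) :=
    Ext.mk₀_comp_mk₀_assoc _ _ _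
  rw [← h4]
  have h5 : (Ext.mk₀ g).comp hS.extClass (zero_add 1) = 0 := hS.comp_extClass
  rw [h5, Ext.comp_zero]

/-- Telescoping -/
lemma tel_zero (n : ℕ) : ∀ (F : Sh X) (e : Ext.{w} (qk hpl O) F (n + 1))
    (he : ∀ k, rs hpl (hsub k) (hU k) e = 0)
    (hML : ∀ k (γ : Ext.{w} (qk hpl (U (k + 1))) F n), ∃ γ' : Ext.{w} (qk hpl O) F n,
      rs hpl (hsub k) (hU k) γ' = rs hpl (hmono k) (hU k) γ), e = 0 := by
  induction n with
  | zero =>
    intro F e he hML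
    apply tel_base hpl hU hO hsub hcov hmono F e he
    intro k γ
    obtain ⟨γ', h⟩ := hML k (Ext.mk₀ γ)
    obtain ⟨γ'', rfl⟩ := (Ext.mk₀_bijective _ _).2 γ'
    refine ⟨γ'', (Ext.mk₀_bijective _ _).1 ?_⟩
    rw [← rs_mk₀, ← rs_mk₀]
    exact h
  | succ n ih =>
    intro F e he hML
    obtain ⟨I, G, f, g, hfg, hS, hI⟩ := exists_inj_ses F
    obtain ⟨e', he'⟩ := Ext.covariant_sequence_exact₁ (qk hpl O) hS e
      (Ext.eq_zero_of_injective _) rfl
    have h0 : e' = 0 := by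
      apply ih G e'
      · intro k
        have h1 : (rs hpl (hsub k) (hU k) e').comp hS.extClass rfl = 0 := by
          rw [← rs_comp, he', he]
        obtain ⟨x, hx⟩ := Ext.covariant_sequence_exact₃ (qk hpl (U k)) hS _ rfl h1
        rw [← hx, Ext.eq_zero_of_injective (I := I) x, Ext.zero_comp]
      · intro k γ
        obtain ⟨γ₂, hγ₂⟩ := hML k (γ.comp hS.extClass rfl)
        obtain ⟨γ₁, hγ₁⟩ := Ext.covariant_sequence_exact₁ (qk hpl O) hS γ₂
          (Ext.eq_zero_of_injective _) rfl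
        have h1 : (rs hpl (hmono k) (hU k) γ - rs hpl (hsub k) (hU k) γ₁).comp
            hS.extClass rfl = 0 := by
          have h2 : (rs hpl (hmono k) (hU k) γ).comp hS.extClass rfl =
              (rs hpl (hsub k) (hU k) γ₁).comp hS.extClass rfl := by
            rw [← rs_comp, ← rs_comp, hγ₁, hγ₂]
          rw [sub_eq_add_neg, Ext.add_comp, Ext.neg_comp, h2, add_neg_cancel]
        obtain ⟨x, hx⟩ := Ext.covariant_sequence_exact₃ (qk hpl (U k)) hS _ rfl h1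
        obtain ⟨x', hx'⟩ := inj_extend hpl (hsub k) (hU k) hO (I := I) x
        refine ⟨γ₁ + x'.comp (Ext.mk₀ g) (add_zero n), ?_⟩
        rw [rs_add, rs_comp, hx']
        have hx2 : x.comp (Ext.mk₀ g) (add_zero n) = _ := hx
        rw [hx2, add_sub_cancel]
    rw [← he', h0, Ext.zero_comp]

end

end WS
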