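import Pool.Agent.helper18.WS.QBox

open CategoryTheory TopologicalSpace Topology Limits Opposite Abelian

set_option backward.isDefEq.respectTransparency false
set_option backward.isDefEq.respectTransparency.types false
set_option linter.unusedVariables false
set_option linter.unusedSectionVars false

universe w

namespace WS

noncomputable section

variable {X : Type} [TopologicalSpace X] {N : Type} [TopologicalSpace N]

/-- A family of germs along `p` which is given by a section of `F` near `n`. -/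
def GS (F : Sh X) (p : N → X) (g : ∀ n, Stk F (p n)) (n : N) : Prop :=
  ∃ (O : Opens X) (_ : p n ∈ O) (s : Sec F O), ∀ᶠ n' in 𝓝 n, ∀ h' : p n' ∈ O,
    g n' = germ F (p n') h' s

variable {F : Sh X} {p : N → X}

lemma GS.near (hp : Continuous p) {g : ∀ n, Stk F (p n)} {n : N} (h : GS F p g n) :
    ∀ᶠ n' in 𝓝 n, GS F p g n' := by
  obtain ⟨O, hO, s, hs⟩ := h
  filter_upwards [eventually_eventually_nhds.2 hs,
    hp.continuousAt.eventually (O.isOpen.mem_nhds hO)] with n' h1 h2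
  exact ⟨O, h2, s, h1⟩

lemma GS.eq_near (hp : Continuous p) {g g' : ∀ n, Stk F (p n)} {n : N} (h : GS F p g n)
    (h' : GS F p g' n) (he : g n = g' n) : ∀ᶠ n' in 𝓝 n, g n' = g' n' := by
  obtain ⟨O, hO, s, hs⟩ := h
  obtain ⟨O', hO', s', hs'⟩ := h'
  have h1 := hs.self_of_nhds hO
  have h2 := hs'.self_of_nhds hO'
  rw [h1, h2] at he
  obtain ⟨W, hW, iU, iV, heq⟩ := germ_eq F (p n) hO hO' s s' he
  filter_upwards [hs, hs', hp.continuousAt.eventually (W.isOpen.mem_nhds hW)] with n' h3 h4 h5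
  rw [h3 (iU h5), h4 (iV h5), ← germ_res F iU _ h5, heq, germ_res]

lemma GS.ne_near (hp : Continuous p) (hF : IsLocConst F) {g g' : ∀ n, Stk F (p n)} {n : N}
    (h : GS F p g n) (h' : GS F p g' n) (he : g n ≠ g' n) : ∀ᶠ n' in 𝓝 n, g n' ≠ g' n' := by
  obtain ⟨O, hO, s, hs⟩ := h
  obtain ⟨O', hO', s', hs'⟩ := h'
  have h1 := hs.self_of_nhds hO
  have h2 := hs'.self_of_nhds hO'
  obtain ⟨U, hU, V, _, _, e, hV⟩ := hF (p n)
  obtain ⟨v, hv⟩ := (hV (p n) hU).2 (g n)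
  obtain ⟨v', hv'⟩ := (hV (p n) hU).2 (g' n)
  have hvv : v ≠ v' := by
    rintro rfl
    exact he (hv.symm.trans hv')
  rw [h1] at hv
  rw [h2] at hv'
  obtain ⟨W, hW, iU, iV, heq⟩ := germ_eq F (p n) hU hO (e v) s hv
  obtain ⟨W', hW', iU', iV', heq'⟩ := germ_eq F (p n) hU hO' (e v') s' hv'
  filter_upwards [hs, hs', hp.continuousAt.eventually (W.isOpen.mem_nhds hW),
    hp.continuousAt.eventually (W'.isOpen.mem_nhds hW')] with n' h3 h4 h5 h6 h7
  rw [h3 (iV h5), h4 (iV' h6), ← germ_res F iV _ h5, ← heq, germ_res,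
    ← germ_res F iV' _ h6, ← heq', germ_res] at h7
  exact hvv ((hV _ (iU h5)).1 h7)

lemma GS.eq_on (hp : Continuous p) (hF : IsLocConst F) {g g' : ∀ n, Stk F (p n)} {B : Set N}
    (hB : _root_.IsPreconnected B) (h : ∀ n ∈ B, GS F p g n) (h' : ∀ n ∈ B, GS F p g' n) {n₀ : N}
    (hn₀ : n₀ ∈ B) (he : g n₀ = g' n₀) : ∀ n ∈ B, g n = g' n := by
  intro n hn
  by_contra hne
  let U₁ : Set N := {y | ∀ᶠ z in 𝓝 y, g z = g' z}
  let U₂ : Set N := {y | ∀ᶠ z in 𝓝 y, g z ≠ g' z}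
  have hU₁ : IsOpen U₁ := by
    rw [isOpen_iff_mem_nhds]
    intro z hz
    exact eventually_eventually_nhds.2 hz
  have hU₂ : IsOpen U₂ := by
    rw [isOpen_iff_mem_nhds]
    intro z hz
    exact eventually_eventually_nhds.2 hz
  obtain ⟨z, hzB, hz1, hz2⟩ := hB U₁ U₂ hU₁ hU₂ (fun y hy => by
    by_cases h1 : g y = g' y
    · exact Or.inl ((h y hy).eq_near hp (h' y hy) h1)
    · exact Or.inr ((h y hy).ne_near hp hF (h' y hy) h1))
    ⟨n₀, hn₀, (h n₀ hn₀).eq_near hp (h' n₀ hn₀) he⟩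
    ⟨n, hn, (h n hn).ne_near hp hF (h' n hn) hne⟩
  have hz1' : ∀ᶠ z' in 𝓝 z, g z' = g' z' := hz1
  have hz2' : ∀ᶠ z' in 𝓝 z, g z' ≠ g' z' := hz2
  exact hz2'.self_of_nhds hz1'.self_of_nhds

/-- parallel transport -/
lemma exists_transport [LocallyConnectedSpace X] [SimplyConnectedSpace N]
    [LocallyPathConnectedSpace N] (hp : Continuous p) (hF : IsLocConst F) (n₀ : N)
    (t : Stk F (p n₀)) : ∃ g : ∀ n, Stk F (p n), (∀ n, GS F p g n) ∧ g n₀ = t := by
  have hcov : IsCoveringMap (TopCat.Presheaf.EtaleSpace.base (X := TopCat.of X)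
      (F := F.presheaf)) := by
    apply TopCat.Presheaf.EtaleSpace.isCoveringMap_base (X := TopCat.of X)
    intro x
    obtain ⟨U, hyU, V, _, _, e, he⟩ := hF x
    obtain ⟨O, hOU, hO, hyO, hOc⟩ := locallyConnectedSpace_iff_subsets_isOpen_isConnected.1
      ‹LocallyConnectedSpace X› x (U : Set X) (U.isOpen.mem_nhds hyU)
    let O' : Opens X := ⟨O, hO⟩
    have hO' : O' ≤ U := hOU
    refine ⟨O', hyO, fun y hy => ⟨?_, ?_⟩⟩
    · intro s s' hss
      have h1 : germ F y hy (s - s' : Sec F O') = 0 := by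
        rw [map_sub, sub_eq_zero]
        exact hss
      exact sub_eq_zero.1 (hF.sec_zero (U := O') hOc.isPreconnected _ hy h1)
    · intro t
      obtain ⟨v, hv⟩ := (he y (hO' hy)).2 t
      exact ⟨res F hO' (e v), (germ_res F hO' y hy (e v)).trans hv⟩
  obtain ⟨G, ⟨hG0, hG⟩, -⟩ := hcov.existsUnique_continuousMap_lifts ⟨p, hp⟩ n₀ ⟨p n₀, t⟩ rfl
  have hG' : ∀ n, (G n).base = p n := fun n => congrFun hG n
  have key : ∀ n, ∃ t : Stk F (p n), G n = ⟨p n, t⟩ := by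
    intro n
    have h1 := hG' n
    generalize p n = y at h1
    subst h1
    exact ⟨(G n).germ, rfl⟩
  choose g hg using key
  refine ⟨g, fun n => ?_, ?_⟩
  · have hc : Filter.Tendsto G (𝓝 n) (𝓝 (G n)) := G.continuous.continuousAt
    obtain ⟨U, hU, s, hs⟩ := TopCat.Presheaf.EtaleSpace.exists_section_of_tendsto hc
    rw [hG' n] at hU
    refine ⟨U, hU, s, ?_⟩
    filter_upwards [hs] with n' h3 h4
    rw [hg n'] at h3
    exact h3.2
  · have h1 := hg n₀
    rw [hG0] at h1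
    injection h1 with h2 h3
    exact h3.symm

section

variable [T2Space N] (hpl : IsLocalHomeomorph p)

lemma exists_hom_of_GS {U : Set N} (hU : IsOpen U) (g : ∀ n, Stk F (p n))
    (hg : ∀ n ∈ U, GS F p g n) :
    ∃ φ : qk hpl U ⟶ F, ∀ n (hn : n ∈ U), stk φ (p n) (dl hpl hU n rfl hn) = g n := by
  obtain ⟨φ, hφ⟩ := exists_qk_hom hpl hU (F := F) (fun y n => n.2 ▸ g n.1) (fun n hn => by
    obtain ⟨O, hO, s, hs⟩ := hg n hn
    exact ⟨O, hO, s, hs⟩)
  exact ⟨φ, fun n hn => hφ (p n) n rfl hn⟩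

lemma exists_GS_of_hom {U : Set N} (hU : IsOpen U) (φ : qk hpl U ⟶ F) :
    ∃ g : ∀ n, Stk F (p n), (∀ n ∈ U, GS F p g n) ∧
      ∀ n (hn : n ∈ U), stk φ (p n) (dl hpl hU n rfl hn) = g n := by
  classical
  refine ⟨fun n => if hn : n ∈ U then stk φ (p n) (dl hpl hU n rfl hn) else 0, fun n hn => ?_,
    fun n hn => by simp only [dif_pos hn]⟩
  obtain ⟨e, O, hOt, hnO, b, he, hOe, hOG, hpe, hen, hb⟩ :=
    exists_basic hpl hU hn hU hn ⊤ trivial
  refine ⟨O, hnO, app φ O b, ?_⟩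
  have hns : n ∈ e.source := by
    rw [← hen]
    exact e.map_target (hOe hnO)
  filter_upwards [hU.mem_nhds hn, e.open_source.mem_nhds hns] with n' h1 h2 h3
  rw [dif_pos h1, ← stk_germ]
  congr 1
  have h4 : e.symm (p n') = n' := by rw [← he]; exact e.left_inv h2
  rw [hb (p n') h3 (hpe _ h3) (hOG _ h3).2]
  congr 1
  exact h4.symm

/-- A morphism `p_! ℂ_O ⟶ F` into a locally constant sheaf extends. -/
lemma hom_extend [LocallyConnectedSpace X] [SimplyConnectedSpace N]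
    [LocallyPathConnectedSpace N] (hF : IsLocConst F) {O O' : Set N} (hO : IsOpen O)
    (hO' : IsOpen O') (h : O ⊆ O') (hOc : _root_.IsPreconnected O)
    (φ : qk hpl O ⟶ F) :
    ∃ φ' : qk hpl O' ⟶ F, qmor hpl.continuous (LCo h hO) ≫ φ' = φ := by
  by_cases hne : O.Nonempty
  · obtain ⟨n₀, hn₀⟩ := hne
    obtain ⟨g, hg, hφ⟩ := exists_GS_of_hom hpl hO φ
    obtain ⟨g', hg', he⟩ := exists_transport hpl.continuous hF n₀ (g n₀)
    obtain ⟨φ', hφ'⟩ := exists_hom_of_GS hpl hO' g' (fun n _ => hg' n)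
    refine ⟨φ', qk_hom_ext hpl hO (fun n hn => ?_)⟩
    rw [stk_comp, stk_qmor_dl hpl hO' hO h n rfl hn, hφ', hφ]
    exact GS.eq_on hpl.continuous hF hOc (fun n _ => hg' n) hg hn₀ he n hn
  · refine ⟨0, qk_hom_ext hpl hO (fun n hn => absurd ⟨n, hn⟩ hne)⟩

lemma hom_ext_locConst (hF : IsLocConst F) {O O' : Set N} (hO : IsOpen O)
    (hO' : IsOpen O') (h : O ⊆ O') (hOc : _root_.IsPreconnected O') (hne : O.Nonempty)
    {φ ψ : qk hpl O' ⟶ F} (he : qmor hpl.continuous (LCo h hO) ≫ φ =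
      qmor hpl.continuous (LCo h hO) ≫ ψ) : φ = ψ := by
  obtain ⟨n₀, hn₀⟩ := hne
  obtain ⟨g, hg, hφ⟩ := exists_GS_of_hom hpl hO' φ
  obtain ⟨g', hg', hψ⟩ := exists_GS_of_hom hpl hO' ψ
  have h1 := congrArg (fun ξ => stk ξ (p n₀) (dl hpl hO n₀ rfl hn₀)) he
  simp only [stk_comp] at h1
  rw [stk_qmor_dl hpl hO' hO h n₀ rfl hn₀, hφ, hψ] at h1
  refine qk_hom_ext hpl hO' (fun n hn => ?_)
  rw [hφ, hψ]
  exact GS.eq_on hpl.continuous hF hOc hg hg' (h hn₀) h1 n hn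

/-- Sections of locally constant sheaves near connected sets extend. -/
lemma extendsNear_zero [HasExt.{w} (Sh X)] [LocallyConnectedSpace X] [SimplyConnectedSpace N]
    [LocallyPathConnectedSpace N] (hF : IsLocConst F) {B : Set N} (hB : _root_.IsPreconnected B)
    (hne : B.Nonempty) : ExtendsNear.{w} hpl F 0 B := by
  intro W hW hBW γ
  obtain ⟨φ, rfl⟩ := (Ext.mk₀_bijective _ _).2 γ
  obtain ⟨n₀, hn₀⟩ := hne
  obtain ⟨g, hg, hφ⟩ := exists_GS_of_hom hpl hW φ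
  obtain ⟨g', hg', he⟩ := exists_transport hpl.continuous hF n₀ (g n₀)
  obtain ⟨φ', hφ'⟩ := exists_hom_of_GS hpl isOpen_univ g' (fun n _ => hg' n)
  let W' : Set N := W ∩ {n | ∀ᶠ n' in 𝓝 n, g' n' = g n'}
  have hW' : IsOpen W' := hW.inter (by
    rw [isOpen_iff_mem_nhds]
    intro n hn
    exact eventually_eventually_nhds.2 hn)
  refine ⟨W', hW', Set.inter_subset_left, fun n hn => ⟨hBW hn, ?_⟩, Ext.mk₀ φ', ?_⟩
  · exact (hg' n).eq_near hpl.continuous (hg n (hBW hn))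
      (GS.eq_on hpl.continuous hF hB (fun n _ => hg' n) (fun n hn => hg n (hBW hn)) hn₀ he n hn)
  · unfold rs
    rw [Ext.mk₀_comp_mk₀, Ext.mk₀_comp_mk₀]
    congr 1
    refine qk_hom_ext hpl hW' (fun n hn => ?_)
    rw [stk_comp, stk_comp, stk_qmor_dl hpl isOpen_univ hW' (Set.subset_univ _) n rfl hn,
      stk_qmor_dl hpl hW hW' Set.inter_subset_left n rfl hn, hφ', hφ]
    have h1 : ∀ᶠ n' in 𝓝 n, g' n' = g n' := hn.2
    exact h1.self_of_nhds

end

end

end WS
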