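import Pool.Agent.helper18.WS.QDev
import Pool.Agent.helper18.WS.Core

open CategoryTheory TopologicalSpace Topology Limits Opposite Abelian Pretriangulated Triangulated

set_option backward.isDefEq.respectTransparency false
set_option backward.isDefEq.respectTransparency.types false
set_option linter.unusedVariables false
set_option linter.unusedSectionVars false

universe w

namespace WS

noncomputable section

variable {X : Type} [TopologicalSpace X] [HasDerivedCategory.{w} (Sh X)]

abbrev sg (K : Sh X) : DerivedCategory (Sh X) := (DerivedCategory.singleFunctor (Sh X) 0).obj K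

lemma CohP.shift {L : DerivedCategory (Sh X)} (hL : CohP IsLocConst L) (n : ℤ) :
    CohP IsLocConst (L⟦n⟧) := by
  intro i
  have e : (DerivedCategory.homologyFunctor (Sh X) i).obj (L⟦n⟧) ≅
      (DerivedCategory.homologyFunctor (Sh X) (n + i)).obj L :=
    ((DerivedCategory.homologyFunctor (Sh X) 0).shiftIso n i (n + i) rfl).app L
  exact (hL (n + i)).of_iso e.symm

/-- `φ` induces bijections on morphisms to complexes with locally constant cohomology. -/
def LcIso {A B : DerivedCategory (Sh X)} (φ : A ⟶ B) : Prop :=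
  ∀ L : DerivedCategory (Sh X), CohP IsLocConst L → Function.Bijective (fun f : B ⟶ L => φ ≫ f)

/-- left orthogonal to complexes with locally constant cohomology -/
def OZ (Z : DerivedCategory (Sh X)) : Prop :=
  ∀ L : DerivedCategory (Sh X), CohP IsLocConst L → ∀ f : Z ⟶ L, f = 0

lemma LcIso.comp {A B D : DerivedCategory (Sh X)} {φ : A ⟶ B} {ψ : B ⟶ D} (h : LcIso φ)
    (h' : LcIso ψ) : LcIso (φ ≫ ψ) := by
  intro L hL
  have h2 : (fun f : D ⟶ L => (φ ≫ ψ) ≫ f) = (fun g => φ ≫ g) ∘ (fun f : D ⟶ L => ψ ≫ f) := by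
    funext f
    simp
  rw [h2]
  exact (h L hL).comp (h' L hL)

lemma LcIso.of_isIso {A B : DerivedCategory (Sh X)} (φ : A ⟶ B) [IsIso φ] : LcIso φ := by
  intro L hL
  constructor
  · intro a b hab
    exact (cancel_epi φ).1 hab
  · intro b
    exact ⟨inv φ ≫ b, by simp⟩

/-- the shifted object -/
def unsh (L : DerivedCategory (Sh X)) (n : ℤ) : (L⟦-n⟧)⟦n⟧ ≅ L :=
  (shiftFunctorCompIsoId (DerivedCategory (Sh X)) (-n) n (by simp)).app L

lemma LcIso.shift {A B : DerivedCategory (Sh X)} {φ : A ⟶ B} (h : LcIso φ) (n : ℤ) :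
    LcIso (φ⟦n⟧') := by
  intro L hL
  have h1 := h (L⟦-n⟧) (hL.shift (-n))
  constructor
  · intro f g hfg
    obtain ⟨f', hf'⟩ := (shiftFunctor (DerivedCategory (Sh X)) n).map_surjective
      (f ≫ (unsh L n).inv)
    obtain ⟨g', hg'⟩ := (shiftFunctor (DerivedCategory (Sh X)) n).map_surjective
      (g ≫ (unsh L n).inv)
    have h2 : φ ≫ f' = φ ≫ g' := by
      apply (shiftFunctor (DerivedCategory (Sh X)) n).map_injective
      rw [Functor.map_comp, Functor.map_comp, hf', hg', ← Category.assoc, ← Category.assoc]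
      exact congrArg (fun ξ => ξ ≫ (unsh L n).inv) hfg
    have h3 := h1.1 h2
    rw [h3, hg'] at hf'
    exact ((cancel_mono _).1 hf').symm
  · intro f
    obtain ⟨f', hf'⟩ := (shiftFunctor (DerivedCategory (Sh X)) n).map_surjective
      (f ≫ (unsh L n).inv)
    obtain ⟨g', hg'⟩ := h1.2 f'
    refine ⟨g'⟦n⟧' ≫ (unsh L n).hom, ?_⟩
    change φ⟦n⟧' ≫ g'⟦n⟧' ≫ (unsh L n).hom = f
    rw [← Category.assoc, ← Functor.map_comp]
    have h4 : φ ≫ g' = f' := hg'
    rw [h4, hf', Category.assoc, Iso.inv_hom_id, Category.comp_id]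

lemma OZ.shift {Z : DerivedCategory (Sh X)} (h : OZ Z) (n : ℤ) : OZ (Z⟦n⟧) := by
  intro L hL f
  obtain ⟨f', hf'⟩ := (shiftFunctor (DerivedCategory (Sh X)) n).map_surjective
    (f ≫ (unsh L n).inv)
  rw [h _ (hL.shift (-n)) f', Functor.map_zero] at hf'
  rw [← cancel_mono (unsh L n).inv, ← hf', zero_comp]

/-- first morphism of a triangle with orthogonal third vertex -/
lemma LcIso.of_triangle {T : Triangle (DerivedCategory (Sh X))} (hT : T ∈ distTriang _)
    (h : OZ T.obj₃) : LcIso T.mor₁ := by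
  intro L hL
  constructor
  · intro f g hfg
    have h1 : T.mor₁ ≫ (f - g) = 0 := by
      rw [Preadditive.comp_sub]
      exact sub_eq_zero.2 hfg
    obtain ⟨u, hu⟩ := Triangle.yoneda_exact₂ _ hT (f - g) h1
    rw [h L hL u, comp_zero] at hu
    exact sub_eq_zero.1 hu
  · intro f
    have hT' := inv_rot_of_distTriang _ hT
    have h2 := (h.shift (-1)) L hL (T.invRotate.mor₁ ≫ f)
    obtain ⟨u, hu⟩ := Triangle.yoneda_exact₂ _ hT' f h2
    exact ⟨u, hu.symm⟩

/-- connecting morphism of a triangle with orthogonal second vertex -/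
lemma LcIso.of_triangle₃ {T : Triangle (DerivedCategory (Sh X))} (hT : T ∈ distTriang _)
    (h : OZ T.obj₂) : LcIso T.mor₃ := by
  have h1 := rot_of_distTriang _ (rot_of_distTriang _ hT)
  exact LcIso.of_triangle h1 (h.shift 1)

lemma OZ.of_ext [HasExt.{w} (Sh X)] {K : Sh X}
    (hK : ∀ A : Sh X, IsLocConst A → ∀ (n : ℕ) (e : Ext.{w} K A n), e = 0) {d : ℕ}
    (hd : ∀ (B : Sh X) (e : Ext.{w} K B d), e = 0) : OZ (sg K) :=
  fun L hL f => hom_zero_of_acyclic.{w, w} (fun A B e hA => IsLocConst.of_iso e hA)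
    (fun A hA => IsLocConst.of_isZero hA) hK hd hL f

lemma cohP_single {A : Sh X} (hA : IsLocConst A) : CohP IsLocConst (sg A) := by
  intro i
  by_cases hi : i = 0
  · subst hi
    exact hA.of_iso ((DerivedCategory.singleFunctorCompHomologyFunctorIso (Sh X) 0).app A).symm
  · rcases lt_or_gt_of_ne hi with hi | hi
    · exact IsLocConst.of_isZero (DerivedCategory.isZero_of_isGE _ 0 i hi)
    · exact IsLocConst.of_isZero (DerivedCategory.isZero_of_isLE _ 0 i hi)

end

end WS
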