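import Pool.Agent.helper18.WS.Core

open CategoryTheory TopologicalSpace Topology Limits Opposite

set_option backward.isDefEq.respectTransparency false
set_option backward.isDefEq.respectTransparency.types false
set_option linter.unusedVariables false
set_option linter.unusedSectionVars false

universe w

namespace WS

noncomputable section

variable {X : Type} [TopologicalSpace X]

lemma IsLocConstFin.of_iso {A B : Sh X} (e : A ≅ B) (hA : IsLocConstFin A) : IsLocConstFin B := by
  intro x
  obtain ⟨U, hU, V, _, _, _, f, hf⟩ := hA x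
  refine ⟨U, hU, V, inferInstance, inferInstance, inferInstance, (app e.hom U).comp f,
    fun y hy => ?_⟩
  have h1 : (fun v => germ B y hy (((app e.hom U).comp f) v)) =
      stk e.hom y ∘ (fun v => germ A y hy (f v)) := by
    funext v
    simp
  rw [h1]
  exact (stk_bijective_of_isIso e.hom y).comp (hf y hy)

lemma finOn_of_restrict {F : Sh X} {S : Set X} (hS : IsOpen S) (h : IsLocConstFin (restrictTo S F)) :
    FinOn F S := by
  have hemb : IsOpenEmbedding (incl S) := hS.isOpenEmbedding_subtypeVal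
  let G : Sh S := (hemb.sheafPullback (ModuleCat.{0} ℂ)).obj F
  have e : restrictTo S F ≅ G := (hemb.sheafPullbackIso (ModuleCat.{0} ℂ)).app F
  have hG : IsLocConstFin G := IsLocConstFin.of_iso e h
  -- sections of `G`
  intro y hy
  obtain ⟨U, hyU, V, _, _, _, f, hf⟩ := hG ⟨y, hy⟩
  let im : Opens S → Opens X := fun U => hemb.isOpenMap.functor.obj U
  have hmem_im : ∀ (U : Opens S) (z : S), z ∈ U → z.1 ∈ im U := fun U z hz => ⟨z, hz, rfl⟩
  have him : ∀ (U : Opens S) (z : X), z ∈ im U → ∃ h : z ∈ S, (⟨z, h⟩ : S) ∈ U := by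
    rintro U _ ⟨z, hz, rfl⟩
    exact ⟨z.2, hz⟩
  have hresG : ∀ {U V : Opens S} (h : V ≤ U) (s : Sec F (im U)),
      (res G h (s : Sec G U) : Sec F (im V)) = res F (fun z hz => by
        obtain ⟨h1, h2⟩ := him V z hz
        exact hmem_im U ⟨z, h1⟩ (h h2)) s := by
    intro U V h s
    rfl
  let b := Module.finBasis ℂ V
  refine ⟨im U, hmem_im U ⟨y, hy⟩ hyU, Fin (Module.finrank ℂ V), inferInstance,
    fun i => (f (b i) : Sec F (im U)), ?_⟩
  intro z hz hzS t
  obtain ⟨O, hOU, hzO, s, rfl⟩ := germ_surj_le F z t hz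
  obtain ⟨hzS', hzU⟩ := him U z hz
  -- the section `s` of `F` over `O` as a section of `G`
  let O' : Opens S := ⟨Subtype.val ⁻¹' (O : Set X), O.isOpen.preimage continuous_subtype_val⟩
  have hO' : im O' ≤ O := by
    intro w hw
    obtain ⟨h1, h2⟩ := him O' w hw
    exact h2
  have hzO' : (⟨z, hzS⟩ : S) ∈ O' := hzO
  let s' : Sec G O' := (res F hO' s : Sec F (im O'))
  obtain ⟨v, hv⟩ := (hf ⟨z, hzS⟩ hzU).2 (germ G ⟨z, hzS⟩ hzO' s')
  obtain ⟨W, hW, iU, iO, heq⟩ := germ_eq G ⟨z, hzS⟩ hzU hzO' (f v) s' hv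
  have hzW : z ∈ im W := hmem_im W ⟨z, hzS⟩ hW
  have hWU : im W ≤ im U := fun w hw => by
    obtain ⟨h1, h2⟩ := him W w hw
    exact hmem_im U ⟨w, h1⟩ (iU h2)
  have hWO : im W ≤ im O' := fun w hw => by
    obtain ⟨h1, h2⟩ := him W w hw
    exact hmem_im O' ⟨w, h1⟩ (iO h2)
  have heq' : res F hWU (f v : Sec F (im U)) = res F hWO (res F hO' s) := heq
  have h1 : germ F z hzO s = germ F z hz (f v : Sec F (im U)) := by
    rw [← germ_res F hWU z hzW, heq', germ_res, germ_res]
  rw [h1]
  -- expand `v`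
  have h2 : (f v : Sec F (im U)) = ∑ i, b.repr v i • (f (b i) : Sec F (im U)) := by
    conv_lhs => rw [← b.sum_repr v, map_sum]
    apply Finset.sum_congr rfl
    intro i _
    exact map_smul f _ _
  rw [h2, map_sum]
  apply Submodule.sum_mem
  intro i _
  rw [map_smul]
  exact Submodule.smul_mem _ _ (Submodule.subset_span ⟨i, rfl⟩)

end

end WS
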