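import Pool.Agent.helper18.WS.Analytic
import Pool.Agent.helper18.WS.PShriek

open TopologicalSpace Topology Set Filter
open scoped Manifold ContDiff

set_option linter.unusedVariables false
set_option linter.unusedSectionVars false

namespace WS

noncomputable section

section

variable {X N : Type} [TopologicalSpace X] [TopologicalSpace N]

/-- The preimage in a connected covering space of a dense open subset which is locally
connected at all points of `X` is connected. -/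
lemma conn_preimage [LocallyConnectedSpace X] {p : N → X} (hp : IsCoveringMap p)
    [PreconnectedSpace N] {U : Set X} (hU : IsOpen U) (hUd : Dense U)
    (hloc : ∀ y, ∀ O : Set X, IsOpen O → y ∈ O → ∃ V : Set X, IsOpen V ∧ y ∈ V ∧ V ⊆ O ∧
      IsPreconnected (V ∩ U)) : IsPreconnected (p ⁻¹' U) := by
  intro O₁ O₂ hO₁ hO₂ hcov ⟨m₁, hm₁U, hm₁⟩ ⟨m₂, hm₂U, hm₂⟩
  by_contra hempty
  rw [Set.not_nonempty_iff_eq_empty] at hempty
  have hdisj : ∀ m, p m ∈ U → m ∈ O₁ → m ∈ O₂ → False := by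
    intro m hm h1 h2
    have : m ∈ p ⁻¹' U ∩ (O₁ ∩ O₂) := ⟨hm, h1, h2⟩
    rw [hempty] at this
    exact this
  let A₁ : Set N := {n | ∀ᶠ n' in 𝓝 n, n' ∈ p ⁻¹' U → n' ∈ O₁}
  let A₂ : Set N := {n | ∀ᶠ n' in 𝓝 n, n' ∈ p ⁻¹' U → n' ∈ O₂}
  have hA₁ : IsOpen A₁ := by
    rw [isOpen_iff_mem_nhds]
    intro z hz
    exact eventually_eventually_nhds.2 hz
  have hA₂ : IsOpen A₂ := by
    rw [isOpen_iff_mem_nhds]
    intro z hz
    exact eventually_eventually_nhds.2 hz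
  have hAcov : A₁ ∪ A₂ = univ := by
    rw [eq_univ_iff_forall]
    intro n
    have hne : Nonempty (p ⁻¹' {p n}) := ⟨⟨n, rfl⟩⟩
    obtain ⟨U₀, hyU₀, -, hU₀c, s, idx, hps, hsc, hsi, his, hidx⟩ :=
      exists_sheets hp (p n) ⊤ trivial
    obtain ⟨V, hV, hyV, hVU₀, hVc⟩ := hloc (p n) (U₀ : Set X) U₀.isOpen hyU₀
    -- the sheet through `n`
    have himg : IsPreconnected (s (idx n) '' (V ∩ U)) :=
      hVc.image _ ((hsc (idx n)).mono (fun z hz => hVU₀ hz.1))
    have hsub : s (idx n) '' (V ∩ U) ⊆ p ⁻¹' U := by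
      rintro _ ⟨z, hz, rfl⟩
      change p (s (idx n) z) ∈ U
      rw [hps _ z (hVU₀ hz.1)]
      exact hz.2
    have hor : s (idx n) '' (V ∩ U) ⊆ O₁ ∨ s (idx n) '' (V ∩ U) ⊆ O₂ := by
      by_cases h1 : (s (idx n) '' (V ∩ U) ∩ O₁).Nonempty
      · left
        intro w hw
        rcases hcov (hsub hw) with h | h
        · exact h
        · exfalso
          obtain ⟨w', hw', hw'1, hw'2⟩ := himg O₁ O₂ hO₁ hO₂ (hsub.trans hcov) h1 ⟨w, hw, h⟩
          exact hdisj w' (hsub hw') hw'1 hw'2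
      · right
        intro w hw
        rcases hcov (hsub hw) with h | h
        · exact absurd ⟨w, hw, h⟩ h1
        · exact h
    have hev : ∀ᶠ n' in 𝓝 n, n' ∈ p ⁻¹' U → n' ∈ s (idx n) '' (V ∩ U) := by
      filter_upwards [hidx n hyU₀, (hV.preimage hp.continuous).mem_nhds hyV] with n' h1 h2 h3
      refine ⟨p n', ⟨h2, h3⟩, ?_⟩
      rw [← h1]
      exact hsi n' (hVU₀ h2)
    rcases hor with h | h
    · left
      change ∀ᶠ n' in 𝓝 n, n' ∈ p ⁻¹' U → n' ∈ O₁
      filter_upwards [hev] with n' h1 h2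
      exact h (h1 h2)
    · right
      change ∀ᶠ n' in 𝓝 n, n' ∈ p ⁻¹' U → n' ∈ O₂
      filter_upwards [hev] with n' h1 h2
      exact h (h1 h2)
  have hm₁A : m₁ ∈ A₁ := by
    change ∀ᶠ n' in 𝓝 m₁, n' ∈ p ⁻¹' U → n' ∈ O₁
    filter_upwards [hO₁.mem_nhds hm₁] with n' h _
    exact h
  have hm₂A : m₂ ∈ A₂ := by
    change ∀ᶠ n' in 𝓝 m₂, n' ∈ p ⁻¹' U → n' ∈ O₂
    filter_upwards [hO₂.mem_nhds hm₂] with n' h _
    exact h
  obtain ⟨n, -, hn1, hn2⟩ := (PreconnectedSpace.isPreconnected_univ (α := N)) A₁ A₂ hA₁ hA₂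
    (by rw [hAcov]) ⟨m₁, trivial, hm₁A⟩ ⟨m₂, trivial, hm₂A⟩
  -- density
  have hdense : Dense (p ⁻¹' U) := hUd.preimage hp.isOpenMap
  have hn1' : {n' | n' ∈ p ⁻¹' U → n' ∈ O₁} ∈ 𝓝 n := hn1
  have hn2' : {n' | n' ∈ p ⁻¹' U → n' ∈ O₂} ∈ 𝓝 n := hn2
  obtain ⟨n', hn'U, hn'⟩ := hdense.inter_nhds_nonempty (inter_mem hn1' hn2')
  exact hdisj n' hn'U (hn'.1 hn'U) (hn'.2 hn'U)

end

section

variable {E : Type} [NormedAddCommGroup E] [NormedSpace ℂ E]
  {M : Type} [TopologicalSpace M] [ChartedSpace E M] [IsManifold 𝓘(ℂ, E) 1 M]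

/-- One of the strata of an analytic stratification is open and dense, with analytic
complement. -/
lemma exists_open_stratum [ConnectedSpace M] [BaireSpace M] {ι : Type} [Countable ι]
    (S : ι → Set M) (hS : ⋃ i, S i = univ)
    (h : ∀ i, IsAnalyticSet E (closure (S i)) ∧ IsAnalyticSet E (closure (S i) \ S i)) :
    ∃ i, IsOpen (S i) ∧ Dense (S i) ∧ IsAnalyticSet E (S i)ᶜ := by
  obtain ⟨i, hi⟩ := nonempty_interior_of_iUnion_of_closed (f := fun i => closure (S i))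
    (fun i => isClosed_closure) (by
      rw [eq_univ_iff_forall]
      intro x
      have : x ∈ ⋃ i, S i := hS ▸ mem_univ x
      obtain ⟨i, hi⟩ := mem_iUnion.1 this
      exact mem_iUnion.2 ⟨i, subset_closure hi⟩)
  have h1 : closure (S i) = univ := (h i).1.eq_univ hi
  have h2 : IsAnalyticSet E (S i)ᶜ := by
    have := (h i).2
    rwa [h1, ← compl_eq_univ_sdiff] at this
  exact ⟨i, isClosed_compl_iff.1 h2.isClosed, dense_iff_closure_eq.2 h1, h2⟩

lemma conn_preimage_analytic [LocallyConnectedSpace M] {N : Type} [TopologicalSpace N]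
    {p : N → M} (hp : IsCoveringMap p)
    [PreconnectedSpace N] {U : Set M} (hU : IsOpen U) (hUd : Dense U)
    (hUa : IsAnalyticSet E Uᶜ) : IsPreconnected (p ⁻¹' U) := by
  apply conn_preimage hp hU hUd
  intro y O hO hy
  obtain ⟨V, hV, hyV, hVO, hVc⟩ := hUa.locally_conn y hO hy
  refine ⟨V, hV, hyV, hVO, ?_⟩
  rwa [sdiff_compl] at hVc

end

end

end WS
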