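import Pool.Agent.helper18.WS.Basic

open CategoryTheory TopologicalSpace Topology Limits Opposite

set_option backward.isDefEq.respectTransparency false
set_option backward.isDefEq.respectTransparency.types false
set_option linter.unusedVariables false

namespace WS

noncomputable section

variable {X : Type} [TopologicalSpace X]

/-- Sections of `F` over `U` whose germs vanish outside of `O`. -/
def TSec (O : Opens X) (F : Sh X) (U : Opens X) : Submodule ℂ (Sec F U) where
  carrier := {s | ∀ y (hy : y ∈ U), y ∉ O → germ F y hy s = 0}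
  add_mem' := by
    intro a b ha hb y hy hO
    rw [map_add, ha y hy hO, hb y hy hO, add_zero]
  zero_mem' := by
    intro y hy hO
    rw [map_zero]
  smul_mem' := by
    intro c a ha y hy hO
    rw [map_smul, ha y hy hO, smul_zero]

lemma TSec_res {O : Opens X} {F : Sh X} {U V : Opens X} (h : V ≤ U) (s : Sec F U)
    (hs : s ∈ TSec O F U) : res F h s ∈ TSec O F V := by
  intro y hy hO
  rw [germ_res]
  exact hs y (h hy) hO

/-- The presheaf underlying `T O F`. -/
def TPre (O : Opens X) (F : Sh X) : TopCat.Presheaf (ModuleCat.{0} ℂ) (TopCat.of X) where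
  obj U := ModuleCat.of ℂ (TSec O F U.unop)
  map i := ModuleCat.ofHom ((res F i.unop.le).restrict (fun s hs => TSec_res i.unop.le s hs))
  map_id U := by
    apply ModuleCat.hom_ext
    ext s
    exact res_self F le_rfl s.1
  map_comp i j := by
    apply ModuleCat.hom_ext
    ext s
    exact (res_res F i.unop.le j.unop.le s.1).symm

lemma TPre_isSheaf (O : Opens X) (F : Sh X) : (TPre O F).IsSheaf := by
  rw [TopCat.Presheaf.isSheaf_iff_isSheafUniqueGluing]
  intro ι U sf hsf
  let sf' : ∀ i, TSec O F (U i) := sf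
  have hcompat : TopCat.Presheaf.IsCompatible (X := TopCat.of X) F.1 U
      (fun i => (sf' i).1) := by
    intro i j
    exact congrArg Subtype.val (hsf i j)
  obtain ⟨s, hs, hu⟩ := TopCat.Sheaf.existsUnique_gluing (X := TopCat.of X) F U _ hcompat
  have hs' : ∀ i, res F (le_iSup U i) s = (sf' i).1 := hs
  refine ⟨(⟨s, ?_⟩ : TSec O F (iSup U)), ?_, ?_⟩
  · intro y hy hO
    obtain ⟨i, hi⟩ := Opens.mem_iSup.1 hy
    rw [← germ_res F (le_iSup U i) y hi, hs']
    exact (sf' i).2 y hi hO
  · intro i
    exact Subtype.ext (hs i)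
  · intro t ht
    apply Subtype.ext
    apply hu
    intro i
    exact congrArg Subtype.val (ht i)

/-- Extension by zero of the restriction of `F` to the open set `O`, as a subsheaf of `F`. -/
def TObj (O : Opens X) (F : Sh X) : Sh X := ⟨TPre O F, TPre_isSheaf O F⟩

/-- The inclusion `T O F ⟶ F`. -/
def Tι (O : Opens X) (F : Sh X) : TObj O F ⟶ F :=
  homMk (F := TObj O F) (G := F) (fun U => (TSec O F U).subtype) (fun h s => rfl)

lemma app_Tι {O : Opens X} {F : Sh X} {U : Opens X} (s : Sec (TObj O F) U) :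
    app (Tι O F) U s = (s : TSec O F U).1 := rfl

lemma app_Tι_injective {O : Opens X} {F : Sh X} {U : Opens X} :
    Function.Injective (app (Tι O F) U) := Subtype.val_injective

def TSecMk {O : Opens X} {F : Sh X} {U : Opens X} (s : Sec F U)
    (hs : ∀ y (hy : y ∈ U), y ∉ O → germ F y hy s = 0) : Sec (TObj O F) U :=
  (⟨s, hs⟩ : TSec O F U)

@[simp] lemma app_Tι_mk {O : Opens X} {F : Sh X} {U : Opens X} (s : Sec F U)
    (hs : ∀ y (hy : y ∈ U), y ∉ O → germ F y hy s = 0) :
    app (Tι O F) U (TSecMk s hs) = s := rfl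

lemma TSec_germ {O : Opens X} {F : Sh X} {U : Opens X} (s : Sec (TObj O F) U)
    (y : X) (hy : y ∈ U) (hO : y ∉ O) : germ F y hy (app (Tι O F) U s) = 0 :=
  (s : TSec O F U).2 y hy hO

lemma stk_Tι_injective {O : Opens X} {F : Sh X} (y : X) :
    Function.Injective (stk (Tι O F) y) := by
  rw [injective_iff_map_eq_zero]
  intro s hs
  obtain ⟨U, hy, t, rfl⟩ := germ_surj _ y s
  rw [stk_germ] at hs
  obtain ⟨W, hW, iU, e⟩ := germ_eq_same F y hy _ 0 (by rw [hs, map_zero])
  rw [← app_res, map_zero] at e
  have : res (TObj O F) iU t = 0 := app_Tι_injective (by rw [e, map_zero])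
  rw [← germ_res _ iU y hW, this, map_zero]

lemma stk_T_eq_zero {O : Opens X} {F : Sh X} (y : X) (hO : y ∉ O) (s : Stk (TObj O F) y) :
    s = 0 := by
  apply stk_Tι_injective
  obtain ⟨U, hy, t, rfl⟩ := germ_surj _ y s
  rw [stk_germ, TSec_germ _ _ _ hO, map_zero]

lemma stk_Tι_surjective {O : Opens X} {F : Sh X} (y : X) (hO : y ∈ O) :
    Function.Surjective (stk (Tι O F) y) := by
  intro s
  obtain ⟨U, hUO, hy, t, rfl⟩ := germ_surj_le F y s hO
  refine ⟨germ _ y hy (TSecMk t ?_), ?_⟩
  · intro z hz hzO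
    exact absurd (hUO hz) hzO
  · rw [stk_germ, app_Tι_mk]

lemma app_mem_TSec {O : Opens X} {F G : Sh X} (f : F ⟶ G) {U : Opens X} {s : Sec F U}
    (hs : s ∈ TSec O F U) : app f U s ∈ TSec O G U := by
  intro y hy hO
  rw [← stk_germ, hs y hy hO, map_zero]

def TMap (O : Opens X) {F G : Sh X} (f : F ⟶ G) : TObj O F ⟶ TObj O G :=
  homMk (F := TObj O F) (G := TObj O G)
    (fun U => (app f U).restrict (fun _ hs => app_mem_TSec f hs))
    (fun h s => Subtype.ext (app_res f h s.1))

/-- The functor `T O`. -/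
def T (O : Opens X) : Sh X ⥤ Sh X where
  obj F := TObj O F
  map f := TMap O f
  map_id F := hom_ext_app (fun _ _ => rfl)
  map_comp f g := hom_ext_app (fun _ _ => rfl)

/-- The natural transformation `T O ⟶ 𝟭`. -/
def TιNat (O : Opens X) : T O ⟶ 𝟭 (Sh X) where
  app F := Tι O F
  naturality F G f := hom_ext_app (fun _ _ => rfl)

instance (O : Opens X) : (T O).Additive where
  map_add {F G f g} := hom_ext_app (fun _ _ => rfl)

lemma TMap_ι {O : Opens X} {F G : Sh X} (f : F ⟶ G) :
    TMap O f ≫ Tι O G = Tι O F ≫ f := hom_ext_app (fun _ _ => rfl)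

lemma app_TMap_ι {O : Opens X} {F G : Sh X} (f : F ⟶ G) {U : Opens X} (s : Sec (TObj O F) U) :
    app (Tι O G) U (app (TMap O f) U s) = app f U (app (Tι O F) U s) := rfl

lemma T_map_shortExact' (O : Opens X) {S : ShortComplex (Sh X)} (hS : S.ShortExact) :
    (ShortComplex.mk (TMap O S.f) (TMap O S.g) (by
      have := congrArg (T O).map S.zero
      rw [Functor.map_comp, Functor.map_zero] at this
      exact this)).ShortExact := by
  have hmono := hS.mono_f
  have hepi := hS.epi_g
  have hinj : ∀ U (s : Sec S.X₁ U), app S.f U s = 0 → s = 0 := by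
    intro U s hs
    apply sec_ext
    intro y hy
    have : Mono ((TopCat.Presheaf.stalkFunctor (X := TopCat.of X) (ModuleCat.{0} ℂ) y).map S.f.hom) :=
      TopCat.Presheaf.stalk_mono_of_mono (X := TopCat.of X) S.f y
    have h2 : Function.Injective (stk S.f y) := (ModuleCat.mono_iff_injective _).1 this
    apply h2
    rw [stk_germ, hs, map_zero, map_zero, map_zero]
  have hex : ∀ y (s : Stk S.X₂ y), stk S.g y s = 0 → ∃ t, stk S.f y t = s := by
    intro y s hs
    have := (TopCat.Sheaf.exact_iff_stalkFunctor_map_exact (X := TopCat.of X) S).1 hS.exact y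
    rw [ShortComplex.moduleCat_exact_iff] at this
    exact this s hs
  apply shortExact_mk (TMap O S.f) (TMap O S.g)
  · intro U s hs
    apply app_Tι_injective
    apply hinj
    have := congrArg (app (Tι O S.X₂) U) hs
    rw [app_TMap_ι, map_zero] at this
    exact this
  · intro U s hs
    have hs' : app S.g U (app (Tι O _) U s) = 0 := by
      have := congrArg (app (Tι O S.X₃) U) hs
      rw [app_TMap_ι, map_zero] at this
      exact this
    -- choose germs
    have key : ∀ y : X, ∃ a : Stk S.X₁ y, ∀ hy : y ∈ U,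
        stk S.f y a = germ _ y hy (app (Tι O _) U s) := by
      intro y
      by_cases hy : y ∈ U
      · obtain ⟨t, ht⟩ := hex y (germ _ y hy (app (Tι O _) U s)) (by rw [stk_germ, hs', map_zero])
        exact ⟨t, fun _ => ht⟩
      · exact ⟨0, fun h => absurd h hy⟩
    choose a ha using key
    have stinj : ∀ y, Function.Injective (stk S.f y) := by
      intro y
      have : Mono ((TopCat.Presheaf.stalkFunctor (X := TopCat.of X) (ModuleCat.{0} ℂ) y).map S.f.hom) :=
        TopCat.Presheaf.stalk_mono_of_mono (X := TopCat.of X) S.f y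
      exact (ModuleCat.mono_iff_injective _).1 this
    obtain ⟨t, ht⟩ := glue S.X₁ U a (by
      intro y hy
      obtain ⟨V, hVU, hV, t, ht⟩ := germ_surj_le S.X₁ y (a y) hy
      have h1 : germ S.X₂ y hV (app S.f V t) = germ S.X₂ y hy (app (Tι O _) U s) := by
        rw [← stk_germ, ht, ha y hy]
      obtain ⟨W, hW, iV, iU, e⟩ := germ_eq _ y hV hy _ _ h1
      refine ⟨W, hW, iU, res _ iV t, fun z hz => ?_⟩
      apply stinj
      rw [stk_germ, app_res, e, germ_res, ha z (iU hz)])
    have hft : app S.f U t = app (Tι O _) U s := by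
      apply sec_ext
      intro y hy
      rw [← stk_germ, ht, ha y hy]
    refine ⟨TSecMk t ?_, ?_⟩
    · intro y hy hO
      apply stinj
      rw [stk_germ, hft, TSec_germ _ _ _ hO, map_zero]
    · apply app_Tι_injective
      rw [app_TMap_ι, app_Tι_mk, hft]
  · intro U s y hy
    by_cases hO : y ∈ O
    · have hls := (TopCat.Sheaf.isLocallySurjective_iff_epi (X := TopCat.of X) S.g).2 hepi
      rw [TopCat.Presheaf.isLocallySurjective_iff] at hls
      obtain ⟨V, hVU, ⟨t, ht⟩, hV⟩ := hls U (app (Tι O _) U s) y hy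
      have ht' : app S.g V t = res _ hVU (app (Tι O _) U s) := ht
      refine ⟨V ⊓ O, ⟨hV, hO⟩, inf_le_left.trans hVU, TSecMk (res _ inf_le_left t) ?_, ?_⟩
      · intro z hz hzO
        exact absurd hz.2 hzO
      · apply app_Tι_injective
        rw [app_TMap_ι, app_Tι_mk, app_res, ht', res_res, app_res]
    · obtain ⟨W, hW, iU, e⟩ := germ_eq_same _ y hy (app (Tι O _) U s) 0
        (by rw [TSec_germ _ _ _ hO, map_zero])
      refine ⟨W, hW, iU, 0, ?_⟩
      apply app_Tι_injective
      rw [map_zero, map_zero, app_res, e, map_zero]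

lemma T_map_shortExact (O : Opens X) {S : ShortComplex (Sh X)} (hS : S.ShortExact) :
    (S.map (T O)).ShortExact := T_map_shortExact' O hS

lemma T_exact (O : Opens X) : PreservesFiniteLimits (T O) ∧ PreservesFiniteColimits (T O) :=
  ((T O).exact_tfae.out 0 3 rfl rfl).1 (fun _ hS => T_map_shortExact O hS)

instance (O : Opens X) : PreservesFiniteLimits (T O) := (T_exact O).1

instance (O : Opens X) : PreservesFiniteColimits (T O) := (T_exact O).2

end

end WS
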